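import Pool.Agent.P.MP_9344a7_nt.Hy.Iface
import Pool.Agent.P.MP_9344a7_nt.Lwm

/-! Steps FIB, NU1, NU2, HD, PCK, PA. -/

set_option linter.unusedSectionVars false
set_option linter.unusedVariables false

namespace Pool.Agent.P.MP_9344a7_nt.Hy

open Polynomial Finset
open Pool.Agent.P.MP_6f117a_ag (Place FF)
open Pool.Agent.P.MP_ab3ecb_nt.Inv (Dv deg SA LS)
open Pool.Agent.P.MP_9344a7_nt.R
open Pool.Agent.P.MP_9344a7_nt.CoreC (cc)
open scoped Classical ComplexConjugate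

section

section

open Pool.Agent.P.MP_ab3ecb_nt.Inv (mem_LS mem_LS' dv dv_apply ord ord_of_v lt_one_iff ev_spec)
open WithZero (exp exp_zero exp_lt_exp exp_le_exp exp_add)

variable {k E : Type} [Field k] [Field E] [Algebra k E] [IsAlgClosed k] [FF k E]

lemma fib_sub {D : Dv k E} (h : 0 ≤ D) {z : E} (hz : z ∈ LS D) (c : k) :
    z - algebraMap k E c ∈ LS D :=
  sub_mem hz (mem_LS.2 fun P => (P.triv c).trans (by rw [← exp_zero, exp_le_exp]; exact h P))

lemma fib_fac (f : k[X]) (x : E) (a : k) : ∃ p : k[X],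
    aeval x f - algebraMap k E (f.eval a) = (x - algebraMap k E a) * aeval x p := by
  obtain ⟨p, hp⟩ := X_sub_C_dvd_sub_C_eval (p := f) (a := a)
  exact ⟨p, by simpa using congrArg (aeval x) hp⟩

lemma fib_pole {P : Place k E} {x : E} {n : ℤ} (h : 0 < n) (e : P.v x = exp n) (a : k) :
    P.v (x - algebraMap k E a) = exp n := by
  rw [← e]
  refine P.v.map_sub_eq_of_lt_left ((P.triv a).trans_lt ?_)
  rwa [e, ← exp_zero, exp_lt_exp]

end

open Pool.Agent.P.MP_ab3ecb_nt.Inv (mem_LS mem_LS' dv dv_apply ord ord_of_v lt_one_iff ev_spec) in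
open WithZero (exp exp_zero exp_lt_exp exp_le_exp exp_add) in
theorem p_FIB (hLG : S_LG) :
    S_FIB := by
  intro k E _ _ _ _ _ K H g ι D f x y h2 gb hg hy md
  obtain ⟨l1, l2, -⟩ := hLG k E K H g ι D x gb hg hy md.eff md.cl md.hx md.tr
  have eff' : ∀ m : ℕ, 0 ≤ m • D := fun m => nsmul_nonneg md.eff m
  have rx : ∀ P, D P = 0 → P.v x ≤ 1 := fun P h => by simpa [h] using mem_LS.1 md.hx P
  have ry : ∀ P, D P = 0 → P.v y ≤ 1 := fun P h => by simpa [h] using mem_LS.1 md.hy P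
  have u0 : ∀ a, x - algebraMap k E a ≠ 0 := fun a e =>
    md.tr (sub_eq_zero.1 e ▸ isAlgebraic_algebraMap a)
  have z0 : ∀ a (P : Place k E), P.v (x - algebraMap k E a) < 1 → D P = 0 := fun a P h =>
    ((md.eff P).eq_or_lt.resolve_right fun p => by
      rw [fib_pole p (l1 P p), ← exp_zero, exp_lt_exp] at h
      exact lt_asymm p h).symm
  have sq : ∀ a b : k, b ^ 2 = f.eval a → ∃ p : k[X],
      (y - algebraMap k E b) * (y + algebraMap k E b) = (x - algebraMap k E a) * aeval x p :=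
    fun a b e => by
      obtain ⟨p, hp⟩ := fib_fac f x a
      exact ⟨p, by rw [← hp, ← e, ← md.eq, map_pow]; ring⟩
  have zs : ∀ a, ∃ P, ∀ Q : Place k E, Q.v (x - algebraMap k E a) < 1 ↔ Q = P ∨ Q = ι P := by
    intro a
    obtain ⟨A, hA⟩ : ∃ A, A = dv k (x - algebraMap k E a) + D := ⟨_, rfl⟩
    have A0 : 0 ≤ A := hA ▸ (mem_LS' (u0 a)).1 (fib_sub md.eff md.hx a)
    have Ac : (A : Pic k E) = H := md.cl ▸ mk_eq.2 ⟨_, u0 a, by rw [hA]; simp⟩
    obtain ⟨P, hP⟩ := Finsupp.support_nonempty_iff.2 fun e : A = 0 => by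
      have := hy.mul 1 (by omega)
      rw [one_nsmul, ← Ac, e] at this
      exact absurd (ll_zero.symm.trans this) (by omega)
    have B0 : 0 ≤ A - pt P := sub_nonneg.2 fun Q => by
      rw [Finsupp.single_apply]
      split_ifs with e
      · exact e ▸ lt_of_le_of_ne (A0 P) (Finsupp.mem_support_iff.1 hP).symm
      · exact A0 Q
    have Be := eff_unique ((ll_mk (pt (ι P))).symm.trans (gb.one (ι P)))
      (Finsupp.single_nonneg.2 zero_le_one) B0 (mk_eq.1 (by
        rw [QuotientAddGroup.mk_sub, Ac, ← hy.cj P]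
        exact add_sub_cancel_left _ _))
    refine ⟨P, fun Q => ?_⟩
    have e1 : A Q = pt P Q + pt (ι P) Q := by
      rw [← Be]; simp
    have e2 : A Q = ord Q (x - algebraMap k E a) + D Q := by rw [hA]; simp
    have e3 : 0 < A Q ↔ Q = P ∨ Q = ι P := by
      rw [e1, Finsupp.single_apply, Finsupp.single_apply, @eq_comm _ Q P, @eq_comm _ Q (ι P)]
      split_ifs <;> simp [*]
    rw [← e3, e2]
    refine ⟨fun h => by rw [z0 a Q h, add_zero]; exact (lt_one_iff (u0 a)).1 h, fun h => ?_⟩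
    rcases (md.eff Q).eq_or_lt with p | p
    · rw [lt_one_iff (u0 a)]
      have : D Q = 0 := p.symm
      omega
    · rw [ord_of_v (fib_pole p (l1 Q p) a)] at h
      omega
  have no : ∀ a b : k, b ^ 2 = f.eval a → b ≠ 0 → ∃ Q : Place k E,
      Q.v (x - algebraMap k E a) < 1 ∧ ¬ Q.v (y - algebraMap k E b) < 1 ∧
        Q.v (y + algebraMap k E b) < 1 := by
    intro a b e b0
    obtain ⟨p, hp⟩ := sq a b e
    have : ∃ Q : Place k E, Q.v (x - algebraMap k E a) < 1 ∧ ¬ Q.v (y - algebraMap k E b) < 1 := by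
      by_contra n
      push Not at n
      have hw := mem_LS.1 (fib_sub (eff' _) md.hy b)
      have : (y - algebraMap k E b) / (x - algebraMap k E a) ∈ LS (g • D) := mem_LS.2 fun Q => by
        rw [map_div₀, div_le_iff₀ (zero_lt_iff.2 ((map_ne_zero Q.v).2 (u0 a)))]
        rcases (md.eff Q).eq_or_lt with d | d
        · have d : D Q = 0 := d.symm
          rw [Finsupp.smul_apply, d, smul_zero, exp_zero, one_mul]
          rcases (mem_LS.1 (fib_sub md.eff md.hx a) Q).eq_or_lt with t | t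
          · rw [t, d]
            simpa [d] using hw Q
          · rw [d, exp_zero] at t
            have c : Q.v (y + algebraMap k E b) = 1 := by
              have c2 := Q.v_const (mul_ne_zero h2 b0)
              rw [← c2, show y + algebraMap k E b =
                y - algebraMap k E b + algebraMap k E (2 * b) by rw [map_mul, map_ofNat]; ring]
              exact Q.v.map_add_eq_of_lt_right (c2 ▸ n Q t)
            have := congrArg Q.v hp
            rw [map_mul, map_mul, c, mul_one] at this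
            rw [this]
            exact mul_le_of_le_one_right' (Q.v_aeval (rx Q d) p)
        · rw [fib_pole d (l1 Q d), ← exp_add]
          simpa [add_smul, add_mul] using hw Q
      obtain ⟨r, -, hr⟩ := l2 g le_rfl _ this
      refine md.ind (C b + r * (X - C a)) ?_
      rw [div_eq_iff (u0 a)] at hr
      simp only [map_add, map_mul, map_sub, aeval_C, aeval_X]
      linear_combination hr
    obtain ⟨Q, q1, q2⟩ := this
    refine ⟨Q, q1, q2, ?_⟩
    have := congrArg Q.v hp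
    rw [map_mul, map_mul, le_antisymm (Q.v.map_sub_le (ry Q (z0 a Q q1)) (Q.triv b)) (not_lt.1 q2),
      one_mul] at this
    rw [this]
    exact (mul_le_of_le_one_right' (Q.v_aeval (rx Q (z0 a Q q1)) p)).trans_lt q1
  refine ⟨fun P hP => ?_, fun a => (zs a).imp fun P h Q q => (h Q).1 q, fun a b e b0 => ?_⟩
  · have d := Finsupp.notMem_support_iff.1 hP
    have ea := ev_spec (rx P d)
    have eb := ev_spec (ry P d)
    refine ⟨_, _, ?_, ea, eb⟩
    generalize MP_ab3ecb_nt.Inv.ev P x = a at *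
    generalize MP_ab3ecb_nt.Inv.ev P y = b at *
    obtain ⟨p, hp⟩ := fib_fac f x a
    by_contra n
    have c := P.v_const (sub_ne_zero.2 n)
    rw [show algebraMap k E (b ^ 2 - f.eval a) = (x - algebraMap k E a) * aeval x p -
      (y - algebraMap k E b) * (y + algebraMap k E b) by
        rw [← hp, ← md.eq, map_sub, map_pow]; ring] at c
    refine (P.v.map_sub_lt ?_ ?_).ne c <;> rw [map_mul]
    · exact (mul_le_of_le_one_right' (P.v_aeval (rx P d) p)).trans_lt ea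
    · exact (mul_le_of_le_one_right' (P.v.map_add_le (ry P d) (P.triv b))).trans_lt eb
  · obtain ⟨P, hP⟩ := zs a
    obtain ⟨Q1, a1, -, a3⟩ := no a b e b0
    obtain ⟨Q2, b1, b2, b3⟩ := no a (-b) (by rw [neg_sq, e]) (neg_ne_zero.2 b0)
    rw [map_neg, sub_neg_eq_add] at b2
    rw [map_neg, ← sub_eq_add_neg] at b3
    have ne : Q1 ≠ Q2 := fun h => b2 (h ▸ a3)
    have : ι Q2 = Q1 ∧ ∀ Q, Q = P ∨ Q = ι P → Q = Q2 ∨ Q = ι Q2 := by
      rcases (hP Q1).1 a1 with rfl | rfl <;> rcases (hP Q2).1 b1 with rfl | rfl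
      · exact absurd rfl ne
      · exact ⟨hy.inv _, fun Q h => by rw [hy.inv]; exact h.symm⟩
      · exact ⟨rfl, fun Q h => h⟩
      · exact absurd rfl ne
    exact ⟨Q2, b1, b3, this.1 ▸ a1, this.1 ▸ a3, fun Q q => this.2 Q ((hP Q).1 q)⟩

end

section

lemma nu1_uq {k E : Type} [Field k] [Field E] [Algebra k E] (P : Place k E) {z : E} {a b : k}
    (h : P.v (z - algebraMap k E a) < 1) (h' : P.v (z - algebraMap k E b) < 1) : a = b := by
  by_contra c
  have := P.v.map_sub_lt h' h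
  rw [sub_sub_sub_cancel_left, ← map_sub, P.v_const (sub_ne_zero.2 c)] at this
  exact this.false

lemma nu1_it {k E : Type} [Field k] [Field E] [Algebra k E] {σ : SA k E} {Q : ℕ}
    (h : ∀ c, σ.s0 c = c ^ Q) {z : E} (hz : σ.s z = z) {P : Place k E} {a : k}
    (e : P.v (z - algebraMap k E a) < 1) :
    ∀ m, (σ.pl^[m] P).v (z - algebraMap k E (a ^ Q ^ m)) < 1
  | 0 => by simpa using e
  | m + 1 => by
    rw [Function.iterate_succ_apply', pow_succ, pow_mul, ← h, ← σ.h, ← hz, ← map_sub, σ.pl_v]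
    exact nu1_it h hz e m

theorem p_NU1 (hMDL : S_MDL) (hSQF : S_SQF) (hFIB : S_FIB) :
    S_NU1 := by
  intro g hg
  obtain ⟨p0, hP⟩ := Pool.Agent.P.MP_9344a7_nt.Lwm.lw_sq (2 * g + 2) 3
  refine ⟨p0 + 2, fun F E _ _ _ _ _ K H ι σ hp hG hH hF hφ m hm => ?_⟩
  have two : (2 : F) ≠ 0 := Ring.two_ne_zero (by omega)
  have two' : (2 : AlgebraicClosure F) ≠ 0 := by
    simpa only [map_ofNat] using (_root_.map_ne_zero (algebraMap F (AlgebraicClosure F))).2 two
  obtain ⟨D, f, x, y, hM, hx, hy, hd⟩ := hMDL F E K H g ι σ two hG hg hH hF.fr hφ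
  obtain ⟨s1, s2⟩ := hSQF _ E K H g ι D _ x y hG hg hH hM
  obtain ⟨-, -, h3⟩ := hFIB _ E K H g ι D _ x y two' hG hg hH hM
  have : Fact (ringChar F).Prime := ⟨CharP.char_is_prime F _⟩
  have : NeZero m := ⟨hm⟩
  let κ := FiniteField.Extension F (ringChar F) m
  let φ : κ →ₐ[F] AlgebraicClosure F := IsAlgClosed.lift
  have := Fintype.ofFinite κ
  have hc : Nat.card κ = Fintype.card F ^ m := by
    rw [FiniteField.natCard_extension, Nat.card_eq_fintype_card]
  have h1 := hP κ (f.map (algebraMap F κ)) 1 (by rw [← Algebra.ringChar_eq F κ]; omega)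
    ((separable_map _).1 (PerfectField.separable_iff_squarefree.2 s1)).map.squarefree
    (by rwa [natDegree_map] at s2 ⊢) (by rwa [natDegree_map]) one_ne_zero
  set S := {a : κ | ∃ b, b ≠ 0 ∧ b ^ 2 = 1 * (f.map (algebraMap F κ)).eval a}
  have fix : ∀ a : κ, φ a ^ Fintype.card F ^ m = φ a := fun a => by
    rw [← map_pow, ← hc, Nat.card_eq_fintype_card, FiniteField.pow_card]
  have ex : ∀ a : S, ∃ P : Bool → Place (AlgebraicClosure F) E, P true ≠ P false ∧ ∀ s,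
      (P s).v (x - algebraMap _ E (φ a)) < 1 ∧ P s ∈ {P ∈ fx σ m | ι P ≠ P} := by
    rintro ⟨a, b, b0, e⟩
    have b1 : φ b ≠ 0 := (_root_.map_ne_zero φ).2 b0
    obtain ⟨P, a1, a2, a3, a4, a5⟩ := h3 (φ a) (φ b) (by
      rw [← map_pow, e, one_mul, eval_map_algebraMap, eval_map_algebraMap, aeval_algHom_apply]) b1
    rw [← sub_neg_eq_add, ← map_neg, ← map_neg] at a4
    have ne : φ b ≠ φ (-b) := fun c => mul_ne_zero two' b1 (by
      rw [map_neg] at c; linear_combination c)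
    have n1 : ι P ≠ P := fun c => ne (nu1_uq P a2 (c ▸ a4))
    have i1 := fun {z} hz {P} {c : κ} e => fix c ▸ nu1_it (z := z) (P := P) hF.fr.2.2 hz e m
    refine ⟨fun s => if s then P else ι P, n1.symm, fun s => ?_⟩
    cases s
    · exact ⟨a3, mem_filter.2 ⟨(hF.fx m hm _).2 ((a5 _ (i1 hx a3)).resolve_left fun c =>
        ne (nu1_uq P a2 (c ▸ i1 hy a4))), by simpa [hH.inv] using n1.symm⟩⟩
    · exact ⟨a1, mem_filter.2 ⟨(hF.fx m hm _).2 ((a5 _ (i1 hx a1)).resolve_right fun c =>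
        ne (nu1_uq (ι P) (c ▸ i1 hy a2) a4)), n1⟩⟩
  choose P p1 p2 using ex
  have h5 := Nat.card_le_card_of_injective (β := ↥{P ∈ fx σ m | ι P ≠ P})
    (fun s : S × Bool => ⟨P s.1 s.2, (p2 _ _).2⟩) (by
      rintro ⟨a, s⟩ ⟨b, t⟩ h
      have h' : P a s = P b t := congrArg Subtype.val h
      obtain rfl : a = b :=
        Subtype.ext (φ.injective (nu1_uq (P b t) (h' ▸ (p2 a s).1) (p2 b t).1))
      cases s <;> cases t
      exacts [rfl, (p1 a h'.symm).elim, (p1 a h').elim, rfl])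
  rw [Nat.card_prod, Nat.card_coe_set_eq, Nat.card_eq_finsetCard] at h5
  simp only [Nat.card_eq_fintype_card, Fintype.card_bool] at h5
  omega

end

section

lemma nu2_range {F : Type} [Field F] [Fintype F] {c : AlgebraicClosure F}
    (h : c ^ Fintype.card F = c) : ∃ a, algebraMap F (AlgebraicClosure F) a = c := by
  have h1 := FiniteField.X_pow_card_sub_X_ne_zero (AlgebraicClosure F)
    (Fintype.one_lt_card (α := F))
  have h2 : c ∈ (X ^ Fintype.card F - X : (AlgebraicClosure F)[X]).roots :=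
    (mem_roots h1).2 (by simp [h])
  have h3 : (X ^ Fintype.card F - X : (AlgebraicClosure F)[X]) =
      (X ^ Fintype.card F - X : F[X]).map (algebraMap F _) := by simp
  rw [h3, ← roots_map_of_injective_of_card_eq_natDegree (algebraMap F _).injective (by
    rw [FiniteField.roots_X_pow_card_sub_X,
      FiniteField.X_pow_card_sub_X_natDegree_eq F Fintype.one_lt_card]
    rfl)] at h2
  obtain ⟨a, -, rfl⟩ := Multiset.mem_map.1 h2
  exact ⟨a, rfl⟩

lemma nu2_fix {F E : Type} [Field F] [Fintype F] [Field E] [Algebra (AlgebraicClosure F) E]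
    [FF (AlgebraicClosure F) E] {σ : SA (AlgebraicClosure F) E} (h : Fr σ (Fintype.card F))
    {P : Place (AlgebraicClosure F) E} (hP : σ.pl P = P) {x : E} (hx : σ.s x = x)
    {a : AlgebraicClosure F} (ha : P.v (x - algebraMap _ E a) < 1) :
    ∃ a', algebraMap F (AlgebraicClosure F) a' = a := by
  have h1 := σ.ev_pl P x
  rw [hP, hx, MP_ab3ecb_nt.Inv.ev_eq ha, h.2.2] at h1
  exact nu2_range h1.symm

theorem p_NU2 (hLG : S_LG) (hMDL : S_MDL) (hSQF : S_SQF) (hFIB : S_FIB) :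
    S_NU2 := by
  intro g hg
  obtain ⟨p0, hP⟩ := Pool.Agent.P.MP_9344a7_nt.Lwm.lw_sq (2 * g + 2) 3
  refine ⟨p0 + 2, fun F E _ _ _ _ _ K H ι σ hp hK hH hσ hσH => ?_⟩
  have hc : ringChar F ≠ 2 := by omega
  have h2 : (2 : F) ≠ 0 := Ring.two_ne_zero hc
  have h2' : (2 : AlgebraicClosure F) ≠ 0 := by
    rw [← map_ofNat (algebraMap F (AlgebraicClosure F))]
    exact (_root_.map_ne_zero _).2 h2
  obtain ⟨ε, hε⟩ := FiniteField.exists_nonsquare hc
  have ε0 : ε ≠ 0 := by rintro rfl; exact hε IsSquare.zero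
  obtain ⟨D, f, x, y, hM, hx, hy, hd⟩ := hMDL F E K H g ι σ h2 hK hg hH hσ.fr hσH
  obtain ⟨hs, hn⟩ := hSQF _ E K H g ι D _ x y hK hg hH hM
  obtain ⟨f1, f2, -⟩ := hFIB _ E K H g ι D _ x y h2' hK hg hH hM
  rw [natDegree_map] at hn
  have hs' : Squarefree f := fun u hu => by
    have := hs (u.map (algebraMap F _)) (by rw [← Polynomial.map_mul]; exact Polynomial.map_dvd _ hu)
    rwa [isUnit_map] at this
  have h3 := hP F f ε (by omega) hs' hn hd ε0
  rw [Nat.card_eq_fintype_card, Set.ncard_eq_toFinset_card'] at h3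
  set S := {a : F | ∃ b, b ≠ 0 ∧ b ^ 2 = ε * f.eval a}.toFinset with hS
  choose R hR using f2
  have hD : #D.support ≤ 2 := by
    have e : deg D = 2 := by
      rw [← dg_mk, hM.cl, ← hH.cj (R 0), map_add, dg_cls, dg_cls]
      rfl
    have h4 : ∑ _P ∈ D.support, (1 : ℤ) ≤ ∑ P ∈ D.support, D P := sum_le_sum fun P hP => by
      have a1 : 0 ≤ D P := hM.eff P
      have a2 := Finsupp.mem_support_iff.1 hP
      omega
    rw [← MP_ab3ecb_nt.Inv.deg_eq, e, sum_const, nsmul_eq_mul, mul_one] at h4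
    exact_mod_cast h4
  have hsub : fx σ 1 ⊆ D.support ∪ Sᶜ.biUnion fun a =>
      {R (algebraMap F _ a), ι (R (algebraMap F _ a))} := fun P hP => by
    have hP' : σ.pl P = P := (hσ.fx 1 one_ne_zero P).1 hP
    by_cases h : P ∈ D.support
    · exact mem_union_left _ h
    obtain ⟨a, b, e, ha, hb⟩ := f1 P h
    obtain ⟨a, rfl⟩ := nu2_fix hσ.fr hP' hx ha
    obtain ⟨b, rfl⟩ := nu2_fix hσ.fr hP' hy hb
    rw [eval_map_algebraMap, aeval_algebraMap_apply, ← map_pow, coe_aeval_eq_eval] at e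
    have e1 := (algebraMap F (AlgebraicClosure F)).injective e
    refine mem_union_right _ (mem_biUnion.2 ⟨a, mem_compl.2 fun h5 => ?_, ?_⟩)
    · obtain ⟨c, c0, e2⟩ := Set.mem_toFinset.1 h5
      have b0 : b ≠ 0 := fun h6 => c0 (by simpa [← e1, h6] using e2)
      exact hε ⟨c / b, by field_simp; rw [e2, e1]⟩
    · simpa using hR _ P ha
  have h5 := (card_le_card hsub).trans ((card_union_le _ _).trans
    (add_le_add hD (card_biUnion_le_card_mul _ _ 2 fun _ _ => card_le_two)))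
  have h6 := card_add_card_compl S
  omega

end

section

theorem p_HD (hHY : S_HY) (hHD1 : S_HD1) (hHD2 : S_HD2) (hHD3 : S_HD3) (hNU1 : S_NU1) :
    S_HD := by
  intro n hn
  obtain ⟨c2, h2⟩ := hHD2 n
  obtain ⟨c3, q0, h3⟩ := hHD3 n hn
  obtain ⟨p1, h4⟩ := hNU1 (n + 1) (by omega)
  refine ⟨c2 + c3, q0 + p1, fun F E _ _ _ _ _ K H e σ Λ _ hp hG hF hL hH hd hl => ?_⟩
  obtain ⟨ι, hι⟩ := hHY _ _ K H (n + 1) hG (by omega) hd hl
  have hq : ringChar F ≤ Fintype.card F :=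
    Nat.le_of_dvd Fintype.card_pos ((ringChar.spec F _).1 (FiniteField.cast_card_eq_zero F))
  let κ : J σ := ⟨H - 2 • e, mem_J.2 ⟨by rw [map_sub, map_nsmul, hH, hL.e1],
    by simp [hd, hL.e2]⟩⟩
  have hκ : κ.1 = H - 2 • e := rfl
  obtain ⟨-, a2, a3, a4, a5, a6⟩ := hHD1 _ _ K H e n ι σ _ Λ κ hG (by omega) hF hL hι hκ
  obtain ⟨b1, b2, b3⟩ := h2 _ _ K H e ι σ _ Λ κ hG (by omega) hF hL hι hκ
  have h5 := h4 F E K H ι σ (by omega) hG hι hF hH n (by omega)
  obtain ⟨T, t1, t2, t3⟩ := h3 _ _ K H e ι σ _ Λ κ (by omega) hG hF hL hι hκ (by omega)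
  have m1 : ∀ x : ℕ, c2 * x ≤ (c2 + c3) * x := fun x => Nat.mul_le_mul_right _ (by omega)
  have m2 : ∀ x : ℕ, c3 * x ≤ (c2 + c3) * x := fun x => Nat.mul_le_mul_right _ (by omega)
  have m3 : ∀ j : ℕ, (c2 : ℤ) * (Fintype.card F : ℤ) ^ j ≤
      ((c2 + c3 : ℕ) : ℤ) * (Fintype.card F : ℤ) ^ j := fun j => by exact_mod_cast m1 _
  exact ⟨b1.trans (m1 _), κ, a2, fun j _ => a3 j, fun j hj => (b2 j hj).trans (m3 j),
    fun j hj b hb => (b3 j hj b hb).trans (m3 j), a4, a5, a6, T, t1.trans (m2 _), t2,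
    fun j h0 hj a ha => (t3 j h0 hj a ha).trans (m2 _)⟩

end

section

lemma pck_hyp {k E : Type} [Field k] [Field E] [Algebra k E] [IsAlgClosed k] [FF k E]
    {K : Pic k E} {g : ℕ} (G : GB K g) {t : E} (ht : Transcendental k t)
    (h : Hyperelliptic k E) : ∃ H : Pic k E, dg H = 2 ∧ ll H = 2 := by
  obtain ⟨x, hx⟩ := h
  have tx : Transcendental k x := fun a => by
    have := IntermediateField.adjoin.finiteDimensional a.isIntegral
    have := Module.finite_of_finrank_eq_succ hx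
    have : Module.Finite k E := .trans (IntermediateField.adjoin k {x}) E
    exact ht (Algebra.IsAlgebraic.isAlgebraic t)
  obtain ⟨B, b0, b1, b2, -⟩ := rr_B tx
  rw [hx] at b2
  obtain ⟨P, -⟩ := MP_ab3ecb_nt.Inv.PL.exists_pole tx
  have := rr_fd B
  have h0 : Module.finrank k (LS B) ≠ 0 := fun e => by
    rw [Submodule.finrank_eq_zero.1 e] at b1
    exact MP_6f117a_ag.trans_ne tx b1
  have h1 : Module.finrank k (LS B) ≠ 1 := fun e => by
    obtain ⟨c, rfl⟩ := const_of_finrank e b0 b1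
    exact tx (isAlgebraic_algebraMap c)
  have h2 := rr_mono (D := B - Finsupp.single P 1) (D' := B)
    (sub_le_self _ (Finsupp.single_nonneg.2 zero_le_one))
  have h3 : deg (B - Finsupp.single P 1) = 1 := by
    rw [map_sub, MP_ab3ecb_nt.Inv.deg_single, b2]; rfl
  have h4 : ll ((B - Finsupp.single P 1 : Dv k E) : Pic k E) ≤ 1 := by
    by_contra e
    obtain ⟨Q, hQ⟩ := ll_deg1 (x := ((B - Finsupp.single P 1 : Dv k E) : Pic k E)) h3 (by omega)
    rw [← hQ, G.one] at e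
    omega
  rw [ll_mk] at h4
  refine ⟨B, b2, ?_⟩
  rw [ll_mk]
  omega

theorem p_PCK (hGB : S_GB) (hFB : S_FB) (hHY : S_HY) :
    S_PCK := by
  intro F E _ _ _ _ C g h2 hg
  have : FF (AlgebraicClosure F) E := .of_fg C.fg C.tr.le
  obtain ⟨t, ht⟩ := (trdeg_ne_zero_iff.1 (C.tr.trans_ne one_ne_zero)).transcendental
  obtain ⟨K, r⟩ := (hGB _ E).1 t g ht hg
  have G := (hGB _ E).2 K g r (by omega)
  let σ : SA (AlgebraicClosure F) E :=
    ⟨C.Φ, (FiniteField.frobeniusAlgEquivOfAlgebraic F _).toRingEquiv, C.frob⟩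
  have e1 : C.fr = σ.pl := rfl
  have e2 : C.φ = ph σ := rfl
  refine ⟨‹_›, σ, K, hFB _ E K g σ _ G h2 ⟨Fintype.one_lt_card, ?_, fun _ => rfl⟩, G, e1, e2,
    fun x => Iff.rfl, fun m => (card_fs _).symm, fun e m => ?_,
    Nat.card_congr ((Equiv.subtypeSubtypeEquivSubtypeInter
      (· ∈ C.PicF) (HasDeg · 0)).trans (Equiv.subtypeEquivRight fun x =>
        and_congr_right' hasDeg)), fun ⟨γ, hγ⟩ => ?_, fun h => ?_⟩
  · rw [← map_natCast (algebraMap F _), FiniteField.cast_card_eq_zero, map_zero]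
  · simp only [Curve.ptsH, nH, hasDeg, e2]
  · have a := (hγ γ).2 ⟨1, (one_zsmul γ).symm⟩
    refine ⟨⟨γ, mem_J.2 ⟨a.1, hasDeg.1 a.2⟩⟩, fun x => ?_⟩
    obtain ⟨n, hn⟩ := (hγ x.1).1 ⟨(mem_J.1 x.2).1, hasDeg.2 (mem_J.1 x.2).2⟩
    exact ⟨n, Subtype.ext hn.symm⟩
  · obtain ⟨H, d, l⟩ := pck_hyp G ht h
    obtain ⟨ι, Y⟩ := hHY _ E K H g G h2 d l
    refine ⟨H, by_contra fun e => ?_, d, l⟩
    have := Y.mid 1 (by omega) (ph σ H) (by rw [dg_ph, d]; rfl) (by rwa [one_nsmul])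
    rw [ll_ph] at this
    omega

end

section

theorem p_PA (hADD : S_ADD) (hHY : S_HY) (hLD : S_LD) (hPH : S_PH) (hNU1 : S_NU1) (hNU2 : S_NU2) (hHD : S_HD) (hPCK : S_PCK) :
    S_PA := by
  intro g C0 hg
  obtain ⟨n, rfl⟩ : ∃ n, g = n + 1 := ⟨g - 1, by omega⟩
  obtain ⟨c, p1, H1⟩ := hHD n (by omega)
  obtain ⟨N, q0, H2⟩ := hADD c n C0 (by omega)
  obtain ⟨p2, H3⟩ := hNU1 (n + 1) (by omega)
  obtain ⟨p3, H4⟩ := hNU2 (n + 1) (by omega)
  refine ⟨N, p1 + p2 + p3 + q0, fun F E E' _ _ _ _ _ _ C D hp g1 g2 hy cy pr hN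
    ⟨e, e', d, d', hH⟩ => ?_⟩
  obtain ⟨_, σ, K, h, g, -, -, a1, a2, a3, a4, a5, a6⟩ := hPCK F E C (n + 1) (by omega) g1
  obtain ⟨_, σ', K', h', g', -, -, b1, b2, b3, -⟩ := hPCK F E' D (n + 1) (by omega) g2
  have e1 := (a1 _).1 e.2
  have e1' := (b1 _).1 e'.2
  rw [hasDeg] at d d'
  have := h.fin
  have := h'.fin
  have := Fintype.ofFinite (J σ)
  have := Fintype.ofFinite (J σ')
  have hN' : ∀ m, m ≠ 0 → #(fx σ m) = #(fx σ' m) := fun m hm => by
    rw [← a2, ← b2, hN m (Nat.pos_of_ne_zero hm)]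
  obtain ⟨H, i1, i2, i3⟩ := a6 hy
  obtain ⟨ι, i4⟩ := hHY _ E K H (n + 1) g (by omega) i2 i3
  have lo := H3 F E K H ι σ (by omega) g i4 h i1 1 one_ne_zero
  have lo' := card_filter_le (fx σ 1) fun P => ι P ≠ P
  have hi := H4 F E K H ι σ (by omega) g i4 h i1
  have u := hN' 1 one_ne_zero
  rw [pow_one] at lo
  obtain ⟨Λ, l1, -⟩ := hLD _ E K e n σ _ g (by omega) h e1 d (by omega) hi
  obtain ⟨Λ', l1', l2⟩ := hLD _ E' K' e' n σ' _ g' (by omega) h' e1' d' (by omega) (by omega)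
  obtain ⟨c1, κ, c2⟩ := H1 F E K H e σ Λ (by omega) g h l1 i1 i2 i3
  have hq : ringChar F ≤ Fintype.card F :=
    Nat.le_of_dvd Fintype.card_pos ((ringChar.spec F _).1 (FiniteField.cast_card_eq_zero F))
  have q2 := h.fr.1
  have s1 := l1.card
  have s2 := l1'.card
  obtain ⟨θ, -, t2⟩ := H2 _ (J σ) (J σ') Λ Λ' κ (by omega)
    ⟨a5 cy, by
      obtain ⟨a, -, b, -, ab⟩ := one_lt_card.1 (show 1 < #Λ.S by omega)
      exact ⟨a, b, ab⟩, c1, a4 ▸ pr⟩ c2
    (l2.imp_right fun ⟨H', j1, j2, j3⟩ => (H1 F E' K' H' e' σ' Λ' (by omega) g' h' l1' j1 j2 j3).2)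
    (by omega) (Polynomial.ext ((hPH _ E K e n σ _ Λ g (by omega) h l1).W_eq
      (hPH _ E' K' e' n σ' _ Λ' g' (by omega) h' l1') (by
        simp only [coeff_zero_eq_eval_zero, eval_prod]
        simp only [← coeff_zero_eq_eval_zero, LD.coeff_L _ _ (Nat.zero_le _), LD.w0, map_one,
          prod_const_one]) fun m hm => by
        rw [← a3, ← b3, hH m (Nat.pos_of_ne_zero hm), hN' m hm]))
  obtain ⟨ψ, hψ⟩ := exists_psi a1 e1 d b1 e1' d' θ
  obtain ⟨B, t2, t3⟩ : ∃ B : Finset (J σ), C0 * #B ≤ Fintype.card F ∧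
      ∀ s ∈ Λ.S, θ s ∉ Λ'.S → s ∈ B := ⟨_, t2, fun s a b => by simp [a, b]⟩
  refine ⟨ψ, (fx σ 1).filter fun P => cls P - e.1 ∈ B.image Subtype.val, ?_,
    fun x P hP hx => ?_⟩
  · rw [mul_comm]
    exact (Nat.mul_le_mul_left _ ((card_le_card_of_injOn (fun P => cls P - e.1)
      (fun P hP => (mem_filter.1 hP).2) fun P _ P' _ e =>
        g.inj _ _ (sub_left_injective e)).trans card_image_le)).trans t2
  · have p0 : ph σ (cls P) = cls P := hx ▸ (a1 _).1 x.2
    have p1 : σ.pl P = P := g.inj _ _ (by rw [← ph_cls, p0])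
    let s : J σ := ⟨cls P - e.1, mem_J.2 ⟨by rw [map_sub, e1, p0], by simp [d]⟩⟩
    have s3 : θ s ∈ Λ'.S := by_contra fun hs => hP (mem_filter.2 ⟨(h.fx 1 one_ne_zero P).2 p1,
      mem_image_of_mem _ (t3 s (l1.S ▸ (h.SS _ s).2 ⟨P, p1, rfl⟩) hs)⟩)
    obtain ⟨Q, -, q2⟩ := (h'.SS _ _).1 (l1'.S ▸ s3)
    exact ⟨Q, by rw [hψ x s 1 (by simp [s, hx]), q2, one_zsmul, sub_add_cancel]⟩

end

end Pool.Agent.P.MP_9344a7_nt.Hy
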