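import Pool.Agent.P.MP_9344a7_nt.Hy.Iface

/-! Steps BES, ORB, MAH, NWR, DOL, DOM. -/

set_option linter.unusedSectionVars false
set_option linter.unusedVariables false

namespace Pool.Agent.P.MP_9344a7_nt.Hy

open Polynomial Finset
open Pool.Agent.P.MP_6f117a_ag (Place FF)
open Pool.Agent.P.MP_ab3ecb_nt.Inv (Dv deg SA LS)
open Pool.Agent.P.MP_9344a7_nt.R
open Pool.Agent.P.MP_9344a7_nt.CoreC (cc)
open scoped Classical ComplexConjugate

section

lemma bes_key {A : Type} [AddCommGroup A] [Fintype A]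
    (h : ∀ b, ∑ ψ ∈ Fa A, ψ b = #(Fa A) * (cc b : ℂ)) (U T : Finset A) (c d : A → ℝ) :
    ∑ ψ ∈ Fa A, (∑ a ∈ U, (c a : ℂ) * ψ a) * conj (∑ b ∈ T, (d b : ℂ) * ψ b) =
      ((#(Fa A) * ∑ b ∈ T, d b * ∑ a ∈ U, c a * cc (a - b) : ℝ) : ℂ) := by
  have e : ∀ ψ : AddChar A ℂ, (∑ a ∈ U, (c a : ℂ) * ψ a) * conj (∑ b ∈ T, (d b : ℂ) * ψ b) =
      ∑ b ∈ T, ∑ a ∈ U, (d b : ℂ) * c a * ψ (a - b) := fun ψ => by
    rw [map_sum, mul_sum]
    refine sum_congr rfl fun b _ => ?_
    rw [sum_mul]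
    refine sum_congr rfl fun a _ => ?_
    rw [sub_eq_add_neg, AddChar.map_add_eq_mul, AddChar.map_neg_eq_conj, map_mul,
      Complex.conj_ofReal]
    ring
  simp only [e]
  push_cast
  rw [sum_comm, mul_sum]
  refine sum_congr rfl fun b _ => ?_
  rw [sum_comm, mul_sum, mul_sum]
  refine sum_congr rfl fun a _ => ?_
  rw [← mul_sum, h]
  ring

theorem p_BES (hAV : S_AV) :
    S_BES := by
  intro A _ _ hA N x T hN hc
  obtain ⟨h0, h1, -⟩ := hAV A hA
  have hF : (0 : ℝ) < #(Fa A) := by exact_mod_cast h0.card_pos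
  set S := ∑ b ∈ T, cv x b ^ 2 with hS
  set z : AddChar A ℂ → ℂ := fun ψ => ∑ b ∈ T, (cv x b : ℂ) * ψ b with hz
  have S0 : 0 ≤ S := sum_nonneg fun _ _ => sq_nonneg _
  have a1 : #(Fa A) * S ≤ ∑ ψ ∈ Fa A, ‖ev ψ x‖ * ‖z ψ‖ := by
    have e := bes_key h1 univ T (fun a => x.coeff a) (cv x)
    have e2 : ∑ b ∈ T, cv x b * ∑ a, (x.coeff a : ℝ) * cc (a - b) = S :=
      sum_congr rfl fun b _ => (sq _).symm
    rw [e2] at e
    refine (le_abs_self _).trans ?_
    rw [← Real.norm_eq_abs, ← Complex.norm_real, ← e]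
    refine (norm_sum_le _ _).trans_eq (sum_congr rfl fun ψ _ => ?_)
    rw [norm_mul, Complex.norm_conj, ev_eq]
    simp [hz]
  have a2 : ∑ ψ ∈ Fa A, ‖z ψ‖ ^ 2 =
      #(Fa A) * ∑ b ∈ T, cv x b * ∑ a ∈ T, cv x a * cc (a - b) := by
    have e := bes_key h1 T T (cv x) (cv x)
    simp only [Complex.mul_conj'] at e
    exact_mod_cast e
  have a3 : N * ∑ b ∈ T, cv x b * ∑ a ∈ T, cv x a * cc (a - b) ≤ (N + #T) * S := by
    have e : ∀ b ∈ T, N * (cv x b * ∑ a ∈ T, cv x a * cc (a - b)) ≤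
        N * cv x b ^ 2 + (S + #T * cv x b ^ 2) / 2 := fun b hb => by
      have : ∀ a ∈ T, N * (cv x b * (cv x a * cc (a - b))) ≤
          (if a = b then N * cv x b ^ 2 else 0) + (cv x a ^ 2 + cv x b ^ 2) / 2 := fun a _ => by
        split_ifs with hab
        · rw [hab, sub_self, CoreC.cc_zero]
          nlinarith [sq_nonneg (cv x b)]
        · have h2 := hc _ (sub_ne_zero.2 hab)
          rw [← abs_of_pos hN, ← abs_mul, abs_le] at h2
          nlinarith [mul_nonneg (sub_nonneg.2 h2.2) (sq_nonneg (cv x a + cv x b)),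
            mul_nonneg (sub_nonneg.2 h2.1) (sq_nonneg (cv x a - cv x b))]
      rw [mul_sum, mul_sum]
      refine (sum_le_sum this).trans_eq ?_
      simp [sum_add_distrib, ← sum_div, hb, hS]
    rw [mul_sum]
    refine (sum_le_sum e).trans_eq ?_
    simp only [sum_add_distrib, ← sum_div, ← mul_sum, ← hS, sum_const, nsmul_eq_mul]
    ring
  have a4 := sum_mul_sq_le_sq_mul_sq (Fa A) (fun ψ => ‖ev ψ x‖) fun ψ => ‖z ψ‖
  have a5 : ∑ ψ ∈ Fa A, ‖ev ψ x‖ ^ 2 = #(Fa A) * en x := by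
    rw [en, av, mul_div_cancel₀ _ hF.ne']
  have E0 : 0 ≤ en x := div_nonneg (sum_nonneg fun _ _ => sq_nonneg _) hF.le
  rw [a2, a5] at a4
  have a6 := (pow_le_pow_left₀ (by positivity) a1 2).trans a4
  rcases S0.eq_or_lt with e | e
  · rw [← e, mul_zero]
    positivity
  · refine le_of_mul_le_mul_right (le_of_mul_le_mul_left ?_ (mul_pos hF hF)) e
    have a7 := mul_le_mul_of_nonneg_left a6 hN.le
    have a8 := mul_le_mul_of_nonneg_left a3 (mul_nonneg (mul_pos hF hF).le E0)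
    nlinarith

end

section

lemma orb_chain (c : ℤ → ℝ) (δ : ℝ) (a : ℤ) (n : ℕ)
    (h : ∀ i, a ≤ i → i < a + n → |c i - c (i + 1)| ≤ δ) : |c a - c (a + n)| ≤ n * δ := by
  induction n with
  | zero => simp
  | succ n ih =>
    have h1 := ih fun i h1 h2 => h i h1 (by push_cast; omega)
    have h2 := h (a + n) (by omega) (by push_cast; omega)
    have h3 := abs_sub_le (c a) (c (a + n)) (c (a + n + 1))
    push_cast
    rw [← add_assoc]
    linarith

theorem p_ORB :
    S_ORB := by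
  intro A _ u ϕ κ m s δ hs h1 h2 h3 h4
  have hb : ∀ i : ℤ, ϕ ((ϕ ^ i) κ) = (ϕ ^ (i + 1)) κ := fun i => by
    rw [add_comm, zpow_add, zpow_one, Equiv.Perm.mul_apply]
  simp only [hb] at h4
  have e0 : u κ = u ((ϕ ^ (0 : ℤ)) κ) := rfl
  have e1 : u (ϕ κ) = u ((ϕ ^ (1 : ℤ)) κ) := by rw [zpow_one]
  have hm : (0 : ℝ) ≤ m := Nat.cast_nonneg m
  have hδ : 0 ≤ δ := by
    by_contra h
    by_cases h5 : (ϕ ^ (1 : ℤ)) κ = κ
    · rw [e1, h5, sub_self, abs_zero] at h3
      linarith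
    · exact h ((abs_nonneg _).trans (h4 1 (by rw [abs_one]; omega) h5))
  have ch := orb_chain (fun i => u ((ϕ ^ i) κ)) δ
  by_cases h5 : ∃ o : ℕ, o ≤ m ∧ (ϕ ^ (1 + o : ℤ)) κ = κ
  · obtain ⟨h6, h7⟩ := Nat.find_spec h5
    have h8 := ch 1 (Nat.find h5) fun i a b => h4 i (by rw [abs_le]; omega) fun e =>
      Nat.find_min h5 (m := (i - 1).toNat) (by omega)
        ⟨by omega, by rwa [Int.toNat_of_nonneg (by omega), add_sub_cancel]⟩
    rw [h7, ← e1, abs_sub_comm] at h8
    have h9 : (Nat.find h5 : ℝ) * δ ≤ m * δ := by gcongr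
    linarith
  have h6 : ∀ i j : ℤ, i < j → j ≤ i + m + 1 → (ϕ ^ i) κ ≠ (ϕ ^ j) κ := fun i j a b e =>
    h5 ⟨(j - i - 1).toNat, by omega, (ϕ ^ i).injective (by
      rw [← Equiv.Perm.mul_apply, ← zpow_add, e, Int.toNat_of_nonneg (by omega)]
      congr 2
      ring)⟩
  have h7 : ∃ a : ℤ, ∀ j : ℕ, j ≤ m → s / 4 ≤ |u ((ϕ ^ (a + j)) κ)| := by
    have h8 := abs_sub (u κ) (u (ϕ κ))
    rcases le_total |u κ| |u (ϕ κ)| with h | h
    · refine ⟨1, fun j hj => ?_⟩
      have h9 := ch 1 j fun i a b => h4 i (by rw [abs_le]; omega) (h6 0 i (by omega) (by omega)).symm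
      have h10 : (j : ℝ) * δ ≤ m * δ := by gcongr
      have h11 := abs_sub_abs_le_abs_sub (u (ϕ κ)) (u ((ϕ ^ (1 + j : ℤ)) κ))
      rw [← e1] at h9
      linarith
    · refine ⟨-m, fun j hj => ?_⟩
      have h9 := ch (-m + j) (m - j) fun i a b =>
        h4 i (by rw [abs_le]; omega) (h6 i 0 (by omega) (by omega))
      have h10 : ((m - j : ℕ) : ℝ) * δ ≤ m * δ := by gcongr; omega
      have h11 := abs_sub_abs_le_abs_sub (u κ) (u ((ϕ ^ (-m + j : ℤ)) κ))
      rw [show (-m + j + (m - j : ℕ) : ℤ) = 0 by omega, ← e0, abs_sub_comm] at h9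
      linarith
  obtain ⟨a, h7⟩ := h7
  have h8 := card_le_card_of_injOn (s := range (m + 1)) (t := ({b | s / 4 ≤ |u b|} : Finset A))
    (fun j : ℕ => (ϕ ^ (a + j)) κ)
    (fun j hj => by simpa using h7 j (by simpa [Nat.lt_succ_iff] using hj)) fun i hi j hj e => by
      simp only [coe_range, Set.mem_Iio] at hi hj
      rcases lt_trichotomy i j with h | h | h
      · exact (h6 _ _ (by omega) (by omega) e).elim
      · exact h
      · exact (h6 _ _ (by omega) (by omega) e.symm).elim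
  rw [card_range] at h8
  omega

end

section

lemma mah_deg (p : ℂ[X]) (c : ℂ) : (p.comp (C c * X)).natDegree ≤ p.natDegree :=
  natDegree_le_iff_coeff_eq_zero.2 fun n hn => by
    rw [comp_C_mul_X_coeff, coeff_eq_zero_of_natDegree_lt hn, zero_mul]

lemma mah_norm (p : ℂ[X]) {s : ℝ} (hs : 0 < s) (j : ℕ) :
    ‖(p.comp (C ((s⁻¹ : ℝ) : ℂ) * X)).coeff j‖ = ‖p.coeff j‖ / s ^ j := by
  rw [comp_C_mul_X_coeff, norm_mul, norm_pow, Complex.norm_real, Real.norm_eq_abs,
    abs_of_pos (inv_pos.2 hs), inv_pow, div_eq_mul_inv]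

lemma mah_coeff (p : ℂ[X]) {s : ℝ} (hs : 0 < s) {m : ℕ} (h : p.natDegree ≤ m) (j : ℕ) :
    ‖p.coeff j‖ ≤ s ^ j * (2 ^ m * (p.comp (C ((s⁻¹ : ℝ) : ℂ) * X)).mahlerMeasure) := by
  have h1 := norm_coeff_le_choose_mul_mahlerMeasure j (p.comp (C ((s⁻¹ : ℝ) : ℂ) * X))
  rw [mah_norm p hs, div_le_iff₀' (pow_pos hs j)] at h1
  refine h1.trans (mul_le_mul_of_nonneg_left
    (mul_le_mul_of_nonneg_right ?_ (mahlerMeasure_nonneg _)) (pow_pos hs j).le)
  exact_mod_cast (Nat.choose_le_two_pow _ _).trans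
    (Nat.pow_le_pow_right two_pos ((mah_deg p _).trans h))

theorem p_MAH :
    S_MAH := by
  intro L M B m D q hq hL hM0 hB0 hm hD
  have hq' : (0 : ℝ) < q := by exact_mod_cast hq
  have hs : 0 < √(q : ℝ) := Real.sqrt_pos.2 hq'
  have hss : ∀ j : ℕ, (√(q : ℝ) ^ j) ^ 2 = (q : ℝ) ^ j := fun j => by
    rw [← pow_mul, mul_comm, pow_mul, Real.sq_sqrt hq'.le]
  set s := √(q : ℝ)
  set a := (M.comp (C ((s⁻¹ : ℝ) : ℂ) * X)).mahlerMeasure with ha
  set b := (B.comp (C ((s⁻¹ : ℝ) : ℂ) * X)).mahlerMeasure with hb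
  have ha0 : 0 ≤ a := mahlerMeasure_nonneg _
  have hb1 : 1 ≤ b := by
    have := norm_coeff_le_choose_mul_mahlerMeasure 0 (B.comp (C ((s⁻¹ : ℝ) : ℂ) * X))
    rwa [mah_norm B hs, hB0, ← hb, norm_one, pow_zero, div_one, Nat.choose_zero_right, Nat.cast_one,
      one_mul] at this
  have hab : (a * b) ^ 2 ≤ nq q D L := by
    rw [ha, hb, ← mahlerMeasure_mul, ← mul_comp, ← hL]
    refine (pow_le_pow_left₀ (mahlerMeasure_nonneg _)
      (mahlerMeasure_le_sqrt_sum_sq_norm_coeff _) 2).trans ?_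
    rw [Real.sq_sqrt (sum_nonneg fun _ _ => sq_nonneg _), nq]
    refine (sum_le_sum_of_subset_of_nonneg (t := range (D + 1)) (fun i hi => ?_)
      fun _ _ _ => sq_nonneg _).trans_eq (sum_congr rfl fun i _ => ?_)
    · exact mem_range.2 (Nat.lt_succ_of_le
        ((le_natDegree_of_mem_supp i hi).trans ((mah_deg L _).trans hD)))
    · rw [mah_norm L hs, div_pow, hss]
  have h4 : ((2 : ℝ) ^ m) ^ 2 = 4 ^ m := by rw [← pow_mul, mul_comm, pow_mul]; norm_num
  refine ⟨fun j => ?_, fun k hk hB => ?_⟩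
  · have h1 : ‖M.coeff j‖ ≤ s ^ j * (2 ^ m * (a * b)) :=
      (mah_coeff M hs hm j).trans (by gcongr; exact le_mul_of_one_le_right ha0 hb1)
    calc _ ≤ (s ^ j * (2 ^ m * (a * b))) ^ 2 := pow_le_pow_left₀ (norm_nonneg _) h1 2
      _ = 4 ^ m * q ^ j * (a * b) ^ 2 := by rw [mul_pow, mul_pow, hss, h4]; ring
      _ ≤ _ := by gcongr
  · have hn : ∀ j, ‖B.coeff j‖ = ‖M.coeff j‖ := fun j => by
      rw [hB, coeff_tw, norm_mul, norm_pow, hk, one_pow, mul_one, Complex.norm_conj]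
    have hBm : B.natDegree ≤ m := by
      rw [hB, tw]
      exact (mah_deg _ _).trans (natDegree_map_le.trans hm)
    have key : ∀ i j, ‖M.coeff i‖ * ‖M.coeff j‖ ≤ s ^ (i + j) * (4 ^ m * (a * b)) := fun i j => by
      rw [← hn j]
      refine (mul_le_mul (mah_coeff M hs hm i) (mah_coeff B hs hBm j) (norm_nonneg _)
        (by positivity)).trans_eq ?_
      rw [← h4, ← ha, ← hb]
      ring
    have h1 : _ ≤ s ^ 2 * _ := key 1 1
    have h2 : _ ≤ s ^ 2 * _ := key 2 0
    rw [hM0, norm_one, mul_one] at h2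
    have h3 : ‖M.coeff 1 ^ 2 - 2 * M.coeff 2‖ ≤ 3 * (s ^ 2 * (4 ^ m * (a * b))) := by
      refine (norm_sub_le _ _).trans ?_
      rw [norm_pow, norm_mul, Complex.norm_two, sq]
      linarith
    have h16 : ((4 : ℝ) ^ m) ^ 2 = 16 ^ m := by rw [← pow_mul, mul_comm, pow_mul]; norm_num
    calc _ ≤ (3 * (s ^ 2 * (4 ^ m * (a * b)))) ^ 2 := pow_le_pow_left₀ (norm_nonneg _) h3 2
      _ = 9 * 16 ^ m * q ^ 2 * (a * b) ^ 2 := by rw [mul_pow, mul_pow, mul_pow, hss, h16]; ring
      _ ≤ _ := by gcongr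

end

section

theorem nwr_iff (W s : ℕ → ℂ) : Newt W s ↔
    PowerSeries.X * PowerSeries.derivative ℂ (PowerSeries.mk W) =
      PowerSeries.mk W * PowerSeries.mk fun m => if m = 0 then 0 else s m := by
  rw [PowerSeries.ext_iff]
  refine forall_congr' fun n => Eq.congr ?_ ?_
  · cases n with
    | zero => simp
    | succ n =>
      rw [PowerSeries.coeff_succ_X_mul, PowerSeries.coeff_derivative, PowerSeries.coeff_mk]
      push_cast; ring
  · rw [PowerSeries.coeff_mul, Finset.Nat.sum_antidiagonal_eq_sum_range_succ_mk, sum_range_succ]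
    simp only [PowerSeries.coeff_mk, Nat.sub_self, if_true, mul_zero, add_zero]
    refine sum_congr rfl fun j hj => ?_
    rw [if_neg (by have := mem_range.1 hj; omega), mul_comm]

theorem nwr_coe (p : ℂ[X]) : PowerSeries.mk p.coeff = (p : PowerSeries ℂ) := by
  ext n; simp

theorem nwr_mul {p p' : ℂ[X]} {s s' : ℕ → ℂ} (h : Newt p.coeff s) (h' : Newt p'.coeff s') :
    Newt (p * p').coeff (s + s') := by
  rw [nwr_iff, nwr_coe] at *
  have e : (PowerSeries.mk fun m => if m = 0 then 0 else (s + s') m) =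
      (PowerSeries.mk fun m => if m = 0 then 0 else s m) +
        PowerSeries.mk fun m => if m = 0 then 0 else s' m := by
    ext n; by_cases hn : n = 0 <;> simp [hn]
  rw [e, Polynomial.coe_mul, Derivation.leibniz, smul_eq_mul, smul_eq_mul]
  linear_combination (p' : PowerSeries ℂ) * h + (p : PowerSeries ℂ) * h'

theorem nwr_one (r : ℂ) : Newt (1 - C r * X : ℂ[X]).coeff fun m => -r ^ m := by
  intro n
  rcases n with _ | _ | n
  · simp
  · simp [coeff_one]
  · rw [sum_range_succ', sum_range_succ']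
    simp [coeff_one, coeff_X]
    ring

theorem p_NWR :
    S_NWR := by
  intro ρ
  induction ρ using Multiset.induction_on with
  | empty =>
    intro n
    rcases n with _ | n <;> simp [ofR, coeff_one]
  | cons r ρ ih =>
    have := nwr_mul (nwr_one r) ih
    unfold ofR at *
    rw [Multiset.map_cons, Multiset.prod_cons]
    convert this using 2 with m
    simp only [Multiset.map_cons, Multiset.sum_cons, Pi.add_apply]
    ring

end

section

section
variable {A : Type} [AddCommGroup A]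

/-- `S` is the logarithmic derivative of `G`. -/
def dol_L (G S : PowerSeries (ZA A)) : Prop :=
  PowerSeries.X * PowerSeries.derivative (ZA A) G = S * G

lemma dol_mul {G S U P : PowerSeries (ZA A)} (h : dol_L G S) (h' : dol_L U P) :
    dol_L (G * U) (S + P) := by
  unfold dol_L at *
  rw [Derivation.leibniz, smul_eq_mul, smul_eq_mul]
  linear_combination U * h + G * h'

/-- The contribution of the level `d`. -/
noncomputable def dol_P (d : ℕ) (x : ZA A) : PowerSeries (ZA A) :=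
  .mk fun m => if m ≠ 0 ∧ d ∣ m then (d : ZA A) * pu (nsmulAddMonoidHom (m / d)) x else 0

lemma dol_add (d : ℕ) (x y : ZA A) : dol_P d (x + y) = dol_P d x + dol_P d y := by
  ext1 m
  simp only [dol_P, map_add, PowerSeries.coeff_mk]
  split_ifs
  exacts [mul_add _ _ _, (add_zero _).symm]

lemma dol_neg (d : ℕ) (x : ZA A) : dol_P d (-x) = -dol_P d x := by
  ext1 m
  simp only [dol_P, map_neg, PowerSeries.coeff_mk]
  split_ifs
  exacts [mul_neg _ _, neg_zero.symm]

lemma dol_single (d : ℕ) (a : A) : dol_P (d + 1) (.single a 1) *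
    (1 - PowerSeries.C (.single a 1) * PowerSeries.X ^ (d + 1)) =
      PowerSeries.C (((d + 1 : ℕ) : ZA A) * .single a 1) * PowerSeries.X ^ (d + 1) := by
  ext1 m
  rw [mul_sub, mul_one, ← mul_assoc, map_sub, PowerSeries.coeff_mul_X_pow',
    PowerSeries.coeff_mul_C, PowerSeries.coeff_C_mul, PowerSeries.coeff_X_pow]
  simp only [dol_P, PowerSeries.coeff_mk, pu_single]
  by_cases h : m ≠ 0 ∧ d + 1 ∣ m
  · obtain ⟨h0, k, rfl⟩ := h
    obtain ⟨k, rfl⟩ : ∃ j, k = j + 1 := Nat.exists_eq_succ_of_ne_zero fun e => h0 (by rw [e]; rfl)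
    rw [if_pos ⟨h0, dvd_mul_right _ _⟩, if_pos (Nat.le_mul_of_pos_right _ k.succ_pos), mul_add,
      mul_one, Nat.add_sub_cancel, ← mul_add_one, Nat.mul_div_cancel_left _ d.succ_pos,
      Nat.mul_div_cancel_left _ d.succ_pos]
    rcases k with _ | k
    · simp
    · rw [if_pos ⟨by positivity, dvd_mul_right _ _⟩, if_neg (by nlinarith), mul_zero, mul_assoc,
        AddMonoidAlgebra.single_mul_single, sub_eq_zero]
      simp [succ_nsmul]
  · rw [if_neg h, if_neg (c := m = d + 1) (by rintro rfl; exact h ⟨d.succ_ne_zero, dvd_rfl⟩)]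
    split_ifs with h1 h2
    · exact (h ⟨by omega, (Nat.dvd_sub_iff_left h1 dvd_rfl).1 h2.2⟩).elim
    all_goals simp

lemma dol_ex (d : ℕ) (x : ZA A) : ∃ U, PowerSeries.X ^ (d + 2) ∣
    U - (1 + PowerSeries.C x * PowerSeries.X ^ (d + 1)) ∧ dol_L U (dol_P (d + 1) x) := by
  let K : AddSubgroup (ZA A) :=
    { carrier := {x | ∃ U, PowerSeries.X ^ (d + 2) ∣
        U - (1 + PowerSeries.C x * PowerSeries.X ^ (d + 1)) ∧ dol_L U (dol_P (d + 1) x)}
      zero_mem' := ⟨1, by simp, by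
        have := dol_add (d + 1) (0 : ZA A) 0
        simp only [add_zero, left_eq_add] at this
        simp [dol_L, this]⟩
      add_mem' := by
        rintro x y ⟨U, ⟨a, ha⟩, hU⟩ ⟨V, ⟨b, hb⟩, hV⟩
        refine ⟨U * V, ⟨a * V + (1 + .C x * .X ^ (d + 1)) * b + .C x * .C y * .X ^ d, ?_⟩,
          dol_add (d + 1) x y ▸ dol_mul hU hV⟩
        rw [map_add]
        linear_combination V * ha + (1 + PowerSeries.C x * PowerSeries.X ^ (d + 1)) * hb
      neg_mem' := by
        rintro x ⟨U, ⟨a, ha⟩, hU⟩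
        have e := PowerSeries.mul_invOfUnit U 1 (by
          simpa [sub_eq_zero] using congrArg PowerSeries.constantCoeff ha)
        generalize U.invOfUnit 1 = V at e
        refine ⟨V, ⟨V * (.C x * .C x * .X ^ d - a * (1 - .C x * .X ^ (d + 1))), ?_⟩, ?_⟩
        · rw [map_neg]
          linear_combination (1 - PowerSeries.C x * PowerSeries.X ^ (d + 1)) * (e - V * ha)
        · have e' := congrArg (PowerSeries.derivative (ZA A)) e
          rw [Derivation.leibniz, smul_eq_mul, smul_eq_mul, Derivation.map_one_eq_zero] at e'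
          unfold dol_L at *
          rw [dol_neg]
          linear_combination PowerSeries.X * V * e' - V ^ 2 * hU -
            (PowerSeries.X * PowerSeries.derivative (ZA A) V + dol_P (d + 1) x * V) * e }
  have h1 : ∀ a : A, .single a 1 ∈ K := fun a => neg_mem_iff.1
    ⟨1 - .C (.single a 1) * .X ^ (d + 1), by simp [sub_eq_add_neg], by
      rw [dol_L, dol_neg, neg_mul, dol_single]
      simp [Derivation.leibniz_pow]
      ring⟩
  change x ∈ K
  induction x using AddMonoidAlgebra.induction_on with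
  | of a => exact h1 a
  | add x y hx hy => exact add_mem hx hy
  | smul r x hx => exact zsmul_mem hx r

end

theorem p_DOL :
    S_DOL := by
  intro A _ G s h0 hs
  choose U u1 u2 using dol_ex (A := A)
  let H : ℕ → PowerSeries (ZA A) := fun M =>
    Nat.rec (.mk G) (fun d V => V * U d (-PowerSeries.coeff (d + 1) V)) M
  let S : PowerSeries (ZA A) := .mk fun m => if m = 0 then 0 else s m
  have key : ∀ M, PowerSeries.X ^ (M + 1) ∣ H M - 1 ∧
      dol_L (H M) (S - ∑ d ∈ range M, dol_P (d + 1) (PowerSeries.coeff (d + 1) (H d))) := by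
    intro M
    induction M with
    | zero =>
      refine ⟨by simp [PowerSeries.X_dvd_iff, H, h0], PowerSeries.ext fun m => ?_⟩
      rw [sum_range_zero, sub_zero, mul_comm S, PowerSeries.coeff_mul m (H 0),
        Nat.sum_antidiagonal_eq_sum_range_succ_mk, sum_range_succ]
      have e : ∑ j ∈ range m, PowerSeries.coeff j (H 0) * PowerSeries.coeff (m - j) S =
          m * G m := (sum_congr rfl fun j hj => by
        simp [H, S, Nat.sub_ne_zero_of_lt (mem_range.1 hj), mul_comm]).trans (hs m).symm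
      rw [e]
      rcases m with _ | m <;> simp [H, S, PowerSeries.coeff_derivative, mul_comm]
    | succ M ih =>
      obtain ⟨⟨a, ha⟩, ih⟩ := ih
      obtain ⟨b, hb⟩ := u1 M (-PowerSeries.coeff (M + 1) (H M))
      have e : PowerSeries.coeff (M + 1) (H M) = PowerSeries.constantCoeff a := by
        rw [sub_eq_iff_eq_add.1 ha]
        simp [PowerSeries.coeff_X_pow_mul', PowerSeries.coeff_one]
      have ea := a.eq_X_mul_shift_add_const
      refine ⟨⟨H M * b + .mk (fun p => PowerSeries.coeff (p + 1) a) -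
        a * .C (PowerSeries.constantCoeff a) * .X ^ M, ?_⟩, ?_⟩
      · change H M * U M _ - 1 = _
        rw [e, map_neg] at hb
        rw [e]
        linear_combination H M * hb + (1 - PowerSeries.C (PowerSeries.constantCoeff a) *
          PowerSeries.X ^ (M + 1)) * ha + PowerSeries.X ^ (M + 1) * ea
      · rw [sum_range_succ, ← sub_sub, sub_eq_add_neg (S - _), ← dol_neg]
        exact dol_mul ih (u2 M _)
  refine ⟨fun d => PowerSeries.coeff d (H (d - 1)), fun m hm => ?_⟩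
  obtain ⟨⟨a, ha⟩, h⟩ := key m
  have e : PowerSeries.X ^ (m + 1) ∣
      S - ∑ d ∈ range m, dol_P (d + 1) (PowerSeries.coeff (d + 1) (H d)) := by
    rw [dol_L, sub_eq_iff_eq_add.1 ha, map_add, Derivation.map_one_eq_zero, Derivation.leibniz,
      Derivation.leibniz_pow, PowerSeries.derivative_X] at h
    generalize S - _ = T at h
    simp only [smul_eq_mul, nsmul_eq_mul, Nat.add_sub_cancel] at h
    exact ⟨.X * PowerSeries.derivative (ZA A) a + (m + 1 : ℕ) * a - T * a, by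
      linear_combination -h⟩
  have e1 := PowerSeries.X_pow_dvd_iff.1 e m m.lt_succ_self
  rw [map_sub, map_sum, sub_eq_zero] at e1
  simp only [S, dol_P, PowerSeries.coeff_mk, if_neg hm] at e1
  rw [e1, Nat.divisors, sum_filter, sum_Ico_eq_sum_range]
  exact sum_congr rfl fun d _ => by simp [hm, add_comm 1 d]

end

section

section dom

variable {A : Type} [AddCommGroup A]

/-- The power sums, by recursion. -/
noncomputable def dom_s (G : ℕ → ZA A) (m : ℕ) : ZA A :=
  (m : ZA A) * G m - ∑ j ∈ (range (m - 1)).attach, dom_s G (m - (j.1 + 1)) * G (j.1 + 1)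
decreasing_by have := mem_range.1 j.2; omega

lemma dom_eq (G : ℕ → ZA A) (k : ℕ) : dom_s G (k + 1) = ((k + 1 : ℕ) : ZA A) * G (k + 1) -
    ∑ j ∈ range k, dom_s G (k - j) * G (j + 1) := by
  rw [dom_s, sum_attach (range (k + 1 - 1)) fun j => dom_s G (k + 1 - (j + 1)) * G (j + 1)]
  simp only [Nat.add_sub_cancel, Nat.add_sub_add_right]

lemma dom_nw (G : ℕ → ZA A) (h : G 0 = 1) : NwZ G (dom_s G) := by
  rintro (_ | k)
  · simp
  · rw [sum_range_succ', h, mul_one, Nat.sub_zero, dom_eq]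
    simp only [Nat.add_sub_add_right]
    ring

lemma dom_two (k : ℕ) : 1 + ∑ j ∈ range k, 2 ^ (k - j) ≤ 2 ^ (k + 1) := by
  induction k with
  | zero => simp
  | succ k ih =>
    rw [sum_range_succ']
    simp only [Nat.add_sub_add_right, Nat.sub_zero]
    omega

lemma dom_sz (G : ℕ → ZA A) (r : ℕ) (h : ∀ j, j ≠ 0 → sz (G j) ≤ r ^ j) (m : ℕ) (hm : m ≠ 0) :
    sz (dom_s G m) ≤ (2 * r) ^ m := by
  induction m using Nat.strong_induction_on with
  | _ m ih =>
    obtain ⟨k, rfl⟩ := Nat.exists_eq_succ_of_ne_zero hm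
    rw [Nat.succ_eq_add_one, dom_eq]
    refine (sz_sub _ _).trans ((add_le_add ((sz_cast _ _).trans (h _ hm)) ((sz_sum _ _).trans
      (sum_le_sum (g := fun j => 2 ^ (k - j) * r ^ (k + 1)) fun j hj => ?_))).trans ?_)
    · have := mem_range.1 hj
      refine (sz_mul _ _).trans ((Nat.mul_le_mul (ih _ (by omega) (by omega))
        (h _ (by omega))).trans_eq ?_)
      rw [mul_pow, mul_assoc, ← pow_add]
      congr 2
      omega
    · rw [← sum_mul, mul_pow, ← one_add_mul]
      exact Nat.mul_le_mul_right _ (dom_two k)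

lemma dom_coeff (n : ℕ) (x : ZA A) (a : A) : ((n : ZA A) * x).coeff a = n * x.coeff a := by
  rw [← nsmul_eq_mul, AddMonoidAlgebra.coeff_smul, Finsupp.smul_apply, nsmul_eq_mul]

lemma dom_cast (n : ℕ) (hn : n ≠ 0) (x : ZA A) : sz x ≤ sz ((n : ZA A) * x) :=
  card_le_card fun a ha => by
    rw [Finsupp.mem_support_iff] at ha ⊢
    rw [dom_coeff]
    exact mul_ne_zero (by exact_mod_cast hn) ha

lemma dom_one (x : ZA A) : pu (nsmulAddMonoidHom 1) x = x :=
  DFunLike.congr_fun (za_ext (f := pu (nsmulAddMonoidHom 1 : A →+ A)) (g := RingHom.id _)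
    fun a => by simp) x

end dom

theorem p_DOM (hDOL : S_DOL) :
    S_DOM := by
  intro A _ G r h0 hr hG
  obtain ⟨e, he⟩ := hDOL A G _ h0 (dom_nw G h0)
  have hs := dom_sz G r hG
  have key : ∀ m, m ≠ 0 → dom_s G m = (m : ZA A) * e m +
      ∑ d ∈ m.properDivisors, (d : ZA A) * pu (nsmulAddMonoidHom (m / d)) (e d) := fun m hm => by
    rw [he m hm, ← Nat.cons_self_properDivisors hm, sum_cons, Nat.div_self (by omega), dom_one]
  have sub : ∀ m, ∑ d ∈ m.properDivisors, sz (e d) ≤ ∑ d ∈ Ico 1 m, sz (e d) := fun m =>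
    sum_le_sum_of_subset (filter_subset _ _)
  have tot : ∀ n, ∑ d ∈ Ico 1 (n + 1), sz (e d) ≤ 2 ^ (n + 1) * (2 * r) ^ n := by
    intro n
    induction n with
    | zero => simp
    | succ n ih =>
      rw [sum_Ico_succ_top (by omega)]
      have h1 : sz (e (n + 1)) ≤ (2 * r) ^ (n + 1) + ∑ d ∈ Ico 1 (n + 1), sz (e d) := by
        refine (dom_cast (n + 1) (by omega) _).trans ?_
        rw [← sub_eq_iff_eq_add.2 (key (n + 1) (by omega))]
        exact (sz_sub _ _).trans (add_le_add (hs _ (by omega)) ((sz_sum _ _).trans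
          ((sum_le_sum fun d _ => (sz_cast _ _).trans (sz_pu _ _)).trans (sub _))))
      have h2 : 2 * r + 2 ^ (n + 2) ≤ 2 ^ (n + 2) * (2 * r) := by
        have : 2 ≤ 2 ^ (n + 2) := Nat.le_self_pow (by omega) 2
        nlinarith
      have h3 := Nat.mul_le_mul_right ((2 * r) ^ n) h2
      calc _ ≤ (2 * r + 2 ^ (n + 2)) * (2 * r) ^ n := by
            rw [add_mul, ← pow_succ', pow_succ' 2 (n + 1), mul_assoc]
            omega
        _ ≤ _ := h3.trans_eq (by ring)
  refine ⟨_, dom_nw G h0, hs, fun n hn => ⟨n.properDivisors.biUnion fun d =>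
    (pu (nsmulAddMonoidHom (n / d)) (e d)).coeff.support, ?_, fun a ha => ?_⟩⟩
  · obtain ⟨k, rfl⟩ := Nat.exists_eq_succ_of_ne_zero hn
    exact card_biUnion_le.trans ((sum_le_sum fun d _ => sz_pu _ _).trans ((sub _).trans (tot k)))
  · have : (∑ d ∈ n.properDivisors, (d : ZA A) *
        pu (nsmulAddMonoidHom (n / d)) (e d)).coeff a = 0 := by
      rw [AddMonoidAlgebra.coeff_sum, Finsupp.finsetSum_apply]
      refine sum_eq_zero fun d hd => ?_
      rw [dom_coeff, Finsupp.notMem_support_iff.1 fun h => ha (mem_biUnion.2 ⟨d, hd, h⟩), mul_zero]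
    rw [key n hn, AddMonoidAlgebra.coeff_add, Finsupp.add_apply, this, add_zero, dom_coeff]
    exact dvd_mul_right _ _

end

end Pool.Agent.P.MP_9344a7_nt.Hy
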