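import Pool.Agent.P.MP_9344a7_nt.Hy.Iface

/-! Steps TRN, LB, TP, ENL, LFT, CON, DEG. -/

set_option linter.unusedSectionVars false
set_option linter.unusedVariables false

namespace Pool.Agent.P.MP_9344a7_nt.Hy

open Polynomial Finset
open Pool.Agent.P.MP_6f117a_ag (Place FF)
open Pool.Agent.P.MP_ab3ecb_nt.Inv (Dv deg SA LS)
open Pool.Agent.P.MP_9344a7_nt.R
open Pool.Agent.P.MP_9344a7_nt.CoreC (cc)
open scoped Classical ComplexConjugate

section

lemma trn_co {K : Type} [Field K] (φ : K →+* ℂ) (p q : K[X]) :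
    IsCoprime p q ↔ ∀ a, (p.map φ).eval a ≠ 0 ∨ (q.map φ).eval a ≠ 0 := by
  let := φ.toAlgebra
  rw [isCoprime_iff_aeval_ne_zero_of_isAlgClosed K ℂ]
  simp only [aeval_def, eval_map]
  rfl

lemma trn_ring {R : Type} [CommRing R] (f g : R →+* ℂ) (h : ∀ x, f x = 0 ↔ g x = 0) (G G' : R[X])
    (H : ∃ α, (G.map f).eval α = 0 ∧ (G'.map f).eval α = 0) :
    ∃ β, (G.map g).eval β = 0 ∧ (G'.map g).eval β = 0 := by
  have : (RingHom.ker f).IsPrime := RingHom.ker_isPrime f
  let K := FractionRing (R ⧸ RingHom.ker f)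
  let i : R →+* K := (algebraMap (R ⧸ RingHom.ker f) K).comp (Ideal.Quotient.mk _)
  have key : ∀ u : R →+* ℂ, (∀ x, f x = 0 ↔ u x = 0) → ∃ φ : K →+* ℂ, u = φ.comp i := by
    intro u hu
    have hi : Function.Injective (Ideal.Quotient.lift (RingHom.ker f) u fun x hx => (hu x).1 hx) := by
      refine (injective_iff_map_eq_zero _).2 fun x hx => ?_
      obtain ⟨y, rfl⟩ := Ideal.Quotient.mk_surjective x
      exact Ideal.Quotient.eq_zero_iff_mem.2 ((hu y).2 hx)
    refine ⟨IsFractionRing.lift hi, RingHom.ext fun x => ?_⟩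
    simp [i]
  obtain ⟨φ, hφ⟩ := key f fun _ => Iff.rfl
  obtain ⟨ψ, hψ⟩ := key g h
  by_contra hn
  have hc : IsCoprime (G.map i) (G'.map i) := (trn_co ψ _ _).2 fun a => by
    rw [Polynomial.map_map, Polynomial.map_map, ← hψ]
    by_contra h2
    push Not at h2
    exact hn ⟨a, h2⟩
  obtain ⟨α, h1, h2⟩ := H
  have := (trn_co φ _ _).1 hc α
  rw [Polynomial.map_map, Polynomial.map_map, ← hφ] at this
  exact this.elim (fun e => e h1) fun e => e h2

theorem p_TRN (hKER : S_KER) :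
    S_TRN := by
  intro A _ _ χ hχ ψ hψ G G' _ H
  exact trn_ring _ _ (fun x => ⟨((hKER A χ hχ).1 ψ hψ).1 x, ((hKER A ψ hψ).1 χ hχ).1 x⟩) G G' H

end

section

theorem p_LB :
    S_LB := by
  intro q n A _ _ Λ hq χ hχ
  have hq0 : (q : ℂ) ≠ 0 := by exact_mod_cast hq.ne'
  have hu : ∀ a : A, χ a * conj (χ a) = 1 := fun a => by
    rw [← AddChar.map_neg_eq_conj, ← AddChar.map_add_eq_mul]; simp
  have hne : ∀ a : A, χ a ≠ 0 := fun a => left_ne_zero_of_mul_eq_one (hu a)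
  have h0 : (Λ.L χ).coeff 0 = 1 := by rw [Λ.coeff_L χ (by omega), Λ.w0, map_one]
  have hle : (Λ.L χ).natDegree ≤ 2 * n := by
    rw [natDegree_le_iff_coeff_eq_zero]
    intro j hj
    rw [LD.L, coeff_map, Λ.coeff_LZ, if_neg (by omega), map_zero]
  have hs : ∀ j ≤ 2 * n, (q : ℂ) ^ j * ev χ (Λ.W (2 * n - j)) =
      q ^ n * χ Λ.ω * conj (ev χ (Λ.W j)) := by
    intro j hj
    by_cases h : j ≤ n
    · rw [Λ.fe χ hχ j h, ← mul_assoc, ← mul_assoc, ← pow_add, Nat.add_sub_cancel' h]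
    · have h1 := Λ.fe χ hχ (2 * n - j) (by omega)
      rw [show 2 * n - (2 * n - j) = j by omega] at h1
      rw [h1, map_mul, map_mul, map_pow, Complex.conj_conj, map_natCast]
      have h2 : (q : ℂ) ^ j = q ^ n * q ^ (n - (2 * n - j)) := by
        rw [← pow_add]; congr 1; omega
      rw [h2]
      linear_combination (-(q : ℂ) ^ n * q ^ (n - (2 * n - j)) * ev χ (Λ.W (2 * n - j))) * hu Λ.ω
  refine ⟨h0, le_antisymm hle (le_natDegree_of_ne_zero ?_), fun α hα => ?_, fun c κ H j hj => ?_⟩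
  · have := Λ.fe χ hχ 0 (by omega)
    rw [Nat.sub_zero] at this
    rw [Λ.coeff_L χ le_rfl, this, Λ.w0]
    simp [hq0, hne]
  · have hα0 : α ≠ 0 := by
      rintro rfl
      rw [← coeff_zero_eq_eval_zero, h0] at hα
      exact one_ne_zero hα
    have hb : (q : ℂ) * conj α ≠ 0 := mul_ne_zero hq0 (by simpa using hα0)
    rw [eval_eq_sum_range' (Nat.lt_succ_of_le hle)] at hα ⊢
    have h1 := congrArg (fun z => (q : ℂ) ^ n * χ Λ.ω * conj z) hα
    simp only [map_sum, map_zero, mul_zero, mul_sum] at h1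
    apply mul_left_cancel₀ (pow_ne_zero (2 * n) hb)
    rw [mul_zero, ← h1, ← sum_range_reflect, mul_sum]
    refine sum_congr rfl fun j hj => ?_
    have hj' : j ≤ 2 * n := by have := mem_range.1 hj; omega
    rw [show 2 * n + 1 - 1 - j = 2 * n - j by omega, Λ.coeff_L χ (by omega), Λ.coeff_L χ hj',
      map_mul, ← mul_assoc, ← mul_assoc, ← hs j hj', map_pow]
    have h2 : ((q : ℂ) * conj α) ^ (2 * n) = (q * conj α) ^ j * (q * conj α) ^ (2 * n - j) := by
      rw [← pow_add]; congr 1; omega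
    rw [h2, inv_pow]
    field_simp
    ring
  · have h1 : χ (j • κ) * conj (ev χ (Λ.W j)) = ev χ (Λ.W j) := by
      rw [ev_eq, map_sum, mul_sum]
      refine Fintype.sum_equiv (Equiv.subLeft (j • κ)) _ _ fun b => ?_
      rw [Equiv.subLeft_apply, H.sym j hj b, map_mul, ← AddChar.map_neg_eq_conj, sub_eq_add_neg,
        AddChar.map_add_eq_mul, map_intCast]
      ring
    rw [Λ.coeff_L χ (by omega), Λ.coeff_L χ (by omega), Λ.fe χ hχ j hj, H.om]
    conv_rhs => rw [← h1]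
    rw [AddChar.map_nsmul_eq_pow, AddChar.map_nsmul_eq_pow, mul_pow]
    have h2 : χ κ ^ n = χ κ ^ (n - j) * χ κ ^ j := by rw [← pow_add]; congr 1; omega
    rw [h2]
    ring

end

section

section
variable {A A' : Type} [AddCommGroup A] [AddCommGroup A']

lemma tp_coeff (θ : A ≃+ A') (x : ZA A) (b : A') :
    (pu (θ : A →+ A') x).coeff b = x.coeff (θ.symm b) := by
  rw [← coeff_pu θ x (θ.symm b), θ.apply_symm_apply]

lemma tp_ind (θ : A ≃+ A') (S : Finset A) : pu (θ : A →+ A') (ind S) = ind (S.image θ) := by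
  rw [ind, ind, map_sum, sum_image θ.injective.injOn]
  simp

lemma tp_ne (θ : A ≃+ A') {χ : AddChar A' ℂ} (h : χ ≠ 0) :
    χ.compAddMonoidHom (θ : A →+ A') ≠ 0 := fun e => h (by
  ext b
  simpa using DFunLike.congr_fun e (θ.symm b))

/-- The transported data. -/
noncomputable def tp_ld {q n : ℕ} (Λ : LD q n A) (θ : A ≃+ A') : LD q n A' where
  W j := pu (θ : A →+ A') (Λ.W j)
  ω := θ Λ.ω
  S := Λ.S.image θ
  w0 := by rw [Λ.w0, map_one]
  w1 := by rw [Λ.w1, tp_ind]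
  nn j a := by rw [tp_coeff]; exact Λ.nn _ _
  sid := Red.sid_map (φ := (θ : A →+ A')) θ.injective Λ.sid
  two b := by rw [← map_pow, tp_coeff, tp_coeff]; exact Λ.two _
  fe χ h j hj := by rw [ev_pu, ev_pu, Λ.fe _ (tp_ne θ h) j hj]; rfl
  lo := by rw [card_image_of_injective _ θ.injective]; exact Λ.lo
  hi := by rw [card_image_of_injective _ θ.injective]; exact Λ.hi

end

theorem p_TP :
    S_TP := by
  intro q n A A' _ _ _ _ Λ θ
  have hW : ∀ j b, ((tp_ld Λ θ).W j).coeff b = (Λ.W j).coeff (θ.symm b) := fun j b =>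
    tp_coeff θ _ b
  have hS : (tp_ld Λ θ).S = Λ.S.image θ := rfl
  refine ⟨tp_ld Λ θ, ⟨fun _ => rfl, rfl, rfl⟩, fun χ => ?_,
    card_image_of_injective _ θ.injective, fun h b => by rw [hW]; exact h _, fun c κ h => ?_⟩
  · ext j
    rw [LD.L, LD.L, coeff_map, coeff_map, LD.coeff_LZ, LD.coeff_LZ]
    split_ifs
    · exact ev_pu _ _ _
    · simp
  refine ⟨?_, fun j hj b => ?_, fun j hj => ?_, fun j hj b hb => ?_, ?_, fun b hb => ?_,
    fun U V hU hV cU cV h1 h2 => ?_, ?_⟩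
  · change θ Λ.ω = _
    rw [h.om, map_nsmul]
  · rw [hW, hW, map_sub, map_nsmul, θ.symm_apply_apply, h.sym j hj]
  · simp only [hW]
    exact (θ.symm.toEquiv.sum_comp fun a => (Λ.W j).coeff a ^ 2).trans_le (h.e0 j hj)
  · simp only [hW, map_add]
    have := h.e1 j hj (θ.symm b) (by simpa using hb)
    rwa [← θ.symm.toEquiv.sum_comp] at this
  · rw [hW, θ.symm_apply_apply, h.top]
  · rw [hW]
    exact h.low _ fun e => hb (by rw [← e, θ.apply_symm_apply])
  · have sub : ∀ X : Finset A', X ⊆ (tp_ld Λ θ).S → X.image θ.symm ⊆ Λ.S := fun X hX a ha => by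
      obtain ⟨b, hb, rfl⟩ := mem_image.1 ha
      obtain ⟨u, hu, rfl⟩ := mem_image.1 (hX hb)
      rwa [θ.symm_apply_apply]
    refine image_injective θ.symm.injective (h.ind _ _ (sub U hU) (sub V hV)
      (by rw [card_image_of_injective _ θ.symm.injective, cU])
      (by rw [card_image_of_injective _ θ.symm.injective, cV]) (fun s hs t ht e => ?_) ?_)
    · obtain ⟨s, hs', rfl⟩ := mem_image.1 hs
      obtain ⟨t, ht', rfl⟩ := mem_image.1 ht
      exact h1 s hs' t ht' (by rw [← e, map_add, θ.apply_symm_apply, θ.apply_symm_apply])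
    · rw [sum_image θ.symm.injective.injOn, sum_image θ.symm.injective.injOn, ← map_sum,
        ← map_sum, h2]
  · obtain ⟨T, t1, t2, t3⟩ := h.pr
    refine ⟨T.image θ, by rwa [card_image_of_injective _ θ.injective], fun x hx => ?_,
      fun j j0 jn a ha => ?_⟩
    · obtain ⟨x, hx', rfl⟩ := mem_image.1 hx
      rw [hW, θ.symm_apply_apply, t2 x hx']
    · rw [filter_image, card_image_of_injective _ θ.injective]
      simp only [hW, map_sub, θ.symm_apply_apply]
      exact t3 j j0 jn _ fun e => by simpa using ha e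

end

section

theorem p_ENL (hENE : S_ENE) :
    S_ENL := by
  intro c q n A _ _ Λ κ hB hq h
  have := hB.nt
  have q0 : (0 : ℝ) < q := Nat.cast_pos.2 ((Nat.two_pow_pos _).trans_le hq)
  have k : ∀ j ≤ n, en (Λ.W j) / q ^ j ≤ 2 * c := fun j hj => by
    rw [div_le_iff₀ (by positivity)]
    refine (hENE A hB.cyc (Λ.W j) (c * q ^ j) (c * q ^ j / q) (by exact_mod_cast h.e0 j hj)
      (fun b hb => ?_) (by positivity)).trans ?_
    · rw [abs_of_nonneg (sum_nonneg fun a _ => by exact_mod_cast mul_nonneg (Λ.nn _ _) (Λ.nn _ _)),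
        le_div_iff₀' q0]
      exact_mod_cast h.e1 j hj b hb
    · have : (om A : ℝ) * (c * q ^ j / q) ≤ q * (c * q ^ j / q) :=
        mul_le_mul_of_nonneg_right (Nat.cast_le.2 hq) (by positivity)
      rw [mul_div_cancel₀ _ q0.ne'] at this
      linarith
  have e : av (fun ψ => nq q (2 * n) (Λ.L ψ)) = ∑ i ∈ range (2 * n + 1), en (Λ.W i) / q ^ i := by
    simp only [av, nq, en]
    rw [sum_comm, sum_div]
    refine sum_congr rfl fun i hi => ?_
    rw [div_right_comm, ← sum_div]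
    simp only [Λ.coeff_L _ (Nat.lt_succ_iff.1 (mem_range.1 hi))]
  rw [e]
  refine (sum_le_card_nsmul _ _ (2 * c : ℝ) fun i hi => ?_).trans_eq (by simp)
  rcases le_total i n with h1 | h1
  · exact k i h1
  have h2 := mem_range.1 hi
  obtain ⟨j, hj, rfl⟩ : ∃ j ≤ n, i = 2 * n - j := ⟨2 * n - i, by omega, by omega⟩
  refine Eq.trans_le ?_ (k j hj)
  have e1 : en (Λ.W (2 * n - j)) = (q ^ (n - j)) ^ 2 * en (Λ.W j) := by
    simp only [en, av]
    rw [← mul_div_assoc, mul_sum]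
    refine congrArg (· / _) (sum_congr rfl fun ψ hψ => ?_)
    rw [Λ.fe ψ (Fa_ne hψ) j hj]
    simp [mul_pow]
  rw [e1, show 2 * n - j = (n - j) * 2 + j by omega, pow_add, pow_mul,
    mul_div_mul_left _ _ (by positivity)]

end

section

lemma lft_deg {q n : ℕ} {A : Type} [AddCommGroup A] (Λ : LD q n A) (ψ : AddChar A ℂ) :
    (Λ.L ψ).natDegree ≤ 2 * n := by
  refine natDegree_le_iff_coeff_eq_zero.2 fun j hj => ?_
  rw [LD.L, coeff_map, Λ.coeff_LZ, if_neg (by omega), map_zero]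

lemma lft_c0 {q n : ℕ} {A : Type} [AddCommGroup A] (Λ : LD q n A) (ψ : AddChar A ℂ) :
    (Λ.L ψ).coeff 0 = 1 := by
  rw [Λ.coeff_L ψ (Nat.zero_le _), Λ.w0, map_one]

theorem p_LFT (hKER : S_KER) (hCAS : S_CAS) (hMAH : S_MAH) (hLB : S_LB) (hENL : S_ENL) :
    S_LFT := by
  intro c n
  refine ⟨4 ^ (2 * n) * ((2 * n + 1) * (2 * c)) + 1, ?_⟩
  intro q A _ _ Λ κ hB hom hHD χ hχ M hM hM0 ⟨B, hL⟩
  have hom1 : 1 ≤ om A := Nat.one_le_two_pow
  have hq : 0 < q := by omega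
  have hB0 : B.coeff 0 = 1 := by
    have := lft_c0 Λ χ
    rwa [hL, mul_coeff_zero, hM0, one_mul] at this
  obtain ⟨P', hP'⟩ := hM.of_mul (B := B) hM0 ⟨Λ.LZ, hL⟩
  obtain ⟨P, hP⟩ := hM
  have tr : ∀ ψ ∈ Fa A, ∀ x y : ZA A, ev χ x = ev χ y → ev ψ x = ev ψ y := fun ψ hψ x y h => by
    have := ((hKER A χ hχ).1 ψ hψ).1 (x - y) (by rw [map_sub, h, sub_self])
    rwa [map_sub, sub_eq_zero] at this
  have key : ∀ j, en (P.coeff j) ≤ 4 ^ (2 * n) * q ^ j * ((2 * n + 1) * (2 * c)) := by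
    intro j
    refine le_trans ?_ (mul_le_mul_of_nonneg_left (hENL c q n A Λ κ hB hom hHD) (by positivity))
    unfold en av
    rw [← mul_div_assoc, mul_sum]
    refine div_le_div_of_nonneg_right (sum_le_sum fun ψ hψ => ?_) (by positivity)
    have e1 : Λ.L ψ = P.map (ev ψ) * P'.map (ev ψ) := by
      rw [← Polynomial.map_mul]
      ext i
      rw [LD.L, coeff_map, coeff_map]
      refine tr ψ hψ _ _ ?_
      rw [← coeff_map, ← coeff_map, Polynomial.map_mul, hP, hP', ← hL, LD.L]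
    have e2 : (P.map (ev ψ)).coeff 0 = 1 := by
      rw [coeff_map, tr ψ hψ _ 1 (by rw [← coeff_map, hP, hM0, map_one]), map_one]
    have e3 : (P'.map (ev ψ)).coeff 0 = 1 := by
      rw [coeff_map, tr ψ hψ _ 1 (by rw [← coeff_map, hP', hB0, map_one]), map_one]
    have e4 : Λ.L ψ ≠ 0 := fun h => by simpa [h] using lft_c0 Λ ψ
    have e5 : (P.map (ev ψ)).natDegree ≤ 2 * n :=
      (natDegree_le_of_dvd ⟨_, e1⟩ e4).trans (lft_deg Λ ψ)
    have := (hMAH _ _ _ (2 * n) (2 * n) q hq e1 e2 e3 e5 (lft_deg Λ ψ)).1 j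
    rwa [coeff_map] at this
  choose y hy1 hy2 using hCAS A hB.cyc
  refine ⟨fun j => if j = 0 then 1 else y (P.coeff j), if_pos rfl, fun j => ?_, fun j => ?_⟩
  · beta_reduce
    split_ifs with h
    · rw [h, hM0, map_one]
    · rw [hy1 _ χ hχ, ← coeff_map, hP]
  · beta_reduce
    split_ifs with h
    · refine (sz_single 0 1).trans ?_
      exact Nat.mul_pos (Nat.mul_pos (Nat.succ_pos _) hom1) (pow_pos hq j)
    · have h1 := (hy2 (P.coeff j)).trans (mul_le_mul_of_nonneg_left (key j) (by positivity))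
      have h2 : (om A : ℝ) * (4 ^ (2 * n) * q ^ j * ((2 * n + 1) * (2 * c))) ≤
          (4 ^ (2 * n) * ((2 * n + 1) * (2 * c)) + 1) * om A * q ^ j := by
        have : (0 : ℝ) ≤ om A * q ^ j := by positivity
        nlinarith
      exact_mod_cast h1.trans h2

end

section

lemma con_card {A : Type} [AddCommGroup A] (U T : Finset A) (W : ZA A) {q b : ℕ}
    (h : ∀ a ∈ U, q * #{x ∈ T | W.coeff (x - a) ≠ 0} ≤ b) :
    q * #{x ∈ T | ∃ a ∈ U, W.coeff (x - a) ≠ 0} ≤ #U * b := by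
  refine le_trans (Nat.mul_le_mul_left _ ((card_le_card (t := U.biUnion fun a =>
    {x ∈ T | W.coeff (x - a) ≠ 0}) fun x hx => ?_).trans card_biUnion_le)) ?_
  · obtain ⟨h1, a, h2, h3⟩ := mem_filter.1 hx
    exact mem_biUnion.2 ⟨a, h2, mem_filter.2 ⟨h1, h3⟩⟩
  · rw [mul_sum]
    exact sum_le_card_nsmul _ _ _ h

open Pointwise in
theorem p_CON (hSML : S_SML) (hPK : S_PK) (hDOM : S_DOM) :
    S_CON := by
  intro c n K hn
  obtain ⟨q0, H⟩ := hSML c (n + 1) (c * (c + n * c + 2 ^ n) * (2 * (K + 1)) ^ n + 1) (n + 1)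
  refine ⟨q0 + 1, fun q A _ _ Λ κ hq B h G μ g0 g1 g2 => ?_⟩
  have hR : _ * om A ^ _ ≤ q := H q _ (by omega) Nat.card_pos.ne' B.le
  have R1 : 1 ≤ om A := Nat.one_le_two_pow
  obtain ⟨P, p0, p1, p2⟩ := hPK A B.cyc
  generalize om A = R at *
  obtain ⟨ρ, e1⟩ : ∃ ρ, ρ = (K + 1) * R := ⟨_, rfl⟩
  have r1 : 1 ≤ ρ := by nlinarith
  obtain ⟨s, s1, s2, s3⟩ := hDOM A G (ρ * q) g0 (Nat.mul_pos r1 (by omega)) fun j hj =>
    (g1 j).trans (by
      rw [mul_pow]
      exact Nat.mul_le_mul_right _ (le_trans (by nlinarith) (Nat.le_self_pow hj ρ)))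
  obtain ⟨T', t1, t2⟩ := s3 n (by omega)
  obtain ⟨T, u1, u2, u3⟩ := h.pr
  have z := p2 _ fun ψ hψ => (map_sub _ _ _).trans (sub_eq_zero.2 (g2 s s1 ψ hψ))
  have pw : ∀ i ≤ n, (2 * (ρ * q)) ^ i ≤ (2 * ρ) ^ n * q ^ i := fun i hi => by
    rw [← mul_assoc, mul_pow]
    exact Nat.mul_le_mul_right _ (Nat.pow_le_pow_right (by omega) hi)
  let B1 := {x ∈ T | ∃ a ∈ P.coeff.support.erase 0, (Λ.W n).coeff (x - a) ≠ 0}
  let B2 := fun j => {x ∈ T | ∃ a ∈ (P * s (n - j)).coeff.support, (Λ.W j).coeff (x - a) ≠ 0}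
  have b1 : q * #B1 ≤ R * (2 * ρ) ^ n * (c * q ^ n) :=
    (con_card _ T _ fun a ha => u3 n (by omega) le_rfl a fun _ => ne_of_mem_erase ha).trans
      (Nat.mul_le_mul_right _ ((card_erase_le.trans p1).trans
        (Nat.le_mul_of_pos_right _ (by positivity))))
  have b2 : q * #(((range n).erase 0).biUnion B2) ≤ n * (R * (2 * ρ) ^ n * (c * q ^ n)) := by
    refine (Nat.mul_le_mul_left _ card_biUnion_le).trans ?_
    rw [mul_sum]
    refine (sum_le_card_nsmul _ _ _ fun j hj => ?_).trans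
      (Nat.mul_le_mul_right _ (card_erase_le.trans_eq (card_range n)))
    have j1 := mem_range.1 (mem_of_mem_erase hj)
    refine (con_card _ T _ fun a _ => u3 j (Nat.pos_of_ne_zero (ne_of_mem_erase hj)) j1.le a
      fun e => (j1.ne e).elim).trans ((Nat.mul_le_mul_right _ ((sz_mul _ _).trans
        (Nat.mul_le_mul p1 ((s2 _ (by omega)).trans (pw _ (by omega)))))).trans_eq ?_)
    rw [← pow_sub_mul_pow q j1.le]
    ring
  have b3 : q * #(P.coeff.support + T') ≤ R * (2 * ρ) ^ n * (2 ^ n * q ^ n) := by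
    refine (Nat.mul_le_mul_left _ (card_add_le.trans (Nat.mul_le_mul p1 (t1.trans
      (Nat.mul_le_mul_left _ (pw _ (by omega))))))).trans_eq ?_
    rw [← pow_sub_one_mul (by omega : n ≠ 0) q]
    ring
  obtain ⟨x, x0, x1⟩ := exists_mem_notMem_of_card_lt_card
    (s := B1 ∪ ((range n).erase 0).biUnion B2 ∪ (P.coeff.support + T')) (t := T) (by
      refine lt_of_not_ge fun a => ?_
      have a1 := Nat.mul_le_mul_left q (a.trans ((card_union_le _ _).trans
        (Nat.add_le_add_right (card_union_le _ _) _)))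
      have a2 : q * q ^ n ≤ c * (c + n * c + 2 ^ n) * (2 * (K + 1)) ^ n * R ^ (n + 1) * q ^ n :=
        calc q * q ^ n ≤ c * (q * #T) := by
              rw [mul_left_comm]
              exact Nat.mul_le_mul_left _ u1
          _ ≤ c * (R * (2 * ρ) ^ n * (c * q ^ n) + n * (R * (2 * ρ) ^ n * (c * q ^ n)) +
              R * (2 * ρ) ^ n * (2 ^ n * q ^ n)) := Nat.mul_le_mul_left _ (by
                rw [mul_add, mul_add] at a1
                omega)
          _ = _ := by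
            rw [e1, ← mul_assoc 2, mul_pow _ R]
            ring
      have a3 := Nat.le_of_mul_le_mul_right a2 (Nat.pow_pos (by omega))
      have a4 : 0 < R ^ (n + 1) := by positivity
      rw [add_mul] at hR
      omega)
  simp only [mem_union, not_or, mem_biUnion, not_exists, not_and, B1, B2, mem_filter, x0,
    true_and, not_not] at x1
  obtain ⟨⟨x1, x2⟩, x3⟩ := x1
  have c1 : (P * Λ.W n).coeff x = 1 := by
    rw [coeff_mul, sum_eq_single 0 (fun a _ ha => ?_) (by simp), p0, sub_zero, u2 x x0, one_mul]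
    by_cases e : P.coeff a = 0
    · rw [e, zero_mul]
    · rw [x1 a (mem_erase.2 ⟨ha, Finsupp.mem_support_iff.2 e⟩), mul_zero]
  have c2 : (∑ j ∈ range n, P * (s (n - j) * Λ.W j)).coeff x = (P * s n).coeff x := by
    rw [AddMonoidAlgebra.coeff_sum, Finsupp.finsetSum_apply, sum_eq_single 0 (fun j hj j0 => ?_)
      fun e => (e (mem_range.2 (by omega))).elim, Λ.w0, mul_one, Nat.sub_zero]
    rw [← mul_assoc, coeff_mul]
    refine sum_eq_zero fun a _ => ?_
    by_cases e : (P * s (n - j)).coeff a = 0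
    · rw [e, zero_mul]
    · rw [x2 j (mem_erase.2 ⟨j0, hj⟩) a (Finsupp.mem_support_iff.2 e), mul_zero]
  obtain ⟨t, c3⟩ : (n : ℤ) ∣ (P * s n).coeff x := by
    rw [coeff_mul]
    refine dvd_sum fun a _ => ?_
    by_cases e : P.coeff a = 0
    · simp [e]
    · exact (t2 _ fun e' => x3 (mem_add.2 ⟨a, Finsupp.mem_support_iff.2 e, _, e',
        add_sub_cancel _ _⟩)).mul_left _
  rw [mul_sub, sub_eq_zero, mul_left_comm, mul_left_comm P, mul_sum, ← nsmul_eq_mul, two_mul] at z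
  have z1 := congrArg (fun y : ZA A => y.coeff x) z
  simp only [AddMonoidAlgebra.coeff_add, AddMonoidAlgebra.coeff_smul, Finsupp.add_apply,
    Finsupp.smul_apply, c1, c2, c3] at z1
  rw [nsmul_one] at z1
  exact Int.natCast_dvd_natCast.1 ⟨t, by push_cast; linarith⟩

end

section

lemma deg_root {L : ℂ[X]} {n : ℕ} {w r : ℂ} (hd : L.natDegree = 2 * n)
    (h : ∀ j ≤ n, L.coeff (2 * n - j) = w ^ (n - j) * L.coeff j) (hr : r ≠ 0)
    (h0 : L.eval r⁻¹ = 0) :
    L.coeff n + ∑ j ∈ range n, L.coeff j * (r ^ (n - j) + (w / r) ^ (n - j)) = 0 := by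
  rw [eval_eq_sum_range, hd, show 2 * n + 1 = n + 1 + n by ring, sum_range_add, sum_range_succ,
    ← sum_range_reflect (fun i => L.coeff (n + 1 + i) * r⁻¹ ^ (n + 1 + i))] at h0
  have e : ∀ j ∈ range n, L.coeff j * (r ^ (n - j) + (w / r) ^ (n - j)) =
      r ^ n * (L.coeff j * r⁻¹ ^ j +
        L.coeff (n + 1 + (n - 1 - j)) * r⁻¹ ^ (n + 1 + (n - 1 - j))) := fun j hj => by
    have hj := mem_range.1 hj
    rw [show n + 1 + (n - 1 - j) = 2 * n - j by omega, h j hj.le]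
    obtain ⟨d, rfl⟩ : ∃ d, n = j + d := ⟨n - j, by omega⟩
    rw [show 2 * (j + d) - j = j + d + d by omega, Nat.add_sub_cancel_left]
    simp only [pow_add, div_pow, inv_pow]
    field_simp
  have e2 : L.coeff n = r ^ n * (L.coeff n * r⁻¹ ^ n) := by
    rw [inv_pow]
    field_simp
  rw [sum_congr rfl e, ← mul_sum, sum_add_distrib, e2]
  linear_combination r ^ n * h0

lemma deg_sum {a : ℕ → ℂ} {n : ℕ} {w : ℂ} (ρ : Multiset ℂ)
    (h : ∀ r ∈ ρ, a n + ∑ j ∈ range n, a j * (r ^ (n - j) + (w / r) ^ (n - j)) = 0) :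
    ρ.card * a n + ∑ j ∈ range n, a j * ((ρ.map (· ^ (n - j))).sum +
      ((ρ.map fun r => w / r).map (· ^ (n - j))).sum) = 0 := by
  induction ρ using Multiset.induction_on with
  | empty => simp
  | cons r ρ ih =>
    have h1 := h r (Multiset.mem_cons_self _ _)
    have h2 := ih fun t ht => h t (Multiset.mem_cons_of_mem ht)
    simp only [Multiset.map_cons, Multiset.sum_cons, Multiset.card_cons, mul_add,
      sum_add_distrib, Nat.cast_add, Nat.cast_one] at h1 h2 ⊢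
    linear_combination h1 + h2

lemma deg_zero (ρ : Multiset ℂ) : (ofR ρ).coeff 0 = 1 := by
  rw [coeff_zero_eq_eval_zero, ofR, eval_multiset_prod]
  simp

theorem p_DEG (hSML : S_SML) (hKER : S_KER) (hNWR : S_NWR) (hLB : S_LB) (hLFT : S_LFT) (hCON : S_CON) :
    S_DEG := by
  intro c n hn
  obtain ⟨K, hK⟩ := hLFT c n
  obtain ⟨q1, h1⟩ := hCON c n K hn
  obtain ⟨q2, h2⟩ := hSML c (n + 1) 1 1
  refine ⟨max q1 q2, fun q A _ _ Λ κ hq hB hH χ hχ ρ h0 hZ hd hρ => ?_⟩
  have := hB.nt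
  have hom : om A ≤ q := by
    simpa [om] using h2 q (Nat.card A) (le_of_max_le_right hq) Nat.card_pos.ne' hB.le
  have hq0 : 0 < q := lt_of_lt_of_le (by simp [om]) hom
  obtain ⟨-, l1, -, l2⟩ := hLB q n A Λ hq0 χ (Fa_ne hχ)
  obtain ⟨G, g0, g1, g2⟩ := hK q A Λ κ hB hom hH χ hχ _ hZ (deg_zero ρ) hd
  refine h1 q A Λ κ (le_of_max_le_left hq) hB hH G _ g0 g2 fun s hs ψ hψ => ?_
  rw [← sub_eq_zero, ← map_sub]
  refine ((hKER A χ hχ).1 ψ hψ).1 _ ?_
  have n1 : Newt (ofR ρ).coeff fun m => ev χ (s m) := fun m => by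
    simpa [g1] using congrArg (ev χ) (hs m)
  have e := deg_sum ρ fun r hr => deg_root l1 (l2 c κ hH) (h0 r hr)
    (eval_eq_zero_of_dvd_of_eval_eq_zero hd (by
      rw [ofR, eval_multiset_prod, Multiset.map_map]
      exact Multiset.prod_eq_zero (Multiset.mem_map.2 ⟨r, hr, by simp [h0 r hr]⟩)))
  rw [hρ, Λ.coeff_L χ (by omega), sum_congr rfl (g := fun j => -2 * (ev χ (s (n - j)) *
    ev χ (Λ.W j))) fun j hj => by
      have hj := mem_range.1 hj
      rw [Λ.coeff_L χ (by omega), n1.s_eq (hNWR ρ) (deg_zero ρ) (n - j) (by omega)]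
      ring, ← mul_sum] at e
  simp only [map_sub, map_mul, map_natCast, map_ofNat, map_sum]
  linear_combination e

end

end Pool.Agent.P.MP_9344a7_nt.Hy
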