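import Pool.Agent.P.MP_9344a7_nt.Hy.Iface

/-! Steps MIN, STR, SIG, ST, SP1, YY, SP0, SPH. -/

set_option linter.unusedSectionVars false
set_option linter.unusedVariables false

namespace Pool.Agent.P.MP_9344a7_nt.Hy

open Polynomial Finset
open Pool.Agent.P.MP_6f117a_ag (Place FF)
open Pool.Agent.P.MP_ab3ecb_nt.Inv (Dv deg SA LS)
open Pool.Agent.P.MP_9344a7_nt.R
open Pool.Agent.P.MP_9344a7_nt.CoreC (cc)
open scoped Classical ComplexConjugate

section

lemma min_rev (ρ : Multiset ℂ) : ofR ρ = (ρ.map fun r => X - C r).prod.reverse := by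
  induction ρ using Multiset.induction_on with
  | empty => simpa [ofR] using (reverse_C (1 : ℂ)).symm
  | cons a ρ ih =>
    have e : (X - C a : ℂ[X]).reverse = 1 - C a * X := by
      have h1 : (X : ℂ[X]).reverse = 1 := by simpa using (reverse_mul_X (1 : ℂ[X])).trans (reverse_C 1)
      rw [sub_eq_add_neg, ← C_neg, reverse_add_C, h1, natDegree_X, C_neg]
      ring
    rw [Multiset.map_cons, Multiset.prod_cons, reverse_mul_of_domain, ← ih, e]
    simp [ofR]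

lemma min_dvd {p G : ℂ[X]} (h : p ∣ G.reverse) : p.reverse ∣ G := by
  by_cases h0 : G = 0
  · simp [h0]
  obtain ⟨s, hs⟩ := h
  have h1 : p * s ≠ 0 := hs ▸ mt reverse_eq_zero.1 h0
  have h2 := G.reverse_natDegree_le
  rw [hs, natDegree_mul (left_ne_zero_of_mul h1) (right_ne_zero_of_mul h1)] at h2
  refine ⟨reflect (G.natDegree - p.natDegree) s, ?_⟩
  rw [reverse, ← reflect_mul _ _ le_rfl (by omega), ← hs, Nat.add_sub_cancel' (by omega), reverse,
    reflect_reflect]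

lemma min_fld {A : Type} [AddCommGroup A] [Fintype A] {χ : AddChar A ℂ} (hχ : χ ∈ Fa A) :
    ∃ K : IntermediateField ℚ ℂ, (∀ x, ev χ x ∈ K) ∧
      ∀ z : K, IsIntegral ℤ z → ∃ x, ev χ x = z := by
  have : NeZero (Fintype.card A) := ⟨Fintype.card_ne_zero⟩
  have hζ := Complex.isPrimitiveRoot_exp _ (NeZero.ne (Fintype.card A))
  generalize Complex.exp _ = ζ at hζ
  have h1 : ∀ a, χ a ^ Fintype.card A = 1 := fun a => by
    rw [← AddChar.map_nsmul_eq_pow, card_nsmul_eq_zero, AddChar.map_zero_eq_one]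
  obtain ⟨a0, ha0⟩ : ∃ a, χ a = ζ := by
    have h2 : univ.image χ = nthRootsFinset (Fintype.card A) (1 : ℂ) :=
      eq_of_subset_of_card_le (fun z hz => by
        obtain ⟨a, -, rfl⟩ := mem_image.1 hz
        exact (mem_nthRootsFinset (NeZero.pos _) _).2 (h1 a))
        (by rw [hζ.card_nthRootsFinset, card_image_of_injective _ (mem_Fa.1 hχ), card_univ])
    have h3 := (mem_nthRootsFinset (NeZero.pos _) (1 : ℂ)).2 hζ.pow_eq_one
    rw [← h2] at h3
    simpa using h3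
  refine ⟨IntermediateField.adjoin ℚ {ζ}, fun x => ?_, fun z hz => ?_⟩
  · rw [ev_eq]
    refine sum_mem fun a _ => mul_mem (intCast_mem _ _) ?_
    obtain ⟨i, -, e⟩ := hζ.eq_pow_of_pow_eq_one (h1 a)
    exact e ▸ pow_mem (IntermediateField.mem_adjoin_simple_self ℚ ζ) i
  have hc : IsCyclotomicExtension {Fintype.card A} ℚ (IntermediateField.adjoin ℚ {ζ}) := by
    change IsCyclotomicExtension _ ℚ (IntermediateField.adjoin ℚ {ζ}).toSubalgebra
    rw [IntermediateField.adjoin_simple_toSubalgebra_of_isAlgebraic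
      ((hζ.isIntegral (NeZero.pos _)).tower_top (A := ℚ)).isAlgebraic]
    exact hζ.adjoin_isCyclotomicExtension ℚ
  have : NumberField (IntermediateField.adjoin ℚ {ζ}) :=
    IsCyclotomicExtension.numberField {Fintype.card A} ℚ _
  have hζ' : IsPrimitiveRoot (IntermediateField.AdjoinSimple.gen ℚ ζ) (Fintype.card A) :=
    IsPrimitiveRoot.coe_submonoidClass_iff.1 hζ
  obtain ⟨⟨y, hy⟩, rfl⟩ :=
    (IsCyclotomicExtension.Rat.isIntegralClosure_adjoin_singleton hζ').isIntegral_iff.1 hz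
  change ∃ x, ev χ x = (y : ℂ)
  clear hz
  induction hy using Algebra.adjoin_induction with
  | mem x hx => exact ⟨.single a0 1, by rw [hx]; simpa using ha0⟩
  | algebraMap n => exact ⟨n, by simp⟩
  | add x y _ _ hx hy =>
    obtain ⟨a, ha⟩ := hx
    obtain ⟨b, hb⟩ := hy
    exact ⟨a + b, by rw [map_add, ha, hb]; rfl⟩
  | mul x y _ _ hx hy =>
    obtain ⟨a, ha⟩ := hx
    obtain ⟨b, hb⟩ := hy
    exact ⟨a * b, by rw [map_mul, ha, hb]; rfl⟩

lemma min_gen {A K : Type} [AddCommGroup A] [Field K] [CharZero K] [Algebra K ℂ] {χ : AddChar A ℂ}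
    (hK : ∀ x, ∃ z : K, algebraMap K ℂ z = ev χ x)
    (hK' : ∀ z : K, IsIntegral ℤ z → ∃ x, ev χ x = algebraMap K ℂ z) {r : ℂ} (hr : r ≠ 0)
    (hi : IsIntegral ℤ r) :
    ∃ ρ : Multiset ℂ, r ∈ ρ ∧ ρ.Nodup ∧ (∀ t ∈ ρ, t ≠ 0) ∧ Prim χ (ofR ρ) := by
  have hiK : IsIntegral K r := hi.tower_top
  have hm := minpoly.monic hiK
  have hirr := minpoly.irreducible hiK
  have hmC := hm.map (algebraMap K ℂ)
  have hrt : ∀ t, t ∈ ((minpoly K r).map (algebraMap K ℂ)).roots ↔ aeval t (minpoly K r) = 0 :=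
    fun t => by rw [mem_roots hmC.ne_zero, IsRoot, eval_map_algebraMap]
  have hof : ofR ((minpoly K r).map (algebraMap K ℂ)).roots =
      ((minpoly K r).map (algebraMap K ℂ)).reverse := by
    rw [min_rev, ← (IsAlgClosed.splits _).eq_prod_roots_of_monic hmC]
  have h0 : ∀ t, aeval t (minpoly K r) = 0 → t ≠ (0 : ℂ) := by
    rintro t ht rfl
    rw [← coeff_zero_eq_aeval_zero', map_eq_zero] at ht
    exact minpoly.coeff_zero_ne_zero hiK hr ht
  refine ⟨((minpoly K r).map (algebraMap K ℂ)).roots, (hrt r).2 (minpoly.aeval K r),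
    nodup_roots hirr.separable.map,
    fun t ht => h0 t ((hrt t).1 ht), ?_, ?_, fun G hG α h1 h2 => ?_⟩
  · rw [hof]
    refine zc_iff.2 fun i => ?_
    rw [coeff_reverse, coeff_map]
    exact hK' _ (isIntegral_coeff_of_dvd (minpoly ℤ r) _ (minpoly.monic hi) hm
      (minpoly.dvd_map_of_isScalarTower ℤ K r) _)
  · rw [hof, coeff_zero_reverse, hmC.leadingCoeff]
  rw [ofR, eval_multiset_prod, Multiset.map_map, Multiset.prod_eq_zero_iff, Multiset.mem_map] at h1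
  obtain ⟨t, ht, e⟩ := h1
  have ht' := (hrt t).1 ht
  have e' : t * α = 1 := by
    simp only [Function.comp, eval_sub, eval_one, eval_mul, eval_C, eval_X] at e
    linear_combination -e
  obtain ⟨G0, rfl⟩ : ∃ G0 : K[X], G0.map (algebraMap K ℂ) = G :=
    (mem_lifts G).1 ((lifts_iff_coeff_lifts G).2 fun i => by
      obtain ⟨x, hx⟩ := zc_iff.1 hG i
      exact hx ▸ hK x)
  rw [hof]
  refine min_dvd ?_
  have hr2 : (G0.map (algebraMap K ℂ)).reverse = G0.reverse.map (algebraMap K ℂ) := by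
    rw [reverse, reverse, natDegree_map, reflect_map]
  rw [hr2]
  refine Polynomial.map_dvd (algebraMap K ℂ) ?_
  refine (minpoly.eq_of_irreducible_of_monic hirr ht' hm).dvd.trans (minpoly.dvd K t ?_)
  let _ : Invertible α := ⟨t, e', (mul_comm _ _).trans e'⟩
  rw [eval_map] at h2
  rw [aeval_def]
  exact (eval₂_reverse_eq_zero_iff (algebraMap K ℂ) α G0).2 h2

theorem p_MIN :
    S_MIN := by
  intro A _ _ χ hχ r hr hi
  obtain ⟨K, hK, hK'⟩ := min_fld hχ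
  exact min_gen (K := K) (fun x => ⟨⟨_, hK x⟩, rfl⟩) hK' hr hi

end

section

lemma str_eval {ρ : Multiset ℂ} (h : ∀ t ∈ ρ, t ≠ 0) (α : ℂ) :
    (ofR ρ).eval α = 0 ↔ α⁻¹ ∈ ρ := by
  simp only [ofR, eval_multiset_prod, Multiset.map_map, Multiset.prod_eq_zero_iff,
    Multiset.mem_map, Function.comp, eval_sub, eval_one, eval_mul, eval_C, eval_X, sub_eq_zero]
  refine ⟨fun ⟨r, hr, e⟩ => by rwa [← eq_inv_of_mul_eq_one_left e.symm], fun e => ⟨_, e, ?_⟩⟩
  rw [inv_mul_cancel₀ (inv_ne_zero (h _ e) ∘ fun h => by rw [h, inv_zero, inv_zero])]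

lemma str_add (ρ ρ' : Multiset ℂ) : ofR (ρ + ρ') = ofR ρ * ofR ρ' := by simp [ofR]

lemma str_deg {ρ : Multiset ℂ} (h : ∀ t ∈ ρ, t ≠ 0) : (ofR ρ).natDegree = ρ.card := by
  have a (r : ℂ) (hr : r ≠ 0) : (1 - C r * X : ℂ[X]).natDegree = 1 := by
    compute_degree!
  rw [ofR, natDegree_multiset_prod _ fun e => ?_, Multiset.map_map,
    Multiset.map_congr rfl (f := natDegree ∘ _) (g := fun _ => 1) fun r hr => a r (h r hr)]
  · simp
  · obtain ⟨r, hr, e⟩ := Multiset.mem_map.1 e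
    simpa [e] using a r (h r hr)

lemma str_rev {p : ℂ[X]} {d : ℕ} (h : p.natDegree ≤ d) {β : ℂ} (hβ : β ≠ 0) :
    (reflect d p).eval β = 0 ↔ p.eval β⁻¹ = 0 := by
  let := invertibleOfNonzero (inv_ne_zero hβ)
  simpa using eval₂_reflect_eq_zero_iff (RingHom.id ℂ) β⁻¹ d p h

variable {A : Type} [AddCommGroup A] [Fintype A] {χ : AddChar A ℂ}

lemma str_int (x : ZA A) : IsIntegral ℤ (ev χ x) := by
  rw [ev_eq]
  refine .sum _ fun a _ => .mul (isIntegral_algebraMap (x := x.coeff a))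
    (.of_pow (Fintype.card_pos (α := A)) ?_)
  rw [← AddChar.map_nsmul_eq_pow, card_nsmul_eq_zero, AddChar.map_zero_eq_one]
  exact isIntegral_one

lemma str_swap {ρ ρ' : Multiset ℂ} {x : ZA A} (hw : ev χ x ≠ 0) (h : ∀ t ∈ ρ, t ≠ 0)
    (h' : ∀ t ∈ ρ', t ≠ 0) (hM : Zc χ (ofR ρ)) (hB : Prim χ (ofR ρ')) {r : ℂ} (hr : r ∈ ρ')
    (hr' : ev χ x / r ∈ ρ) : ∀ t ∈ ρ', ev χ x / t ∈ ρ := by
  have a (t : ℂ) (ht : t ∈ ρ') : ((reflect ρ.card (ofR ρ)).comp (C (ev χ x) * X)).eval t⁻¹ = 0 ↔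
      ev χ x / t ∈ ρ := by
    rw [eval_comp, eval_mul, eval_C, eval_X, str_rev (str_deg h).le
      (mul_ne_zero hw (inv_ne_zero (h' t ht))), str_eval h, inv_inv, div_eq_mul_inv]
  intro t ht
  refine (a t ht).1 (eval_eq_zero_of_dvd_of_eval_eq_zero (hB.dvd _ (zc_iff.2 fun i => ?_) r⁻¹
    ((str_eval h' _).2 (by rwa [inv_inv])) ((a r hr).2 hr')) ((str_eval h' _).2 (by rwa [inv_inv])))
  obtain ⟨y, hy⟩ := zc_iff.1 hM (revAt ρ.card i)
  exact ⟨y * x ^ i, by rw [comp_C_mul_X_coeff, coeff_reflect, map_mul, map_pow, hy]⟩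

theorem p_STR (hMIN : S_MIN) :
    S_STR := by
  intro A _ _ χ hχ L n x hn hZ h0 hd hw hfe hdiv
  obtain ⟨α, hα⟩ := IsAlgClosed.exists_root L fun e => by
    rw [natDegree_eq_zero_iff_degree_le_zero.2 e.le] at hd
    omega
  have nz (β : ℂ) (h : L.eval β = 0) : β ≠ 0 := fun e => by
    rw [e, ← coeff_zero_eq_eval_zero, h0] at h
    exact one_ne_zero h
  have fe : (reflect (2 * n) L).comp (C (ev χ x) * X) = C (ev χ x ^ n) * L := by
    ext j
    rw [comp_C_mul_X_coeff, coeff_reflect, coeff_C_mul]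
    by_cases a : j ≤ n
    · rw [revAt_le (by omega), hfe j a, mul_right_comm, ← pow_add, Nat.sub_add_cancel a]
    by_cases b : j ≤ 2 * n
    · have := hfe (2 * n - j) (by omega)
      rw [Nat.sub_sub_self b] at this
      rw [revAt_le b, this, ← mul_assoc, ← pow_add, mul_comm, show n + (n - (2 * n - j)) = j by omega]
    · rw [revAt_eq_self_of_lt (by omega), coeff_eq_zero_of_natDegree_lt (by omega)]
      simp
  have hβ : L.eval (ev χ x / α⁻¹)⁻¹ = 0 := by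
    have := (str_rev hd.le (β := ev χ x * (ev χ x / α⁻¹)⁻¹) (by simp [hw, nz α hα])).2 (by
      rw [div_inv_eq_mul, mul_inv (ev χ x) α, mul_inv_cancel_left₀ hw, inv_inv]
      exact hα)
    have e := congrArg (eval (ev χ x / α⁻¹)⁻¹) fe
    rw [eval_comp, eval_mul, eval_C, eval_X, this, eval_mul, eval_C] at e
    exact (mul_eq_zero.1 e.symm).resolve_left (pow_ne_zero _ hw)
  have mn (r : ℂ) (h : L.eval r⁻¹ = 0) : ∃ ρ : Multiset ℂ, r ∈ ρ ∧ ρ.Nodup ∧ (∀ t ∈ ρ, t ≠ 0) ∧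
      Prim χ (ofR ρ) ∧ ofR ρ ∣ L := by
    have r0 : r ≠ 0 := fun e => nz _ h (by rw [e, inv_zero])
    have c : (reflect (2 * n) L).coeff (2 * n) = 1 := by simpa using h0
    have d := natDegree_eq_of_le_of_coeff_ne_zero (p := reflect (2 * n) L)
      (natDegree_le_iff_coeff_eq_zero.2 fun j hj => by
        rw [coeff_reflect, revAt_eq_self_of_lt hj, coeff_eq_zero_of_natDegree_lt (by omega)])
      (c ▸ one_ne_zero)
    obtain ⟨ρ, a1, a2, a3, a4⟩ := hMIN A χ hχ r r0 (.of_aeval_monic_of_isIntegral_coeff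
      (p := reflect (2 * n) L) (by rw [Monic, leadingCoeff, d, c]) (by omega)
      (by rw [(str_rev hd.le r0).2 h]; exact isIntegral_zero) fun i => by
        obtain ⟨y, hy⟩ := zc_iff.1 hZ (revAt (2 * n) i)
        rw [coeff_reflect, ← hy]
        exact str_int y)
    exact ⟨ρ, a1, a2, a3, a4, a4.dvd L hZ r⁻¹ ((str_eval a3 _).2 (by rwa [inv_inv])) h⟩
  obtain ⟨ρ, a1, a2, a3, a4, a5⟩ := mn α⁻¹ (by rwa [inv_inv])
  obtain ⟨ρ', b1, b2, b3, b4, b5⟩ := mn _ hβ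
  have h2 := str_swap hw b3 a3 b4.zc a4 a1 b1
  have h1 := str_swap hw a3 b3 a4.zc b4 b1 (by rwa [div_div_cancel₀ hw])
  have inj : Function.Injective fun r => ev χ x / r := fun a b e =>
    inv_injective (mul_left_cancel₀ hw e)
  have mp {σ σ' : Multiset ℂ} (n1 : σ.Nodup) (n2 : σ'.Nodup) (k1 : ∀ t ∈ σ, ev χ x / t ∈ σ')
      (k2 : ∀ t ∈ σ', ev χ x / t ∈ σ) : σ.map (fun r => ev χ x / r) = σ' :=
    (Multiset.Nodup.ext (n1.map inj) n2).2 fun t => by
      rw [Multiset.mem_map]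
      exact ⟨fun ⟨a, ha, e⟩ => e ▸ k1 a ha, fun ht => ⟨_, k2 t ht, div_div_cancel₀ hw⟩⟩
  have m1 := mp a2 b2 h2 h1
  have m2 := mp b2 a2 h1 h2
  have pos := Multiset.card_pos_iff_exists_mem.2 ⟨_, a1⟩
  have cd : ρ'.card = ρ.card := by rw [← m1, Multiset.card_map]
  by_cases hm : ∃ t ∈ ρ, t ∈ ρ'
  · obtain ⟨t, t1, t2⟩ := hm
    have e : ρ = ρ' := Multiset.eq_of_le_of_card_le ((Multiset.le_iff_subset a2).2 fun s hs => by
      simpa using (str_eval b3 s⁻¹).1 (eval_eq_zero_of_dvd_of_eval_eq_zero (a4.dvd _ b4.zc t⁻¹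
        ((str_eval a3 _).2 (by rwa [inv_inv])) ((str_eval b3 _).2 (by rwa [inv_inv])))
        ((str_eval a3 _).2 (by rwa [inv_inv])))) cd.le
    have := Nat.le_of_dvd pos (hdiv ρ a3 a4.zc a5 (m1.trans e.symm))
    exact .inl (eq_of_dvd a5 a4.c0 h0 (by rw [str_deg a3, hd]; exact this) ▸ a4)
  have c3 : ∀ t ∈ ρ + ρ', t ≠ 0 := fun t ht => (Multiset.mem_add.1 ht).elim (a3 t) (b3 t)
  have dv : ofR ρ * ofR ρ' ∣ L := IsCoprime.mul_dvd
    ((isCoprime_iff_aeval_ne_zero_of_isAlgClosed ℂ ℂ _ _).2 fun a => by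
      rw [coe_aeval_eq_eval, Ne, Ne, str_eval a3, str_eval b3, ← not_and_or]
      exact fun h => hm ⟨_, h⟩) a5 b5
  have k := Nat.le_of_dvd (by rw [Multiset.card_add]; omega) (hdiv (ρ + ρ') c3
    (str_add ρ ρ' ▸ a4.zc.mul b4.zc) (str_add ρ ρ' ▸ dv) (by rw [Multiset.map_add, m1, m2, add_comm]))
  have e := eq_of_dvd dv (by rw [mul_coeff_zero, a4.c0, b4.c0, mul_one]) h0
    (by rw [← str_add, str_deg c3, hd]; exact k)
  have d := str_deg c3
  rw [str_add, e, hd, Multiset.card_add] at d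
  refine .inr ⟨_, _, a4, b4, by rw [str_deg a3]; omega, by rw [str_deg b3]; omega, e.symm,
    fun β => ?_⟩
  rw [str_eval a3, str_eval b3, inv_inv]
  exact ⟨fun h => by simpa using h2 _ h, fun h => by simpa [div_mul_cancel_left₀ hw] using h1 _ h⟩

end

section

lemma sig_zc {A : Type} [AddCommGroup A] [Fintype A] {χ : AddChar A ℂ} {M : ℂ[X]} (h : Zc χ M)
    (κ : A) : Zc χ (tw (χ κ) M) := by
  refine zc_iff.2 fun j => ?_
  obtain ⟨x, hx⟩ := zc_iff.1 h j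
  refine ⟨pu (-AddMonoidHom.id A) x * AddMonoidAlgebra.single κ 1 ^ j, ?_⟩
  rw [map_mul, map_pow, ← conj_ev, hx, coeff_tw, ev_single]
  simp

theorem p_SIG :
    S_SIG := by
  intro A _ _ χ κ q n L L' M B hq hn h hL hL' zc c0 hd hM
  have hk : χ κ ≠ 0 := fun e => by
    have := χ.map_add_eq_mul κ (-κ)
    rw [add_neg_cancel, χ.map_zero_eq_one, e, zero_mul] at this
    exact one_ne_zero this
  have M0 : M ≠ 0 := fun e => by simpa [e] using h.pM.c0
  have B0 : B ≠ 0 := fun e => by simpa [e] using h.pB.c0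
  obtain ⟨α, hα⟩ := Complex.exists_root (f := M) (natDegree_pos_iff_degree_pos.1 (h.dM ▸ hn))
  have hα : M.eval α = 0 := hα
  have h1 : L.eval (q * conj α)⁻¹ = 0 := hL α (by rw [h.eq, eval_mul, hα, zero_mul])
  have h2 : L'.eval (q * conj α)⁻¹ = 0 := hL' α (eval_eq_zero_of_dvd_of_eval_eq_zero hM hα)
  by_cases h3 : M.eval (q * conj α)⁻¹ = 0
  · right
    have h4 : (tw (χ κ) M).eval (q * χ κ * α)⁻¹ = 0 := by
      have e : χ κ * (q * χ κ * α)⁻¹ = (q * α)⁻¹ := by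
        rw [mul_right_comm, mul_comm (_ * α), mul_inv (χ κ), mul_inv_cancel_left₀ hk]
      rw [eval_tw, e, map_inv₀, map_mul, Complex.conj_natCast, h3, map_zero]
    refine eq_of_dvd (h.pB.dvd _ (sig_zc h.pM.zc κ) _ ((h.rt α).1 hα) h4) h.pB.c0
      (by simp [coeff_tw, h.pM.c0]) ?_
    rw [h.dB, ← h.dM]
    exact natDegree_le_iff_coeff_eq_zero.2 fun j hj => by
      rw [coeff_tw, coeff_eq_zero_of_natDegree_lt hj, map_zero, zero_mul]
  · left
    rw [h.eq, eval_mul] at h1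
    have h4 := (mul_eq_zero.1 h1).resolve_left h3
    have hc : IsCoprime M B := by
      refine (isCoprime_iff_aeval_ne_zero_of_isAlgClosed ℂ ℂ M B).2 fun γ => ?_
      by_contra hh
      simp only [not_or, not_not, coe_aeval_eq_eval] at hh
      have := eq_of_dvd (h.pM.dvd B h.pB.zc γ hh.1 hh.2) h.pM.c0 h.pB.c0 (by rw [h.dM, h.dB])
      exact h3 (this ▸ h4)
    rw [h.eq]
    refine eq_of_dvd (hc.mul_dvd hM (h.pB.dvd L' zc _ h4 h2))
      (by rw [mul_coeff_zero, h.pM.c0, h.pB.c0, one_mul]) c0 ?_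
    rw [natDegree_mul M0 B0, h.dM, h.dB, hd, two_mul]

end

section

theorem p_ST (hLB : S_LB) (hDEG : S_DEG) (hSTR : S_STR) :
    S_ST := by
  intro c n hn
  obtain ⟨q0, h⟩ := hDEG c n hn
  refine ⟨q0 + 1, fun q A _ _ Λ κ hq hB hH χ hχ => ?_⟩
  have := hB.nt
  obtain ⟨h0, hd, -, hf⟩ := hLB q n A Λ (by omega) χ (Fa_ne hχ)
  have e : ev χ (AddMonoidAlgebra.single κ (q : ℤ)) = q * χ κ := by simp
  have hk : χ κ ≠ 0 := (χ.val_isUnit κ).ne_zero
  have hq0 : (q : ℂ) ≠ 0 := Nat.cast_ne_zero.2 (by omega)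
  have k := hSTR A χ hχ (Λ.L χ) n (AddMonoidAlgebra.single κ (q : ℤ)) (by omega) ⟨Λ.LZ, rfl⟩ h0 hd
  rw [e] at k
  exact k (mul_ne_zero hq0 hk) (hf c κ hH) (h q A Λ κ (by omega) hB hH χ hχ)

end

section

open Polynomial Finset
open Pool.Agent.P.MP_6f117a_ag (Place FF)
open Pool.Agent.P.MP_ab3ecb_nt.Inv (Dv deg SA LS)
open Pool.Agent.P.MP_9344a7_nt.R
open Pool.Agent.P.MP_9344a7_nt.CoreC (cc cc_neg)
open scoped Classical ComplexConjugate

lemma sp1_add {A : Type} [AddCommGroup A] [Fintype A] (x y : ZA A) (b : A) :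
    cv (x + y) b = cv x b + cv y b := by
  simp [cv, add_mul, sum_add_distrib]

lemma sp1_zero {A : Type} [AddCommGroup A] [Fintype A] (b : A) : cv (0 : ZA A) b = 0 := by
  simp [cv]

lemma sp1_tw {A : Type} [AddCommGroup A] [Fintype A] (x : ZA A) (γ : A ≃+ A) (t b : A) :
    cv (.single t 1 * pu (-AddMonoidHom.id A) (pu (γ : A →+ A) x)) b = cv x (γ.symm (t - b)) := by
  have e : (-AddMonoidHom.id A).comp (γ : A →+ A) = (γ.trans (AddEquiv.neg A) : A ≃+ A) := by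
    ext a
    simp
  rw [pu_pu, e, cv, cv]
  symm
  refine Fintype.sum_equiv (γ.toEquiv.trans (Equiv.subLeft t)) _ _ fun a => ?_
  have h1 : (γ.toEquiv.trans (Equiv.subLeft t)) a = t - γ a := rfl
  have h2 : t - γ a - t = (γ.trans (AddEquiv.neg A)) a := by simp
  rw [h1, coeff_single_mul, one_mul, h2, coeff_pu, ← cc_neg (t - γ a - b)]
  have h3 : -(t - γ a - b) = γ (a - γ.symm (t - b)) := by
    rw [map_sub, AddEquiv.apply_symm_apply]
    abel
  rw [h3, cc, cc, γ.addOrderOf_eq]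

theorem p_SP1 (hCV : S_CV) :
    S_SP1 := by
  intro q n A _ _ Λ M γ κ hn hc h0 hF b
  rw [← sp1_tw, ← sp1_add, ← sp1_add, ← sp1_zero b]
  refine (hCV A hc).1 _ _ (fun ψ hψ => ?_) b
  have h1 := congrArg (fun p : ℂ[X] => p.coeff 1) (hF ψ hψ)
  have h2 := congrArg (fun p : ℂ[X] => p.coeff 2) (hF ψ hψ)
  rw [Λ.coeff_L ψ (by omega), Polynomial.coeff_mul,
    Nat.sum_antidiagonal_eq_sum_range_succ_mk] at h1 h2
  simp only [sum_range_succ, sum_range_zero, coeff_tw, coeff_map, h0, map_one, Nat.sub_zero,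
    Nat.sub_self, Nat.add_one_sub_one] at h1 h2
  rw [map_add, map_add, map_mul, ← conj_ev, ev_pu, ev_single, AddChar.map_nsmul_eq_pow, LD.Y, p2]
  simp only [map_sub, map_mul, map_pow, map_ofNat, map_zero, h1, h2]
  push_cast
  ring

end

section

lemma yy_coeff {q n : ℕ} {A : Type} [AddCommGroup A] (Λ : LD q n A) (b : A) :
    Λ.Y.coeff b = 2 * (Λ.W 2).coeff b - (Λ.W 1 ^ 2).coeff b := by
  rw [LD.Y, two_mul, two_mul]
  simp

lemma yy_bd {q n : ℕ} {A : Type} [AddCommGroup A] [Fintype A] (Λ : LD q n A) (b : A)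
    (h : (Λ.W 2).coeff b ≤ 1) : |Λ.Y.coeff b| ≤ 2 := by
  have h1 := Λ.two b
  have h2 : 0 ≤ (Λ.W 1 ^ 2).coeff b := by
    rw [sq, coeff_mul]
    exact sum_nonneg fun a _ => mul_nonneg (Λ.nn _ _) (Λ.nn _ _)
  rw [yy_coeff, abs_le]
  constructor <;> linarith

theorem p_YY :
    S_YY := by
  intro q n A _ _ Λ hn
  refine ⟨fun h b => yy_bd Λ b (h b), ?_, fun c κ H => ⟨?_, fun b hb => yy_bd Λ b (H.low b hb)⟩⟩
  · have h : (2 * #Λ.S : ℝ) ≤ 3 * q + 4 := by exact_mod_cast Λ.hi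
    rw [LD.s]
    linarith
  · have h : (Λ.W 1 ^ 2).coeff κ = #Λ.S := by
      rw [sq, coeff_mul, sum_congr rfl (g := fun a => if a ∈ Λ.S then (1 : ℤ) else 0) fun a _ => by
        have := H.sym 1 hn a
        rw [one_smul] at this
        rw [this, Λ.w1, coeff_ind]
        split_ifs <;> simp]
      simp
    rw [yy_coeff, h, H.top, LD.s]
    push_cast
    ring

end

section

theorem p_SP0 (hSML : S_SML) (hAV : S_AV) (hBES : S_BES) (hMAH : S_MAH) (hLB : S_LB) (hENL : S_ENL) (hYY : S_YY) :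
    S_SP0 := by
  intro c n hn
  obtain ⟨q0, h0⟩ := hSML c (n + 1) 1 1
  obtain ⟨c2, hc2⟩ : ∃ c2 : ℕ, c2 = 9 * 16 ^ (2 * n) * ((2 * n + 1) * (2 * c)) := ⟨_, rfl⟩
  refine ⟨128 * c2, 128 * c2 + 1, max q0 1, fun q A _ _ Λ κ M hq hB hD hM hF => ?_⟩
  have hq0 : 0 < q := (le_max_right _ _).trans hq
  have hq1 : (0 : ℝ) < q := by exact_mod_cast hq0
  have hom : om A ≤ q := by
    simpa [om] using h0 q (Nat.card A) ((le_max_left _ _).trans hq) Nat.card_pos.ne' hB.le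
  have := hB.nt
  have hB0 : Big A c q n 0 := ⟨hB.cyc, hB.nt, hB.le, fun l hl _ => hl.pos⟩
  have h1 : ∀ ψ ∈ Fa A, ‖ev ψ (p2 M)‖ ^ 2 ≤ 9 * 16 ^ (2 * n) * q ^ 2 * nq q (2 * n) (Λ.L ψ) := by
    intro ψ hψ
    obtain ⟨a0, a1, -⟩ := hLB q n A Λ hq0 ψ (Fa_ne hψ)
    have e : Λ.L ψ = M.map (ev ψ) * tw (ψ κ) (M.map (ev ψ)) := hF ψ hψ
    have m0 : (M.map (ev ψ)).coeff 0 = 1 := by rw [coeff_map, hM, map_one]
    have ne : Λ.L ψ ≠ 0 := fun z => by simp [z] at a0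
    have := (hMAH _ _ _ (2 * n) (2 * n) q hq0 e m0 (by simp [coeff_tw, m0])
      (a1 ▸ natDegree_le_of_dvd ⟨_, e⟩ ne) a1.le).2 _ (ψ.norm_apply κ) rfl
    simpa [p2, coeff_map, map_ofNat] using this
  have h2 : en (p2 M) ≤ c2 * q ^ 2 := by
    have := hENL c q n A Λ κ hB0 hom hD
    calc en (p2 M) ≤ 9 * 16 ^ (2 * n) * q ^ 2 * av fun ψ => nq q (2 * n) (Λ.L ψ) := by
          rw [en, av, av, ← mul_div_assoc, mul_sum]
          exact div_le_div_of_nonneg_right (sum_le_sum h1) (Nat.cast_nonneg _)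
      _ ≤ 9 * 16 ^ (2 * n) * q ^ 2 * ((2 * n + 1) * (2 * c)) := by gcongr
      _ = _ := by rw [hc2]; push_cast; ring
  by_contra hlt
  obtain ⟨T, hT, hc⟩ := exists_subset_card_eq (Nat.succ_le_of_lt (not_le.1 hlt))
  have hN : (0 : ℝ) < (128 * c2 + 1 : ℕ) := by positivity
  have h3 := hBES A hB.cyc _ (p2 M) T hN ((hAV A hB.cyc).2.2.2 _ hB.pr)
  have hs := (hYY q n A Λ hn).2.1
  have h4 : #T • ((q : ℝ) / 8) ^ 2 ≤ ∑ b ∈ T, cv (p2 M) b ^ 2 :=
    card_nsmul_le_sum _ _ _ fun b hb => by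
      have := (mem_filter.1 (hT hb)).2
      rw [← sq_abs (cv _ _)]
      gcongr
      linarith
  rw [hc, nsmul_eq_mul] at h4
  rw [hc] at h3
  have h5 := (mul_le_mul_of_nonneg_left h4 hN.le).trans
    (h3.trans (mul_le_mul_of_nonneg_right h2 (by positivity)))
  have h6 : (0 : ℝ) < (128 * c2 + 1) * q ^ 2 := by positivity
  push_cast at h5
  nlinarith

end

section

theorem sph_odd {A : Type} [AddCommGroup A] [Fintype A] {N : ℕ}
    (h : ∀ l, l.Prime → l ∣ Nat.card A → N < l) {t : A} (ht : t ≠ 0) {j : ℤ} (h0 : j ≠ 0)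
    (hj : j.natAbs ≤ N) : j • t ≠ 0 := by
  intro e
  obtain ⟨l, h1, h2⟩ := Nat.exists_prime_and_dvd (n := addOrderOf t) (by simpa using ht)
  have h3 := h l h1 (h2.trans (addOrderOf_dvd_natCard t))
  have h4 : addOrderOf t ∣ j.natAbs := Int.natCast_dvd.1 (addOrderOf_dvd_iff_zsmul_eq_zero.2 e)
  have := Nat.le_of_dvd (Int.natAbs_pos.2 h0) (h2.trans h4)
  omega

theorem p_SPH (hSML : S_SML) (hAV : S_AV) (hCV : S_CV) (hORB : S_ORB) (hSP1 : S_SP1) (hYY : S_YY) (hSP0 : S_SP0) :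
    S_SPH := by
  intro c n hn
  obtain ⟨m, N0, q0, h0⟩ := hSP0 c n hn
  obtain ⟨q1, h1⟩ := hSML c (n + 1) (128 * (m + 1)) 1
  refine ⟨max N0 (32 * (m + 1)), max (max q0 q1) 1,
    fun q A _ _ Λ Λ' κ κ' M hq hB hD hD' hS hM hF hF' => ?_⟩
  by_contra hne
  have ht : κ' - κ ≠ 0 := sub_ne_zero.2 (Ne.symm hne)
  have hp : ∀ l, l.Prime → l ∣ Nat.card A → 32 * (m + 1) < l := fun l a b =>
    (le_max_right _ _).trans_lt (hB.pr l a b)
  have a0 := h0 q A Λ κ M (by omega)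
    ⟨hB.cyc, hB.nt, hB.le, fun l a b => (le_max_left _ _).trans_lt (hB.pr l a b)⟩ hD hM hF
  have a1 : (128 * (m + 1) * om A : ℝ) ≤ q := by
    have := h1 q (Nat.card A) (by omega) Nat.card_pos.ne' hB.le
    rw [pow_one] at this
    exact_mod_cast this
  have a2 := (hAV A hB.cyc).2.2.2 _ hp
  obtain ⟨-, a3, a4⟩ := hYY q n A Λ hn
  obtain ⟨a5, a6⟩ := a4 c κ hD
  obtain ⟨a7, a8⟩ := (hYY q n A Λ' hn).2.2 c κ' hD'
  have es : Λ'.s = Λ.s := by rw [LD.s, LD.s, hS]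
  have b1 := fun b => (hCV A hB.cyc).2 Λ.Y κ b a6
  have b2 := fun b => (hCV A hB.cyc).2 Λ'.Y κ' b a8
  rw [a5] at b1
  rw [a7, es] at b2
  have q1 : (1 : ℝ) ≤ q := by exact_mod_cast (by omega : 1 ≤ q)
  have s0 : 0 < Λ.s := by linarith
  have m0 : (0 : ℝ) < m + 1 := by positivity
  have key : ∀ b, cv (p2 M) (2 • κ - b) - cv (p2 M) (2 • κ - (b + -(2 • (κ' - κ)))) =
      cv Λ'.Y b - cv Λ.Y b := fun b => by
    have e1 := hSP1 q n A Λ M _ κ hn hB.cyc hM hF b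
    have e2 := hSP1 q n A Λ' M _ κ' hn hB.cyc hM hF' b
    rw [show 2 • κ - (b + -(2 • (κ' - κ))) = 2 • κ' - b by rw [smul_sub]; abel]
    simp only [AddEquiv.refl_symm, AddEquiv.refl_apply] at e1 e2
    linarith
  have sm : ∀ b : A, b ≠ 0 → |Λ.s * cc b| ≤ Λ.s / (32 * (m + 1)) := fun b hb => by
    have := a2 b hb
    rw [abs_mul, abs_of_pos s0, le_div_iff₀ (by positivity)]
    push_cast at this
    nlinarith
  refine hORB A (fun b => cv (p2 M) (2 • κ - b)) (Equiv.addRight (-(2 • (κ' - κ)))) κ m Λ.s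
    (2 * (Λ.s / (32 * (m + 1))) + 4 * om A) s0 ?_ ?_ ?_ fun i hi hk => ?_
  · have : 8 * ((m : ℝ) + 1) * (2 * (Λ.s / (32 * (m + 1)))) = Λ.s / 2 := by field_simp; ring
    linarith
  · refine le_trans (le_of_eq ?_) a0
    exact card_bijective (Equiv.subLeft (2 • κ)) (Equiv.bijective _) fun b => by simp
  · rw [Equiv.coe_addRight, key]
    have c1 := abs_le.1 (b1 κ)
    have c2 := abs_le.1 (b2 κ)
    have c3 := abs_le.1 (sm _ ht)
    rw [sub_self, CoreC.cc_zero] at c1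
    have : 0 ≤ Λ.s / (32 * (m + 1)) := by positivity
    exact le_abs.2 (Or.inr (by linarith))
  · rw [Equiv.coe_addRight, key]
    have e : (Equiv.addRight (-(2 • (κ' - κ))) ^ i) κ = κ + i • -(2 • (κ' - κ)) := by
      rw [Equiv.zsmul_addRight, Equiv.coe_addRight]
    have c1 := abs_le.1 (b1 ((Equiv.addRight (-(2 • (κ' - κ))) ^ i) κ))
    have c2 := abs_le.1 (b2 ((Equiv.addRight (-(2 • (κ' - κ))) ^ i) κ))
    have c3 := abs_le.1 (sm _ (sub_ne_zero.2 hk.symm))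
    have c4 := abs_le.1 (sm (κ' - (Equiv.addRight (-(2 • (κ' - κ))) ^ i) κ) (by
      rw [e, show κ' - (κ + i • -(2 • (κ' - κ))) = (2 * i + 1) • (κ' - κ) by module]
      have := abs_le.1 hi
      exact sph_odd (N := 32 * (m + 1)) hp ht (by omega) (by omega)))
    exact abs_le.2 ⟨by linarith, by linarith⟩

end

end Pool.Agent.P.MP_9344a7_nt.Hy
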