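import Pool.Agent.P.MP_9344a7_nt.Hy.Iface

/-! Steps SPN, FAC, HH, HN, MAT, END, SUB, GAM. -/

set_option linter.unusedSectionVars false
set_option linter.unusedVariables false

namespace Pool.Agent.P.MP_9344a7_nt.Hy

open Polynomial Finset
open Pool.Agent.P.MP_6f117a_ag (Place FF)
open Pool.Agent.P.MP_ab3ecb_nt.Inv (Dv deg SA LS)
open Pool.Agent.P.MP_9344a7_nt.R
open Pool.Agent.P.MP_9344a7_nt.CoreC (cc)
open scoped Classical ComplexConjugate

section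

theorem p_SPN (hSML : S_SML) (hAV : S_AV) (hCV : S_CV) (hORB : S_ORB) (hSP1 : S_SP1) (hYY : S_YY) (hSP0 : S_SP0) :
    S_SPN := by
  intro c n hn
  obtain ⟨m, N0, q0, h0⟩ := hSP0 c n hn
  obtain ⟨q1, h1⟩ := hSML c (n + 1) (192 * (m + 1)) 1
  refine ⟨max N0 (16 * (m + 1)), max q0 q1, ?_⟩
  intro q A _ _ Λ Λ' κ M γ hq big hd nh hM fa fa'
  have cnt := h0 q A Λ κ M (le_of_max_le_left hq)
    ⟨big.cyc, big.nt, big.le, fun l a b => (le_max_left _ _).trans_lt (big.pr l a b)⟩ hd hM fa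
  have hR : (192 * (m + 1) * om A : ℝ) ≤ q := by
    have := h1 q _ (le_of_max_le_right hq) Nat.card_pos.ne' big.le
    rw [pow_one] at this
    exact_mod_cast this
  have R1 : (1 : ℝ) ≤ om A := by exact_mod_cast Nat.one_le_two_pow
  have hN := (hAV A big.cyc).2.2.2 (16 * (m + 1)) fun l a b =>
    (le_max_right _ _).trans_lt (big.pr l a b)
  obtain ⟨-, y1, y2⟩ := hYY q n A Λ hn
  obtain ⟨y2, y3⟩ := y2 c κ hd
  have y4 := (hYY q n A Λ' hn).1 nh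
  have c1 := fun b => (hCV A big.cyc).2 Λ.Y κ b y3
  have c2 := fun b => (hCV A big.cyc).2 Λ'.Y b b fun a _ => y4 a
  have c3 : ∀ b, |cv Λ'.Y b| ≤ 4 * om A := fun b => by
    have a := abs_le.1 (c2 b)
    have d : |(Λ'.Y.coeff b : ℝ)| ≤ 2 := by exact_mod_cast y4 b
    have d := abs_le.1 d
    rw [sub_self, CoreC.cc_zero, mul_one] at a
    exact abs_le.2 ⟨by linarith, by linarith⟩
  have e : ∀ b, cv (p2 M) (2 • κ - b) - cv (p2 M) (2 • κ - γ.symm b) = cv Λ'.Y b - cv Λ.Y b :=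
    fun b => by
      have a := hSP1 q n A Λ M _ κ hn big.cyc hM fa b
      have d := hSP1 q n A Λ' M γ _ hn big.cyc hM fa' b
      rw [map_sub, map_nsmul, γ.symm_apply_apply] at d
      rw [show (AddEquiv.refl A).symm (2 • κ - b) = 2 • κ - b from rfl] at a
      linarith
  have m0 : (0 : ℝ) < m + 1 := by positivity
  have s1 : 96 * (m + 1) * om A ≤ Λ.s := by linarith
  have s0 : 0 < Λ.s := lt_of_lt_of_le (by positivity) s1
  have d0 : 0 ≤ Λ.s / (16 * (m + 1)) := by positivity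
  refine hORB A (fun b => cv (p2 M) (2 • κ - b)) γ.symm.toEquiv κ m Λ.s
    (Λ.s / (16 * (m + 1)) + 6 * om A) s0 ?_ (le_of_eq_of_le ?_ cnt) ?_ fun i _ hi => ?_
  · have : 8 * (m + 1) * (Λ.s / (16 * (m + 1))) = Λ.s / 2 := by field_simp; ring
    linarith
  · exact card_equiv (Equiv.subLeft (2 • κ)) (by simp)
  · refine le_of_le_of_eq ?_ (congrArg _ (e κ).symm)
    have a := abs_le.1 (c1 κ)
    have d := abs_le.1 (c3 κ)
    rw [sub_self, CoreC.cc_zero, mul_one, y2] at a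
    exact le_abs.2 (.inr (by linarith))
  · refine le_of_eq_of_le (congrArg _ (e _)) ?_
    generalize ((γ.symm.toEquiv ^ i : Equiv.Perm A) κ) = b at hi
    have a := abs_le.1 (c1 b)
    have d := abs_le.1 (c3 b)
    have f : |Λ.s * cc (κ - b)| ≤ Λ.s / (16 * (m + 1)) := by
      have := hN _ (sub_ne_zero.2 hi.symm)
      push_cast at this
      rw [abs_mul, abs_of_pos s0, le_div_iff₀ (by positivity)]
      nlinarith
    have f := abs_le.1 f
    rw [y2] at a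
    exact abs_le.2 ⟨by linarith, by linarith⟩

end

section

lemma fac_tw {A : Type} [AddCommGroup A] [Fintype A] (M : (ZA A)[X]) (γ : A →+ A) (κ : A)
    (ψ : AddChar A ℂ) : tw (ψ κ) (M.map (ev (ψ.compAddMonoidHom γ))) =
      (((M.map (pu γ)).map (pu (-AddMonoidHom.id A))).comp
        (C (AddMonoidAlgebra.single κ 1) * X)).map (ev ψ) := by
  ext j
  rw [coeff_tw, coeff_map, coeff_map, comp_C_mul_X_coeff, coeff_map, coeff_map, map_mul, map_pow,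
    ← conj_ev, ev_pu, ev_single, Int.cast_one, one_mul]

theorem p_FAC (hKER : S_KER) :
    S_FAC := by
  intro q n A _ _ Λ χ hχ
  have h2 : ∀ P P' : (ZA A)[X], P.map (ev χ) = P'.map (ev χ) → ∀ ψ ∈ Fa A,
      P.map (ev ψ) = P'.map (ev ψ) := by
    intro P P' h ψ hψ
    ext j
    have h1 := congrArg (coeff · j) h
    simp only [coeff_map] at h1 ⊢
    rw [← sub_eq_zero, ← map_sub] at h1 ⊢
    exact ((hKER A χ hχ).1 ψ hψ).1 _ h1
  refine ⟨?_, h2, fun M γ κ h ψ hψ => ?_⟩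
  · rintro _ ⟨P, rfl⟩ h0
    rw [coeff_map] at h0
    refine ⟨P - C (P.coeff 0) + 1, by simp, ?_⟩
    rw [Polynomial.map_add, Polynomial.map_sub, map_C, h0, Polynomial.map_one, map_one,
      sub_add_cancel]
  · rw [fac_tw, ← Polynomial.map_mul] at h ⊢
    exact h2 _ _ h ψ hψ

end

section

lemma hh_root {A : Type} [AddCommGroup A] {χ : AddChar A ℂ} {w : ℂ} {n : ℕ} {L M B : ℂ[X]}
    (h : Spl χ w n L M B) (hw : w ≠ 0) {α : ℂ} (hα : L.eval α = 0) :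
    ∃ M B, Spl χ w n L M B ∧ M.eval α = 0 := by
  rw [h.eq, eval_mul, mul_eq_zero] at hα
  rcases hα with e | e
  · exact ⟨M, B, h, e⟩
  · exact ⟨B, M, h.symm hw, e⟩

theorem p_HH (hLB : S_LB) (hSIG : S_SIG) (hST : S_ST) (hSPH : S_SPH) (hFAC : S_FAC) :
    S_HH := by
  intro c n hn
  obtain ⟨q1, h1⟩ := hST c n hn
  obtain ⟨N, q2, h2⟩ := hSPH c n (by omega)
  refine ⟨N, max (max q1 q2) 1, ?_⟩
  intro q A _ _ Λ Λ' κ κ' hq hB hD hD' hS χ hχ α hα hα'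
  have hq0 : 0 < q := by omega
  have hn0 : 0 < n := by omega
  have hB0 : Big A c q n 0 := ⟨hB.cyc, hB.nt, hB.le, fun l hl _ => hl.pos⟩
  have := hB.nt
  have hχ0 := Fa_ne hχ
  obtain ⟨a0, ad, aS, -⟩ := hLB q n A Λ hq0 χ hχ0
  obtain ⟨b0, bd, bS, -⟩ := hLB q n A Λ' hq0 χ hχ0
  have zL : Zc χ (Λ.L χ) := ⟨_, rfl⟩
  have zL' : Zc χ (Λ'.L χ) := ⟨_, rfl⟩
  have hw : ∀ a : A, (q : ℂ) * χ a ≠ 0 := fun a =>
    mul_ne_zero (Nat.cast_ne_zero.2 hq0.ne') fun e => by simpa [e] using χ.norm_apply a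
  rcases h1 q A Λ κ (by omega) hB0 hD χ hχ with hP | ⟨M0, B0, hM0⟩
  · exact eq_of_dvd (hP.dvd _ zL' α hα hα') a0 b0 (by omega)
  rcases h1 q A Λ' κ' (by omega) hB0 hD' χ hχ with hP | ⟨M0', B0', hM0'⟩
  · exact (eq_of_dvd (hP.dvd _ zL α hα' hα) b0 a0 (by omega)).symm
  obtain ⟨M, B, hM, eM⟩ := hh_root hM0 (hw κ) hα
  obtain ⟨M', B', hM', eM'⟩ := hh_root hM0' (hw κ') hα'
  obtain rfl : M = M' := eq_of_dvd (hM.pM.dvd _ hM'.pM.zc α eM eM') hM.pM.c0 hM'.pM.c0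
    (hM'.dM.trans hM.dM.symm).le
  rcases hSIG A χ κ q n _ _ M B hq0 hn0 hM aS bS zL' b0 bd ⟨B', hM'.eq⟩ with h | hB1
  · exact h
  rcases hSIG A χ κ' q n _ _ M B' hq0 hn0 hM' bS aS zL a0 ad ⟨B, hM.eq⟩ with h | hB2
  · exact h.symm
  obtain ⟨f1, -, f3⟩ := hFAC q n A Λ χ hχ
  obtain ⟨-, -, f3'⟩ := hFAC q n A Λ' χ hχ
  obtain ⟨P, P0, rfl⟩ := f1 M hM.pM.zc hM.pM.c0
  have e : χ.compAddMonoidHom ((AddEquiv.refl A : A ≃+ A) : A →+ A) = χ := rfl
  have F1 := f3 P (.refl A) κ (by rw [e, hM.eq, hB1])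
  have F2 := f3' P (.refl A) κ' (by rw [e, hM'.eq, hB2])
  obtain rfl := h2 q A Λ Λ' κ κ' P (by omega) hB hD hD' hS P0 F1 F2
  rw [hM.eq, hM'.eq, hB1, hB2]

end

section

lemma hn_root {A : Type} [AddCommGroup A] {χ : AddChar A ℂ} {q n : ℕ} (hq : 0 < q) {κ : A}
    {L M B : ℂ[X]} (h : Spl χ (q * χ κ) n L M B) {α : ℂ} (hα : L.eval α = 0) :
    ∃ M B, Spl χ (q * χ κ) n L M B ∧ M.eval α = 0 := by
  rw [h.eq, eval_mul, mul_eq_zero] at hα
  rcases hα with a | a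
  · exact ⟨M, B, h, a⟩
  · exact ⟨B, M, h.symm (mul_ne_zero (Nat.cast_ne_zero.2 hq.ne') (χ.val_isUnit κ).ne_zero), a⟩

theorem p_HN (hKER : S_KER) (hLB : S_LB) (hSIG : S_SIG) (hST : S_ST) (hSPN : S_SPN) (hFAC : S_FAC) :
    S_HN := by
  intro c n hn
  obtain ⟨q1, h1⟩ := hST c n hn
  obtain ⟨N, q2, h2⟩ := hSPN c n (by omega)
  refine ⟨N, q1 + q2 + 1, fun q A _ _ Λ Λ' κ hq hA hD hN hp χ hχ α a1 a2 => ?_⟩
  have := hA.nt
  have q0 : 0 < q := by omega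
  have hA0 : Big A c q n 0 := ⟨hA.cyc, hA.nt, hA.le, fun l hl _ => hl.pos⟩
  have st := h1 q A Λ κ (by omega) hA0 hD
  obtain ⟨l0, l1, l2, -⟩ := hLB q n A Λ q0 χ (Fa_ne hχ)
  obtain ⟨m0, m1, m2, -⟩ := hLB q n A Λ' q0 χ (Fa_ne hχ)
  have z' : Zc χ (Λ'.L χ) := ⟨Λ'.LZ, rfl⟩
  rcases st χ hχ with h | ⟨M0, B0, h⟩
  · exact eq_of_dvd (h.dvd _ z' α a1 a2) l0 m0 (by omega)
  obtain ⟨M, B, h, a3⟩ := hn_root q0 h a1
  have hd := h.pM.dvd _ z' α a3 a2
  refine (hSIG A χ κ q n _ _ M B q0 (by omega) h l2 m2 z' m0 m1 hd).resolve_right fun hB => ?_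
  obtain ⟨f1, f2, f3⟩ := hFAC q n A Λ χ hχ
  obtain ⟨P, P0, rfl⟩ := f1 M h.pM.zc h.pM.c0
  have er : ∀ ψ : AddChar A ℂ, ψ.compAddMonoidHom (AddEquiv.refl A : A →+ A) = ψ := fun ψ => rfl
  have hF : Λ.Fac P (.refl A) κ := f3 P _ κ (by rw [er, ← hB]; exact h.eq)
  obtain ⟨M', hM'⟩ := hd
  have c0 : ∀ ψ : AddChar A ℂ, (P.map (ev ψ)).coeff 0 = 1 := fun ψ => by
    rw [coeff_map, P0, map_one]
  have n0 : ∀ {p : ℂ[X]}, p.coeff 0 = 1 → p ≠ 0 := fun h e => by simp [e] at h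
  have k0 : M'.coeff 0 = 1 := by rwa [hM', mul_coeff_zero, c0, one_mul] at m0
  have k1 : M'.natDegree = n := by
    rw [hM', natDegree_mul (n0 (c0 χ)) (n0 k0), h.dM] at m1
    omega
  obtain ⟨P', -, rfl⟩ := f1 M' (h.pM.zc.of_mul h.pM.c0 (hM' ▸ z')) k0
  have hL' : ∀ ψ ∈ Fa A, Λ'.L ψ = P.map (ev ψ) * P'.map (ev ψ) := fun ψ hψ =>
    (f2 Λ'.LZ (P * P') (hM'.trans (Polynomial.map_mul _).symm) ψ hψ).trans (Polynomial.map_mul _)
  rw [prod_congr rfl hF, prod_congr rfl hL', prod_mul_distrib, prod_mul_distrib] at hp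
  have hp' := mul_left_cancel₀ (prod_ne_zero_iff.2 fun ψ _ => n0 (c0 ψ)) hp
  obtain ⟨β, hβ⟩ := IsAlgClosed.exists_root (P'.map (ev χ))
    (by rw [degree_eq_natDegree (n0 k0), k1]; exact_mod_cast (by omega : n ≠ 0))
  have b1 := congrArg (eval β) hp'
  rw [eval_prod, eval_prod] at b1
  replace b1 := prod_eq_zero_iff.1 (b1.trans (prod_eq_zero hχ hβ))
  obtain ⟨ψ, hψ, b2⟩ := b1
  obtain ⟨g1, γ, hγ⟩ := (hKER A χ hχ).1 ψ hψ
  have hFψ := hF ψ hψ
  rw [er] at b2 hFψ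
  have z1 : Zc ψ (P'.map (ev χ)) := ⟨P'.map (pu (γ.symm : A →+ A)), by
    rw [Polynomial.map_map]
    congr 1
    refine RingHom.ext fun x => (ev_pu ψ _ x).trans ?_
    congr 2
    ext a
    simp [hγ]⟩
  have z2 : Zc ψ (tw (ψ κ) (P.map (ev ψ))) :=
    Zc.of_mul ⟨P, rfl⟩ (c0 ψ) (hFψ ▸ ⟨Λ.LZ, rfl⟩)
  have t0 : (tw (ψ κ) (P.map (ev ψ))).coeff 0 = 1 := by simp [coeff_tw, P0]
  have t1 : (tw (ψ κ) (P.map (ev ψ))).natDegree ≤ n := natDegree_le_iff_coeff_eq_zero.2 fun j hj => by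
    have := coeff_eq_zero_of_natDegree_lt (h.dM ▸ hj : (P.map (ev χ)).natDegree < j)
    rw [coeff_map] at this
    rw [coeff_tw, coeff_map, g1 _ this, map_zero, zero_mul]
  have b3 : (Λ.L ψ).eval β = 0 := by rw [hFψ, eval_mul, b2, mul_zero]
  rcases st ψ hψ with s | ⟨M1, B1, s⟩
  · have := natDegree_le_of_dvd (s.dvd _ z1 β b3 hβ) (n0 k0)
    rw [(hLB q n A Λ q0 ψ (Fa_ne hψ)).2.1, k1] at this
    omega
  obtain ⟨M1, B1, s, b4⟩ := hn_root q0 s b3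
  have e1 := eq_of_dvd (s.pM.dvd _ z1 β b4 hβ) s.pM.c0 k0 (by rw [k1, s.dM])
  have e2 := eq_of_dvd (s.pM.dvd _ z2 β b4 b2) s.pM.c0 t0 (by rw [s.dM]; exact t1)
  refine h2 q A Λ Λ' κ P γ (by omega) hA hD hN P0 hF ((hFAC q n A Λ' χ hχ).2.2 P γ (γ κ) ?_)
  rw [hM', ← e1, e2, hγ]
  rfl

end

section

lemma mat_cv {A : Type} [AddCommGroup A] [Fintype A] (S : Finset A) (b : A) :
    cv (ind S) b = ∑ s ∈ S, cc (b - s) := by
  simp only [cv, coeff_ind]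
  rw [← sum_filter_add_sum_filter_not univ (· ∈ S), sum_eq_zero (s := filter (fun a => ¬ a ∈ S) _)
    fun a ha => by simp [(mem_filter.1 ha).2], add_zero, filter_mem_eq_inter, univ_inter]
  exact sum_congr rfl fun a ha => by rw [if_pos ha, ← CoreC.cc_neg (b - a), neg_sub]; simp

theorem p_MAT (hSML : S_SML) (hAV : S_AV) (hKER : S_KER) (hCV : S_CV) :
    S_MAT := by
  intro c n C0
  obtain ⟨K, K1, K2⟩ : ∃ K : ℕ, 8 ≤ K ∧ 8 * C0 ≤ K := ⟨8 * (C0 + 1), by omega, by omega⟩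
  obtain ⟨q0, hq0⟩ := hSML c (n + 1) (K ^ 3) 2
  refine ⟨q0, fun q A _ _ S S' a1 hB d d' a5 a6 χ hχ he => ?_⟩
  have b1 := hq0 q _ a1 Nat.card_pos.ne' hB.le
  obtain ⟨-, -, b2, b5⟩ := hAV A hB.cyc
  have b3 : 0 < om A := by unfold om; positivity
  have b4 := fun (w : A → ℝ) (W : ℝ) (h0 : 0 ≤ W) (hw : ∀ b, w b ≤ W) =>
    CoreC.top_est d' S h0 hw (Nat.mul_pos (by omega : 0 < K) b3)
  have b6 := (hCV A hB.cyc).1 (ind S) (ind S') fun ψ hψ => by
    have := ((hKER A χ hχ).1 ψ hψ).1 (ind S - ind S') (by rw [map_sub, he, sub_self])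
    rwa [map_sub, sub_eq_zero] at this
  have c1 : (K : ℝ) ^ 3 * (om A : ℝ) ^ 2 ≤ q := by exact_mod_cast b1
  have c2 : (1 : ℝ) ≤ om A := by exact_mod_cast b3
  push_cast at b4
  generalize (om A : ℝ) = ρ at *
  have c3 : (8 : ℝ) ≤ K := by exact_mod_cast K1
  have c4 : (8 : ℝ) * C0 ≤ K := by exact_mod_cast K2
  have c5 : (#S : ℝ) ≤ 2 * q := by exact_mod_cast a6
  obtain ⟨E, c7, c8, c9, c10⟩ : ∃ E : ℝ, K * E ≤ q ∧ (K * ρ) ^ 2 ≤ E ∧ 64 * ρ ≤ E ∧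
      K * ((#S + (K * ρ) ^ 2) / (K * ρ) * ρ) ≤ #S + E := by
    refine ⟨(K * ρ) ^ 2, by linarith, le_rfl,
      by nlinarith [mul_le_mul_of_nonneg_right c3 (by linarith : 0 ≤ ρ)], le_of_eq ?_⟩
    field_simp
  have c11 : 0 ≤ (#S + (K * ρ) ^ 2) / (K * ρ) := by positivity
  generalize (#S + (K * ρ) ^ 2) / (K * ρ) = L at *
  have e1 := (abs_le.1 (CoreC.self_est d cc)).1
  have e0 : ∑ x ∈ S, ∑ s ∈ S, cc (x - s) = ∑ x ∈ S, ∑ s ∈ S', cc (x - s) :=
    sum_congr rfl fun x _ => by rw [← mat_cv, b6, mat_cv]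
  rw [CoreC.cc_zero, e0, CoreC.sum_uu] at e1
  have e2 := b4 (fun b => if b = 0 then 1 / 2 else cc b) (1 / 2) (by norm_num) fun b => by
    split_ifs with h
    · exact le_rfl
    · have := b5 2 hB.pr b h
      push_cast at this
      linarith [le_abs_self (cc b)]
  have e3 : ∑ b : A, |if b = 0 then 1 / 2 else cc b| ≤ ρ :=
    (sum_le_sum fun b _ => by
      split_ifs with h
      · rw [h, CoreC.cc_zero]; norm_num [abs_of_pos]
      · exact le_rfl).trans b2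
  have e4 : ∑ b, CoreC.uu S' S b * cc b = 1 / 2 * CoreC.uu S' S 0 +
      ∑ b, CoreC.uu S' S b * if b = 0 then 1 / 2 else cc b := by
    rw [← add_sum_erase _ _ (mem_univ 0), ← add_sum_erase _ _ (mem_univ 0), CoreC.cc_zero,
      if_pos rfl, sum_congr rfl (g := fun b => (CoreC.uu S' S b * if b = 0 then 1 / 2
        else cc b)) fun b hb => by rw [if_neg (ne_of_mem_erase hb)]]
    ring
  have e5 : (#(S \ S') : ℝ) + CoreC.uu S' S 0 = #S := by
    simp only [CoreC.uu, sub_zero, filter_mem_eq_inter]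
    exact_mod_cast card_sdiff_add_card_inter S S'
  have e6 := mul_le_mul_of_nonneg_left e3 c11
  have e7 : (#(S \ S') : ℝ) ≤ 2 * (E + L * ρ) := by linarith
  have e8 : (K : ℝ) * #(S \ S') ≤ 8 * q := by
    nlinarith [mul_le_mul_of_nonneg_left e7 (by linarith : (0 : ℝ) ≤ K)]
  have e9 : (C0 : ℝ) * #(S \ S') ≤ q := by
    nlinarith [mul_le_mul_of_nonneg_right c4 (Nat.cast_nonneg #(S \ S'))]
  exact_mod_cast e9

end

section

theorem p_END (hSML : S_SML) (hAV : S_AV) (hKER : S_KER) (hCV : S_CV) (hYY : S_YY) (hMAT : S_MAT) :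
    S_END := by
  intro c n C0 hn
  obtain ⟨q1, h1⟩ := hSML c (n + 1) 32 1
  obtain ⟨q2, h2⟩ := hMAT c n C0
  refine ⟨q1 + q2, fun q A _ _ Λ Λ' κ hq hB hD hS χ hχ hL => ?_⟩
  have hR : 32 * om A ≤ q := by
    simpa [om] using h1 q (Nat.card A) (by omega) Nat.card_pos.ne' hB.le
  have hR1 : 1 ≤ om A := Nat.one_le_two_pow
  have hW : ∀ j ≤ 2, ev χ (Λ.W j) = ev χ (Λ'.W j) := fun j hj => by
    rw [← Λ.coeff_L χ (by omega), ← Λ'.coeff_L χ (by omega), hL]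
  have hY : cv Λ.Y κ = cv Λ'.Y κ := (hCV A hB.cyc).1 _ _ (fun ψ hψ => sub_eq_zero.1 (by
    rw [← map_sub]
    refine ((hKER A χ hχ).1 ψ hψ).1 _ ?_
    simp only [LD.Y, map_sub, map_mul, map_pow, hW 1 one_le_two, hW 2 le_rfl, sub_self])) κ
  obtain ⟨-, y2, y3⟩ := hYY q n A Λ hn
  obtain ⟨z1, -, z3⟩ := hYY q n A Λ' hn
  have a1 := (abs_le.1 ((hCV A hB.cyc).2 Λ.Y κ κ (y3 c κ hD).2)).1
  rw [sub_self, CoreC.cc_zero, (y3 c κ hD).1, hY] at a1
  have r1 : (32 : ℝ) * om A ≤ q := by exact_mod_cast hR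
  have r2 : (1 : ℝ) ≤ om A := by exact_mod_cast hR1
  refine ⟨fun hN => ?_, fun κ' hD' => ?_, h2 q A _ _ (by omega) hB Λ.sid Λ'.sid hS
    (by have := Λ.hi; omega) χ hχ (by rw [← Λ.w1, ← Λ'.w1, hW 1 one_le_two])⟩
  · have a2 := (abs_le.1 ((hCV A hB.cyc).2 Λ'.Y κ κ fun a _ => z1 hN a)).2
    have a3 : (Λ'.Y.coeff κ : ℝ) ≤ 2 := by exact_mod_cast (abs_le.1 (z1 hN κ)).2
    rw [sub_self, CoreC.cc_zero] at a2
    linarith
  · by_contra hne
    have a2 := (abs_le.1 ((hCV A hB.cyc).2 Λ'.Y κ' κ (z3 c κ' hD').2)).2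
    have a3 := (hAV A hB.cyc).2.2.2 2 hB.pr (κ' - κ) (sub_ne_zero.2 (Ne.symm hne))
    have a4 : Λ'.s = Λ.s := by rw [LD.s, LD.s, hS]
    have a5 := le_abs_self (cc (κ' - κ))
    rw [(z3 c κ' hD').1, a4] at a2
    push_cast at a3
    nlinarith

end

section

lemma sub_free {A : Type} [AddCommGroup A] [Fintype A] (h2 : ¬ 2 ∣ Nat.card A) (κ : A)
    (S : Finset A) : ∃ T ⊆ S, #S ≤ 2 * #T + 1 ∧ ∀ s ∈ T, ∀ t ∈ T, s + t ≠ κ := by
  obtain ⟨f, hf⟩ := Countable.exists_injective_nat A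
  have he : #{s ∈ S | f s = f (κ - s)} ≤ 1 := by
    refine card_le_one.2 fun s hs t ht => ?_
    have h1 := hf (mem_filter.1 hs).2
    have h3 := hf (mem_filter.1 ht).2
    have h4 : 2 • (s - t) = 0 := by
      rw [eq_sub_iff_add_eq] at h1 h3
      rw [two_nsmul, sub_add_sub_comm, h1, h3, sub_self]
    rcases (Nat.dvd_prime Nat.prime_two).1 (addOrderOf_dvd_of_nsmul_eq_zero h4) with h | h
    · exact sub_eq_zero.1 (AddMonoid.addOrderOf_eq_one_iff.1 h)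
    · exact absurd (h ▸ addOrderOf_dvd_natCard (s - t)) h2
  have hc : #S ≤ #{s ∈ S | f s < f (κ - s)} + #{s ∈ S | f (κ - s) < f s} +
      #{s ∈ S | f s = f (κ - s)} := by
    refine le_trans (card_le_card fun s hs => ?_)
      ((card_union_le _ _).trans (Nat.add_le_add_right (card_union_le _ _) _))
    simp only [mem_union, mem_filter, hs, true_and]
    omega
  rcases le_total #{s ∈ S | f s < f (κ - s)} #{s ∈ S | f (κ - s) < f s} with h | h
  · refine ⟨_, filter_subset (fun s => f (κ - s) < f s) S, by omega, fun s hs t ht e => ?_⟩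
    have h1 := (mem_filter.1 hs).2
    have h3 := (mem_filter.1 ht).2
    rw [← e, add_sub_cancel_left] at h1
    rw [← e, add_sub_cancel_right] at h3
    omega
  · refine ⟨_, filter_subset (fun s => f s < f (κ - s)) S, by omega, fun s hs t ht e => ?_⟩
    have h1 := (mem_filter.1 hs).2
    have h3 := (mem_filter.1 ht).2
    rw [← e, add_sub_cancel_left] at h1
    rw [← e, add_sub_cancel_right] at h3
    omega

lemma sub_range {A : Type} [AddCommGroup A] [Fintype A] {l : ℕ} (hl : l.Prime)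
    (hd : l ∣ Nat.card A) : l * #{s : A | ∃ a : A, s = l • a} ≤ Nat.card A := by
  have : Fact l.Prime := ⟨hl⟩
  obtain ⟨x, hx⟩ := exists_prime_addOrderOf_dvd_card' l hd
  let φ : A →+ A := nsmulAddMonoidHom l
  have h1 : l ≤ Nat.card φ.ker := by
    rw [← hx, ← Nat.card_zmultiples]
    refine AddSubgroup.card_le_of_le (AddSubgroup.zmultiples_le_of_mem ?_)
    change l • x = 0
    rw [← hx, addOrderOf_nsmul_eq_zero]
  have h2 : #{s : A | ∃ a : A, s = l • a} = Nat.card φ.range := by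
    rw [← Fintype.card_subtype, ← Nat.card_eq_fintype_card]
    refine Nat.card_congr (Equiv.subtypeEquivRight fun s => ?_)
    simp [φ, eq_comm]
  rw [h2, ← φ.ker.card_mul_index, AddSubgroup.index_ker]
  exact Nat.mul_le_mul_right _ h1

theorem p_SUB :
    S_SUB := by
  intro c n
  refine ⟨8 ^ (n + 1) * (n + 1).factorial * c + 2, 8 * n + 4, ?_⟩
  intro q A _ _ Λ κ l hq hB hD hl hd
  by_contra hc
  have h2 : ¬ 2 ∣ Nat.card A := fun h => by
    have := hB.pr 2 Nat.prime_two h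
    omega
  obtain ⟨T, hT, h3, h4⟩ := sub_free h2 κ {s ∈ Λ.S | ∃ a : A, s = l • a}
  have h5 : (#T).choose (n + 1) ≤ #{s : A | ∃ a : A, s = l • a} := by
    rw [← card_powersetCard]
    refine card_le_card_of_injOn (fun U => ∑ s ∈ U, s) (fun U hU => ?_) fun U hU V hV e => ?_
    · have hU' := (mem_powersetCard.1 hU).1
      refine mem_coe.2 (mem_filter.2 ⟨mem_univ _, ?_⟩)
      choose! g hg using fun s (hs : s ∈ U) => (mem_filter.1 (hT (hU' hs))).2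
      exact ⟨∑ s ∈ U, g s, by rw [smul_sum]; exact sum_congr rfl hg⟩
    · obtain ⟨u1, u2⟩ := mem_powersetCard.1 hU
      obtain ⟨v1, v2⟩ := mem_powersetCard.1 hV
      have hS : T ⊆ Λ.S := hT.trans (filter_subset _ _)
      exact hD.ind U V (u1.trans hS) (v1.trans hS) u2 v2
        (fun s hs t ht => h4 s (u1 hs) t (u1 ht)) e
  have h6 := ((Nat.mul_le_mul_left l h5).trans (sub_range hl hd)).trans hB.le
  have h7 := Nat.pow_sub_le_descFactorial #T (n + 1)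
  rw [Nat.descFactorial_eq_factorial_mul_choose] at h7
  have h8 : q ^ (n + 1) ≤ (8 * (#T + 1 - (n + 1))) ^ (n + 1) := Nat.pow_le_pow_left (by omega) _
  rw [mul_pow] at h8
  have h9 : l * q ^ (n + 1) ≤ 8 ^ (n + 1) * (n + 1).factorial * c * q ^ (n + 1) :=
    calc l * q ^ (n + 1) ≤ l * (8 ^ (n + 1) * ((n + 1).factorial * (#T).choose (n + 1))) :=
          Nat.mul_le_mul_left _ (h8.trans (Nat.mul_le_mul_left _ h7))
      _ = 8 ^ (n + 1) * (n + 1).factorial * (l * (#T).choose (n + 1)) := by ring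
      _ ≤ 8 ^ (n + 1) * (n + 1).factorial * (c * q ^ (n + 1)) := Nat.mul_le_mul_left _ h6
      _ = _ := by ring
  have h10 := Nat.le_of_mul_le_mul_right h9 (pow_pos (by omega) _)
  have := hB.pr l hl hd
  omega

end

section

lemma gam_key {A : Type} [AddCommGroup A] {l m u v : ℕ} (hl : l.Prime) (hm : Nat.card A = l * m)
    {s : A} (hs : m • s ≠ 0) (hu : u < l) (hv : v < l)
    (e : (1 + u * m) • s = (1 + v * m) • s) : u = v := by
  have : Fact l.Prime := ⟨hl⟩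
  have h1 : addOrderOf (m • s) = l :=
    addOrderOf_eq_prime (by rw [← mul_nsmul', ← hm, card_nsmul_eq_zero']) hs
  rw [add_nsmul, add_nsmul, add_right_inj, mul_nsmul', mul_nsmul'] at e
  exact nsmul_injOn_Iio_addOrderOf (h1 ▸ hu) (h1 ▸ hv) e

theorem p_GAM :
    S_GAM := by
  intro A _ _ l hc hl hd
  obtain ⟨m, hm⟩ := hd
  have hm0 : 0 < m := Nat.pos_of_mul_pos_left (hm ▸ Nat.card_pos)
  obtain ⟨g, hg⟩ := IsAddCyclic.exists_addMonoid_generator (α := A)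
  have ho : addOrderOf g = l * m := hm ▸ addOrderOf_eq_card_of_forall_mem_multiples hg
  have hns : ∀ s, (¬ ∃ a : A, s = l • a) → m • s ≠ 0 := fun s hs h => by
    obtain ⟨i, rfl⟩ := hg s
    have h1 : l * m ∣ i * m := by
      rw [← ho, addOrderOf_dvd_iff_nsmul_eq_zero, mul_nsmul]
      exact h
    obtain ⟨j, rfl⟩ := Nat.dvd_of_mul_dvd_mul_right hm0 h1
    exact hs ⟨j • g, mul_nsmul' g l j⟩
  have hg0 : m • g ≠ 0 := fun h => by
    have h1 := Nat.le_of_dvd hm0 (addOrderOf_dvd_of_nsmul_eq_zero h)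
    have := hl.two_le
    nlinarith
  have hex : ∀ u ∈ (range l).filter fun u => (1 + u * m).Coprime (l * m),
      ∃ γ : A ≃+ A, ∀ a, γ a = (1 + u * m) • a := fun u hu =>
    ⟨AddEquiv.ofBijective (nsmulAddMonoidHom (1 + u * m))
      (Nat.Coprime.nsmul_right_bijective (hm ▸ (mem_filter.1 hu).2.symm)), fun _ => rfl⟩
  choose! γ hγ using hex
  have hlt : ∀ u ∈ (range l).filter fun u => (1 + u * m).Coprime (l * m), u < l :=
    fun u hu => mem_range.1 (mem_filter.1 hu).1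
  refine ⟨((range l).filter fun u => (1 + u * m).Coprime (l * m)).image γ, ?_, ?_, ?_, ?_⟩
  · rw [card_image_of_injOn fun u hu v hv e => gam_key hl hm hg0 (hlt u hu) (hlt v hv) (by
      rw [← hγ u hu, ← hγ v hv, e])]
    exact Red.good hl
  · intro δ hδ a
    obtain ⟨u, hu, rfl⟩ := mem_image.1 hδ
    rw [hγ u hu, add_nsmul, one_nsmul, mul_nsmul', ← mul_nsmul a, ← hm, card_nsmul_eq_zero',
      nsmul_zero, add_zero]
  · have h1 := IsAddCyclic.card_nsmulAddMonoidHom_ker (G := A) l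
    rw [hm, Nat.gcd_mul_right_left] at h1
    rw [← Fintype.card_subtype, ← Nat.card_eq_fintype_card]
    exact h1
  · intro δ hδ δ' hδ' s hs e
    obtain ⟨u, hu, rfl⟩ := mem_image.1 hδ
    obtain ⟨v, hv, rfl⟩ := mem_image.1 hδ'
    rw [hγ u hu, hγ v hv] at e
    rw [gam_key hl hm (hns s hs) (hlt u hu) (hlt v hv) e]

end

end Pool.Agent.P.MP_9344a7_nt.Hy
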