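import Pool.Agent.P.MP_9344a7_nt.Hy.Iface

/-! Steps RD, ADD, GB, FB. -/

set_option linter.unusedSectionVars false
set_option linter.unusedVariables false

namespace Pool.Agent.P.MP_9344a7_nt.Hy

open Polynomial Finset
open Pool.Agent.P.MP_6f117a_ag (Place FF)
open Pool.Agent.P.MP_ab3ecb_nt.Inv (Dv deg SA LS)
open Pool.Agent.P.MP_9344a7_nt.R
open Pool.Agent.P.MP_9344a7_nt.CoreC (cc)
open scoped Classical ComplexConjugate

section

lemma rd_cnt {A : Type} [AddCommGroup A] {S S1 D : Finset A} (h : Sid S) {Δ : Finset (A ≃+ A)}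
    {γ0 : A ≃+ A} (h0 : γ0 ∈ Δ) {q : ℕ} (h1 : ∀ γ ∈ Δ, ∀ s, γ s - γ0 s ∈ D)
    (h2 : ∀ γ ∈ Δ, ∀ γ' ∈ Δ, ∀ s ∈ S1, γ s = γ' s → γ = γ') (h3 : ∀ s ∈ S1, γ0 s ∈ S)
    (h4 : ∀ γ ∈ Δ, q ≤ 8 * #{s ∈ S1 | γ s ∈ S}) : (#Δ - 1) * q ≤ 16 * #D := by
  have a1 : #((Δ.erase γ0).sigma fun γ => {s ∈ S1 | γ s ∈ S}) ≤ 2 * #D := by
    refine le_trans (card_le_card_of_injOn (fun p => ⟨p.1 p.2 - γ0 p.2, γ0 p.2⟩) (fun p hp => ?_)
      fun p hp p' hp' e => ?_) (Red.count h D)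
    · obtain ⟨b1, b2⟩ := mem_sigma.1 hp
      obtain ⟨b3, b4⟩ := mem_filter.1 b2
      exact mem_sigma.2 ⟨mem_erase.2 ⟨fun e => ne_of_mem_erase b1 (h2 _ (mem_of_mem_erase b1) _ h0 _
        b3 (sub_eq_zero.1 e)), h1 _ (mem_of_mem_erase b1) _⟩,
        mem_filter.2 ⟨h3 _ b3, by simpa using b4⟩⟩
    · obtain ⟨γ, s⟩ := p
      obtain ⟨γ', s'⟩ := p'
      obtain ⟨e1, e2⟩ := Sigma.mk.inj e
      obtain rfl : s = s' := γ0.injective (eq_of_heq e2)
      rw [h2 γ (mem_of_mem_erase (mem_sigma.1 hp).1) γ' (mem_of_mem_erase (mem_sigma.1 hp').1) s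
        (mem_filter.1 (mem_sigma.1 hp).2).1 (sub_left_injective e1)]
  have a2 := card_nsmul_le_sum (Δ.erase γ0) _ q fun γ hγ => h4 γ (mem_of_mem_erase hγ)
  rw [← mul_sum, ← card_sigma, card_erase_of_mem h0, smul_eq_mul] at a2
  omega

lemma rd_div {A A' : Type} [AddCommGroup A] [Fintype A] [AddCommGroup A'] (hA : IsAddCyclic A)
    (j : A' →+ A) (h : ¬ Function.Surjective j) :
    ∃ l, l.Prime ∧ l ∣ Nat.card A ∧ ∀ x, ∃ a, j x = l • a := by
  obtain ⟨c, e⟩ := AddSubgroup.card_addSubgroup_dvd_card j.range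
  obtain ⟨l, a1, c', rfl⟩ := Nat.exists_prime_and_dvd (n := c) fun a1 => h (by
    rw [a1, mul_one] at e
    exact AddMonoidHom.range_eq_top.1 (AddSubgroup.eq_top_of_card_eq _ e.symm))
  refine ⟨l, a1, e ▸ (dvd_mul_right l c').mul_left _, fun x => ?_⟩
  obtain ⟨g, hg⟩ := hA.exists_zsmul_surjective
  obtain ⟨i, hi⟩ := hg (j x)
  have a2 : Nat.card j.range • j x = 0 :=
    congrArg Subtype.val (card_nsmul_eq_zero' (x := (⟨j x, x, rfl⟩ : j.range)))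
  rw [← hi, ← natCast_zsmul, ← mul_zsmul, ← addOrderOf_dvd_iff_zsmul_eq_zero,
    addOrderOf_eq_card_of_forall_mem_zmultiples hg, e, Nat.cast_mul,
    mul_dvd_mul_iff_left (Nat.cast_ne_zero.2 Nat.card_pos.ne'), Nat.cast_mul] at a2
  obtain ⟨t, rfl⟩ := dvd_of_mul_right_dvd a2
  exact ⟨t • g, hi.symm.trans ((mul_zsmul g _ _).trans (natCast_zsmul _ _))⟩

theorem p_RD (hAV : S_AV) (hKER : S_KER) (hTRN : S_TRN) (hLB : S_LB) (hTP : S_TP) (hHH : S_HH) (hEND : S_END) (hSUB : S_SUB) (hGAM : S_GAM) :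
    S_RD := by
  intro c n hn
  obtain ⟨N1, q1, H1⟩ := hHH c n hn
  obtain ⟨q2, H2⟩ := hEND c n 8 (by omega)
  obtain ⟨N3, q3, H3⟩ := hSUB c n
  refine ⟨N1 + N3 + 4 * n + 2, q1 + q2 + q3 + 64 * n,
    fun q A A' _ _ _ _ Λ κ G hq B h hc g0 g1 χ hχ χ' α r1 r2 => by_contra fun ni => ?_⟩
  have mono : ∀ N' ≤ N1 + N3 + 4 * n + 2, Big A c q n N' := fun N' h' =>
    ⟨B.cyc, B.nt, B.le, fun l a b => h'.trans_lt (B.pr l a b)⟩
  obtain ⟨j, rfl⟩ := (hKER A χ hχ).2 A' χ' fun a => by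
    rw [← AddChar.map_nsmul_eq_pow, ← hc, card_nsmul_eq_zero', AddChar.map_zero_eq_one]
  obtain ⟨l, l1, l2, l3⟩ := rd_div B.cyc j fun sj => ni ((mem_Fa.1 hχ).comp
    ((Nat.bijective_iff_surjective_and_card _).2 ⟨sj, hc⟩).1)
  obtain ⟨Γ, c1, c2, c3, c4⟩ := hGAM A l B.cyc l1 l2
  have l4 := B.pr l l1 l2
  have s1 := H3 q A Λ κ l (by omega) (mono _ (by omega)) h l1 l2
  have s2 := card_filter_add_card_filter_not (s := Λ.S) fun s => ∃ a : A, s = l • a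
  have s3 := Λ.lo
  choose T t1 t2 t3 t4 t5 using hTP q n A A Λ
  have m : ∀ ψ : AddChar A ℂ, (G.map (pu j)).map (ev ψ) = G.map (ev (ψ.compAddMonoidHom j)) :=
    fun ψ => Polynomial.ext fun i => by simp only [coeff_map, ev_pu]
  have g2 : G.map (ev (χ.compAddMonoidHom j)) ≠ 0 := fun e => by
    simpa [g0] using congrArg (·.coeff 0) e
  choose! β b1 b2 using fun γ (hγ : γ ∈ Γ) => show ∃ β, ((T γ).L χ).eval β = 0 ∧
      β ∈ (G.map (ev (χ.compAddMonoidHom j))).roots.toFinset by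
    obtain ⟨β, b1, b2⟩ := hTRN A χ hχ (χ.compAddMonoidHom (γ : A →+ A))
      (mem_Fa.2 ((mem_Fa.1 hχ).comp γ.injective)) Λ.LZ (G.map (pu j))
      (by rw [Λ.coeff_LZ, if_pos (Nat.zero_le _), Λ.w0]) ⟨α, r1, by rwa [m]⟩
    refine ⟨β, by rwa [t2], Multiset.mem_toFinset.2 ((mem_roots g2).2 ?_)⟩
    rwa [m, show (χ.compAddMonoidHom (γ : A →+ A)).compAddMonoidHom j = χ.compAddMonoidHom j from
      AddChar.ext _ _ fun x => by
        obtain ⟨a, ha⟩ := l3 x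
        simp [ha, c2 γ hγ, -map_nsmul]] at b2
  have a1 := card_le_mul_card_image_of_maps_to b2 (l / (4 * n) + 1) fun b _ => by
    rcases ({γ ∈ Γ | β γ = b}).eq_empty_or_nonempty with e | ⟨γ0, h0⟩
    · simp [e]
    have a := rd_cnt (S1 := {s ∈ Λ.S | ¬ ∃ a : A, s = l • a}) (D := {a : A | l • a = 0}) (q := q)
      (T γ0).sid h0 (fun γ hγ s => by
        simp [smul_sub, ← map_nsmul, c2 γ (mem_filter.1 hγ).1, c2 γ0 (mem_filter.1 h0).1])
      (fun γ hγ γ' hγ' s hs => c4 γ (mem_filter.1 hγ).1 γ' (mem_filter.1 hγ').1 s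
        (mem_filter.1 hs).2)
      (fun s hs => (t1 γ0).S ▸ mem_image_of_mem _ (mem_filter.1 hs).1) fun γ hγ => by
        have u1 := (H2 q A (T γ) (T γ0) _ (by omega) (mono _ (by omega)) (t5 γ c κ h)
          ((t3 γ).trans (t3 γ0).symm) χ hχ (H1 q A (T γ) (T γ0) _ _ (by omega) (mono _ (by omega))
          (t5 γ c κ h) (t5 γ0 c κ h) ((t3 γ).trans (t3 γ0).symm) χ hχ b
          ((mem_filter.1 hγ).2 ▸ b1 γ (mem_filter.1 hγ).1)
          ((mem_filter.1 h0).2 ▸ b1 γ0 (mem_filter.1 h0).1))).2.2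
        have u2 := card_filter_add_card_filter_not (s := {s ∈ Λ.S | ¬ ∃ a : A, s = l • a})
          fun s => γ s ∈ (T γ0).S
        have u3 : #{s ∈ {s ∈ Λ.S | ¬ ∃ a : A, s = l • a} | ¬ γ s ∈ (T γ0).S} ≤
            #((T γ).S \ (T γ0).S) := card_le_card_of_injOn γ (fun s hs => mem_sdiff.2
          ⟨(t1 γ).S ▸ mem_image_of_mem _ (mem_filter.1 (mem_filter.1 hs).1).1,
            (mem_filter.1 hs).2⟩) γ.injective.injOn
        omega
    have a' := Nat.mul_le_mul_left (#{γ ∈ Γ | β γ = b} - 1) (show 16 * (4 * n) ≤ q by omega)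
    rw [c3] at a
    have := (Nat.le_div_iff_mul_le (x := #{γ ∈ Γ | β γ = b} - 1) (y := l) (k := 4 * n)
      (by omega)).2 (by nlinarith)
    omega
  have a2 := Nat.mul_le_mul_left (l / (4 * n) + 1) ((Multiset.toFinset_card_le _).trans
    ((card_roots' (G.map (ev (χ.compAddMonoidHom j)))).trans (natDegree_map_le.trans g1)))
  have a3 := Nat.div_mul_le_self l (4 * n)
  nlinarith

end

section

lemma add_mono {A : Type} [AddCommGroup A] [Fintype A] {c q n N N' : ℕ} (h : Big A c q n N)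
    (h' : N' ≤ N) : Big A c q n N' := ⟨h.cyc, h.nt, h.le, fun l a b => h'.trans_lt (h.pr l a b)⟩

lemma add_prod (hLB : S_LB) {q n : ℕ} {A : Type} [AddCommGroup A] [Fintype A] (Λ : LD q n A)
    (hq : 0 < q) (s : Finset (AddChar A ℂ)) (h : ∀ χ ∈ s, χ ≠ 0) :
    (∏ χ ∈ s, Λ.L χ).coeff 0 = 1 ∧ (∏ χ ∈ s, Λ.L χ).natDegree = #s * (2 * n) := by
  have a := fun χ hχ => hLB q n A Λ hq χ (h χ hχ)
  refine ⟨?_, ?_⟩
  · rw [coeff_zero_eq_eval_zero, eval_prod]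
    exact prod_eq_one fun χ hχ => (coeff_zero_eq_eval_zero _).symm.trans (a χ hχ).1
  · rw [natDegree_prod _ _ fun χ hχ e => by simpa [e] using (a χ hχ).1,
      sum_const_nat fun χ hχ => (a χ hχ).2.1]

lemma add_LZ {q n : ℕ} {A : Type} [AddCommGroup A] (Λ : LD q n A) :
    Λ.LZ.coeff 0 = 1 ∧ Λ.LZ.natDegree ≤ 2 * n :=
  ⟨by rw [Λ.coeff_LZ, if_pos (Nat.zero_le _), Λ.w0], natDegree_le_iff_coeff_eq_zero.2 fun j hj => by
    rw [Λ.coeff_LZ, if_neg hj.not_ge]⟩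

theorem p_ADD (hAV : S_AV) (hKER : S_KER) (hLB : S_LB) (hTP : S_TP) (hHH : S_HH) (hHN : S_HN) (hEND : S_END) (hRD : S_RD) :
    S_ADD := by
  intro c n C0 hn
  obtain ⟨N1, q1, H1⟩ := hHH c n hn
  obtain ⟨N2, q2, H2⟩ := hHN c n hn
  obtain ⟨q3, H3⟩ := hEND c n C0 (by omega)
  obtain ⟨N4, q4, H4⟩ := hRD c n hn
  refine ⟨N1 + N2 + N4 + 2, q1 + q2 + q3 + q4 + 1, fun q A A' _ _ _ _ Λ Λ' κ hq B h h' hS e => ?_⟩
  have := B.nt
  have q0 : 0 < q := by omega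
  have hc : Nat.card A' = Nat.card A := by
    have a := (add_prod hLB Λ q0 (univ.erase 0) fun _ => ne_of_mem_erase).2
    rw [e, (add_prod hLB Λ' q0 (univ.erase 0) fun _ => ne_of_mem_erase).2,
      card_erase_of_mem (mem_univ _), card_erase_of_mem (mem_univ _), card_univ, card_univ,
      AddChar.card_eq, AddChar.card_eq] at a
    have a1 := Nat.eq_of_mul_eq_mul_right (by omega) a
    have := Fintype.card_pos (α := A)
    have := Fintype.card_pos (α := A')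
    rw [Nat.card_eq_fintype_card, Nat.card_eq_fintype_card]
    omega
  obtain ⟨χ, hχ⟩ := (hAV A B.cyc).1
  obtain ⟨α, hα⟩ := IsAlgClosed.exists_root (Λ.L χ) (by
    have := (hLB q n A Λ q0 χ (Fa_ne hχ)).2.1
    exact (natDegree_pos_iff_degree_pos.1 (by omega)).ne')
  obtain ⟨χ', -, hα'⟩ : ∃ χ' ∈ univ.erase 0, (Λ'.L χ').eval α = 0 := by
    rw [← prod_eq_zero_iff, ← eval_prod, ← e, eval_prod]
    exact prod_eq_zero (mem_erase.2 ⟨Fa_ne hχ, mem_univ _⟩) hα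
  have i1 := H4 q A A' Λ κ Λ'.LZ (by omega) (add_mono B (by omega)) h hc (add_LZ Λ').1
    (add_LZ Λ').2 χ hχ χ' α hα hα'
  obtain ⟨j, rfl⟩ := (hKER A χ hχ).2 A' χ' fun a => by
    rw [← AddChar.map_nsmul_eq_pow, ← hc, card_nsmul_eq_zero', AddChar.map_zero_eq_one]
  let Θ : A' ≃+ A := .ofBijective j ((Nat.bijective_iff_injective_and_card _).2
    ⟨.of_comp (f := χ) i1, hc⟩)
  obtain ⟨Λ1, t1, t2, t3, t4, t5⟩ := hTP q n A' A Λ' Θ
  have hα1 : (Λ1.L χ).eval α = 0 := by rw [t2]; exact hα'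
  have eq : Λ.L χ = Λ1.L χ := by
    rcases h' with h' | ⟨κ', h'⟩
    · refine H2 q A Λ Λ1 κ (by omega) (add_mono B (by omega)) h (t4 h') ?_ χ hχ α hα hα1
      have e1 : ∏ χ ∈ univ.erase 0, Λ1.L χ = ∏ χ ∈ univ.erase 0, Λ'.L χ := by
        refine prod_nbij' (·.compAddMonoidHom (Θ : A' →+ A))
          (·.compAddMonoidHom (Θ.symm : A →+ A')) (fun ψ hψ => ?_) (fun ψ hψ => ?_)
          (fun ψ _ => by ext; simp) (fun ψ _ => by ext; simp) fun ψ _ => t2 ψ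
        · obtain ⟨a, ha⟩ := AddChar.ne_zero_iff.1 (ne_of_mem_erase hψ)
          exact mem_erase.2 ⟨AddChar.ne_zero_iff.2 ⟨Θ.symm a, by simpa using ha⟩, mem_univ _⟩
        · obtain ⟨a, ha⟩ := AddChar.ne_zero_iff.1 (ne_of_mem_erase hψ)
          exact mem_erase.2 ⟨AddChar.ne_zero_iff.2 ⟨Θ a, by simpa using ha⟩, mem_univ _⟩
      have s1 : Fa A ⊆ univ.erase 0 := fun ψ hψ => mem_erase.2 ⟨Fa_ne hψ, mem_univ _⟩
      have a1 := add_prod hLB Λ q0 (Fa A) fun _ => Fa_ne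
      have a2 := add_prod hLB Λ1 q0 (Fa A) fun _ => Fa_ne
      refine eq_of_dvd (IsCoprime.dvd_of_dvd_mul_left
        (y := ∏ χ ∈ univ.erase 0 \ Fa A, Λ1.L χ) ?_ ?_) a1.1 a2.1 (a2.2.trans a1.2.symm).le
      · refine (isCoprime_iff_aeval_ne_zero_of_isAlgClosed ℂ ℂ _ _).2 fun β => ?_
        by_contra! z
        simp only [coe_aeval_eq_eval, eval_prod, prod_eq_zero_iff] at z
        obtain ⟨⟨ψ, z1, z2⟩, ψ', z3, z4⟩ := z
        exact (mem_sdiff.1 z3).2 (mem_Fa.2 (H4 q A A Λ κ Λ1.LZ (by omega) (add_mono B (by omega)) h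
          rfl (add_LZ Λ1).1 (add_LZ Λ1).2 ψ z1 ψ' β z2 z4))
      · rw [prod_sdiff s1, e1, ← e]
        exact prod_dvd_prod_of_subset _ _ _ s1
    · exact H1 q A Λ Λ1 κ _ (by omega) (add_mono B (by omega)) h (t5 c κ' h') (hS.trans t3.symm)
        χ hχ α hα hα1
  obtain ⟨b1, b2, b3⟩ := H3 q A Λ Λ1 κ (by omega) (add_mono B (by omega)) h (hS.trans t3.symm)
    χ hχ eq
  obtain ⟨κ', h'⟩ := h'.resolve_left fun a => b1 (t4 a)
  refine ⟨Θ.symm, by rwa [b2 _ (t5 c κ' h'), Θ.symm_apply_apply], b3.trans_eq' ?_⟩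
  congr 2
  ext s
  rw [mem_sdiff, mem_filter, t1.S, mem_image]
  exact and_congr_right' (not_congr ⟨fun ⟨a, a1, a2⟩ => by rwa [← a2, Θ.symm_apply_apply],
    fun a => ⟨_, a, Θ.apply_symm_apply s⟩⟩)

end

section

section

open Pool.Agent.P.MP_ab3ecb_nt.Inv Module

variable {k E : Type} [Field k] [Field E] [Algebra k E] [IsAlgClosed k] [FF k E]

lemma gb_ex {t : E} {g : ℕ} (ht : Transcendental k t) (h : Genus k E g) :
    ∃ K : Pic k E, RG K g := by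
  obtain ⟨g', R⟩ := exists_RR ht
  obtain ⟨O, -⟩ := PL.exists_pole ht
  obtain ⟨c, hc⟩ := R.big
  obtain ⟨⟨D, h1⟩, h2⟩ := h
  have h3 := h2 ⟨Finsupp.single O c, rfl⟩
  have h4 := R.rie D
  have h5 := hc (Finsupp.single O c) (by simp)
  simp only [ell_eq, degree_eq] at h1 h3
  obtain ⟨W, hW⟩ := R.canonical O
  refine ⟨W, fun x => ?_⟩
  obtain ⟨D, rfl⟩ := QuotientAddGroup.mk_surjective x
  rw [← QuotientAddGroup.mk_sub, ll_mk, ll_mk, hW, dg_mk]
  omega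

lemma gb_pow {P : Place k E} (h : ll (cls P) ≠ 1) (m : ℕ) :
    m + 1 ≤ finrank k (LS (m • pt P)) := by
  have l1 : (0 : Dv k E) ≤ pt P := Finsupp.single_nonneg.2 zero_le_one
  rw [cls, ll_mk] at h
  obtain ⟨f, f1, f2⟩ := SetLike.exists_of_lt (lt_of_le_of_ne (LS_mono l1) fun e => h (by
    rw [← e, rr_zero]))
  have f0 : f ≠ 0 := fun e => f2 (by rw [e]; exact zero_mem _)
  have f3 := (mem_LS' f0).1 f1
  induction m with
  | zero => rw [zero_smul, rr_zero]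
  | succ m ih =>
    have := rr_fd ((m + 1) • pt P)
    have p0 := pow_ne_zero (m + 1) f0
    refine Nat.succ_le_of_lt (ih.trans_lt (Submodule.finrank_lt_finrank_of_lt (lt_of_le_of_ne
      (LS_mono (by rw [succ_nsmul]; exact le_add_of_nonneg_right l1)) fun e => f2 ?_)))
    have f4 : f ^ (m + 1) ∈ LS ((m + 1) • pt P) :=
      (mem_LS' p0).2 (by rw [dv_pow, ← smul_add]; exact nsmul_nonneg f3 _)
    refine (mem_LS' f0).2 fun Q => ?_
    have e1 := (mem_LS' p0).1 (e.ge f4) Q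
    have e2 : pt P Q ≤ 1 := by rw [Finsupp.single_apply]; split_ifs <;> simp
    rw [dv_pow] at e1
    simp only [Finsupp.add_apply, Finsupp.zero_apply, Finsupp.smul_apply, nsmul_eq_mul,
      Nat.cast_succ] at e1 ⊢
    by_contra e3
    have : (0 : ℤ) ≤ m := Nat.cast_nonneg m
    nlinarith

lemma gb_all {K : Pic k E} {g : ℕ} (h : RG K g) (hg : 0 < g) : GB K g := by
  have h1 : ll K = g := by
    have := h 0
    rw [ll_zero, map_zero, sub_zero] at this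
    omega
  have h2 : dg K = 2 * g - 2 := by
    have := h K
    rw [h1, sub_self, ll_zero] at this
    omega
  have h3 (x : Pic k E) (a : dg x = 2 * g - 2) (b : g ≤ ll x) : x = K := by
    have := h x
    exact (sub_eq_zero.1 (ll_deg0 (by rw [map_sub, h2, a, sub_self]) (by omega))).symm
  have h4 (P : Place k E) : ll (cls P) = 1 := by_contra fun e => by
    have a := gb_pow e (2 * g)
    have b := h (((2 * g) • pt P : Dv k E) : Pic k E)
    have c : dg (((2 * g) • pt P : Dv k E) : Pic k E) = 2 * g := by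
      rw [dg_mk, map_nsmul, deg_single]
      simp
    rw [ll_neg (x := K - _) (by rw [map_sub, h2, c]; omega), ll_mk, c] at b
    omega
  have l (P : Place k E) : (0 : Dv k E) ≤ pt P := Finsupp.single_nonneg.2 zero_le_one
  exact ⟨h, h1, h2, h3, h4, fun P Q e => Finsupp.single_left_injective one_ne_zero
    (eff_unique ((ll_mk _).symm.trans (h4 Q)) (l Q) (l P) (mk_eq.1 e)),
    fun σ => h3 _ (by rw [dg_ph, h2]) (by rw [ll_ph, h1])⟩

end

theorem p_GB :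
    S_GB := fun _ _ _ _ _ _ _ => ⟨fun _ _ => gb_ex, fun _ _ => gb_all⟩

end

section

section
variable {k E : Type} [Field k] [Field E] [Algebra k E] [IsAlgClosed k] [FF k E]
  {σ : SA k E} {Q g : ℕ} {K : Pic k E}

lemma fb_ex (h : Fr σ Q) {x : Pic k E} {n : ℕ} (hx : ph σ x = x) (hn : dg x = n) (hl : ll x ≠ 0) :
    ∃ A ∈ Eff σ.pl n, (A : Pic k E) = x := by
  obtain ⟨X, h3, h4⟩ := h.count hx hn
  obtain ⟨A, hA⟩ : X.Nonempty := card_ne_zero.1 fun e => by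
    rw [e, zero_mul, zero_add, eq_comm, Nat.pow_eq_one] at h4
    have := h.1
    omega
  exact ⟨A, ((h3 A).1 hA).1, ((h3 A).1 hA).2⟩

lemma fb_fixed (h : Fr σ Q) (G : GB K g) (hg : 2 ≤ g) : {P | σ.pl P = P}.Finite := by
  obtain ⟨X, h1, -⟩ := h.count (n := 2 * g - 2) (G.phK σ) (by rw [G.dgK]; omega)
  refine (X.biUnion fun A => A.support).finite_toSet.subset fun P hP => ?_
  replace hP : σ.pl P = P := hP
  have r := G.rg (cls P)
  rw [G.one, dg_cls] at r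
  obtain ⟨A, ⟨a1, a2, a3⟩, a4⟩ := fb_ex h (x := K - cls P) (n := 2 * g - 3)
    (by rw [map_sub, G.phK, ph_cls, hP]) (by rw [map_sub, G.dgK, dg_cls]; omega) (by omega)
  have l : (0 : Dv k E) ≤ Finsupp.single P 1 := Finsupp.single_nonneg.2 zero_le_one
  rw [mem_coe, mem_biUnion]
  refine ⟨A + Finsupp.single P 1, (h1 _).2 ⟨⟨add_nonneg a1 l,
    dm_eq.1 (by rw [map_add, σ.dm_single, hP, dm_eq.2 a2]), by
      rw [map_add, a3, Pool.Agent.P.MP_ab3ecb_nt.Inv.deg_single]; omega⟩,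
    show (A : Pic k E) + cls P = K by rw [a4, sub_add_cancel]⟩, Finsupp.mem_support_iff.2 ?_⟩
  have : (0 : Dv k E) P ≤ A P := a1 P
  simp only [Finsupp.add_apply, Finsupp.single_eq_same, Finsupp.zero_apply] at this ⊢
  omega

lemma fb_fx (h : Fr σ Q) (G : GB K g) (hg : 2 ≤ g) (m : ℕ) (hm : m ≠ 0) :
    {P | σ.pl^[m] P = P}.Finite := by
  obtain ⟨τ, h1, h2, -⟩ := h.pw hm
  simpa only [h2] using fb_fixed h1 G hg

lemma fb_cl (h : Fr σ Q) (G : GB K g) (hg : 2 ≤ g) (n : ℤ) :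
    {x | ph σ x = x ∧ dg x = n}.Finite := by
  obtain ⟨N, hN, hN'⟩ : ∃ N : ℕ, (N : ℤ) = n + (n.natAbs + g : ℕ) * (2 * g - 2) ∧ g ≤ N := by
    have : ((n.natAbs + g : ℕ) : ℤ) * 1 ≤ (n.natAbs + g : ℕ) * (2 * g - 2) :=
      mul_le_mul_of_nonneg_left (by omega) (by omega)
    exact ⟨(n + (n.natAbs + g : ℕ) * (2 * g - 2)).toNat, by omega, by omega⟩
  refine ((eff_finite (fb_fx h G hg) N).image
    fun A : Dv k E => (A : Pic k E) - (n.natAbs + g) • K).subset fun x hx => ?_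
  have d : dg (x + (n.natAbs + g) • K) = N := by
    rw [map_add, map_nsmul, hx.2, G.dgK, hN, nsmul_eq_mul]
  have r := G.rg (x + (n.natAbs + g) • K)
  obtain ⟨A, a1, a2⟩ := fb_ex h (by rw [map_add, map_nsmul, hx.1, G.phK]) d (by omega)
  exact ⟨A, a1, by simp only [a2, add_sub_cancel_right]⟩

end

theorem p_FB :
    S_FB := by
  intro k E _ _ _ _ _ K g σ Q G hg h
  have fin : Finite (J σ) := (fb_cl h G hg 0).to_subtype
  have ef : ∀ n A, A ∈ ef σ n ↔ A ∈ Eff σ.pl n := fun n _ => mem_fs (eff_finite (fb_fx h G hg) n)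
  refine ⟨h, fin, fun m hm P => mem_fs (fb_fx h G hg m hm), ef, fun n x => mem_fs (fb_cl h G hg n),
    fun n x hx hn => ?_, fun e a => mem_fs (Set.toFinite _)⟩
  obtain ⟨X, h3, h4⟩ := h.count hx hn
  rw [← h4, show X = (R.ef σ n).filter fun A : Dv k E => (A : Pic k E) = x from
    Finset.ext fun A => by rw [mem_filter, ef, h3]]

end

end Pool.Agent.P.MP_9344a7_nt.Hy
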