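import Pool.Agent.P.MP_9344a7_nt.Hy.Iface

/-! Steps HY, SID, FE, LD. -/

set_option linter.unusedSectionVars false
set_option linter.unusedVariables false

namespace Pool.Agent.P.MP_9344a7_nt.Hy

open Polynomial Finset
open Pool.Agent.P.MP_6f117a_ag (Place FF)
open Pool.Agent.P.MP_ab3ecb_nt.Inv (Dv deg SA LS)
open Pool.Agent.P.MP_9344a7_nt.R
open Pool.Agent.P.MP_9344a7_nt.CoreC (cc)
open scoped Classical ComplexConjugate

section

section

open Pool.Agent.P.MP_ab3ecb_nt.Inv

variable {k E : Type} [Field k] [Field E] [Algebra k E] [IsAlgClosed k] [FF k E]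

lemma hy_pt (P : Place k E) : 0 ≤ pt P := Finsupp.single_nonneg.2 zero_le_one

lemma hy_cls (P : Place k E) : ((pt P : Dv k E) : Pic k E) = cls P := rfl

lemma hy_ptle {A : Dv k E} (hA : 0 ≤ A) {P : Place k E} (h : 0 < A P) : pt P ≤ A := fun Q => by
  rw [Finsupp.single_apply]
  split_ifs with e
  · exact e ▸ h
  · exact hA Q

lemma hy_le (x : Pic k E) (P : Place k E) : ll (x + cls P) ≤ ll x + 1 := by
  obtain ⟨A, rfl⟩ := QuotientAddGroup.mk_surjective x
  have := rr_mono (le_add_of_nonneg_right (hy_pt P) : A ≤ A + pt P)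
  rw [map_add, deg_single] at this
  rw [← hy_cls, ← QuotientAddGroup.mk_add, ll_mk, ll_mk]
  omega

lemma hy_pos {A : Dv k E} (hA : 0 ≤ A) : 1 ≤ ll (A : Pic k E) := by
  have := rr_fd A
  have h := Submodule.finrank_mono (LS_mono hA)
  rwa [rr_zero, ← ll_mk] at h

lemma hy_base {B D : Dv k E} (hB : 0 ≤ B) (hD : 0 ≤ D)
    (h : ll (B : Pic k E) ≤ ll ((B : Pic k E) - (D : Pic k E))) : D ≤ B := by
  have := rr_fd B
  rw [← QuotientAddGroup.mk_sub, ll_mk, ll_mk] at h
  have e := Submodule.eq_of_le_of_finrank_le (LS_mono (sub_le_self B hD)) h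
  have h1 : (1 : E) ∈ LS B := (mem_LS' one_ne_zero).2 (by simpa using hB)
  rw [← e, mem_LS' one_ne_zero] at h1
  simpa using h1

lemma hy_all (x : Pic k E) {D : Dv k E} (h : ∀ B : Dv k E, 0 ≤ B → (B : Pic k E) = x → D ≤ B) :
    ll x ≤ ll (x - (D : Pic k E)) := by
  obtain ⟨A, rfl⟩ := QuotientAddGroup.mk_surjective x
  have := rr_fd (A - D)
  rw [← QuotientAddGroup.mk_sub, ll_mk, ll_mk]
  refine Submodule.finrank_mono fun z hz => ?_
  rcases eq_or_ne z 0 with rfl | h0
  · exact zero_mem _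
  · rw [mem_LS' h0] at hz ⊢
    rw [← add_sub_assoc, sub_nonneg]
    exact h _ hz (mk_eq.2 ⟨z, h0, (add_sub_cancel_right _ _).symm⟩)

lemma hy_step {H x : Pic k E} (hH : ll H = 2) (hx : ll x ≠ 0) : ll x + 1 ≤ ll (x + H) := by
  obtain ⟨D, hD, rfl⟩ := ll_eff (x := H) (by omega)
  obtain ⟨A, rfl⟩ := QuotientAddGroup.mk_surjective x
  have := rr_fd A
  have := rr_fd (A + D)
  rw [← QuotientAddGroup.mk_add, ll_mk, ll_mk] at *
  obtain ⟨t, t1, t2⟩ := SetLike.exists_of_lt (lt_of_le_of_ne (LS_mono hD) fun e => by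
    rw [← e, rr_zero] at hH
    omega)
  have t0 : t ≠ 0 := fun e => t2 (by rw [e]; exact zero_mem _)
  by_contra hn
  have e := Submodule.eq_of_le_of_finrank_le
    (LS_mono (le_add_of_nonneg_right hD : A ≤ A + D)) (by omega)
  have hs : ∀ z ∈ LS A, LinearMap.mulLeft k t z ∈ LS A := fun z hz => by
    rcases eq_or_ne z 0 with rfl | h0
    · simp
    · rw [e, LinearMap.mulLeft_apply, mem_LS' (mul_ne_zero t0 h0), dv_mul t0 h0, add_comm A,
        add_add_add_comm]
      exact add_nonneg ((mem_LS' t0).1 t1) ((mem_LS' h0).1 hz)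
  have : Nontrivial (LS A) := Module.nontrivial_of_finrank_pos (Nat.pos_of_ne_zero hx)
  obtain ⟨c, hc⟩ := Module.End.exists_eigenvalue ((LinearMap.mulLeft k t).restrict hs)
  obtain ⟨z, hz⟩ := hc.exists_hasEigenvector
  have h1 : t * z.1 = algebraMap k E c * z.1 := by
    rw [← Algebra.smul_def]
    exact congrArg Subtype.val hz.apply_eq_smul
  have h2 : t = algebraMap k E c := mul_right_cancel₀ (fun e => hz.2 (Subtype.ext e)) h1
  exact t2 ((mem_LS' t0).2 (by rw [h2, dv_const, add_zero]))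

lemma hy_up {H x : Pic k E} (hH : ll H = 2) (hx : ll x ≠ 0) (j : ℕ) :
    ll x + j ≤ ll (x + j • H) := by
  induction j with
  | zero => simp
  | succ j ih =>
    have := hy_step hH (x := x + j • H) (by omega)
    rw [succ_nsmul, ← add_assoc x]
    omega

/-- The conjugate divisor. -/
noncomputable def hy_cj {ι : Place k E → Place k E} (h : Function.Involutive ι) (D : Dv k E) :
    Dv k E := D.equivMapDomain h.toPerm

lemma hy_cj_apply {ι : Place k E → Place k E} (h : Function.Involutive ι) (D : Dv k E)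
    (P : Place k E) : hy_cj h D P = D (ι P) := rfl

lemma hy_cj_cl {ι : Place k E → Place k E} (h : Function.Involutive ι) {H : Pic k E}
    (cj : ∀ P, cls P + cls (ι P) = H) (D : Dv k E) :
    (D : Pic k E) + (hy_cj h D : Dv k E) = deg D • H := by
  induction D using Finsupp.induction_linear with
  | zero =>
    have : hy_cj h (0 : Dv k E) = 0 := rfl
    simp [this]
  | add A B hA hB =>
    have : hy_cj h (A + B) = hy_cj h A + hy_cj h B := Finsupp.ext fun _ => rfl
    rw [this, QuotientAddGroup.mk_add, QuotientAddGroup.mk_add, add_add_add_comm, hA, hB, map_add,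
      add_zsmul]
  | single P n =>
    have e : ∀ Q : Place k E, (Finsupp.single Q n : Dv k E) = n • pt Q := fun Q => by simp
    have : hy_cj h (Finsupp.single P n) = Finsupp.single (ι P) n :=
      Finsupp.equivMapDomain_single _ _ _
    rw [this, deg_single, e, e, QuotientAddGroup.mk_zsmul, QuotientAddGroup.mk_zsmul, ← zsmul_add,
      hy_cls, hy_cls, cj]

end

open Pool.Agent.P.MP_ab3ecb_nt.Inv in
theorem p_HY :
    S_HY := by
  intro k E _ _ _ _ _ K H g G g2 dH lH
  obtain ⟨n, rfl⟩ : ∃ n, g = n + 1 := ⟨g - 1, by omega⟩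
  have ex : ∀ P : Place k E, ∃ Q, cls Q = H - cls P := fun P => by
    have := hy_le (H - cls P) P
    rw [sub_add_cancel] at this
    exact ll_deg1 (by rw [map_sub, dH, dg_cls]; rfl) (by omega)
  choose ι hι using ex
  have cj : ∀ P, cls P + cls (ι P) = H := fun P => by rw [hι, add_sub_cancel]
  have inv : Function.Involutive ι := fun P => G.inj _ _ (by rw [hι, hι, sub_sub_cancel])
  have dm : ∀ m : ℕ, dg (m • H) = 2 * m := fun m => by rw [map_nsmul, dH, nsmul_eq_mul, mul_comm]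
  have lo : ∀ m : ℕ, m + 1 ≤ ll (m • H) := fun m => by
    have := hy_up lH (x := 0) (by rw [ll_zero]; omega) m
    rwa [ll_zero, zero_add, add_comm] at this
  have can : K = n • H := (G.can _ (by rw [dm]; push_cast; ring) (lo n)).symm
  have sp : ∀ m < n + 1, m • H + (n - m) • H = K := fun m hm => by
    rw [← add_nsmul, can, Nat.add_sub_cancel' (by omega)]
  have mul : ∀ m < n + 1, ll (m • H) = m + 1 := fun m hm => by
    have h1 := lo m
    have := hy_up lH (x := m • H) (by omega) (n - m)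
    rw [sp m hm, G.llK] at this
    omega
  have odd : ∀ m < n + 1, ∀ P, ll (m • H + cls P) ≤ m + 1 := fun m hm P => by
    by_contra hn
    have := hy_up lH (x := m • H + cls P) (by omega) (n - m)
    rw [add_right_comm, sp m hm] at this
    have h1 := G.rg (K + cls P)
    rw [ll_neg (x := K - _) (by simp), map_add, G.dgK, dg_cls] at h1
    omega
  have bp : ∀ m < n + 1, ∀ A : Dv k E, 0 ≤ A → (A : Pic k E) = m • H → ∀ P, 0 < A P →
      pt P + pt (ι P) ≤ A := fun m hm A hA hc P hP => by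
    have h1 := hy_ptle hA hP
    have h2 := deg_mono h1
    rw [deg_single, ← dg_mk, hc, dm] at h2
    obtain ⟨j, rfl⟩ : ∃ j, m = j + 1 := ⟨m - 1, by omega⟩
    have h3 : ((A - pt P : Dv k E) : Pic k E) = j • H + cls (ι P) := by
      rw [QuotientAddGroup.mk_sub, hc, hy_cls, hι, succ_nsmul, add_sub_assoc]
    refine le_sub_iff_add_le'.1 (hy_base (sub_nonneg.2 h1) (hy_pt _) ?_)
    rw [h3, hy_cls, add_sub_cancel_right, mul j (by omega)]
    exact odd j (by omega) _
  have sym : ∀ m < n + 1, ∀ A : Dv k E, 0 ≤ A → (A : Pic k E) = m • H → ∀ P, A (ι P) = A P := by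
    intro m
    induction m with
    | zero =>
      intro _ A hA hc P
      rw [eq_zero_of_deg hA (by rw [← dg_mk, hc, dm]; simp)]
      rfl
    | succ m ih =>
      intro hm A hA hc P
      have h0 : A ≠ 0 := fun e => by
        have := dm (m + 1)
        rw [← hc, e, dg_mk, map_zero] at this
        omega
      obtain ⟨Q, hQ⟩ := Finsupp.support_nonempty_iff.2 h0
      have h1 := bp _ hm A hA hc Q (lt_of_le_of_ne (hA Q) (Finsupp.mem_support_iff.1 hQ).symm)
      have h2 := ih (by omega) _ (sub_nonneg.2 h1) (by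
        rw [QuotientAddGroup.mk_sub, QuotientAddGroup.mk_add, hy_cls, hy_cls, cj, hc, succ_nsmul,
          add_sub_cancel_right]) P
      simp only [Finsupp.sub_apply, Finsupp.add_apply, Finsupp.single_apply,
        inv.injective.eq_iff, inv.eq_iff, @eq_comm _ Q (ι P)] at h2
      omega
  refine ⟨ι, cj, inv, can, mul, fun D hD hn => ?_, fun m hm x hx hne => ?_, fun x hx => ?_⟩
  · have h1 := G.rg D
    have h2 := hy_pos hD
    rw [dg_mk] at h1
    by_cases h0 : ll (K - (D : Pic k E)) = 0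
    · omega
    have key : ∀ B : Dv k E, 0 ≤ B → (B : Pic k E) = K - (D : Pic k E) →
        hy_cj inv D ≤ B := fun B hB hc P => by
      have hA := add_nonneg hB hD
      have hc' : ((B + D : Dv k E) : Pic k E) = n • H := by
        rw [QuotientAddGroup.mk_add, hc, sub_add_cancel, can]
      have s1 := sym n (by omega) _ hA hc' P
      have b1 : 0 ≤ B P := hB P
      have b2 : 0 ≤ B (ι P) := hB _
      have d1 : 0 ≤ D P := hD P
      have d2 : 0 ≤ D (ι P) := hD _
      rw [hy_cj_apply]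
      simp only [Finsupp.add_apply] at s1
      by_contra hlt
      have d3 : 0 < D P := by omega
      by_cases e : ι P = P
      · have s2 := bp n (by omega) _ hA hc' P (by rw [Finsupp.add_apply]; omega) P
        simp only [e, Finsupp.add_apply, Finsupp.single_eq_same] at s2 hlt
        refine hn P fun Q => ?_
        by_cases e' : P = Q
        · subst e'
          simp only [e, Finsupp.add_apply, Finsupp.single_eq_same]
          omega
        · simpa [e, Finsupp.single_apply, e'] using hD Q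
      · refine hn P fun Q => ?_
        have d4 : 0 ≤ D Q := hD Q
        simp only [Finsupp.add_apply, Finsupp.single_apply]
        split_ifs with e1 e2 e2
        · exact absurd (e2.trans e1.symm) e
        · subst e1; omega
        · subst e2; omega
        · omega
    have h3 := hy_all _ key
    obtain ⟨d, hd⟩ := Int.eq_ofNat_of_zero_le (deg_nonneg hD)
    rw [sub_sub, hy_cj_cl inv cj, hd, natCast_zsmul] at h3
    have h4 : d ≤ n := by_contra fun hlt => by
      rw [ll_neg (x := K - d • H) (by rw [map_sub, G.dgK, dm]; omega)] at h3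
      omega
    rw [← sp d (by omega), add_sub_cancel_left, mul _ (by omega), sp d (by omega)] at h3
    omega
  · by_contra hn
    have := hy_up lH (x := x) (by omega) (n - m)
    have h1 := G.can (x + (n - m) • H) (by
      rw [map_add, hx, dm, Nat.cast_sub (by omega)]; push_cast; ring) (by omega)
    exact hne (add_right_cancel (h1.trans (sp m hm).symm))
  · obtain ⟨B, hB, hc⟩ := ll_eff (x := K - x) fun e => hx (by rw [G.rg x, e]; simp)
    refine ⟨(hy_cj inv B - B) ⊔ 0, le_sup_right, fun A hA hx => ?_⟩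
    have s1 := sym n (by omega) _ (add_nonneg hA hB) (by
      rw [QuotientAddGroup.mk_add, hx, hc, add_sub_cancel, can])
    simp only [Finsupp.add_apply] at s1
    refine ⟨fun P => ?_, fun P => ?_⟩
    · have a1 : 0 ≤ A P := hA P
      have a2 : 0 ≤ A (ι P) := hA _
      have := s1 P
      simp only [Finsupp.sup_apply, Finsupp.sub_apply, hy_cj_apply, Finsupp.zero_apply]
      omega
    · have := s1 P
      simp only [Finsupp.sup_apply, Finsupp.sub_apply, hy_cj_apply, Finsupp.zero_apply, inv P]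
      omega

end

section

section

open Pool.Agent.P.MP_ab3ecb_nt.Inv (deg_single eq_zero_of_deg)

variable {k E : Type} [Field k] [Field E] [Algebra k E] [IsAlgClosed k] [FF k E]
  {K e x : Pic k E} {g Q : ℕ} {σ : SA k E}

lemma sid_pt (P : Place k E) : (0 : Dv k E) ≤ pt P := Finsupp.single_nonneg.2 zero_le_one

lemma sid_split {A : Dv k E} (h1 : 0 ≤ A) (h0 : deg A ≠ 0) : ∃ P, 0 ≤ A - pt P := by
  obtain ⟨P, hP⟩ := Finsupp.support_nonempty_iff.2 fun e : A = 0 => by simp [e] at h0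
  refine ⟨P, sub_nonneg.2 fun Q => ?_⟩
  rw [Finsupp.single_apply]
  split_ifs with e
  · exact e ▸ lt_of_le_of_ne (h1 P) (Finsupp.mem_support_iff.1 hP).symm
  · exact h1 Q

lemma sid_inv {P : Place k E} (h : σ.pl P = P) (R : Place k E) : pt P (σ.pl R) = pt P R := by
  conv_lhs => rw [← h]
  exact Finsupp.single_apply_left σ.pl.injective _ _ _

lemma sid_one {A : Dv k E} : A ∈ Eff σ.pl 1 ↔ ∃ P, σ.pl P = P ∧ A = pt P := by
  constructor
  · rintro ⟨h1, h2, h3⟩
    obtain ⟨P, hP⟩ := sid_split h1 (by rw [h3]; simp)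
    obtain rfl := sub_eq_zero.1 (eq_zero_of_deg hP (by rw [map_sub, deg_single, h3]; simp))
    refine ⟨P, by_contra fun h => ?_, rfl⟩
    simpa [Finsupp.single_eq_of_ne h] using h2 P
  · rintro ⟨P, h, rfl⟩
    exact ⟨sid_pt P, sid_inv h, by simp⟩

lemma sid_le (G : GB K g) (h : dg x = 2) : ll x ≤ 2 := by
  by_contra h1
  obtain ⟨A, h2, rfl⟩ := ll_eff (x := x) (by omega)
  obtain ⟨P, h3⟩ := sid_split h2 (by rw [← dg_mk, h]; simp)
  have h4 := rr_mono (D := A - pt P) (D' := A) (sub_le_self _ (sid_pt P))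
  rw [← ll_mk, ← ll_mk, map_sub, deg_single] at h4
  obtain ⟨R, h5⟩ := ll_deg1 (x := ((A - pt P : Dv k E) : Pic k E))
    (by rw [dg_mk, map_sub, deg_single, ← dg_mk, h]; rfl) (by omega)
  have := G.one R
  rw [h5] at this
  omega

lemma sid_two (G : GB K g) {P Q P' Q' : Place k E} (e : cls P + cls Q' = cls P' + cls Q) :
    P = P' ∨ P = Q ∨ ll (cls P + cls Q') = 2 := by
  have l : ∀ P Q : Place k E, (0 : Dv k E) ≤ pt P + pt Q :=
    fun P Q => add_nonneg (sid_pt P) (sid_pt Q)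
  by_contra h1
  push Not at h1
  have a1 := sid_le G (x := cls P + cls Q') (by simp)
  have := rr_fd (pt P + pt Q')
  have a3 := Submodule.finrank_mono (MP_ab3ecb_nt.Inv.LS_mono
    (D := pt P) (D' := pt P + pt Q') (le_add_of_nonneg_right (sid_pt Q')))
  rw [← ll_mk, ← ll_mk] at a3
  have a4 : ll ((pt P : Dv k E) : Pic k E) = 1 := G.one P
  have a5 : ll ((pt P + pt Q' : Dv k E) : Pic k E) = ll (cls P + cls Q') := rfl
  have h2 := DFunLike.congr_fun (eff_unique ((ll_mk _).symm.trans (by have := h1.2.2; omega))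
    (l P Q') (l P' Q) (mk_eq.1 e.symm)) P
  have : (0 : Dv k E) P ≤ pt Q' P := sid_pt Q' P
  simp only [Finsupp.add_apply, Finsupp.single_eq_same, Finsupp.single_eq_of_ne h1.1,
    Finsupp.single_eq_of_ne h1.2.1, Finsupp.zero_apply] at h2 this
  omega

lemma sid_sid (hHY : S_HY) (G : GB K g) (hg : 2 ≤ g) (h : FB σ Q) : Sid (SS σ e) :=
    fun d hd T h1 h2 => not_lt.1 fun h3 => by
  obtain ⟨a, ha, b, hb, c, hc, ab, ac, bc⟩ := two_lt_card.1 h3
  have key : ∀ s ∈ T, ∃ P P', s.1 = cls P - e ∧ s.1 + d.1 = cls P' - e := fun s hs => by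
    obtain ⟨P, -, e1⟩ := (h.SS _ _).1 (h1 hs)
    obtain ⟨P', -, e2⟩ := (h.SS _ _).1 (h2 s hs)
    exact ⟨P, P', e1, e2⟩
  obtain ⟨P, P', e1, e2⟩ := key a ha
  have k2 : ∀ s ∈ T, a ≠ s →
      dg (s.1 + (cls P + e + d.1)) = 2 ∧ ll (s.1 + (cls P + e + d.1)) = 2 := fun s hs as => by
    obtain ⟨R, R', e3, e4⟩ := key s hs
    have e6 : s.1 + (cls P + e + d.1) = cls P + cls R' := by
      rw [sub_eq_iff_eq_add.1 e4.symm]; abel
    rcases sid_two G (P := P) (Q' := R') (P' := R) (Q := P') (by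
      rw [sub_eq_iff_eq_add.1 e1.symm, sub_eq_iff_eq_add.1 e2.symm,
        sub_eq_iff_eq_add.1 e3.symm, sub_eq_iff_eq_add.1 e4.symm]; abel) with e5 | e5 | e5
    · exact (as (Subtype.ext (by rw [e1, e3, e5]))).elim
    · exact (hd (Subtype.ext (by simpa [← e5, ← e1] using e2))).elim
    · rw [e6]
      exact ⟨by simp, e5⟩
  obtain ⟨ι, H⟩ := hHY k E K _ g G hg (k2 b hb ab).1 (k2 b hb ab).2
  refine bc (Subtype.ext (add_right_cancel (b := cls P + e + d.1) (by_contra fun h4 => ?_)))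
  have := H.mid 1 hg _ (k2 c hc ac).1 (by rw [one_nsmul]; exact Ne.symm h4)
  have := (k2 c hc ac).2
  omega

lemma sid_card (G : GB K g) (h : FB σ Q) (e1 : ph σ e = e) (e2 : dg e = 1) :
    #(SS σ e) = #(fx σ 1) := by
  have m := h.fx 1 one_ne_zero
  symm
  refine card_bij (fun P hP => ⟨cls P - e, mem_J.2 ⟨by
    rw [map_sub, e1, ph_cls, show σ.pl P = P from (m P).1 hP], by simp [e2]⟩⟩)
    (fun P hP => (h.SS _ _).2 ⟨P, (m P).1 hP, rfl⟩)
    (fun P _ P' _ e => G.inj _ _ (sub_left_injective (congrArg Subtype.val e))) fun s hs => ?_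
  obtain ⟨P, h1, h2⟩ := (h.SS _ _).1 hs
  exact ⟨P, (m P).2 h1, Subtype.ext h2.symm⟩

lemma sid_pair (G : GB K g) (h : FB σ Q) (b : J σ) :
    #{a ∈ SS σ e | b - a ∈ SS σ e} ≤
      2 * #((ef σ 2).filter fun A : Dv k E => (A : Pic k E) = b.1 + 2 • e) := by
  let pp : Pic k E → Dv k E := fun x => if h : ∃ P, cls P = x then pt h.choose else 0
  have hp : ∀ P, pp (cls P) = pt P := fun P => by
    have : ∃ R, cls R = cls P := ⟨P, rfl⟩
    simp only [pp, dif_pos this, G.inj _ _ this.choose_spec]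
  have key : ∀ a ∈ {a ∈ SS σ e | b - a ∈ SS σ e}, ∃ P R, σ.pl P = P ∧ σ.pl R = R ∧
      a.1 = cls P - e ∧ (b - a).1 = cls R - e ∧
      pp (a.1 + e) + pp ((b - a).1 + e) = pt P + pt R := fun a ha => by
    obtain ⟨P, h1, h2⟩ := (h.SS _ _).1 (mem_filter.1 ha).1
    obtain ⟨R, h3, h4⟩ := (h.SS _ _).1 (mem_filter.1 ha).2
    exact ⟨P, R, h1, h3, h2, h4, by rw [h2, h4, sub_add_cancel, sub_add_cancel, hp, hp]⟩
  refine card_le_mul_card_image_of_maps_to (f := fun a => pp (a.1 + e) + pp ((b - a).1 + e))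
    (fun a ha => ?_) 2 fun A _ => ?_
  · obtain ⟨P, R, h1, h2, h3, h4, h5⟩ := key a ha
    rw [h5]
    refine mem_filter.2 ⟨(h.ef _ _).2 ⟨add_nonneg (sid_pt P) (sid_pt R), fun S => ?_, by simp⟩, ?_⟩
    · rw [Finsupp.add_apply, Finsupp.add_apply, sid_inv h1, sid_inv h2]
    · change cls P + cls R = _
      rw [sub_eq_iff_eq_add.1 h3.symm, sub_eq_iff_eq_add.1 h4.symm, AddSubgroup.coe_sub]
      abel
  · rcases eq_empty_or_nonempty {a ∈ {a ∈ SS σ e | b - a ∈ SS σ e} |
      pp (a.1 + e) + pp ((b - a).1 + e) = A} with h0 | ⟨a, ha⟩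
    · rw [h0]; simp
    refine (card_le_card (t := {a, b - a}) fun c hc => ?_).trans card_le_two
    obtain ⟨P, R, -, -, h3, h4, h5⟩ := key a (mem_filter.1 ha).1
    obtain ⟨P', R', -, -, h6, -, h7⟩ := key c (mem_filter.1 hc).1
    have h8 := DFunLike.congr_fun
      (h5.symm.trans ((mem_filter.1 ha).2.trans ((mem_filter.1 hc).2.symm.trans h7))) P'
    have h9 : (0 : Dv k E) P' ≤ pt R' P' := sid_pt R' P'
    rw [mem_insert, mem_singleton]
    by_contra h0
    push Not at h0
    have n1 : P' ≠ P := fun e => h0.1 (Subtype.ext (by rw [h6, h3, e]))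
    have n2 : P' ≠ R := fun e => h0.2 (Subtype.ext (by rw [h6, h4, e]))
    simp only [Finsupp.add_apply, Finsupp.single_eq_same, Finsupp.single_eq_of_ne n1,
      Finsupp.single_eq_of_ne n2, Finsupp.zero_apply] at h8 h9
    omega

end

theorem p_SID (hHY : S_HY) :
    S_SID := by
  intro k E _ _ _ _ _ K e g σ Q W G hg h e1 e2 hW
  have := h.fin
  have := Fintype.ofFinite (J σ)
  have w1 : W 1 = ind (SS σ e) := by
    ext a
    rw [hW, coeff_ind]
    split_ifs with ha
    · obtain ⟨P, h1, h2⟩ := (h.SS _ _).1 ha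
      rw [Nat.cast_eq_one, card_eq_one]
      refine ⟨pt P, eq_singleton_iff_unique_mem.2 ⟨mem_filter.2 ⟨(h.ef _ _).2
        (sid_one.2 ⟨P, h1, rfl⟩), by rw [h2, one_nsmul, sub_add_cancel]; rfl⟩, fun A hA => ?_⟩⟩
      obtain ⟨R, -, rfl⟩ := sid_one.1 ((h.ef _ _).1 (mem_filter.1 hA).1)
      have h3 := (mem_filter.1 hA).2
      rw [h2, one_nsmul, sub_add_cancel] at h3
      rw [G.inj _ _ h3]
    · rw [Nat.cast_eq_zero, card_eq_zero, filter_eq_empty_iff]
      intro A hA h3
      obtain ⟨R, h1, rfl⟩ := sid_one.1 ((h.ef _ _).1 hA)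
      rw [one_nsmul] at h3
      exact ha ((h.SS _ _).2 ⟨R, h1, eq_sub_iff_add_eq.2 h3.symm⟩)
  refine ⟨?_, w1, sid_card G h e1 e2, sid_sid hHY G hg h, fun b => ?_, ?_⟩
  · ext a
    have h0 : ef σ 0 = {0} := Finset.ext fun A => by
      rw [h.ef, eff_zero, mem_singleton, Set.mem_singleton_iff]
    rw [hW, h0, filter_singleton, AddMonoidAlgebra.one_def]
    by_cases ha : a = 0
    · simp [ha]
    · have : ¬ (0 : Pic k E) = a.1 := fun e => ha (Subtype.ext e.symm)
      simp [this, Finsupp.single_eq_of_ne ha]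
  · rw [sq, coeff_mul, w1, hW]
    simp only [coeff_ind, ite_zero_mul_ite_zero, mul_one, sum_boole]
    have := sid_pair (e := e) G h b
    rw [← filter_filter, filter_mem_eq_inter, univ_inter]
    exact_mod_cast this
  · by_contra h0
    push Not at h0
    obtain ⟨⟨b, h1⟩, h2⟩ := h0
    have a1 : ph σ (b.1 + 2 • e) = b.1 + 2 • e := by
      rw [map_add, map_nsmul, e1, (mem_J.1 b.2).1]
    have a2 : dg (b.1 + 2 • e) = 2 := by simp [e2, (mem_J.1 b.2).2]
    have a3 := h.cnt 2 _ a1 a2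
    have a4 := sid_le G a2
    have a5 := h2 _ a1 a2
    have a6 := h.fr.1
    have a7 : Q ^ ll (b.1 + 2 • e) ≤ Q ^ 1 := Nat.pow_le_pow_right (by omega) (by omega)
    rw [hW] at h1
    have a8 := Nat.mul_le_mul_right (Q - 1) (show 2 ≤ _ from Nat.one_lt_cast.1 h1)
    rw [pow_one] at a7
    omega

end

section

section
variable {k E : Type} [Field k] [Field E] [Algebra k E] [IsAlgClosed k] [FF k E]
  {e : Pic k E} {σ : SA k E} {Q : ℕ} {W : ℕ → ZA (J σ)} [Fintype (J σ)]
  (h : FB σ Q) (e1 : ph σ e = e) (e2 : dg e = 1) (hW : IsW σ e W) (χ : AddChar (J σ) ℂ)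
include h e1 e2 hW

lemma fe_ev (j : ℕ) : ev χ (W j) = ∑ A ∈ ef σ j, ext e χ A := by
  rw [ev_eq, sum_congr rfl (g := fun a : J σ => ∑ A ∈ ef σ j,
    if (A : Pic k E) = a.1 + j • e then χ a else 0) fun a _ => by
      rw [hW, ← sum_filter, sum_const, nsmul_eq_mul, Int.cast_natCast], sum_comm]
  refine sum_congr rfl fun A hA => ?_
  have hA := (h.ef _ _).1 hA
  have d : dg (A : Pic k E) = j := hA.2.2
  have m := sub_mem_J e1 e2 (ph_inv hA.2.1)
  rw [d, natCast_zsmul] at m
  rw [sum_eq_single ⟨_, m⟩ (fun b _ hb => if_neg fun e3 => hb (Subtype.ext (by simp [e3])))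
    (by simp), if_pos (sub_add_cancel _ _).symm,
    ext_eq e2 χ ⟨_, m⟩ j (by rw [natCast_zsmul, sub_add_cancel])]

lemma fe_cnt (h0 : χ ≠ 0) (j : ℕ) :
    (Q - 1) * ev χ (W j) = ∑ a : J σ, Q ^ ll (a.1 + j • e) * χ a := by
  have z : ∑ a, χ a = 0 := AddChar.sum_eq_zero_iff_ne_zero.2 h0
  rw [ev_eq, mul_sum, ← add_zero (∑ _, _), ← z, ← sum_add_distrib]
  refine sum_congr rfl fun a _ => ?_
  have c := h.cnt j (a.1 + j • e) (by rw [map_add, map_nsmul, e1, (mem_J.1 a.2).1])
    (by simp [e2, (mem_J.1 a.2).2])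
  rw [← Nat.cast_pow, ← c, hW, Nat.cast_add, Nat.cast_mul, Nat.cast_sub (one_le_two.trans h.fr.1)]
  push_cast
  ring

end

theorem p_FE :
    S_FE := by
  intro k E _ _ _ _ _ K e n σ Q W ω g h e1 e2 hW hω χ
  have := h.fin
  have := Fintype.ofFinite (J σ)
  have d : ∀ (a : J σ) (j : ℕ), dg (a.1 + j • e) = j := fun a j => by simp [e2, (mem_J.1 a.2).2]
  refine ⟨?_, fun h0 => ⟨fun j hj => ?_, fun j hj => ?_⟩⟩
  · simp only [fe_ev h e1 e2 hW]
    have N := newton (ef σ) h.ef (fx σ) h.fx (fun A : Dv k E => ext e χ (A : Pic k E))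
      fun A B hA hB => by
        rw [QuotientAddGroup.mk_add]
        exact ext_add e1 e2 χ _ _ (ph_inv hA) (ph_inv hB)
    simp only [mk_Nm] at N
    exact N
  · refine mul_left_cancel₀ h.fr.ne_one ?_
    rw [fe_cnt h e1 e2 hW χ h0, sum_congr rfl (g := fun a => (Q : ℂ) ^ (j - n) * χ a) fun a _ => ?_,
      ← mul_sum, AddChar.sum_eq_zero_iff_ne_zero.2 h0, mul_zero, mul_zero]
    have r := g.rg (a.1 + j • e)
    rw [ll_neg (x := K - _) (by rw [map_sub, g.dgK, d]; omega), d] at r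
    rw [show ll (a.1 + j • e) = j - n by omega]
  · refine mul_left_cancel₀ h.fr.ne_one ?_
    have c := congrArg conj (fe_cnt h e1 e2 hW χ h0 j)
    simp only [map_mul, map_sub, map_natCast, map_one, map_sum, map_pow] at c
    rw [fe_cnt h e1 e2 hW χ h0, mul_left_comm, c, mul_sum, ← (Equiv.subLeft ω).sum_comp]
    refine sum_congr rfl fun a _ => ?_
    have r := g.rg (a.1 + j • e)
    have e3 : (ω - a).1 + (2 * n - j) • e = K - (a.1 + j • e) := by
      obtain ⟨i, hi⟩ : ∃ i, 2 * n = i + j := ⟨2 * n - j, by omega⟩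
      rw [AddSubgroup.coe_sub, hω, hi, Nat.add_sub_cancel, add_nsmul]
      abel
    rw [d] at r
    rw [Equiv.subLeft_apply, e3, show ll (K - (a.1 + j • e)) = n - j + ll (a.1 + j • e) by omega,
      sub_eq_add_neg ω, χ.map_add_eq_mul, AddChar.map_neg_eq_conj, pow_add]
    ring

end

section

theorem p_LD (hSID : S_SID) (hFE : S_FE) :
    S_LD := by
  intro k E _ _ _ _ _ K e n σ Q hG hn hF e1 e2 lo hi
  have := hF.fin
  obtain ⟨W, hW⟩ : ∃ W, IsW σ e W :=
    ⟨fun j => .ofCoeff (Finsupp.equivFunOnFinite.symm fun a =>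
      (((ef σ j).filter fun A : Dv k E => (A : Pic k E) = a.1 + j • e).card : ℤ)),
      fun j a => rfl⟩
  have hω : K - (2 * n) • e ∈ J σ := mem_J.2 ⟨by rw [map_sub, map_nsmul, hG.phK, e1], by
    rw [map_sub, map_nsmul, hG.dgK, e2]
    simp only [nsmul_eq_mul]
    push_cast
    ring⟩
  obtain ⟨w0, w1, cd, sid, two, alt⟩ := hSID k E K e (n + 1) σ Q W hG (by omega) hF e1 e2 hW
  have fe := hFE k E K e n σ Q W ⟨_, hω⟩ hG hF e1 e2 hW rfl
  refine ⟨⟨W, ⟨_, hω⟩, SS σ e, w0, w1, fun j a => by rw [hW]; positivity, sid, two,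
    fun χ h => ((fe χ).2 h).2, cd ▸ lo, cd ▸ hi⟩, ⟨e1, e2, hW, rfl, rfl, cd, fun χ h => ?_⟩, alt⟩
  convert (fe χ).1 using 1
  funext j
  rw [LD.L, coeff_map, LD.coeff_LZ]
  split_ifs with hj
  · rfl
  · rw [map_zero, ((fe χ).2 h).1 j (by omega)]

end

end Pool.Agent.P.MP_9344a7_nt.Hy
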