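import Pool.Agent.P.MP_9344a7_nt.Hy.Iface

/-! Steps ONT, PH, HD1, PAI, HD2, PRM. -/

set_option linter.unusedSectionVars false
set_option linter.unusedVariables false

namespace Pool.Agent.P.MP_9344a7_nt.Hy

open Polynomial Finset
open Pool.Agent.P.MP_6f117a_ag (Place FF)
open Pool.Agent.P.MP_ab3ecb_nt.Inv (Dv deg SA LS)
open Pool.Agent.P.MP_9344a7_nt.R
open Pool.Agent.P.MP_9344a7_nt.CoreC (cc)
open scoped Classical ComplexConjugate

section

lemma ont_cons (r : ℂ) (ρ : Multiset ℂ) : ofR (r ::ₘ ρ) = (1 - C r * X) * ofR ρ := by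
  rw [ofR, Multiset.map_cons, Multiset.prod_cons, ofR]

lemma ont_base (ρ : Multiset ℂ) : (ofR ρ).coeff 0 = 1 ∧ (ofR ρ).natDegree ≤ ρ.card := by
  induction ρ using Multiset.induction_on with
  | empty => simp [ofR]
  | cons r ρ ih =>
    rw [ont_cons, Multiset.card_cons]
    refine ⟨by simp [ih.1], natDegree_mul_le.trans ?_⟩
    have : (1 - C r * X).natDegree ≤ 1 := by compute_degree
    omega

lemma ont_prod (s : Multiset ℂ) (h : 0 ∉ s) :
    ∃ c ρ, (s.map fun a => X - C a).prod = C c * ofR ρ := by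
  induction s using Multiset.induction_on with
  | empty => exact ⟨1, 0, by simp [ofR]⟩
  | cons a s ih =>
    rw [Multiset.mem_cons, not_or] at h
    obtain ⟨c, ρ, e⟩ := ih h.2
    refine ⟨-a * c, a⁻¹ ::ₘ ρ, ?_⟩
    have h1 : (C a * C a⁻¹ : ℂ[X]) = 1 := by rw [← C_mul, mul_inv_cancel₀ (Ne.symm h.1), C_1]
    rw [Multiset.map_cons, Multiset.prod_cons, e, ont_cons, C_mul, C_neg]
    linear_combination (-(C c * ofR ρ * X)) * h1

lemma ont_ofR (p : ℂ[X]) (h : p.coeff 0 = 1) : ∃ ρ, p = ofR ρ := by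
  obtain ⟨c, ρ, e⟩ := ont_prod p.roots fun h0 => by
    have := (isRoot_of_mem_roots h0).eq_zero
    rw [← coeff_zero_eq_eval_zero, h] at this
    exact one_ne_zero this
  have h1 := (IsAlgClosed.splits p).eq_prod_roots
  rw [e, ← mul_assoc, ← C_mul] at h1
  have h2 := congrArg (coeff · 0) h1
  simp only [coeff_C_mul, (ont_base ρ).1, mul_one, h] at h2
  exact ⟨ρ, by rw [h1, ← h2, C_1, one_mul]⟩

theorem p_ONT (hFB : S_FB) (hNWR : S_NWR) (hLB : S_LB) :
    S_ONT := by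
  intro k E _ _ _ _ _ K e n σ Q Λ g hn h hL m τ hm t1 t2 t3
  have := h.fin
  have := Fintype.ofFinite (J σ)
  have ft := hFB k E K (n + 1) τ (Q ^ m) g (by omega) t1
  have e1 := hL.e1
  have e2 := hL.e2
  have n1 : ∀ x ∈ J τ, nm (ph σ) m x ∈ J σ := fun x hx =>
    mem_J.2 ⟨nm_fix ((t3 x).symm.trans hx.1), by rw [dg_nm, (mem_J.1 hx).2, mul_zero]⟩
  refine le_antisymm (by rintro _ ⟨x, hx, rfl⟩; exact n1 x hx) fun a ha => by_contra fun h1 => ?_
  let H := ((J τ).map (nm (ph σ) m)).addSubgroupOf (J σ)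
  obtain ⟨χ0, h2⟩ := (AddChar.exists_apply_ne_zero (a := ((⟨a, ha⟩ : J σ) : J σ ⧸ H))).2
    fun e => h1 ((QuotientAddGroup.eq_zero_iff (N := H) _).1 e)
  let χ := χ0.compAddMonoidHom (QuotientAddGroup.mk' H)
  have hχ : χ ≠ 0 := AddChar.ne_zero_iff.2 ⟨⟨a, ha⟩, h2⟩
  have l0 := (hLB Q n _ Λ (by have := h.fr.1; omega) χ hχ).1
  obtain ⟨ρ, hρ⟩ := ont_ofR _ l0
  have h3 := (hL.nw χ hχ).s_eq (by rw [hρ]; exact hNWR ρ) l0
  have e3 : ph τ e = e := (t3 e).trans (Function.iterate_fixed e1 m)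
  have N1 : Newt (fun j => #(ef τ j)) fun j => #(fx τ j) := by
    simpa using newton (ef τ) ft.ef (fx τ) ft.fx (fun _ => 1) fun _ _ _ _ => (one_mul _).symm
  have z0 : ef τ 0 = {0} := Finset.ext fun A => by
    rw [ft.ef, eff_zero, mem_singleton, Set.mem_singleton_iff]
  have h5 := N1.W_eq (hNWR (ρ.map (· ^ m))) (by simp [z0, (ont_base _).1]) (fun j hj => ?_)
    (ρ.card + n + 1)
  · rw [coeff_eq_zero_of_natDegree_lt ((ont_base _).2.trans_lt (by rw [Multiset.card_map]; omega)),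
      Nat.cast_eq_zero, card_eq_zero] at h5
    have d1 : dg ((ρ.card + n + 1) • e) = (ρ.card + n + 1 : ℕ) := by simp [e2]
    have h6 := ft.cnt _ _ (by rw [map_nsmul, e3]) d1
    have h7 := g.rg ((ρ.card + n + 1) • e)
    rw [h5, filter_empty, card_empty, zero_mul, zero_add, eq_comm, Nat.pow_eq_one] at h6
    have := t1.1
    omega
  have e4 : fx σ (m * j) = fx τ j := by
    rw [fx, fx, funext t2, Function.iterate_mul]
  have h4 := h3 _ (mul_ne_zero hm hj)
  simp only [pow_mul] at h4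
  simp only [Multiset.map_map, Function.comp]
  rw [← h4, sm, e4, card_eq_sum_ones, Nat.cast_sum]
  refine sum_congr rfl fun P hP => ?_
  have h8 : (ph τ)^[j] (cls P) = cls P := by
    rw [← Function.Semiconj.iterate_right
      (fun P => (ph_cls τ P).symm : Function.Semiconj cls τ.pl (ph τ)) j P, (ft.fx j hj P).1 hP]
  have h6 := sub_mem_J e3 e2 (nm_fix h8)
  rw [nm_mul t3, ext_eq e2 χ ⟨_, n1 _ h6⟩ (m * dg (nm (ph τ) j (cls P))) (by
    dsimp only
    rw [map_sub, map_zsmul, nm_of_fix e1, mul_comm, mul_zsmul, natCast_zsmul, sub_add_cancel])]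
  exact Nat.cast_one.trans (χ0.map_zero_eq_one.symm.trans (congrArg χ0
    ((QuotientAddGroup.eq_zero_iff (N := H) _).2 (AddSubgroup.mem_map_of_mem _ h6)).symm))

end

section

lemma ph_iff (W s : ℕ → ℂ) : Newt W s ↔ PowerSeries.X * PowerSeries.derivative ℂ (.mk W) =
    .mk W * PowerSeries.mk fun m => if m = 0 then 0 else s m := by
  rw [PowerSeries.ext_iff]
  refine forall_congr' fun n => ?_
  have e1 : PowerSeries.coeff n (PowerSeries.X * PowerSeries.derivative ℂ (.mk W)) = n * W n := by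
    cases n with
    | zero => simp
    | succ n =>
      rw [PowerSeries.coeff_succ_X_mul, PowerSeries.coeff_derivative, PowerSeries.coeff_mk]
      push_cast
      ring
  rw [e1, PowerSeries.coeff_mul, Nat.sum_antidiagonal_eq_sum_range_succ_mk, sum_range_succ]
  simp only [PowerSeries.coeff_mk, Nat.sub_self, if_true, mul_zero, add_zero]
  rw [sum_congr rfl (g := fun j => W j * if n - j = 0 then 0 else s (n - j)) fun j hj => by
    rw [if_neg (by have := mem_range.1 hj; omega), mul_comm]]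

lemma ph_mul {p p' : ℂ[X]} {s s' : ℕ → ℂ} (h : Newt p.coeff s) (h' : Newt p'.coeff s') :
    Newt (p * p').coeff fun m => s m + s' m := by
  rw [ph_iff] at h h' ⊢
  have e1 : PowerSeries.mk (p * p').coeff = PowerSeries.mk p.coeff * PowerSeries.mk p'.coeff :=
    Polynomial.coe_mul p p'
  have e2 : (PowerSeries.mk fun m => if m = 0 then 0 else s m + s' m) =
      (PowerSeries.mk fun m => if m = 0 then 0 else s m) +
        PowerSeries.mk fun m => if m = 0 then 0 else s' m := by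
    ext m
    simp only [PowerSeries.coeff_mk, map_add]
    split_ifs <;> simp
  rw [e1, e2, Derivation.leibniz, smul_eq_mul, smul_eq_mul]
  linear_combination PowerSeries.mk p'.coeff * h + PowerSeries.mk p.coeff * h'

lemma ph_prod {ι : Type} (T : Finset ι) (p : ι → ℂ[X]) (s : ι → ℕ → ℂ)
    (h : ∀ i ∈ T, Newt (p i).coeff (s i)) : Newt (∏ i ∈ T, p i).coeff fun m => ∑ i ∈ T, s i m := by
  induction T using Finset.induction_on with
  | empty =>
    intro n
    rcases n with _ | n <;> simp [coeff_one]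
  | insert a T ha ih =>
    simp only [prod_insert ha, sum_insert ha]
    exact ph_mul (h a (mem_insert_self _ _)) (ih fun i hi => h i (mem_insert_of_mem hi))

section
variable {k E : Type} [Field k] [Field E] [Algebra k E] [IsAlgClosed k] [FF k E]
  {σ : SA k E} {Q m g : ℕ} {e K : Pic k E}

lemma ph_iter (g : GB K g) {P : Place k E} : (ph σ)^[m] (cls P) = cls P ↔ σ.pl^[m] P = P := by
  rw [← Function.Semiconj.iterate_right
    (fun P => (ph_cls σ P).symm : Function.Semiconj cls σ.pl (ph σ)) m P]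
  exact ⟨g.inj _ _, congrArg _⟩

theorem ph_pts [Fintype (J σ)] (h : FB σ Q) (g : GB K g) (e1 : ph σ e = e) (e2 : dg e = 1)
    (hm : m ≠ 0) {τ : SA k E} (t1 : Finite (J τ)) (t3 : ∀ x, ph τ x = (ph σ)^[m] x)
    (ont : (J τ).map (nm (ph σ) m) = J σ) :
    (nH σ e m : ℂ) = ∑ χ : AddChar (J σ) ℂ, sm e χ m := by
  have fT : {x : Pic k E | dg x = 0 ∧ (ph σ)^[m] x = x ∧ ∃ P, x - ph σ x = cls P - e}.Finite :=
    (Set.toFinite (J τ : Set (Pic k E))).subset fun x hx => mem_J.2 ⟨(t3 x).trans hx.2.1, hx.1⟩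
  let δ : Pic k E →+ Pic k E := .id _ - ph σ
  have d1 : ∀ x, δ x = x - ph σ x := fun _ => rfl
  have c1 : ∀ x, ph τ (ph σ x) = ph σ (ph τ x) := fun x => by
    rw [t3, t3, ← Function.iterate_succ_apply, Function.iterate_succ_apply']
  have e3 : ph τ e = e := (t3 e).trans (Function.iterate_fixed e1 m)
  have j1 : ∀ x, x ∈ J σ ↔ x ∈ J τ ∧ δ x = 0 := fun x =>
    ⟨fun hx => ⟨mem_J.2 ⟨(t3 x).trans (Function.iterate_fixed hx.1 m), hx.2⟩,
      sub_eq_zero.2 hx.1.symm⟩, fun hx => mem_J.2 ⟨(sub_eq_zero.1 hx.2).symm, hx.1.2⟩⟩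
  have j2 : ∀ x ∈ J τ, δ x ∈ J τ ∧ nm (ph σ) m (δ x) = 0 := fun x hx =>
    ⟨mem_J.2 ⟨by rw [d1, map_sub, c1, (mem_J.1 hx).1], by simp [d1]⟩, by
      rw [d1, nm_sub, ← t3, (mem_J.1 hx).1, sub_self]⟩
  let Z := (fx σ m).filter fun P => nm (ph σ) m (cls P - e) = 0
  have z1 : ∀ P ∈ fx σ m, cls P - e ∈ J τ := fun P hP => mem_J.2
    ⟨by rw [map_sub, e3, t3, (ph_iter g).2 ((h.fx m hm _).1 hP)], by simp [e2]⟩
  have c2 : #fT.toFinset = #Z * Fintype.card (J σ) := by
    rw [← card_image_of_injOn (f := fun P => cls P - e) fun P _ P' _ e =>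
      g.inj _ _ (sub_left_injective e), card_eq_sum_card_fiberwise (f := δ)
        (t := Z.image fun P => cls P - e) fun x hx => ?_, sum_const_nat fun y hy => ?_]
    · obtain ⟨P, hP, rfl⟩ := mem_image.1 hy
      obtain ⟨x0, x1, x2⟩ := herb j1 j2 ont (z1 P (mem_filter.1 hP).1) (mem_filter.1 hP).2
      symm
      refine card_bij (fun a _ => x0 + a) (fun a _ => ?_)
        (fun a _ b _ e => Subtype.ext (add_left_cancel e)) fun x hx => ?_
      · have a1 := (j1 a).1 a.2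
        have a2 := mem_J.1 (add_mem x1 a1.1)
        have a3 : δ (x0 + a) = cls P - e := by rw [map_add, x2, a1.2, add_zero]
        exact mem_filter.2 ⟨fT.mem_toFinset.2 ⟨a2.2, (t3 _).symm.trans a2.1, P, a3⟩, a3⟩
      · obtain ⟨a1, a2⟩ := mem_filter.1 hx
        have a1 := fT.mem_toFinset.1 a1
        exact ⟨⟨x - x0, (j1 _).2 ⟨sub_mem (mem_J.2 ⟨(t3 x).trans a1.2.1, a1.1⟩) x1, by
          rw [map_sub, a2, x2, sub_self]⟩⟩, mem_univ _, add_sub_cancel _ _⟩
    · obtain ⟨a1, a2, P, a3⟩ := fT.mem_toFinset.1 hx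
      have a4 := j2 x (mem_J.2 ⟨(t3 x).trans a2, a1⟩)
      rw [d1, a3] at a4
      have a5 := (mem_J.1 a4.1).1
      rw [map_sub, e3, t3, sub_left_inj, ph_iter g] at a5
      exact mem_image.2 ⟨P, mem_filter.2 ⟨(h.fx m hm _).2 a5, a4.2⟩, a3.symm⟩
  refine (congrArg Nat.cast ((Set.ncard_eq_toFinset_card _ fT).trans c2)).trans ?_
  rw [Nat.cast_mul]
  simp only [sm]
  rw [sum_comm, ← nsmul_eq_mul, ← sum_const, sum_filter]
  refine sum_congr rfl fun P hP => ?_
  have a1 : nm (ph σ) m (cls P - e) ∈ J σ := ont.le ⟨_, z1 P hP, rfl⟩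
  rw [sum_congr rfl fun χ _ => ext_eq e2 χ ⟨_, a1⟩ m (by
    dsimp only
    rw [map_sub, nm_of_fix e1, natCast_zsmul, sub_add_cancel]), AddChar.sum_apply_eq_ite]
  simp only [Subtype.ext_iff, ZeroMemClass.coe_zero]

end

theorem p_PH (hFB : S_FB) (hONT : S_ONT) :
    S_PH := by
  intro k E _ _ _ _ _ K e n σ Q Λ _ g hn h hL
  have h1 := ph_prod (univ.erase 0) Λ.L (sm e) fun χ hχ => hL.nw χ (ne_of_mem_erase hχ)
  intro N
  rw [h1 N]
  refine sum_congr rfl fun j hj => ?_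
  have hm : N - j ≠ 0 := by have := mem_range.1 hj; omega
  generalize N - j = m at hm
  obtain ⟨τ, t1, t2, t3⟩ := h.fr.pw hm
  have : sm e (0 : AddChar (J σ) ℂ) m = #(fx σ m) := by
    rw [sm, card_eq_sum_ones, Nat.cast_sum]
    exact sum_congr rfl fun P hP => (dif_pos (sub_mem_J hL.e1 hL.e2 (nm_fix
      ((ph_iter g).2 ((h.fx m hm _).1 hP))))).trans Nat.cast_one.symm
  dsimp only
  rw [ph_pts h g hL.e1 hL.e2 hm (hFB k E K _ τ _ g (by omega) t1).fin t3
    (hONT k E K e n σ Q Λ g hn h hL m τ hm t1 t2 t3),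
    ← add_sum_erase _ _ (mem_univ (0 : AddChar (J σ) ℂ)), this, add_sub_cancel_left]

end

section

section

variable {k E : Type} [Field k] [Field E] [Algebra k E] [IsAlgClosed k] [FF k E]

lemma hd1_cls {K H : Pic k E} {g : ℕ} {ι} (y : HY K H g ι) (A : Dv k E) :
    ((Finsupp.domCongr (Function.Involutive.toPerm ι y.inv) A : Dv k E) : Pic k E) =
      deg A • H - A := by
  induction A using Finsupp.induction_linear with
  | zero => simp
  | add A B h1 h2 =>
    rw [map_add, QuotientAddGroup.mk_add, h1, h2, map_add, QuotientAddGroup.mk_add, add_zsmul]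
    abel
  | single P m =>
    have e : ∀ P : Place k E, ((Finsupp.single P m : Dv k E) : Pic k E) = m • cls P := fun P => by
      rw [cls, ← QuotientAddGroup.mk_zsmul, Finsupp.smul_single, smul_eq_mul, mul_one]
    rw [Finsupp.domCongr_apply, Finsupp.equivMapDomain_single, e, e,
      MP_ab3ecb_nt.Inv.deg_single, ← zsmul_sub, ← eq_sub_of_add_eq' (y.cj P)]
    rfl

lemma hd1_sym {K H : Pic k E} {g Q : ℕ} {ι} {σ : SA k E} (y : HY K H g ι) (b : FB σ Q)
    (hH : dg H = 2) (hc : ∀ P, σ.pl (ι P) = ι (σ.pl P)) (j : ℕ) (x : Pic k E) :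
    #((ef σ j).filter fun A : Dv k E => (A : Pic k E) = j • H - x) =
      #((ef σ j).filter fun A : Dv k E => (A : Pic k E) = x) := by
  let D : Dv k E ≃+ Dv k E := Finsupp.domCongr (Function.Involutive.toPerm ι y.inv)
  have a : ∀ A P, D A P = A (ι P) := fun _ _ => rfl
  have m : ∀ A ∈ ef σ j, D A ∈ ef σ j ∧ (D A : Pic k E) = j • H - A := fun A hA => by
    obtain ⟨h1, h2, h3⟩ := (b.ef j A).1 hA
    have h4 : (D A : Pic k E) = j • H - A := by rw [← natCast_zsmul, ← h3]; exact hd1_cls y A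
    refine ⟨(b.ef j _).2 ⟨fun P => h1 (ι P), fun P => by rw [a, a, ← hc, h2], ?_⟩, h4⟩
    have := congrArg dg h4
    rw [dg_mk, map_sub, map_nsmul, dg_mk, h3, hH, nsmul_eq_mul] at this
    omega
  have i : ∀ A, D (D A) = A := fun A => Finsupp.ext fun P => by rw [a, a, y.inv]
  refine card_nbij' D D (fun A hA => ?_) (fun A hA => ?_) (fun A _ => i A) fun A _ => i A
  · obtain ⟨h1, h2⟩ := mem_filter.1 (mem_coe.1 hA)
    exact mem_coe.2 (mem_filter.2 ⟨(m A h1).1, by rw [(m A h1).2, h2, sub_sub_cancel]⟩)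
  · obtain ⟨h1, h2⟩ := mem_filter.1 (mem_coe.1 hA)
    exact mem_coe.2 (mem_filter.2 ⟨(m A h1).1, by rw [(m A h1).2, h2]⟩)

lemma hd1_pos {α : Type} (f : α → Place k E) (T : Finset α) (P : Place k E) :
    0 < (∑ s ∈ T, pt (f s)) P ↔ ∃ s ∈ T, f s = P := by
  rw [Finsupp.finsetSum_apply]
  simp only [Finsupp.single_apply, sum_boole, Nat.cast_pos, card_pos, filter_nonempty_iff]

end

theorem p_HD1 :
    S_HD1 := by
  intro k E _ _ _ _ _ K H e n ι σ Q Λ κ g hn b L y hκ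
  have eH : H = κ.1 + 2 • e := by rw [hκ, sub_add_cancel]
  have fx : ∀ a : J σ, ph σ (a.1 + 2 • e) = a.1 + 2 • e ∧ dg (a.1 + 2 • e) = (2 : ℕ) := fun a =>
    ⟨by rw [map_add, map_nsmul, L.e1, (mem_J.1 a.2).1],
      by rw [map_add, map_nsmul, L.e2, (mem_J.1 a.2).2]; rfl⟩
  have hc : ∀ P, σ.pl (ι P) = ι (σ.pl P) := fun P => g.inj _ _ (by
    rw [← ph_cls, eq_sub_of_add_eq' (y.cj P), eq_sub_of_add_eq' (y.cj (σ.pl P)), map_sub, ph_cls,
      eH, (fx κ).1])
  obtain ⟨q, rfl⟩ : ∃ q, Q = q + 1 := ⟨Q - 1, by have := b.fr.1; omega⟩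
  have q0 : 0 < q := by have := b.fr.1; omega
  refine ⟨hc, Subtype.ext ?_, fun j a => ?_, ?_, fun a ha => ?_, fun U V hU hV cU cV hp hs => ?_⟩
  · rw [L.ω, y.can, AddSubgroup.coe_nsmul, hκ, nsmul_sub, ← mul_nsmul, Nat.add_sub_cancel]
  · rw [L.W, L.W, ← hd1_sym y b (eH ▸ (fx κ).2) hc j (a.1 + j • e)]
    have : ((j • κ - a : J σ) : Pic k E) + j • e = j • H - (a.1 + j • e) := by
      rw [AddSubgroup.coe_sub, AddSubgroup.coe_nsmul, eH, nsmul_add, two_nsmul, nsmul_add]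
      abel
    rw [this]
  · have h1 := b.cnt 2 _ (fx κ).1 (fx κ).2
    have h2 := y.mul 1 (by omega)
    rw [one_nsmul, eH] at h2
    rw [h2, Nat.add_sub_cancel, show (q + 1) ^ (1 + 1) = (q + 1 + 1) * q + 1 by ring] at h1
    rw [L.W]
    exact_mod_cast Nat.eq_of_mul_eq_mul_right q0 (Nat.add_right_cancel h1)
  · have h1 := b.cnt 2 _ (fx a).1 (fx a).2
    have h2 := y.mid 1 (by omega) _ (fx a).2 fun h => ha (Subtype.ext (by
      rw [one_nsmul, eH] at h
      exact add_right_cancel h))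
    have h3 : (q + 1) ^ _ ≤ _ := Nat.pow_le_pow_right q.succ_pos h2
    rw [← h1, Nat.add_sub_cancel, pow_one] at h3
    rw [L.W]
    exact_mod_cast Nat.le_of_mul_le_mul_right
      ((Nat.le_of_succ_le_succ h3).trans_eq (one_mul q).symm) q0
  · rw [L.S] at hU hV
    have O : Nonempty (Place k E) := by
      obtain ⟨s, h⟩ := card_pos.1 (cU ▸ n.succ_pos : 0 < #U)
      exact ((b.SS e s).1 (hU h)).nonempty
    choose! f _ hf using fun s => (b.SS e s).1
    have c : ∀ T ⊆ SS σ e, #T = n + 1 → 0 ≤ ∑ s ∈ T, pt (f s) ∧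
        ((∑ s ∈ T, pt (f s) : Dv k E) : Pic k E) = (∑ s ∈ T, s : J σ) + (n + 1) • e :=
      fun T hT cT => ⟨sum_nonneg fun _ _ => Finsupp.single_nonneg.2 zero_le_one, by
        rw [QuotientAddGroup.mk_sum, AddSubgroup.val_finsetSum, ← cT, ← sum_const, ← sum_add_distrib]
        exact sum_congr rfl fun s h => (eq_sub_iff_add_eq.1 (hf s (hT h))).symm⟩
    have h1 := y.nc _ (c U hU cU).1 fun P h => by
      have p : ∀ R, (0 : ℤ) ≤ pt P R ∧ (0 : ℤ) ≤ pt (ι P) R := fun R =>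
        ⟨Finsupp.single_nonneg.2 zero_le_one R, Finsupp.single_nonneg.2 zero_le_one R⟩
      obtain ⟨s, s1, s2⟩ := (hd1_pos f U P).1 (lt_of_lt_of_le (by
        have := (p P).2
        rw [Finsupp.add_apply, Finsupp.single_eq_same]; omega) (h P))
      obtain ⟨t, t1, t2⟩ := (hd1_pos f U (ι P)).1 (lt_of_lt_of_le (by
        have := (p (ι P)).1
        rw [Finsupp.add_apply, Finsupp.single_eq_same (a := ι P)]; omega) (h (ι P)))
      refine hp s s1 t t1 (Subtype.ext ?_)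
      rw [AddSubgroup.coe_add, hf s (hU s1), hf t (hU t1), s2, t2, hκ, ← y.cj P, two_nsmul]
      abel
    have h2 : deg (∑ s ∈ U, pt (f s)) = (n + 1 : ℕ) := by simp [cU]
    rw [h2, ll_mk] at h1
    have h3 := eff_unique (by omega) (c U hU cU).1 (c V hV cV).1
      (mk_eq.1 (by rw [(c U hU cU).2, (c V hV cV).2, hs]))
    refine eq_of_subset_of_card_le (fun s h => ?_) (by rw [cU, cV])
    obtain ⟨t, t1, t2⟩ := (hd1_pos f V (f s)).1 (h3 ▸ (hd1_pos f U _).2 ⟨s, h, rfl⟩)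
    rwa [← show t = s from Subtype.ext (by rw [hf t (hV t1), hf s (hU h), t2])]

end

section

lemma pai_icc {k E : Type} [Field k] [Field E] [Algebra k E] (B : Dv k E) (h : 0 ≤ B) (n : ℕ)
    (hn : deg B = n) : #(Icc 0 B) ≤ 2 ^ n := by
  have e : n = ∑ P ∈ B.support, (B P).toNat := by
    have : (n : ℤ) = ∑ P ∈ B.support, ((B P).toNat : ℤ) := by
      rw [← hn]
      exact sum_congr rfl fun P _ => (Int.toNat_of_nonneg (h P)).symm
    exact_mod_cast this
  rw [Finsupp.card_Icc, e, ← prod_pow_eq_pow_sum, Finsupp.support_zero, empty_union]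
  refine prod_le_prod' fun P _ => ?_
  have h1 : (B P).toNat < 2 ^ (B P).toNat := Nat.lt_two_pow_self
  have h2 : (0 : ℤ) ≤ B P := h P
  rw [Int.card_Icc, Finsupp.zero_apply]
  omega

theorem p_PAI :
    S_PAI := by
  intro k E _ _ _ _ _ K H g ι σ Q fb hy _ hc i j x
  have inj : Function.Injective ι := Function.LeftInverse.injective hy.inv
  have ap : ∀ (A : Dv k E) P, A.mapDomain ι P = A (ι P) := fun A P => by
    conv_lhs => rw [← hy.inv P]
    exact Finsupp.mapDomain_apply inj _ _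
  have cd : ∀ A : Dv k E, deg (A.mapDomain ι) = deg A ∧
      (A : Pic k E) + (A.mapDomain ι : Dv k E) = deg A • H := fun A => by
    induction A using Finsupp.induction_linear with
    | zero => simp
    | add a b ha hb =>
      rw [Finsupp.mapDomain_add, map_add, map_add, ha.1, hb.1, QuotientAddGroup.mk_add,
        QuotientAddGroup.mk_add, add_add_add_comm, ha.2, hb.2]
      exact ⟨rfl, (add_zsmul _ _ _).symm⟩
    | single P n =>
      have e : ∀ P : Place k E, ((Finsupp.single P n : Dv k E) : Pic k E) = n • cls P := fun P => by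
        rw [cls, ← QuotientAddGroup.mk_zsmul, Finsupp.smul_single, smul_eq_mul, mul_one]
      simp [e, ← hy.cj P, zsmul_add]
  set T := {p ∈ ef σ i ×ˢ ef σ j | (p.1 : Pic k E) - p.2 = x} with hT
  have mp : ∀ p ∈ T, 0 ≤ p.1 ∧ 0 ≤ p.2.mapDomain ι ∧ p.1 + p.2.mapDomain ι ∈ Eff σ.pl (i + j) ∧
      ((p.1 + p.2.mapDomain ι : Dv k E) : Pic k E) = x + j • H := fun p hp => by
    obtain ⟨h1, h2⟩ := mem_filter.1 hp
    obtain ⟨a1, a2, a3⟩ := (fb.ef _ _).1 (mem_product.1 h1).1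
    obtain ⟨b1, b2, b3⟩ := (fb.ef _ _).1 (mem_product.1 h1).2
    have c1 : 0 ≤ p.2.mapDomain ι := fun P => by
      rw [ap]
      exact b1 _
    refine ⟨a1, c1, ⟨add_nonneg a1 c1, fun P => ?_, ?_⟩, ?_⟩
    · rw [Finsupp.add_apply, Finsupp.add_apply, a2, ap, ap, ← hc, b2]
    · rw [map_add, (cd _).1, a3, b3, Nat.cast_add]
    · rw [QuotientAddGroup.mk_add, ← h2, ← natCast_zsmul, ← b3, ← (cd _).2]
      abel
  rcases T.eq_empty_or_nonempty with h0 | ⟨p0, h0⟩
  · simp [h0]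
  obtain ⟨-, -, ⟨-, d2, d3⟩, d4⟩ := mp p0 h0
  have cnt := fb.cnt (i + j) (x + j • H) (d4 ▸ ph_inv d2) (d4 ▸ d3)
  have le : #T ≤ 2 ^ (i + j) *
      #((R.ef σ (i + j)).filter fun A : Dv k E => (A : Pic k E) = x + j • H) := by
    refine card_le_mul_card_image_of_maps_to (f := fun p => p.1 + p.2.mapDomain ι)
      (fun p hp => by
        rw [mem_filter]
        exact ⟨(fb.ef _ _).2 (mp p hp).2.2.1, (mp p hp).2.2.2⟩) _ fun B hB => ?_
    obtain ⟨b1, -, b3⟩ := (fb.ef _ _).1 (mem_filter.1 hB).1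
    refine (card_le_card_of_injOn (fun p => p.1) (fun p hp => ?_) fun p hp p' hp' e => ?_).trans
      (pai_icc B b1 _ b3)
    · obtain ⟨h1, h2⟩ := mem_filter.1 hp
      exact mem_coe.2 (mem_Icc.2 ⟨(mp p h1).1, h2 ▸ le_add_of_nonneg_right (mp p h1).2.1⟩)
    · have e1 := (mem_filter.1 hp).2.trans (mem_filter.1 hp').2.symm
      have e' : p.1 = p'.1 := e
      rw [e'] at e1
      exact Prod.ext e' (Finsupp.mapDomain_injective inj (add_left_cancel e1))
  obtain ⟨r, rfl⟩ := Nat.exists_eq_add_of_le' fb.fr.1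
  rw [← cnt, pow_succ, show r + 2 - 1 = r + 1 from rfl]
  generalize #((R.ef σ (i + j)).filter fun A : Dv k E => (A : Pic k E) = x + j • H) = N at le ⊢
  generalize 2 ^ (i + j) = M at le ⊢
  nlinarith [Nat.mul_le_mul_left (r + 2) le, Nat.zero_le (M * N * r), Nat.zero_le M]

end

section

lemma hd2_pair {k E : Type} [Field k] [Field E] [Algebra k E] [IsAlgClosed k] [FF k E]
    (σ : SA k E) (e : Pic k E) [Fintype (J σ)] (j : ℕ) (b : J σ) :
    ∑ a : J σ, #((ef σ j).filter fun A : Dv k E => (A : Pic k E) = a.1 + j • e) *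
        #((ef σ j).filter fun A : Dv k E => (A : Pic k E) = (a + b).1 + j • e) ≤
      #{p ∈ ef σ j ×ˢ ef σ j | (p.1 : Pic k E) - p.2 = b.1} := by
  simp only [← card_product]
  rw [← card_sigma]
  refine card_le_card_of_injOn (fun x => x.2.swap) (fun x hx => ?_) fun x hx y hy h => ?_
  · simp only [coe_sigma, Set.mem_sigma_iff, mem_coe, mem_product, mem_filter] at hx
    obtain ⟨-, ⟨h1, h2⟩, h3, h4⟩ := hx
    simp only [mem_coe, mem_filter, mem_product, Prod.fst_swap, Prod.snd_swap]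
    refine ⟨⟨h3, h1⟩, ?_⟩
    rw [h2, h4, AddSubgroup.coe_add]
    abel
  · simp only [coe_sigma, Set.mem_sigma_iff, mem_coe, mem_product, mem_filter] at hx hy
    have h' : x.2 = y.2 := Prod.swap_injective h
    have h1 := hx.2.1.2
    rw [h', hy.2.1.2, add_left_inj] at h1
    exact Sigma.ext (Subtype.ext h1.symm) (heq_of_eq h')

theorem p_HD2 (hHD1 : S_HD1) (hPAI : S_PAI) :
    S_HD2 := by
  refine fun n => ⟨2 ^ (2 * n + 3), fun k E _ _ _ _ _ K H e ι σ Q Λ κ _ hG hn hF hL hY hκ => ?_⟩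
  have hH : H = κ.1 + 2 • e := by rw [hκ, sub_add_cancel]
  obtain ⟨k1, k2⟩ := mem_J.1 κ.2
  have pH : ph σ H = H := by rw [hH, map_add, map_nsmul, k1, hL.e1]
  have dH : dg H = 2 := by rw [hH, map_add, map_nsmul, k2, hL.e2]; rfl
  have hQ : 2 ≤ Q := hF.fr.1
  have key : ∀ j ≤ n + 1, ∀ (b : J σ) (m : ℕ), ll (b.1 + j • H) ≤ m →
      Q * ∑ a : J σ, #((ef σ j).filter fun A : Dv k E => (A : Pic k E) = a.1 + j • e) *
        #((ef σ j).filter fun A : Dv k E => (A : Pic k E) = (a + b).1 + j • e) ≤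
          2 ^ (2 * n + 3) * Q ^ m :=
    fun j hj b m hm => (Nat.mul_le_mul_left _ (hd2_pair σ e j b)).trans
      ((hPAI k E K H _ ι σ Q hF hY pH (hHD1 k E K H e n ι σ Q Λ κ hG hn hF hL hY hκ).1 j j b.1).trans
        (Nat.mul_le_mul (Nat.pow_le_pow_right two_pos (by omega))
          (Nat.pow_le_pow_right (by omega) hm)))
  have key0 : ∀ j ≤ n + 1, ll (j • H) ≤ j + 1 →
      ∑ a : J σ, #((ef σ j).filter fun A : Dv k E => (A : Pic k E) = a.1 + j • e) ^ 2 ≤
        2 ^ (2 * n + 3) * Q ^ j :=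
    fun j hj h => by
      have := key j hj 0 (j + 1) (by simpa using h)
      simp only [add_zero, ← sq] at this
      rw [pow_succ' Q, mul_left_comm] at this
      exact Nat.le_of_mul_le_mul_left this (by omega)
  refine ⟨?_, fun j hj => ?_, fun j hj b hb => ?_⟩
  · refine le_trans ?_ (key0 _ le_rfl ?_)
    · rw [Nat.card_eq_fintype_card, ← card_univ, card_eq_sum_ones]
      refine sum_le_sum fun a _ => Nat.one_le_pow _ _ (Nat.pos_of_ne_zero fun h0 => ?_)
      obtain ⟨a1, a2⟩ := mem_J.1 a.2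
      have d : dg (a.1 + (n + 1) • e) = (n + 1 : ℕ) := by
        rw [map_add, map_nsmul, a2, hL.e2]; simp
      have c := hF.cnt (n + 1) _ (by rw [map_add, map_nsmul, a1, hL.e1]) d
      have r := hG.rg (a.1 + (n + 1) • e)
      rw [d] at r
      rw [h0, zero_mul, zero_add] at c
      exact (Nat.one_lt_pow (by omega) hQ).ne c
    · have r := hG.rg ((n + 1) • H)
      rw [ll_neg (x := K - _) (by rw [map_sub, map_nsmul, hG.dgK, dH]; simp; omega),
        map_nsmul, dH] at r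
      simp only [nsmul_eq_mul] at r
      omega
  · simp only [hL.W j]
    exact_mod_cast key0 j (by omega) (hY.mul j (by omega)).le
  · simp only [hL.W j]
    exact_mod_cast key j (by omega) b j (hY.mid j (by omega) _
      (by rw [map_add, map_nsmul, (mem_J.1 b.2).2, dH]; simp [mul_comm])
      fun h => hb (Subtype.ext (add_eq_right.1 h)))

end

section

lemma prm_cnt {k E : Type} [Field k] [Field E] [Algebra k E] [IsAlgClosed k] [FF k E]
    {K H : Pic k E} {g q : ℕ} {ι} {τ : SA k E} (h : Fr τ q) (hy : HY K H g ι) (g1 : 1 < g)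
    (hH : ph τ H = H) (dH : dg H = 2) (hc : ∀ P, τ.pl (ι P) = ι (τ.pl P)) :
    ∃ X : Finset (Place k E), #X ≤ 2 * q + 2 ∧ ∀ P, τ.pl P = P ∨ τ.pl P = ι P → P ∈ X := by
  obtain ⟨X, h1, h2⟩ := h.count (n := 2) hH dH
  have h3 : #X = q + 1 := by
    have : ll (1 • H) = 2 := hy.mul 1 g1
    obtain ⟨r, rfl⟩ := Nat.exists_eq_add_of_le' h.1
    rw [one_smul] at this
    rw [this, show r + 2 - 1 = r + 1 from rfl] at h2
    exact Nat.eq_of_mul_eq_mul_right r.succ_pos (by nlinarith)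
  refine ⟨X.biUnion fun A => A.support, (card_biUnion_le_card_mul _ _ 2 fun A hA => ?_).trans
    (by omega), fun P hP => mem_biUnion.2 ?_⟩
  · obtain ⟨⟨a1, -, a2⟩, -⟩ := (h1 A).1 hA
    have : ∑ P ∈ A.support, (1 : ℤ) ≤ deg A := sum_le_sum fun P hP =>
      lt_of_le_of_ne (a1 P) (Finsupp.mem_support_iff.1 hP).symm
    rw [sum_const, nsmul_one, a2] at this
    exact_mod_cast this
  · have l : ∀ P : Place k E, (0 : Dv k E) ≤ pt P := fun P => Finsupp.single_nonneg.2 zero_le_one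
    refine ⟨pt P + pt (ι P), (h1 _).2 ⟨⟨add_nonneg (l P) (l _), dm_eq.1 ?_, by simp⟩, hy.cj P⟩,
      Finsupp.mem_support_iff.2 ?_⟩
    · rw [map_add, τ.dm_single, τ.dm_single, hc]
      rcases hP with e | e
      · rw [e]
      · rw [e, hy.inv, add_comm]
    · have : (0 : Dv k E) P ≤ pt (ι P) P := l _ P
      simp only [Finsupp.add_apply, Finsupp.single_eq_same, Finsupp.zero_apply] at this ⊢
      omega

theorem p_PRM (hHD1 : S_HD1) :
    S_PRM := by
  intro n hn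
  refine ⟨16 * n, fun k E _ _ _ _ _ K H e ι σ Q Λ κ hQ gb fb il hy hκ h => ?_⟩
  have hc := (hHD1 k E K H e n ι σ Q Λ κ gb (by omega) fb il hy hκ).1
  obtain ⟨k1, k2⟩ := mem_J.1 κ.2
  rw [hκ, map_sub, map_nsmul] at k1 k2
  rw [il.e1, sub_left_inj] at k1
  rw [il.e2] at k2
  have : ∀ i, ∃ X : Finset (Place k E), i ≠ 0 → #X ≤ 2 * Q ^ i + 2 ∧
      ∀ P, σ.pl^[i] P = P ∨ σ.pl^[i] P = ι P → P ∈ X := fun i => by
    rcases eq_or_ne i 0 with rfl | hi
    · exact ⟨∅, fun e => absurd rfl e⟩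
    obtain ⟨τ, t1, t2, t3⟩ := fb.fr.pw hi
    obtain ⟨X, x1, x2⟩ := prm_cnt t1 hy (by omega) ((t3 H).trans (Function.iterate_fixed k1 i))
      (by simpa [sub_eq_zero] using k2) fun P => by
        rw [t2, t2]
        exact (Function.Commute.iterate_left hc i P :)
    exact ⟨X, fun _ => ⟨x1, fun P hP => x2 P (by rwa [t2])⟩⟩
  choose X hX using this
  obtain ⟨m, rfl⟩ : ∃ m, n = m + 1 := ⟨n - 1, by omega⟩
  have Q0 : 0 < Q := by omega
  have b : #((Ico 1 (m + 1)).biUnion X) ≤ m * (4 * Q ^ m) :=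
    (card_biUnion_le_card_mul _ _ (4 * Q ^ m) fun i hi => by
      have := mem_Ico.1 hi
      have := (hX i (by omega)).1
      have := Nat.pow_le_pow_right Q0 (show i ≤ m by omega)
      have := Nat.pow_pos (n := i) Q0
      omega).trans (by simp)
  have s := (card_le_card (s := {P ∈ fx σ (m + 1) | ι P ≠ P})
    (t := {P ∈ fx σ (m + 1) | (∀ i < m + 1, σ.pl^[i] P ≠ ι P) ∧
      ∀ i < m + 1, i ≠ 0 → σ.pl^[i] P ≠ P} ∪ (Ico 1 (m + 1)).biUnion X) fun P hP => by
    obtain ⟨p1, p2⟩ := mem_filter.1 hP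
    refine mem_union.2 (or_iff_not_imp_right.2 fun c => mem_filter.2 ⟨p1, fun i hi e => ?_,
      fun i hi i0 e => c (mem_biUnion.2 ⟨i, mem_Ico.2 (by omega), (hX i i0).2 P (.inl e)⟩)⟩)
    have i0 : i ≠ 0 := by
      rintro rfl
      exact p2 e.symm
    exact c (mem_biUnion.2 ⟨i, mem_Ico.2 (by omega), (hX i i0).2 P (.inr e)⟩)).trans
    (card_union_le _ _)
  have := Nat.mul_le_mul_left (Q ^ m) hQ
  rw [pow_succ] at h ⊢
  nlinarith [Nat.zero_le (Q ^ m)]

end

end Pool.Agent.P.MP_9344a7_nt.Hy
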