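import Pool.Agent.P.MP_9344a7_nt.Hy.Iface
import Pool.Agent.P.MP_9344a7_nt.Tor.Mod1A

/-! Steps HD3, LG, MDL, SQF. -/

set_option linter.unusedSectionVars false
set_option linter.unusedVariables false

namespace Pool.Agent.P.MP_9344a7_nt.Hy

open Polynomial Finset
open Pool.Agent.P.MP_6f117a_ag (Place FF)
open Pool.Agent.P.MP_ab3ecb_nt.Inv (Dv deg SA LS)
open Pool.Agent.P.MP_9344a7_nt.R
open Pool.Agent.P.MP_9344a7_nt.CoreC (cc)
open scoped Classical ComplexConjugate

section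

section

open Pool.Agent.P.MP_ab3ecb_nt.Inv (deg_eq deg_mono deg_single eq_zero_of_deg)

variable {k E : Type} [Field k] [Field E] [Algebra k E] [IsAlgClosed k] [FF k E]

lemma hd3_card {D : Dv k E} (h : 0 ≤ D) : (#D.support : ℤ) ≤ deg D := by
  rw [deg_eq, card_eq_sum_ones, Nat.cast_sum]
  exact sum_le_sum fun P hP => by
    have h1 : 0 ≤ D P := h P
    have h2 := Finsupp.mem_support_iff.1 hP
    omega

/-- A prime divisor of degree `n` without conjugate points. -/
def hd3_Pr (τ : Equiv.Perm (Place k E)) (ι : Place k E → Place k E) (n : ℕ) (D : Dv k E) : Prop :=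
  D ∈ Eff τ n ∧ ∀ R, D R ≠ 0 → D (ι R) = 0 ∧ ∀ m, ∀ A ∈ Eff τ m, A R ≠ 0 → D ≤ A

lemma hd3_good {τ : Equiv.Perm (Place k E)} {ι : Place k E → Place k E} {n : ℕ} (hn : n ≠ 0)
    (hι : ∀ P, τ (ι P) = ι (τ P)) {P : Place k E} (h0 : τ^[n] P = P)
    (h1 : ∀ i < n, τ^[i] P ≠ ι P) (h2 : ∀ i < n, i ≠ 0 → τ^[i] P ≠ P) :
    hd3_Pr τ ι n (Nm τ n P) ∧ Nm τ n P P ≠ 0 := by
  have e1 : Nm τ n P P = 1 := by
    rw [Nm, Finsupp.finsetSum_apply, sum_eq_single 0 (fun i hi h =>
      Finsupp.single_eq_of_ne' (h2 i (mem_range.1 hi) h)) (by simp [hn])]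
    simp
  have e2 : Nm τ n P (ι P) = 0 := by
    rw [Nm, Finsupp.finsetSum_apply]
    exact sum_eq_zero fun i hi => Finsupp.single_eq_of_ne' (h1 i (mem_range.1 hi))
  have e3 : ∀ i, ι (τ^[i] P) = τ^[i] (ι P) := fun i => by
    induction i with
    | zero => rfl
    | succ i ih => rw [Function.iterate_succ_apply', Function.iterate_succ_apply', ← hι, ih]
  refine ⟨⟨⟨Nm_nonneg _ _, Nm_inv h0, deg_Nm _ _⟩, fun R hR => ?_⟩, by rw [e1]; exact one_ne_zero⟩
  obtain ⟨i, rfl⟩ : ∃ i, τ^[i] P = R := by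
    by_contra! h
    rw [Nm, Finsupp.finsetSum_apply] at hR
    exact hR (sum_eq_zero fun i _ => Finsupp.single_eq_of_ne' (h i))
  refine ⟨by rw [e3, inv_iter (Nm_inv h0), e2], fun m A hA h => (Nm_le hA h0).2 ?_⟩
  rw [inv_iter hA.2.1] at h
  have : 0 ≤ A P := hA.1 P
  omega

variable {K H : Pic k E} {ι : Place k E → Place k E} {n g : ℕ} {τ : Equiv.Perm (Place k E)}

lemma hd3_ll (hy : HY K H (n + 1) ι) {D : Dv k E} (h : hd3_Pr τ ι n D) :
    ll (D : Pic k E) = 1 := by
  have := hy.nc D h.1.1 fun P hP => by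
    have a1 := hP P
    have a2 := hP (ι P)
    simp only [Finsupp.add_apply, Finsupp.single_eq_same] at a1 a2
    have b1 : 0 ≤ pt (ι P) P := Finsupp.single_nonneg.2 zero_le_one P
    have b2 : 0 ≤ pt P (ι P) := Finsupp.single_nonneg.2 zero_le_one (ι P)
    have := (h.2 P (by omega)).1
    omega
  rw [h.1.2.2] at this
  omega

lemma hd3_map (hy : HY K H g ι) (A : Dv k E) :
    (A.mapDomain ι : Dv k E) = deg A • H - (A : Pic k E) := by
  induction A using Finsupp.induction_linear with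
  | zero => simp
  | add A B ha hb =>
    rw [Finsupp.mapDomain_add, QuotientAddGroup.mk_add, ha, hb, map_add, add_zsmul,
      QuotientAddGroup.mk_add]
    abel
  | single P m =>
    have e : ∀ R : Place k E, ((Finsupp.single R m : Dv k E) : Pic k E) = m • cls R := fun R => by
      rw [cls, ← QuotientAddGroup.mk_zsmul, Finsupp.smul_single, smul_eq_mul, mul_one]
    rw [Finsupp.mapDomain_single, e, e, deg_single, ← hy.cj P, zsmul_add, add_sub_cancel_left]

lemma hd3_spec (hy : HY K H g ι) (hH : dg H = 2) {j : ℕ} (hj : j ≤ n) {y : Pic k E}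
    (hs : (ll (y + j • H) : ℤ) ≠ dg (y + j • H) + 1 - g) : ∃ D0 : Dv k E, 0 ≤ D0 ∧
    ∀ D A : Dv k E, hd3_Pr τ ι n D → A ∈ Eff τ j → (D : Pic k E) - A = y →
      deg D0 ≤ n + j ∧ ((j = n ∧ y = 0) ∨ ∀ R, D R ≠ 0 → D0 R ≠ 0) := by
  obtain ⟨D0, h0, h⟩ := hy.spec _ hs
  refine ⟨D0, h0, fun D A hD hA e => ?_⟩
  have inj : Function.Injective ι := Function.Involutive.injective hy.inv
  have m0 : ∀ R, A.mapDomain ι (ι R) = A R := fun R => Finsupp.mapDomain_apply inj _ _
  have m1 : 0 ≤ A.mapDomain ι := fun R => by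
    rw [← hy.inv R, m0]
    exact hA.1 _
  have m2 : ((D + A.mapDomain ι : Dv k E) : Pic k E) = y + j • H := by
    rw [QuotientAddGroup.mk_add, hd3_map hy, hA.2.2, ← e, natCast_zsmul]
    abel
  obtain ⟨h1, h2⟩ := h _ (add_nonneg hD.1.1 m1) m2
  constructor
  · have a := deg_mono h1
    have b := congrArg dg (hd3_map hy A)
    rw [dg_mk, map_sub, map_zsmul, hH, dg_mk, hA.2.2, smul_eq_mul] at b
    rw [map_add, b, hD.1.2.2] at a
    omega
  · refine or_iff_not_imp_right.2 fun hn => ?_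
    push Not at hn
    obtain ⟨R, hR, hR0⟩ := hn
    have a := h2 R
    have b : 0 ≤ D R := hD.1.1 R
    have c : 0 ≤ A.mapDomain ι R := m1 R
    have d : 0 ≤ D0 (ι R) := h0 _
    simp only [Finsupp.sub_apply, Finsupp.add_apply, m0, (hD.2 R hR).1, hR0] at a
    have le := (hD.2 R hR).2 j A hA (by omega)
    have f := deg_mono le
    rw [hD.1.2.2, hA.2.2] at f
    have ejn : j = n := by omega
    have := eq_zero_of_deg (sub_nonneg.2 le) (by rw [map_sub, hD.1.2.2, hA.2.2, ejn, sub_self])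
    rw [← e, sub_eq_zero.1 this, sub_self]
    exact ⟨ejn, rfl⟩

end

theorem p_HD3 (hHD1 : S_HD1) (hPAI : S_PAI) (hPRM : S_PRM) :
    S_HD3 := by
  intro n hn
  obtain ⟨q0, hq⟩ := hPRM n hn
  refine ⟨4 * n + 2 ^ (2 * n + 1), q0, ?_⟩
  intro k E _ _ _ _ _ K H e ι σ Q Λ κ hQ gb fb il hy hκ hN
  have hι := (hHD1 k E K H e n ι σ Q Λ κ gb (by omega) fb il hy hκ).1
  have h4 := hq k E K H e ι σ Q Λ κ hQ gb fb il hy hκ hN
  have Q2 : 2 ≤ Q := fb.fr.1
  have dH : dg H = 2 := by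
    have := (mem_J.1 κ.2).2
    rw [hκ, map_sub, map_nsmul, il.e2] at this
    simp only [nsmul_eq_mul, Nat.cast_ofNat, mul_one] at this
    omega
  have pH : ph σ H = H := by
    have := (mem_J.1 κ.2).1
    rwa [hκ, map_sub, map_nsmul, il.e1, sub_left_inj] at this
  have := fb.fin
  have := Fintype.ofFinite (J σ)
  let T : Finset (J σ) := univ.filter fun x =>
    ∃ D : Dv k E, hd3_Pr σ.pl ι n D ∧ (D : Pic k E) = x.1 + n • e
  have hT : ∀ x, x ∈ T ↔ ∃ D : Dv k E, hd3_Pr σ.pl ι n D ∧ (D : Pic k E) = x.1 + n • e :=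
    fun x => by simp [T]
  have uq : ∀ D D' : Dv k E, hd3_Pr σ.pl ι n D → 0 ≤ D' → (D' : Pic k E) = D → D' = D :=
    fun D D' h h' e => eff_unique ((ll_mk D).symm.trans (hd3_ll hy h)) h.1.1 h' (mk_eq.1 e)
  refine ⟨T, ?_, fun x hx => ?_, fun j j0 jn a ha => ?_⟩
  · refine h4.trans (le_trans ?_ (Nat.mul_le_mul_right _ (Nat.le_add_right _ _)))
    rw [mul_assoc]
    refine Nat.mul_le_mul_left 4 ?_
    set G := {P ∈ fx σ n | (∀ i < n, σ.pl^[i] P ≠ ι P) ∧ ∀ i < n, i ≠ 0 → σ.pl^[i] P ≠ P} with hG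
    have gd : ∀ P ∈ G, hd3_Pr σ.pl ι n (Nm σ.pl n P) ∧ Nm σ.pl n P P ≠ 0 := fun P hP => by
      obtain ⟨a, b, c⟩ := mem_filter.1 hP
      exact hd3_good (by omega) hι ((fb.fx n (by omega) P).1 a) b c
    refine (card_le_mul_card_image (f := Nm σ.pl n) G n fun D hD => ?_).trans
      (Nat.mul_le_mul_left n ?_)
    · obtain ⟨P, hP, rfl⟩ := mem_image.1 hD
      have := hd3_card (Nm_nonneg (τ := σ.pl) n P)
      rw [deg_Nm] at this
      refine (card_le_card fun R hR => ?_).trans (Nat.cast_le.1 this)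
      obtain ⟨a, b⟩ := mem_filter.1 hR
      exact Finsupp.mem_support_iff.2 (b ▸ (gd R a).2)
    · refine card_le_card_of_forall_subsingleton
        (fun (D : Dv k E) (x : J σ) => (D : Pic k E) = x.1 + n • e) (fun D hD => ?_) fun x _ D hD D' hD' => ?_
      · obtain ⟨P, hP, rfl⟩ := mem_image.1 hD
        have h1 := (gd P hP).1
        have h2 := sub_mem_J il.e1 il.e2 (ph_inv h1.1.2.1)
        rw [dg_mk, h1.1.2.2, natCast_zsmul] at h2
        exact ⟨⟨_, h2⟩, (hT _).2 ⟨_, h1, (sub_add_cancel _ _).symm⟩, (sub_add_cancel _ _).symm⟩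
      · obtain ⟨P, hP, rfl⟩ := mem_image.1 hD.1
        obtain ⟨P', hP', rfl⟩ := mem_image.1 hD'.1
        exact uq _ _ (gd P' hP').1 (Nm_nonneg _ _) (hD.2.trans hD'.2.symm)
  · obtain ⟨D, hD, e1⟩ := (hT x).1 hx
    rw [il.W, Nat.cast_eq_one, card_eq_one]
    refine ⟨D, eq_singleton_iff_unique_mem.2 ⟨mem_filter.2 ⟨(fb.ef _ _).2 hD.1, e1⟩, fun A hA => ?_⟩⟩
    obtain ⟨a, b⟩ := mem_filter.1 hA
    exact uq _ _ hD ((fb.ef _ _).1 a).1 (b.trans e1.symm)
  set X := {x ∈ T | (Λ.W j).coeff (x - a) ≠ 0} with hX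
  set y : Pic k E := a.1 + n • e - j • e with hyd
  have key : ∀ x ∈ X, ∃ D A : Dv k E, hd3_Pr σ.pl ι n D ∧ A ∈ Eff σ.pl j ∧
      (D : Pic k E) = x.1 + n • e ∧ (D : Pic k E) - A = y := fun x hx => by
    obtain ⟨h1, h2⟩ := mem_filter.1 hx
    obtain ⟨D, hD, e1⟩ := (hT x).1 h1
    rw [il.W, Nat.cast_ne_zero, card_ne_zero] at h2
    obtain ⟨A, hA⟩ := h2
    obtain ⟨a1, a2⟩ := mem_filter.1 hA
    refine ⟨D, A, hD, (fb.ef _ _).1 a1, e1, ?_⟩
    rw [e1, a2, hyd, AddSubgroup.coe_sub]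
    abel
  by_cases hs : (ll (y + j • H) : ℤ) = dg (y + j • H) + 1 - (n + 1 : ℕ)
  · have dy : dg (y + j • H) = n + j := by
      simp only [hyd, map_add, map_sub, map_nsmul, il.e2, dH, (mem_J.1 a.2).2, nsmul_eq_mul]
      ring
    have l1 : ll (y + j • H) = j := by omega
    have h1 := hPAI k E K H (n + 1) ι σ Q fb hy pH hι n j y
    rw [l1] at h1
    refine le_trans (Nat.mul_le_mul_left Q ?_) (h1.trans (Nat.mul_le_mul_right _ ?_))
    · refine card_le_card_of_forall_subsingleton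
        (fun (x : J σ) (p : Dv k E × Dv k E) => (p.1 : Pic k E) = x.1 + n • e) (fun x hx => ?_) fun p _ x hx x' hx' => ?_
      · obtain ⟨D, A, hD, hA, e1, e2⟩ := key x hx
        exact ⟨(D, A), mem_filter.2 ⟨mem_product.2 ⟨(fb.ef _ _).2 hD.1, (fb.ef _ _).2 hA⟩, e2⟩, e1⟩
      · exact Subtype.ext (add_right_cancel (hx.2.symm.trans hx'.2))
    · exact (Nat.pow_le_pow_right two_pos (by omega)).trans (Nat.le_add_left _ _)
  obtain ⟨D0, h0, h1⟩ := hd3_spec (τ := σ.pl) hy dH jn hs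
  have h2 : #X ≤ 2 * n := by
    rcases X.eq_empty_or_nonempty with e0 | ⟨x0, hx0⟩
    · simp [e0]
    obtain ⟨D1, A1, hD1, hA1, -, e1⟩ := key x0 hx0
    have h3 := (hd3_card h0).trans (h1 D1 A1 hD1 hA1 e1).1
    refine le_trans (card_le_card_of_forall_subsingleton (t := D0.support)
      (fun x R => ∃ D : Dv k E, hd3_Pr σ.pl ι n D ∧ (D : Pic k E) = x.1 + n • e ∧ D R ≠ 0)
      (fun x hx => ?_) fun R _ x hx x' hx' => ?_) (by omega)
    · obtain ⟨D, A, hD, hA, e1, e2⟩ := key x hx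
      obtain ⟨R, hR⟩ := Finsupp.support_nonempty_iff.2 fun e : D = 0 => by
        have := hD.1.2.2
        rw [e, map_zero] at this
        omega
      have hR := Finsupp.mem_support_iff.1 hR
      refine ⟨R, Finsupp.mem_support_iff.2 (((h1 D A hD hA e2).2.resolve_left ?_) R hR),
        D, hD, e1, hR⟩
      rintro ⟨rfl, e3⟩
      rw [hyd, add_sub_cancel_right] at e3
      exact ha rfl (Subtype.ext e3)
    · obtain ⟨D, hD, e1, hR⟩ := hx.2
      obtain ⟨D', hD', e1', hR'⟩ := hx'.2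
      have := le_antisymm ((hD.2 R hR).2 n D' hD'.1 hR') ((hD'.2 R hR').2 n D hD.1 hR)
      exact Subtype.ext (add_right_cancel (e1.symm.trans (this ▸ e1')))
  calc Q * #X ≤ Q ^ j * (2 * n) := Nat.mul_le_mul (Nat.le_self_pow j0.ne' Q) h2
    _ ≤ _ := by rw [mul_comm]; exact Nat.mul_le_mul_right _ (le_add_right (by omega))

end

section

open Pool.Agent.P.MP_ab3ecb_nt.Inv Pool.Agent.P.MP_9344a7_nt.Mod1x in
theorem p_LG :
    S_LG := by
  intro k E _ _ _ _ _ K H g ι D x hG hg hH h0 hD hx ht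
  obtain ⟨P0, -⟩ := PL.exists_pole ht
  have dH : dg H = 2 := by rw [← hH.cj P0, map_add, dg_cls, dg_cls]; rfl
  have lm : ∀ m : ℕ, Module.finrank k (LS (m • D)) = ll (m • H) := fun m => by
    rw [← hD, ← QuotientAddGroup.mk_nsmul, ll_mk]
  have h3 : ∀ m, g ≤ m → Module.finrank k (LS (m • D)) + g = 2 * m + 1 := fun m hm => by
    have e1 := hG.rg (m • H)
    have e2 : dg (m • H) = 2 * m := by rw [map_nsmul, dH, nsmul_eq_mul, mul_comm]
    rw [ll_neg (x := K - m • H) (by rw [map_sub, hG.dgK, e2]; omega), e2, ← lm] at e1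
    omega
  refine ⟨fun Q hQ => ?_, fun m hm z hz => ?_, h3⟩
  · by_contra h1
    have h2 : x ∈ LS (D - Finsupp.single Q 1) := mem_LS.2 fun P => by
      by_cases e : P = Q
      · subst e
        by_contra h3
        rw [Finsupp.sub_apply, Finsupp.single_eq_same] at h3
        have := exact_of_not (O := P) (n := D P - 1) (by simpa using mem_LS.1 hx P) h3
        exact h1 (by simpa using this)
      · simpa [Finsupp.single_eq_of_ne e] using mem_LS.1 hx P
    have h4 : 0 ≤ D - Finsupp.single Q 1 := fun P => by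
      by_cases e : P = Q
      · subst e
        simp only [Finsupp.sub_apply, Finsupp.single_eq_same, Finsupp.zero_apply]
        omega
      · simpa [Finsupp.single_eq_of_ne e] using h0 P
    have := rr_fd (1 • (D - Finsupp.single Q 1))
    have h5 := Submodule.finrank_mono (TT0_le h4 h2 1)
    rw [TT0_rank ht, one_smul, ← ll_mk, QuotientAddGroup.mk_sub, hD, ← hH.cj Q] at h5
    have h6 : cls Q + cls (ι Q) - ((Finsupp.single Q 1 : Dv k E) : Pic k E) = cls (ι Q) :=
      add_sub_cancel_left _ _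
    rw [h6, hG.one] at h5
    omega
  · have := rr_fd (m • D)
    have h4 : Module.finrank k (LS (m • D)) = m + 1 := by
      rcases hm.lt_or_eq with h | h
      · rw [lm, hH.mul m h]
      · have := h3 m h.ge
        omega
    rw [← Submodule.eq_of_le_of_finrank_eq (TT0_le h0 hx m) (by rw [TT0_rank ht, h4])] at hz
    obtain ⟨p, rfl⟩ := hz
    exact ⟨p.1.1, nd_le p.1.2, by simp [TT_apply]⟩

end

section

section gen

open WithZero Module Mod1x Pool.Agent.P.MP_ab3ecb_nt.Inv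

variable {k E : Type} [Field k] [IsAlgClosed k] [Field E] [Algebra k E] [FF k E]
  {D : Dv k E} {x y z : E} {n : ℕ}

lemma mdl_deg (hx : x ∈ LS D) (ht : Transcendental k x)
    (hp : ∀ P, 0 < D P → P.v x = exp (D P)) {p : k[X]} (h : aeval x p ∈ LS (n • D)) :
    p.natDegree ≤ n := by
  rcases eq_or_ne p 0 with rfl | p0
  · simp
  obtain ⟨Q, hQ⟩ := PL.exists_pole ht
  have h1 : 0 < D Q := by
    have := hQ.trans_le (mem_LS.1 hx Q)
    rwa [← exp_zero, exp_lt_exp] at this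
  have : Q.v.IsTrivialOn k := ⟨fun a ha => Q.v_const ha⟩
  have h2 := mem_LS.1 h Q
  rw [valuation_aeval_eq_valuation_X_pow_natDegree_of_one_lt_valuation_X x hQ p0, hp Q h1,
    ← exp_nsmul, exp_le_exp, Finsupp.smul_apply, nsmul_eq_mul, nsmul_eq_mul] at h2
  exact_mod_cast le_of_mul_le_mul_right h2 h1

lemma mdl_poly (h0 : 0 ≤ D) (hx : x ∈ LS D) (ht : Transcendental k x)
    (hp : ∀ P, 0 < D P → P.v x = exp (D P)) (hz : z ∈ LS (n • D)) (m : ℕ) : ∀ a b : k[X], b ≠ 0 →
    b.natDegree = m → z * aeval x b = aeval x a → ∃ p : k[X], z = aeval x p := by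
  induction m with
  | zero =>
    intro a b b0 hb e
    rw [eq_C_of_natDegree_eq_zero hb] at e b0
    have c0 : algebraMap k E (b.coeff 0) ≠ 0 := by simpa using b0
    refine ⟨a * C (b.coeff 0)⁻¹, ?_⟩
    rw [map_mul, ← e, aeval_C, aeval_C, map_inv₀, mul_inv_cancel_right₀ c0]
  | succ m ih =>
    intro a b b0 hb e
    obtain ⟨r, hr⟩ := IsAlgClosed.exists_root b (by
      rw [degree_eq_natDegree b0, hb]; exact_mod_cast m.succ_ne_zero)
    have t1 := MP_6f117a_ag.trans_sub ht r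
    have t0 := MP_6f117a_ag.trans_ne t1
    obtain ⟨Q, hQ⟩ := PL.exists_pole (MP_6f117a_ag.trans_inv t1)
    rw [map_inv₀, one_lt_inv₀ (zero_lt_iff.2 (v_ne Q t0))] at hQ
    have v1 := le_one_of_sub hQ
    have d0 : D Q = 0 := le_antisymm (not_lt.1 fun h1 => by
      rw [hp Q h1, ← exp_zero, exp_le_exp] at v1
      omega) (h0 Q)
    have vp : ∀ p : k[X], Q.v (aeval x p) ≤ 1 := fun p => by
      simpa [d0] using mem_LS.1 (aeval_mem_LS h0 hx (le_refl p.natDegree)) Q
    have vr : ∀ p : k[X], p.IsRoot r → Q.v (aeval x p) < 1 := fun p hp => by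
      obtain ⟨q, rfl⟩ := dvd_iff_isRoot.2 hp
      rw [map_mul, map_mul, map_sub, aeval_X, aeval_C]
      exact mul_lt_one_of_lt_of_le hQ (vp q)
    have vz : Q.v z ≤ 1 := by simpa [d0] using mem_LS.1 hz Q
    have ha : a.IsRoot r := by
      by_contra h1
      have h2 := vr (a - C (a.eval r)) (by simp)
      have h3 : Q.v (aeval x a) < 1 := by
        rw [← e, map_mul, mul_comm]
        exact mul_lt_one_of_lt_of_le (vr b hr) vz
      have h4 := Q.v.map_sub_lt h3 h2
      rw [← map_sub (aeval x : k[X] →ₐ[k] E), sub_sub_cancel, aeval_C, Q.v_const h1] at h4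
      exact lt_irrefl _ h4
    obtain ⟨a', rfl⟩ := dvd_iff_isRoot.2 ha
    obtain ⟨b', rfl⟩ := dvd_iff_isRoot.2 hr
    have b1 : b' ≠ 0 := right_ne_zero_of_mul b0
    rw [natDegree_mul (X_sub_C_ne_zero r) b1, natDegree_X_sub_C] at hb
    refine ih a' b' b1 (by omega) (mul_left_cancel₀ t0 ?_)
    simp only [map_mul, map_sub, aeval_X, aeval_C] at e
    linear_combination e

lemma mdl_ind (h0 : 0 ≤ D) (hx : x ∈ LS D) (ht : Transcendental k x)
    (hp : ∀ P, 0 < D P → P.v x = exp (D P)) (hy : y ∈ LS (n • D))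
    (hn : y ∉ LinearMap.range (TT (k := k) x 0 (n + 1) 0)) (p q : k[X])
    (e : aeval x p + aeval x q * y = 0) : p = 0 ∧ q = 0 := by
  have hq : q = 0 := by
    by_contra q0
    obtain ⟨r, rfl⟩ := mdl_poly h0 hx ht hp hy _ (-p) q q0 rfl
      (by rw [map_neg]; linear_combination e)
    refine hn ⟨(⟨r, mem_degreeLT.2 ?_⟩, 0), by simp [TT_apply]⟩
    exact degree_le_natDegree.trans_lt (by exact_mod_cast Nat.lt_succ_of_le (mdl_deg hx ht hp hy))
  subst hq
  exact ⟨by_contra fun hp => MP_6f117a_ag.aeval_ne ht hp (by simpa using e), rfl⟩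

lemma mdl_quad (h0 : 0 ≤ D) (hx : x ∈ LS D) (hy : y ∈ LS (n • D))
    (hr : finrank k (LS ((n + n) • D)) = n + n + 1 + (n + 1))
    (hi : ∀ p q : k[X], aeval x p + aeval x q * y = 0 → p = 0 ∧ q = 0) :
    ∃ a b : k[X], a.natDegree ≤ n + n ∧ b.natDegree ≤ n ∧ y ^ 2 = aeval x a + aeval x b * y := by
  have e : n • D + n • D = (n + n) • D := (add_nsmul D n n).symm
  have h1 : LinearMap.range (TT (k := k) x y (n + n + 1) (n + 1)) ≤ LS ((n + n) • D) := by
    rintro _ ⟨p, rfl⟩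
    exact add_mem (aeval_mem_LS h0 hx (nd_le p.1.2))
      (e ▸ mul_mem_LS (aeval_mem_LS h0 hx (nd_le p.2.2)) hy)
  have := rr_fd ((n + n) • D)
  have h2 : y ^ 2 ∈ LS ((n + n) • D) := by rw [pow_two]; exact e ▸ mul_mem_LS hy hy
  rw [← Submodule.eq_of_le_of_finrank_eq h1 (by rw [TT_rank fun p q _ => hi p q, hr])] at h2
  obtain ⟨p, hp⟩ := h2
  exact ⟨_, _, nd_le p.1.2, nd_le p.2.2, hp.symm⟩

lemma mdl_aeval (σ : SA k E) (hx : σ.s x = x) (p : k[X]) :
    σ.s (aeval x p) = aeval x (p.map σ.s0.toRingHom) := by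
  induction p using Polynomial.induction_on' with
  | add p q hp hq => simp only [map_add, Polynomial.map_add, hp, hq]
  | monomial n a =>
    rw [Polynomial.map_monomial, aeval_monomial, aeval_monomial, map_mul, map_pow, hx]
    exact congrArg (· * x ^ n) (σ.h a)

lemma mdl_fixed {σ : SA k E} {Q : ℕ} (hF : Fr σ Q) (hD : σ.dm D = D) (V : Submodule k E)
    (hV : finrank k V < finrank k (LS D)) [FiniteDimensional k V] :
    ∃ z ∈ LS D, σ.s z = z ∧ z ∉ V := by
  by_contra h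
  push Not at h
  have := rr_fd D
  let θ : LS D →ₛₗ[(σ.s0 : k →+* k)] LS D :=
    { toFun z := ⟨σ.s z, by simpa only [hD] using σ.mem_LS_dm.2 z.2⟩
      map_add' a b := Subtype.ext (by simp)
      map_smul' c a := Subtype.ext (by simp [Algebra.smul_def, σ.h]) }
  have h1 := span_fixed hF.1 hF.2.2 θ
    fun a b e => Subtype.ext (σ.s.injective (congrArg Subtype.val e))
  refine hV.not_ge (Submodule.finrank_mono fun z hz => ?_)
  have h2 : Submodule.span _ {w | θ w = w} ≤ V.comap (LS D).subtype :=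
    Submodule.span_le.2 fun w hw => h w w.2 (congrArg Subtype.val hw)
  exact h2 (x := ⟨z, hz⟩) (h1 ▸ Submodule.mem_top)

end gen

lemma mdl_range {F : Type} [Field F] [Fintype F] {c : AlgebraicClosure F}
    (h : c ^ Fintype.card F = c) : c ∈ Set.range (algebraMap F (AlgebraicClosure F)) := by
  have h1 := FiniteField.X_pow_card_sub_X_ne_zero (AlgebraicClosure F) (Fintype.one_lt_card (α := F))
  have h2 : c ∈ (X ^ Fintype.card F - X : (AlgebraicClosure F)[X]).roots :=
    (mem_roots h1).2 (by simp [h])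
  have h3 : (X ^ Fintype.card F - X : (AlgebraicClosure F)[X]) =
      (X ^ Fintype.card F - X : F[X]).map (algebraMap F _) := by simp
  rw [h3, ← roots_map_of_injective_of_card_eq_natDegree (algebraMap F _).injective (by
    rw [FiniteField.roots_X_pow_card_sub_X,
      FiniteField.X_pow_card_sub_X_natDegree_eq F Fintype.one_lt_card]
    rfl)] at h2
  obtain ⟨a, -, rfl⟩ := Multiset.mem_map.1 h2
  exact ⟨a, rfl⟩

open Mod1x in
theorem p_MDL (hLG : S_LG) :
    S_MDL := by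
  intro F E _ _ _ _ _ K H g ι σ h2 hG hg hH hF hσ
  obtain ⟨t, ht⟩ : ∃ P : Place (AlgebraicClosure F) E, True := by
    by_contra h
    have : ∀ x : Pic (AlgebraicClosure F) E, x = 0 := fun x => by
      obtain ⟨A, rfl⟩ := QuotientAddGroup.mk_surjective x
      rw [show A = 0 from Finsupp.ext fun P => (h ⟨P, trivial⟩).elim]
      rfl
    have h1 := hG.dgK
    rw [this K, map_zero] at h1
    omega
  have dH : dg H = (2 : ℕ) := by rw [← hH.cj t]; simp
  have lH : ll H = 2 := by simpa using hH.mul 1 (by omega)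
  obtain ⟨X, X1, X2⟩ := hF.count hσ dH
  obtain ⟨D, hD⟩ : X.Nonempty := by
    rw [← card_pos]
    by_contra h
    have q2 := hF.1
    rw [show #X = 0 by omega, lH] at X2
    nlinarith
  obtain ⟨⟨h0, hD, -⟩, hc⟩ := (X1 D).1 hD
  replace hD := dm_eq.2 hD
  obtain ⟨x, hx, sx, nx⟩ := mdl_fixed hF hD (Submodule.span _ {1}) (by
    have h2 := finrank_span_le_card (R := AlgebraicClosure F) ({1} : Set E)
    rw [← ll_mk, hc, lH]
    simp at h2
    omega)
  have tx : Transcendental (AlgebraicClosure F) x :=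
    (MP_6f117a_ag.const_or_trans _).resolve_left fun ⟨c, hc⟩ =>
      nx (Submodule.mem_span_singleton.2 ⟨c, by rw [Algebra.smul_def, hc, mul_one]⟩)
  obtain ⟨hp, -, hr⟩ := hLG _ _ K H g ι D x hG hg hH h0 hc hx tx
  obtain ⟨y, y1, y2, y3⟩ := mdl_fixed hF (D := (g + 1) • D) (by rw [map_nsmul, hD])
    (LinearMap.range (TT (k := AlgebraicClosure F) x 0 (g + 1 + 1) 0)) (by
      have := hr (g + 1) (by omega)
      rw [TT0_rank tx]
      omega)
  have hi := mdl_ind h0 hx tx hp y1 y3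
  obtain ⟨a, b, ha, hb, e⟩ := mdl_quad h0 hx y1 (by
    have := hr (g + 1 + (g + 1)) (by omega)
    omega) hi
  have e1 := congrArg σ.s e
  rw [map_pow, map_add, map_mul, y2, mdl_aeval σ sx, mdl_aeval σ sx, e] at e1
  obtain ⟨a1, b1⟩ := hi (a - a.map σ.s0.toRingHom) (b - b.map σ.s0.toRingHom)
    (by rw [map_sub, map_sub]; linear_combination e1)
  rw [sub_eq_zero] at a1 b1
  have lf : ∀ p : (AlgebraicClosure F)[X], p = p.map σ.s0.toRingHom →
      ∃ q : F[X], q.map (algebraMap F _) = p := fun p hp =>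
    (mem_lifts p).1 ((lifts_iff_coeff_lifts p).2 fun n => mdl_range (by
      have := congrArg (coeff · n) hp
      simp only [coeff_map] at this
      exact (hF.2.2 _).symm.trans this.symm))
  obtain ⟨a, rfl⟩ := lf a a1
  obtain ⟨b, rfl⟩ := lf b b1
  have k2 : (2 : AlgebraicClosure F) ≠ 0 := by
    have := (map_ne_zero (algebraMap F (AlgebraicClosure F))).2 h2
    rwa [map_ofNat] at this
  refine ⟨D, 4 * a + b ^ 2, x, 2 * y - aeval x (b.map (algebraMap F (AlgebraicClosure F))),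
    ⟨h0, hc, hx, tx, sub_mem ?_ (aeval_mem_LS h0 hx hb), fun p hp => ?_, ?_⟩, sx, ?_, ?_⟩
  · rw [two_mul]
    exact add_mem y1 y1
  · have := (hi (-(p + b.map (algebraMap F _))) (C 2) (by
      rw [map_neg, map_add, aeval_C, map_ofNat]; linear_combination hp)).2
    exact k2 (C_eq_zero.1 this)
  · simp only [Polynomial.map_add, Polynomial.map_mul, Polynomial.map_pow, Polynomial.map_ofNat,
      map_add, map_mul, map_pow, map_ofNat]
    linear_combination 4 * e
  · rw [map_sub, map_mul, map_ofNat, y2, mdl_aeval σ sx, ← b1]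
  · rw [natDegree_map] at ha hb
    refine natDegree_add_le_of_degree_le ?_ (natDegree_pow_le.trans (by omega))
    exact (natDegree_C_mul_le 4 a).trans (by omega)

end

section

theorem p_SQF (hLG : S_LG) :
    S_SQF := by
  intro k E _ _ _ _ _ K H g ι D f x y gb hg hy m
  obtain ⟨l1, l2, -⟩ := hLG k E K H g ι D x gb hg hy m.eff m.cl m.hx m.tr
  refine ⟨fun r hr => by_contra fun hu => ?_, fun h0 => ?_⟩
  · have f0 : f ≠ 0 := fun e => m.ind 0 (by simpa [e] using m.eq)
    have r0 : r ≠ 0 := fun e => f0 (by simpa [e] using hr)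
    obtain ⟨c, hc⟩ := IsAlgClosed.exists_root r fun e => hu (isUnit_iff_degree_eq_zero.2 e)
    obtain ⟨f1, e1⟩ := (mul_dvd_mul (dvd_iff_isRoot.2 hc) (dvd_iff_isRoot.2 hc)).trans hr
    have u0 : x - algebraMap k E c ≠ 0 := fun e =>
      m.tr (sub_eq_zero.1 e ▸ isAlgebraic_algebraMap c)
    have ez : (y / (x - algebraMap k E c)) ^ 2 = aeval x f1 := by
      rw [div_pow, m.eq, e1, div_eq_iff (pow_ne_zero 2 u0)]
      simp only [map_mul, map_sub, aeval_X, aeval_C]
      ring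
    have hz : y / (x - algebraMap k E c) ∈ LS (g • D) := by
      refine Pool.Agent.P.MP_ab3ecb_nt.Inv.mem_LS.2 fun P => ?_
      rcases (m.eff P).lt_or_eq with h | h
      · have h' : 0 < D P := h
        have a : P.v (x - algebraMap k E c) = WithZero.exp (D P) := by
          rw [Valuation.map_sub_eq_of_lt_left, l1 P h']
          rw [l1 P h']
          exact (P.triv c).trans_lt (by rwa [← WithZero.exp_zero, WithZero.exp_lt_exp])
        have b := Pool.Agent.P.MP_ab3ecb_nt.Inv.mem_LS.1 m.hy P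
        rw [map_div₀, a, div_le_iff₀ (zero_lt_iff.2 WithZero.exp_ne_zero), ← WithZero.exp_add]
        rwa [succ_nsmul, Finsupp.add_apply] at b
      · have h' : D P = 0 := h.symm
        have a := Pool.Agent.P.MP_ab3ecb_nt.Inv.mem_LS.1 m.hx P
        rw [h', WithZero.exp_zero] at a
        have b := P.v_aeval a f1
        rw [← ez, map_pow] at b
        rw [Finsupp.smul_apply, h', smul_zero, WithZero.exp_zero]
        exact (pow_le_one_iff two_ne_zero).1 b
    obtain ⟨p, -, hp⟩ := l2 g le_rfl _ hz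
    refine m.ind (p * (X - C c)) ?_
    rw [map_mul, ← hp, map_sub, aeval_X, aeval_C, div_mul_cancel₀ _ u0]
  · obtain ⟨d, hd⟩ := IsAlgClosed.exists_pow_nat_eq (f.coeff 0) two_pos
    have e := m.eq
    rw [eq_C_of_natDegree_eq_zero h0, aeval_C, ← hd, map_pow] at e
    rcases sq_eq_sq_iff_eq_or_eq_neg.1 e with h | h
    · exact m.ind (C d) (by rw [aeval_C, h])
    · exact m.ind (C (-d)) (by rw [aeval_C, map_neg, h])

end

end Pool.Agent.P.MP_9344a7_nt.Hy
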