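import Pool.Agent.P.MP_9344a7_nt.Hy.M1
import Pool.Agent.P.MP_9344a7_nt.Hy.M2
import Pool.Agent.P.MP_9344a7_nt.Hy.M3
import Pool.Agent.P.MP_9344a7_nt.Hy.M4
import Pool.Agent.P.MP_9344a7_nt.Hy.M5
import Pool.Agent.P.MP_9344a7_nt.Hy.M6
import Pool.Agent.P.MP_9344a7_nt.Hy.M7
import Pool.Agent.P.MP_9344a7_nt.Hy.M8
import Pool.Agent.P.MP_9344a7_nt.Hy.M9
import Pool.Agent.P.MP_9344a7_nt.Hy.M10

/-! The assembly of the steps. -/

namespace Pool.Agent.P.MP_9344a7_nt.Hy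

theorem a_SML : S_SML := p_SML
theorem a_AV : S_AV := p_AV
theorem a_KER : S_KER := p_KER
theorem a_PK : S_PK := p_PK
theorem a_CAS : S_CAS := p_CAS
theorem a_ENE : S_ENE := p_ENE a_AV
theorem a_CV : S_CV := p_CV a_AV
theorem a_BES : S_BES := p_BES a_AV
theorem a_ORB : S_ORB := p_ORB
theorem a_MAH : S_MAH := p_MAH
theorem a_NWR : S_NWR := p_NWR
theorem a_DOL : S_DOL := p_DOL
theorem a_DOM : S_DOM := p_DOM a_DOL
theorem a_TRN : S_TRN := p_TRN a_KER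
theorem a_LB : S_LB := p_LB
theorem a_TP : S_TP := p_TP
theorem a_ENL : S_ENL := p_ENL a_ENE
theorem a_LFT : S_LFT := p_LFT a_KER a_CAS a_MAH a_LB a_ENL
theorem a_CON : S_CON := p_CON a_SML a_PK a_DOM
theorem a_DEG : S_DEG := p_DEG a_SML a_KER a_NWR a_LB a_LFT a_CON
theorem a_MIN : S_MIN := p_MIN
theorem a_STR : S_STR := p_STR a_MIN
theorem a_SIG : S_SIG := p_SIG
theorem a_ST : S_ST := p_ST a_LB a_DEG a_STR
theorem a_SP1 : S_SP1 := p_SP1 a_CV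
theorem a_YY : S_YY := p_YY
theorem a_SP0 : S_SP0 := p_SP0 a_SML a_AV a_BES a_MAH a_LB a_ENL a_YY
theorem a_SPH : S_SPH := p_SPH a_SML a_AV a_CV a_ORB a_SP1 a_YY a_SP0
theorem a_SPN : S_SPN := p_SPN a_SML a_AV a_CV a_ORB a_SP1 a_YY a_SP0
theorem a_FAC : S_FAC := p_FAC a_KER
theorem a_HH : S_HH := p_HH a_LB a_SIG a_ST a_SPH a_FAC
theorem a_HN : S_HN := p_HN a_KER a_LB a_SIG a_ST a_SPN a_FAC
theorem a_MAT : S_MAT := p_MAT a_SML a_AV a_KER a_CV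
theorem a_END : S_END := p_END a_SML a_AV a_KER a_CV a_YY a_MAT
theorem a_SUB : S_SUB := p_SUB
theorem a_GAM : S_GAM := p_GAM
theorem a_RD : S_RD := p_RD a_AV a_KER a_TRN a_LB a_TP a_HH a_END a_SUB a_GAM
theorem a_ADD : S_ADD := p_ADD a_AV a_KER a_LB a_TP a_HH a_HN a_END a_RD
theorem a_GB : S_GB := p_GB
theorem a_FB : S_FB := p_FB
theorem a_HY : S_HY := p_HY
theorem a_SID : S_SID := p_SID a_HY
theorem a_FE : S_FE := p_FE
theorem a_LD : S_LD := p_LD a_SID a_FE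
theorem a_ONT : S_ONT := p_ONT a_FB a_NWR a_LB
theorem a_PH : S_PH := p_PH a_FB a_ONT
theorem a_HD1 : S_HD1 := p_HD1
theorem a_PAI : S_PAI := p_PAI
theorem a_HD2 : S_HD2 := p_HD2 a_HD1 a_PAI
theorem a_PRM : S_PRM := p_PRM a_HD1
theorem a_HD3 : S_HD3 := p_HD3 a_HD1 a_PAI a_PRM
theorem a_LG : S_LG := p_LG
theorem a_MDL : S_MDL := p_MDL a_LG
theorem a_SQF : S_SQF := p_SQF a_LG
theorem a_FIB : S_FIB := p_FIB a_LG
theorem a_NU1 : S_NU1 := p_NU1 a_MDL a_SQF a_FIB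
theorem a_NU2 : S_NU2 := p_NU2 a_LG a_MDL a_SQF a_FIB
theorem a_HD : S_HD := p_HD a_HY a_HD1 a_HD2 a_HD3 a_NU1
theorem a_PCK : S_PCK := p_PCK a_GB a_FB a_HY
theorem a_PA : S_PA := p_PA a_ADD a_HY a_LD a_PH a_NU1 a_NU2 a_HD a_PCK

end Pool.Agent.P.MP_9344a7_nt.Hy
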