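import Pool.Agent.P.MP_9344a7_nt.Br
import Pool.Agent.P.MP_9344a7_nt.CoreC
import Pool.Agent.P.MP_9344a7_nt.Red

/-!
The group ring of a finite abelian group, abstract L-polynomials, and the class group of a
hyperelliptic curve.
-/

namespace Pool.Agent.P.MP_9344a7_nt.Hy

open Polynomial Finset
open Pool.Agent.P.MP_6f117a_ag (Place FF)
open Pool.Agent.P.MP_ab3ecb_nt.Inv (Dv deg SA LS)
open Pool.Agent.P.MP_9344a7_nt.R
open Pool.Agent.P.MP_9344a7_nt.CoreC (cc)
open scoped Classical ComplexConjugate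

set_option linter.unusedSectionVars false

/-! ### The group ring -/

/-- The integral group ring. -/
abbrev ZA (A : Type) := AddMonoidAlgebra ℤ A

section ring

variable {A A' A'' : Type} [AddCommGroup A] [AddCommGroup A'] [AddCommGroup A'']

/-- The value of a character. -/
noncomputable def ev (χ : AddChar A ℂ) : ZA A →+* ℂ :=
  (AddMonoidAlgebra.lift ℤ ℂ A χ.toMonoidHom : ZA A →ₐ[ℤ] ℂ)

/-- The direct image. -/
noncomputable def pu (j : A →+ A') : ZA A →+* ZA A' := AddMonoidAlgebra.mapDomainRingHom ℤ j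

/-- The size of the support. -/
def sz (x : ZA A) : ℕ := x.coeff.support.card

/-- The indicator of a set. -/
noncomputable def ind (S : Finset A) : ZA A := ∑ s ∈ S, .single s 1

@[simp] lemma ev_single (χ : AddChar A ℂ) (a : A) (n : ℤ) : ev χ (.single a n) = n * χ a := by
  simp [ev]

@[simp] lemma pu_single (j : A →+ A') (a : A) (n : ℤ) : pu j (.single a n) = .single (j a) n := by
  simp [pu]

lemma sum_single [Fintype A] (x : ZA A) : ∑ a, AddMonoidAlgebra.single a (x.coeff a) = x := by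
  conv_rhs => rw [← x.sum_coeff_single]
  rw [Finsupp.sum_fintype _ _ fun _ => by simp]

lemma ev_eq [Fintype A] (χ : AddChar A ℂ) (x : ZA A) : ev χ x = ∑ a, x.coeff a * χ a := by
  conv_lhs => rw [← sum_single x]
  simp

lemma za_ext {R : Type} [Ring R] {f g : ZA A →+* R} (h : ∀ a, f (.single a 1) = g (.single a 1)) :
    f = g := AddMonoidAlgebra.ringHom_ext (fun n => DFunLike.congr_fun (Subsingleton.elim
      (f.comp AddMonoidAlgebra.singleZeroRingHom) (g.comp AddMonoidAlgebra.singleZeroRingHom)) n) h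

lemma ev_pu (χ : AddChar A' ℂ) (j : A →+ A') (x : ZA A) :
    ev χ (pu j x) = ev (χ.compAddMonoidHom j) x :=
  DFunLike.congr_fun (za_ext (f := (ev χ).comp (pu j)) fun a => by simp) x

lemma pu_pu (j : A →+ A') (i : A' →+ A'') (x : ZA A) : pu i (pu j x) = pu (i.comp j) x :=
  DFunLike.congr_fun (za_ext (f := (pu i).comp (pu j)) fun a => by simp) x

lemma conj_ev [Finite A] (χ : AddChar A ℂ) (x : ZA A) :
    conj (ev χ x) = ev χ (pu (-AddMonoidHom.id A) x) :=
  DFunLike.congr_fun (za_ext (f := (starRingEnd ℂ).comp (ev χ))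
    (g := (ev χ).comp (pu (-AddMonoidHom.id A))) fun a => by simp [AddChar.map_neg_eq_conj]) x

lemma coeff_pu (θ : A ≃+ A') (x : ZA A) (a : A) : (pu (θ : A →+ A') x).coeff (θ a) = x.coeff a :=
  Finsupp.mapDomain_apply θ.injective _ _

lemma coeff_mul [Fintype A] (x y : ZA A) (b : A) :
    (x * y).coeff b = ∑ a, x.coeff a * y.coeff (b - a) := by
  rw [AddMonoidAlgebra.coeff_mul_apply_left, Finsupp.sum_fintype _ _ fun _ => by simp]
  simp only [neg_add_eq_sub]

lemma coeff_single_mul (a b : A) (n : ℤ) (x : ZA A) :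
    (AddMonoidAlgebra.single a n * x).coeff b = n * x.coeff (b - a) := by
  rw [AddMonoidAlgebra.coeff_single_mul_apply, neg_add_eq_sub]

lemma coeff_ind (S : Finset A) (a : A) : (ind S).coeff a = if a ∈ S then 1 else 0 := by
  simp [ind, Finsupp.finsetSum_apply, Finsupp.single_apply]

lemma ev_ind (χ : AddChar A ℂ) (S : Finset A) : ev χ (ind S) = ∑ s ∈ S, χ s := by simp [ind]

lemma sz_add (x y : ZA A) : sz (x + y) ≤ sz x + sz y :=
  (card_le_card Finsupp.support_add).trans (card_union_le _ _)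

lemma sz_neg (x : ZA A) : sz (-x) = sz x := by simp [sz]

lemma sz_sub (x y : ZA A) : sz (x - y) ≤ sz x + sz y := by
  rw [sub_eq_add_neg, ← sz_neg y]
  exact sz_add _ _

lemma sz_mul (x y : ZA A) : sz (x * y) ≤ sz x * sz y :=
  (card_le_card (AddMonoidAlgebra.support_coeff_mul_subset x y)).trans card_add_le

lemma sz_single (a : A) (n : ℤ) : sz (.single a n) ≤ 1 :=
  (card_le_card Finsupp.support_single_subset).trans_eq (card_singleton a)

lemma sz_cast (n : ℕ) (x : ZA A) : sz ((n : ZA A) * x) ≤ sz x := by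
  rw [← nsmul_eq_mul]
  exact card_le_card Finsupp.support_smul

lemma sz_sum {ι : Type} (s : Finset ι) (x : ι → ZA A) : sz (∑ i ∈ s, x i) ≤ ∑ i ∈ s, sz (x i) :=
  le_sum_of_subadditive sz (by simp [sz]) sz_add s x

lemma sz_pu (j : A →+ A') (x : ZA A) : sz (pu j x) ≤ sz x :=
  (card_le_card Finsupp.mapDomain_support).trans card_image_le

variable (A) in
/-- The faithful characters. -/
noncomputable def Fa [Fintype A] : Finset (AddChar A ℂ) := univ.filter fun ψ => Function.Injective ψ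

variable (A) in
/-- Two to the number of prime factors of the order. -/
noncomputable def om : ℕ := 2 ^ (Nat.card A).primeFactors.card

variable [Fintype A]

lemma mem_Fa {ψ : AddChar A ℂ} : ψ ∈ Fa A ↔ Function.Injective ψ := by simp [Fa]

lemma Fa_ne [Nontrivial A] {ψ : AddChar A ℂ} (h : ψ ∈ Fa A) : ψ ≠ 0 := by
  rintro rfl
  obtain ⟨a, b, e⟩ := exists_pair_ne A
  exact e (mem_Fa.1 h rfl)

/-- The mean over the faithful characters. -/
noncomputable def av (f : AddChar A ℂ → ℝ) : ℝ := (∑ ψ ∈ Fa A, f ψ) / #(Fa A)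

/-- The energy. -/
noncomputable def en (x : ZA A) : ℝ := av fun ψ => ‖ev ψ x‖ ^ 2

/-- The convolution with the Ramanujan sum. -/
noncomputable def cv (x : ZA A) (b : A) : ℝ := ∑ a, x.coeff a * cc (a - b)

variable (A) in
/-- A cyclic group of order at most `c * q ^ (n + 1)` without prime factors up to `N`. -/
structure Big (c q n N : ℕ) : Prop where
  cyc : IsAddCyclic A
  nt : Nontrivial A
  le : Nat.card A ≤ c * q ^ (n + 1)
  pr : ∀ l, l.Prime → l ∣ Nat.card A → N < l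

end ring

/-! ### Polynomials -/

section poly

variable {A : Type} [AddCommGroup A]

/-- The coefficients are values of the character. -/
def Zc (χ : AddChar A ℂ) (p : ℂ[X]) : Prop := ∃ P : (ZA A)[X], P.map (ev χ) = p

lemma zc_iff {χ : AddChar A ℂ} {p : ℂ[X]} : Zc χ p ↔ ∀ i, ∃ x, ev χ x = p.coeff i :=
  (mem_lifts p).symm.trans (lifts_iff_coeff_lifts p)

lemma Zc.mul {χ : AddChar A ℂ} {p p' : ℂ[X]} (h : Zc χ p) (h' : Zc χ p') : Zc χ (p * p') := by
  obtain ⟨P, rfl⟩ := h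
  obtain ⟨P', rfl⟩ := h'
  exact ⟨P * P', Polynomial.map_mul _⟩

lemma Zc.of_mul {χ : AddChar A ℂ} {M B : ℂ[X]} (h : Zc χ M) (h0 : M.coeff 0 = 1)
    (h1 : Zc χ (M * B)) : Zc χ B := by
  refine zc_iff.2 fun i => ?_
  induction i using Nat.strong_induction_on with
  | _ i ih =>
    obtain ⟨x, hx⟩ := zc_iff.1 h1 i
    choose y hy using zc_iff.1 h
    choose! z hz using ih
    refine ⟨x - ∑ j ∈ range i, y (j + 1) * z (i - (j + 1)), ?_⟩
    rw [map_sub, hx, Polynomial.coeff_mul, Nat.sum_antidiagonal_eq_sum_range_succ_mk,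
      sum_range_succ', h0, one_mul, map_sum, sum_congr rfl (f := fun j => ev χ (_ * _))
        (g := fun j => M.coeff (j + 1) * B.coeff (i - (j + 1))) fun j hj => by
        rw [map_mul, hy, hz _ (by have := mem_range.1 hj; omega)]]
    simp

lemma eq_of_dvd {p p' : ℂ[X]} (h : p ∣ p') (h0 : p.coeff 0 = 1) (h1 : p'.coeff 0 = 1)
    (hd : p'.natDegree ≤ p.natDegree) : p = p' := by
  obtain ⟨r, rfl⟩ := h
  have a0 : p * r ≠ 0 := fun e => by simp [e] at h1
  rw [natDegree_mul (left_ne_zero_of_mul a0) (right_ne_zero_of_mul a0)] at hd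
  rw [mul_coeff_zero, h0, one_mul] at h1
  rw [eq_C_of_natDegree_eq_zero (p := r) (by omega), h1, map_one, mul_one]

/-- `M` divides every polynomial over the ring of values with which it has a common root. -/
structure Prim (χ : AddChar A ℂ) (M : ℂ[X]) : Prop where
  zc : Zc χ M
  c0 : M.coeff 0 = 1
  dvd : ∀ G, Zc χ G → ∀ α, M.eval α = 0 → G.eval α = 0 → M ∣ G

/-- The conjugate polynomial at `k * T`. -/
noncomputable def tw (k : ℂ) (M : ℂ[X]) : ℂ[X] := (M.map conj).comp (C k * X)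

lemma coeff_tw (k : ℂ) (M : ℂ[X]) (j : ℕ) : (tw k M).coeff j = conj (M.coeff j) * k ^ j := by
  rw [tw, comp_C_mul_X_coeff, coeff_map]

lemma eval_tw (k : ℂ) (M : ℂ[X]) (α : ℂ) : (tw k M).eval α = conj (M.eval (conj (k * α))) := by
  rw [tw, eval_comp, eval_mul, eval_C, eval_X, ← eval₂_at_apply, eval_map, Complex.conj_conj]

/-- `L` is the product of two primitive polynomials of degree `n`. -/
structure Spl (χ : AddChar A ℂ) (w : ℂ) (n : ℕ) (L M B : ℂ[X]) : Prop where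
  pM : Prim χ M
  pB : Prim χ B
  dM : M.natDegree = n
  dB : B.natDegree = n
  eq : L = M * B
  rt : ∀ α, M.eval α = 0 ↔ B.eval (w * α)⁻¹ = 0

lemma Spl.symm {χ : AddChar A ℂ} {w : ℂ} {n : ℕ} {L M B : ℂ[X]} (h : Spl χ w n L M B)
    (hw : w ≠ 0) : Spl χ w n L B M :=
  ⟨h.pB, h.pM, h.dB, h.dM, h.eq.trans (mul_comm _ _), fun β => by
    rw [h.rt, mul_inv w β, mul_inv_cancel_left₀ hw, inv_inv]⟩

/-- The roots are stable under `α ↦ 1 / (q * conj α)`. -/
def Sg (q : ℕ) (L : ℂ[X]) : Prop := ∀ α, L.eval α = 0 → L.eval (q * conj α)⁻¹ = 0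

/-- The polynomial with given inverse roots. -/
noncomputable def ofR (ρ : Multiset ℂ) : ℂ[X] := (ρ.map fun r => 1 - C r * X).prod

/-- The normalised square norm of the coefficients. -/
noncomputable def nq (q D : ℕ) (L : ℂ[X]) : ℝ := ∑ i ∈ range (D + 1), ‖L.coeff i‖ ^ 2 / q ^ i

/-- Newton's recursion. -/
def NwZ (G s : ℕ → ZA A) : Prop := ∀ m : ℕ, (m : ZA A) * G m = ∑ j ∈ range m, s (m - j) * G j

/-- The second power sum. -/
noncomputable def p2 (M : (ZA A)[X]) : ZA A := M.coeff 1 ^ 2 - 2 * M.coeff 2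

end poly

/-! ### Abstract L-polynomials -/

/-- The effective divisors of a curve of genus `n + 1`, as elements of the group ring. -/
structure LD (q n : ℕ) (A : Type) [AddCommGroup A] where
  W : ℕ → ZA A
  ω : A
  S : Finset A
  w0 : W 0 = 1
  w1 : W 1 = ind S
  nn : ∀ j a, 0 ≤ (W j).coeff a
  sid : Sid S
  two : ∀ b, (W 1 ^ 2).coeff b ≤ 2 * (W 2).coeff b
  fe : ∀ χ : AddChar A ℂ, χ ≠ 0 → ∀ j ≤ n,
    ev χ (W (2 * n - j)) = q ^ (n - j) * χ ω * conj (ev χ (W j))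
  lo : 3 * q ≤ 4 * #S
  hi : 2 * #S ≤ 3 * q + 4

section ld

variable {q n : ℕ} {A A' : Type} [AddCommGroup A] [AddCommGroup A'] (Λ : LD q n A)

/-- The universal L-polynomial. -/
noncomputable def LD.LZ : (ZA A)[X] := ∑ j ∈ range (2 * n + 1), C (Λ.W j) * X ^ j

/-- The L-polynomial of a character. -/
noncomputable def LD.L (χ : AddChar A ℂ) : ℂ[X] := Λ.LZ.map (ev χ)

/-- The norms of the points of level two. -/
noncomputable def LD.Y : ZA A := 2 * Λ.W 2 - Λ.W 1 ^ 2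

/-- The number of points of level two with norm in the hyperelliptic class. -/
def LD.s : ℝ := 2 * q + 2 - #Λ.S

lemma LD.coeff_LZ (j : ℕ) : Λ.LZ.coeff j = if j ≤ 2 * n then Λ.W j else 0 := by
  simp [LD.LZ]

lemma LD.coeff_L (χ : AddChar A ℂ) {j : ℕ} (h : j ≤ 2 * n) : (Λ.L χ).coeff j = ev χ (Λ.W j) := by
  rw [LD.L, coeff_map, Λ.coeff_LZ, if_pos h]

/-- `Λ'` is the transport of `Λ` along `θ`. -/
structure LD.Tp (θ : A ≃+ A') (Λ' : LD q n A') : Prop where
  W : ∀ j, Λ'.W j = pu (θ : A →+ A') (Λ.W j)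
  ω : Λ'.ω = θ Λ.ω
  S : Λ'.S = Λ.S.image θ

/-- No class of degree two contains two rational effective divisors. -/
def LD.NH : Prop := ∀ b, (Λ.W 2).coeff b ≤ 1

/-- The data of a hyperelliptic curve. -/
structure HD [Fintype A] (c : ℕ) (κ : A) : Prop where
  om : Λ.ω = n • κ
  sym : ∀ j ≤ n, ∀ b, (Λ.W j).coeff (j • κ - b) = (Λ.W j).coeff b
  e0 : ∀ j ≤ n, ∑ a, (Λ.W j).coeff a ^ 2 ≤ c * q ^ j
  e1 : ∀ j ≤ n, ∀ b, b ≠ 0 → q * ∑ a, (Λ.W j).coeff a * (Λ.W j).coeff (a + b) ≤ c * q ^ j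
  top : (Λ.W 2).coeff κ = q + 1
  low : ∀ b, b ≠ κ → (Λ.W 2).coeff b ≤ 1
  ind : ∀ U V : Finset A, U ⊆ Λ.S → V ⊆ Λ.S → #U = n + 1 → #V = n + 1 →
    (∀ s ∈ U, ∀ t ∈ U, s + t ≠ κ) → ∑ s ∈ U, s = ∑ s ∈ V, s → U = V
  pr : ∃ T : Finset A, q ^ n ≤ c * #T ∧ (∀ x ∈ T, (Λ.W n).coeff x = 1) ∧
    ∀ j, 0 < j → j ≤ n → ∀ a, (j = n → a ≠ 0) →
      q * #{x ∈ T | (Λ.W j).coeff (x - a) ≠ 0} ≤ c * q ^ j

/-- The L-polynomials are products of two factors. -/
def LD.Fac [Fintype A] (M : (ZA A)[X]) (γ : A ≃+ A) (κ : A) : Prop :=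
  ∀ ψ ∈ Fa A, Λ.L ψ = M.map (ev ψ) * tw (ψ κ) (M.map (ev (ψ.compAddMonoidHom (γ : A →+ A))))

end ld

/-! ### Curves -/

section curve

variable {k E : Type} [Field k] [Field E] [Algebra k E] [IsAlgClosed k] [FF k E]

/-- The theorem of Riemann-Roch in genus `g`, `K` being the canonical class. -/
def RG (K : Pic k E) (g : ℕ) : Prop := ∀ x, (ll x : ℤ) = dg x + 1 - g + ll (K - x)

/-- The divisor of a point. -/
noncomputable abbrev pt (P : Place k E) : Dv k E := Finsupp.single P 1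

/-- Basic facts in positive genus. -/
structure GB (K : Pic k E) (g : ℕ) : Prop where
  rg : RG K g
  llK : ll K = g
  dgK : dg K = 2 * g - 2
  can : ∀ x, dg x = 2 * g - 2 → g ≤ ll x → x = K
  one : ∀ P : Place k E, ll (cls P) = 1
  inj : ∀ P Q : Place k E, cls P = cls Q → P = Q
  phK : ∀ σ : SA k E, ph σ K = K

/-- Basic facts on a Frobenius map. -/
structure FB (σ : SA k E) (Q : ℕ) : Prop where
  fr : Fr σ Q
  fin : Finite (J σ)
  fx : ∀ m, m ≠ 0 → ∀ P, P ∈ fx σ m ↔ σ.pl^[m] P = P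
  ef : ∀ n A, A ∈ ef σ n ↔ A ∈ Eff σ.pl n
  cl : ∀ n x, x ∈ cl σ n ↔ ph σ x = x ∧ dg x = n
  cnt : ∀ (n : ℕ) x, ph σ x = x → dg x = n →
    #((R.ef σ n).filter fun A : Dv k E => (A : Pic k E) = x) * (Q - 1) + 1 = Q ^ ll x
  SS : ∀ e a, a ∈ SS σ e ↔ ∃ P, σ.pl P = P ∧ a.1 = cls P - e

/-- The hyperelliptic class `H` and the involution `ι`. -/
structure HY (K H : Pic k E) (g : ℕ) (ι : Place k E → Place k E) : Prop where
  cj : ∀ P, cls P + cls (ι P) = H
  inv : ∀ P, ι (ι P) = P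
  can : K = (g - 1) • H
  mul : ∀ m < g, ll (m • H) = m + 1
  nc : ∀ D : Dv k E, 0 ≤ D → (∀ P, ¬ pt P + pt (ι P) ≤ D) →
    (ll (D : Pic k E) : ℤ) = max (deg D + 1 - g) 1
  mid : ∀ m < g, ∀ x, dg x = 2 * m → x ≠ m • H → ll x ≤ m
  spec : ∀ x, (ll x : ℤ) ≠ dg x + 1 - g → ∃ D0 : Dv k E, 0 ≤ D0 ∧
    ∀ A : Dv k E, 0 ≤ A → (A : Pic k E) = x → D0 ≤ A ∧ ∀ P, (A - D0) (ι P) = (A - D0) P

/-- `W` counts the invariant effective divisors. -/
def IsW (σ : SA k E) (e : Pic k E) (W : ℕ → ZA (J σ)) : Prop :=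
  ∀ j a, (W j).coeff a = #((ef σ j).filter fun A : Dv k E => (A : Pic k E) = a.1 + j • e)

/-- The equation `y ^ 2 = f(x)`. -/
structure Md (H : Pic k E) (g : ℕ) (D : Dv k E) (f : k[X]) (x y : E) : Prop where
  eff : 0 ≤ D
  cl : (D : Pic k E) = H
  hx : x ∈ LS D
  tr : Transcendental k x
  hy : y ∈ LS ((g + 1) • D)
  ind : ∀ p : k[X], y ≠ aeval x p
  eq : y ^ 2 = aeval x f

/-- `Λ` describes the curve with the Frobenius map `σ` and the base class `e`. -/
structure IsL {Q n : ℕ} (σ : SA k E) (K e : Pic k E) (Λ : LD Q n (J σ)) : Prop where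
  e1 : ph σ e = e
  e2 : dg e = 1
  W : IsW σ e Λ.W
  ω : Λ.ω.1 = K - (2 * n) • e
  S : Λ.S = SS σ e
  card : #Λ.S = #(fx σ 1)
  nw : ∀ χ, χ ≠ 0 → Newt (Λ.L χ).coeff (sm e χ)

end curve

/-- The function field has a rational subfield of index two. -/
def Hyperelliptic (k E : Type) [Field k] [Field E] [Algebra k E] : Prop :=
  ∃ x : E, Module.finrank (IntermediateField.adjoin k {x}) E = 2

end Pool.Agent.P.MP_9344a7_nt.Hy
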