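import Pool.Agent.P.MP_9344a7_nt.Hy.Base
import Pool.Agent.P.MP_9344a7_nt.Stmt

/-!
The intermediate statements on the L-functions of a hyperelliptic curve.
-/

namespace Pool.Agent.P.MP_9344a7_nt.Hy

open Polynomial Finset
open Pool.Agent.P.MP_6f117a_ag (Place FF)
open Pool.Agent.P.MP_ab3ecb_nt.Inv (Dv deg SA LS)
open Pool.Agent.P.MP_9344a7_nt.R
open Pool.Agent.P.MP_9344a7_nt.CoreC (cc)
open scoped Classical ComplexConjugate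

/-! ### Tools -/

-- deps:
def S_SML : Prop := ∀ c g K e : ℕ, ∃ q0 : ℕ, ∀ q h : ℕ, q0 ≤ q → h ≠ 0 → h ≤ c * q ^ g →
  K * (2 ^ h.primeFactors.card) ^ e ≤ q

-- deps:
def S_AV : Prop := ∀ (A : Type) [AddCommGroup A] [Fintype A], IsAddCyclic A →
  (Fa A).Nonempty ∧ (∀ b, ∑ ψ ∈ Fa A, ψ b = #(Fa A) * (cc b : ℂ)) ∧ ∑ b : A, |cc b| ≤ om A ∧
    ∀ N : ℕ, (∀ l, l.Prime → l ∣ Nat.card A → N < l) → ∀ b : A, b ≠ 0 → N * |cc b| ≤ 1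

-- deps:
def S_KER : Prop := ∀ (A : Type) [AddCommGroup A] [Fintype A], ∀ χ ∈ Fa A,
  (∀ ψ ∈ Fa A, (∀ x, ev χ x = 0 → ev ψ x = 0) ∧ ∃ γ : A ≃+ A, ψ = χ.compAddMonoidHom (γ : A →+ A)) ∧
    ∀ (A' : Type) [AddCommGroup A'] (χ' : AddChar A' ℂ), (∀ a, χ' a ^ Nat.card A = 1) →
      ∃ j : A' →+ A, χ' = χ.compAddMonoidHom j

-- deps:
def S_PK : Prop := ∀ (A : Type) [AddCommGroup A] [Fintype A], IsAddCyclic A →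
  ∃ P : ZA A, P.coeff 0 = 1 ∧ sz P ≤ om A ∧ ∀ x, (∀ ψ ∈ Fa A, ev ψ x = 0) → P * x = 0

-- deps:
def S_CAS : Prop := ∀ (A : Type) [AddCommGroup A] [Fintype A], IsAddCyclic A →
  ∀ x : ZA A, ∃ y : ZA A, (∀ ψ ∈ Fa A, ev ψ y = ev ψ x) ∧ (sz y : ℝ) ≤ om A * en x

-- deps: AV
def S_ENE : Prop := ∀ (A : Type) [AddCommGroup A] [Fintype A], IsAddCyclic A →
  ∀ (x : ZA A) (U V : ℝ), ∑ a, (x.coeff a : ℝ) ^ 2 ≤ U →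
  (∀ b, b ≠ 0 → |∑ a, (x.coeff a : ℝ) * x.coeff (a + b)| ≤ V) → 0 ≤ V → en x ≤ U + om A * V

-- deps: AV
def S_CV : Prop := ∀ (A : Type) [AddCommGroup A] [Fintype A], IsAddCyclic A →
  (∀ x y : ZA A, (∀ ψ ∈ Fa A, ev ψ x = ev ψ y) → ∀ b, cv x b = cv y b) ∧
    ∀ (x : ZA A) (κ b : A), (∀ a, a ≠ κ → |x.coeff a| ≤ 2) →
      |cv x b - x.coeff κ * cc (κ - b)| ≤ 2 * om A

-- deps: AV
def S_BES : Prop := ∀ (A : Type) [AddCommGroup A] [Fintype A], IsAddCyclic A →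
  ∀ (N : ℝ) (x : ZA A) (T : Finset A), 0 < N → (∀ b : A, b ≠ 0 → N * |cc b| ≤ 1) →
    N * ∑ b ∈ T, cv x b ^ 2 ≤ en x * (N + #T)

-- deps:
def S_ORB : Prop := ∀ (A : Type) [Fintype A] (u : A → ℝ) (ϕ : Equiv.Perm A) (κ : A) (m : ℕ)
  (s δ : ℝ), 0 < s → 8 * (m + 1) * δ ≤ s → #{b | s / 4 ≤ |u b|} ≤ m →
  s - δ ≤ |u κ - u (ϕ κ)| → (∀ i : ℤ, |i| ≤ m + 1 → (ϕ ^ i) κ ≠ κ →
    |u ((ϕ ^ i) κ) - u (ϕ ((ϕ ^ i) κ))| ≤ δ) → False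

-- deps:
def S_MAH : Prop := ∀ (L M B : ℂ[X]) (m D q : ℕ), 0 < q → L = M * B → M.coeff 0 = 1 →
  B.coeff 0 = 1 → M.natDegree ≤ m → L.natDegree ≤ D →
  (∀ j, ‖M.coeff j‖ ^ 2 ≤ 4 ^ m * q ^ j * nq q D L) ∧ ∀ k : ℂ, ‖k‖ = 1 → B = tw k M →
    ‖M.coeff 1 ^ 2 - 2 * M.coeff 2‖ ^ 2 ≤ 9 * 16 ^ m * q ^ 2 * nq q D L

-- deps:
def S_NWR : Prop := ∀ ρ : Multiset ℂ, Newt (ofR ρ).coeff fun m => -(ρ.map (· ^ m)).sum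

-- deps:
def S_DOL : Prop := ∀ (A : Type) [AddCommGroup A] (G s : ℕ → ZA A), G 0 = 1 → NwZ G s →
  ∃ e : ℕ → ZA A, ∀ m, m ≠ 0 →
    s m = ∑ d ∈ m.divisors, (d : ZA A) * pu (nsmulAddMonoidHom (m / d)) (e d)

-- deps: DOL
def S_DOM : Prop := ∀ (A : Type) [AddCommGroup A] (G : ℕ → ZA A) (r : ℕ), G 0 = 1 → 0 < r →
  (∀ j, j ≠ 0 → sz (G j) ≤ r ^ j) → ∃ s, NwZ G s ∧ (∀ m, m ≠ 0 → sz (s m) ≤ (2 * r) ^ m) ∧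
    ∀ n : ℕ, n ≠ 0 → ∃ T : Finset A, #T ≤ 2 ^ n * (2 * r) ^ (n - 1) ∧
      ∀ a, a ∉ T → (n : ℤ) ∣ (s n).coeff a

-- deps: KER
def S_TRN : Prop := ∀ (A : Type) [AddCommGroup A] [Fintype A], ∀ χ ∈ Fa A, ∀ ψ ∈ Fa A,
  ∀ G G' : (ZA A)[X], G.coeff 0 = 1 →
  (∃ α, (G.map (ev χ)).eval α = 0 ∧ (G'.map (ev χ)).eval α = 0) →
    ∃ β, (G.map (ev ψ)).eval β = 0 ∧ (G'.map (ev ψ)).eval β = 0

/-! ### Factorisations of the L-polynomials -/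

-- deps:
def S_LB : Prop := ∀ (q n : ℕ) (A : Type) [AddCommGroup A] [Fintype A] (Λ : LD q n A), 0 < q →
  ∀ χ : AddChar A ℂ, χ ≠ 0 → (Λ.L χ).coeff 0 = 1 ∧ (Λ.L χ).natDegree = 2 * n ∧ Sg q (Λ.L χ) ∧
    ∀ c κ, HD Λ c κ → ∀ j ≤ n,
      (Λ.L χ).coeff (2 * n - j) = (q * χ κ) ^ (n - j) * (Λ.L χ).coeff j

-- deps:
def S_TP : Prop := ∀ (q n : ℕ) (A A' : Type) [AddCommGroup A] [Fintype A] [AddCommGroup A']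
  [Fintype A'] (Λ : LD q n A) (θ : A ≃+ A'), ∃ Λ' : LD q n A', Λ.Tp θ Λ' ∧
    (∀ χ, Λ'.L χ = Λ.L (χ.compAddMonoidHom (θ : A →+ A'))) ∧ #Λ'.S = #Λ.S ∧ (Λ.NH → Λ'.NH) ∧
      ∀ c κ, HD Λ c κ → HD Λ' c (θ κ)

-- deps: ENE
def S_ENL : Prop := ∀ (c q n : ℕ) (A : Type) [AddCommGroup A] [Fintype A] (Λ : LD q n A) (κ : A),
  Big A c q n 0 → om A ≤ q → HD Λ c κ →
    av (fun ψ => nq q (2 * n) (Λ.L ψ)) ≤ (2 * n + 1) * (2 * c)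

-- deps: KER CAS MAH LB ENL
def S_LFT : Prop := ∀ c n : ℕ, ∃ K : ℕ, ∀ (q : ℕ) (A : Type) [AddCommGroup A] [Fintype A]
  (Λ : LD q n A) (κ : A), Big A c q n 0 → om A ≤ q → HD Λ c κ → ∀ χ ∈ Fa A, ∀ M : ℂ[X], Zc χ M →
  M.coeff 0 = 1 → M ∣ Λ.L χ → ∃ G : ℕ → ZA A, G 0 = 1 ∧ (∀ j, ev χ (G j) = M.coeff j) ∧
    ∀ j, sz (G j) ≤ K * om A * q ^ j

-- deps: SML PK DOM
def S_CON : Prop := ∀ c n K : ℕ, 2 ≤ n → ∃ q0 : ℕ, ∀ (q : ℕ) (A : Type) [AddCommGroup A]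
  [Fintype A] (Λ : LD q n A) (κ : A), q0 ≤ q → Big A c q n 0 → HD Λ c κ →
  ∀ (G : ℕ → ZA A) (μ : ℕ), G 0 = 1 → (∀ j, sz (G j) ≤ K * om A * q ^ j) →
  (∀ s, NwZ G s → ∀ ψ ∈ Fa A,
    ev ψ (μ * Λ.W n) = ev ψ (2 * ∑ j ∈ range n, s (n - j) * Λ.W j)) → 2 * n ∣ μ

-- deps: SML KER NWR LB LFT CON
def S_DEG : Prop := ∀ c n : ℕ, 2 ≤ n → ∃ q0 : ℕ, ∀ (q : ℕ) (A : Type) [AddCommGroup A]
  [Fintype A] (Λ : LD q n A) (κ : A), q0 ≤ q → Big A c q n 0 → HD Λ c κ → ∀ χ ∈ Fa A,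
  ∀ ρ : Multiset ℂ, (∀ r ∈ ρ, r ≠ 0) → Zc χ (ofR ρ) → ofR ρ ∣ Λ.L χ →
    ρ.map (fun r => q * χ κ / r) = ρ → 2 * n ∣ ρ.card

-- deps:
def S_MIN : Prop := ∀ (A : Type) [AddCommGroup A] [Fintype A], ∀ χ ∈ Fa A, ∀ r : ℂ, r ≠ 0 →
  IsIntegral ℤ r → ∃ ρ : Multiset ℂ, r ∈ ρ ∧ ρ.Nodup ∧ (∀ t ∈ ρ, t ≠ 0) ∧ Prim χ (ofR ρ)

-- deps: MIN
def S_STR : Prop := ∀ (A : Type) [AddCommGroup A] [Fintype A], ∀ χ ∈ Fa A,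
  ∀ (L : ℂ[X]) (n : ℕ) (x : ZA A), 0 < n → Zc χ L → L.coeff 0 = 1 → L.natDegree = 2 * n →
  ev χ x ≠ 0 → (∀ j ≤ n, L.coeff (2 * n - j) = ev χ x ^ (n - j) * L.coeff j) →
  (∀ ρ : Multiset ℂ, (∀ r ∈ ρ, r ≠ 0) → Zc χ (ofR ρ) → ofR ρ ∣ L →
    ρ.map (fun r => ev χ x / r) = ρ → 2 * n ∣ ρ.card) →
    Prim χ L ∨ ∃ M B, Spl χ (ev χ x) n L M B

-- deps:
def S_SIG : Prop := ∀ (A : Type) [AddCommGroup A] [Fintype A] (χ : AddChar A ℂ) (κ : A) (q n : ℕ)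
  (L L' M B : ℂ[X]), 0 < q → 0 < n → Spl χ (q * χ κ) n L M B → Sg q L → Sg q L' → Zc χ L' →
  L'.coeff 0 = 1 → L'.natDegree = 2 * n → M ∣ L' → L = L' ∨ B = tw (χ κ) M

-- deps: LB DEG STR
def S_ST : Prop := ∀ c n : ℕ, 2 ≤ n → ∃ q0 : ℕ, ∀ (q : ℕ) (A : Type) [AddCommGroup A]
  [Fintype A] (Λ : LD q n A) (κ : A), q0 ≤ q → Big A c q n 0 → HD Λ c κ → ∀ χ ∈ Fa A,
    Prim χ (Λ.L χ) ∨ ∃ M B, Spl χ (q * χ κ) n (Λ.L χ) M B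

/-! ### The split case -/

-- deps: CV
def S_SP1 : Prop := ∀ (q n : ℕ) (A : Type) [AddCommGroup A] [Fintype A] (Λ : LD q n A)
  (M : (ZA A)[X]) (γ : A ≃+ A) (κ : A), 0 < n → IsAddCyclic A → M.coeff 0 = 1 → Λ.Fac M γ κ →
    ∀ b, cv (p2 M) b + cv (p2 M) (γ.symm (2 • κ - b)) + cv Λ.Y b = 0

-- deps:
def S_YY : Prop := ∀ (q n : ℕ) (A : Type) [AddCommGroup A] [Fintype A] (Λ : LD q n A), 0 < n →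
  (Λ.NH → ∀ b, |Λ.Y.coeff b| ≤ 2) ∧ q ≤ 2 * Λ.s ∧ ∀ c κ, HD Λ c κ →
    (Λ.Y.coeff κ : ℝ) = Λ.s ∧ ∀ b, b ≠ κ → |Λ.Y.coeff b| ≤ 2

-- deps: SML AV BES MAH LB ENL YY
def S_SP0 : Prop := ∀ c n : ℕ, 0 < n → ∃ m N q0 : ℕ, ∀ (q : ℕ) (A : Type) [AddCommGroup A]
  [Fintype A] (Λ : LD q n A) (κ : A) (M : (ZA A)[X]), q0 ≤ q → Big A c q n N → HD Λ c κ →
  M.coeff 0 = 1 → Λ.Fac M (.refl A) κ → #{b | Λ.s / 4 ≤ |cv (p2 M) b|} ≤ m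

-- deps: SML AV CV ORB SP1 YY SP0
def S_SPH : Prop := ∀ c n : ℕ, 0 < n → ∃ N q0 : ℕ, ∀ (q : ℕ) (A : Type) [AddCommGroup A]
  [Fintype A] (Λ Λ' : LD q n A) (κ κ' : A) (M : (ZA A)[X]), q0 ≤ q → Big A c q n N → HD Λ c κ →
  HD Λ' c κ' → #Λ.S = #Λ'.S → M.coeff 0 = 1 → Λ.Fac M (.refl A) κ → Λ'.Fac M (.refl A) κ' → κ = κ'

-- deps: SML AV CV ORB SP1 YY SP0
def S_SPN : Prop := ∀ c n : ℕ, 0 < n → ∃ N q0 : ℕ, ∀ (q : ℕ) (A : Type) [AddCommGroup A]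
  [Fintype A] (Λ Λ' : LD q n A) (κ : A) (M : (ZA A)[X]) (γ : A ≃+ A), q0 ≤ q → Big A c q n N →
  HD Λ c κ → Λ'.NH → M.coeff 0 = 1 → Λ.Fac M (.refl A) κ → Λ'.Fac M γ (γ κ) → False

-- deps: KER
def S_FAC : Prop := ∀ (q n : ℕ) (A : Type) [AddCommGroup A] [Fintype A] (Λ : LD q n A),
  ∀ χ ∈ Fa A, (∀ M, Zc χ M → M.coeff 0 = 1 → ∃ P : (ZA A)[X], P.coeff 0 = 1 ∧ P.map (ev χ) = M) ∧
    (∀ P P' : (ZA A)[X], P.map (ev χ) = P'.map (ev χ) → ∀ ψ ∈ Fa A, P.map (ev ψ) = P'.map (ev ψ)) ∧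
    ∀ (M : (ZA A)[X]) (γ : A ≃+ A) (κ : A), Λ.L χ = M.map (ev χ) *
      tw (χ κ) (M.map (ev (χ.compAddMonoidHom (γ : A →+ A)))) → Λ.Fac M γ κ

-- deps: LB SIG ST SPH FAC
def S_HH : Prop := ∀ c n : ℕ, 2 ≤ n → ∃ N q0 : ℕ, ∀ (q : ℕ) (A : Type) [AddCommGroup A]
  [Fintype A] (Λ Λ' : LD q n A) (κ κ' : A), q0 ≤ q → Big A c q n N → HD Λ c κ → HD Λ' c κ' →
  #Λ.S = #Λ'.S → ∀ χ ∈ Fa A, ∀ α, (Λ.L χ).eval α = 0 → (Λ'.L χ).eval α = 0 → Λ.L χ = Λ'.L χ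

-- deps: KER LB SIG ST SPN FAC
def S_HN : Prop := ∀ c n : ℕ, 2 ≤ n → ∃ N q0 : ℕ, ∀ (q : ℕ) (A : Type) [AddCommGroup A]
  [Fintype A] (Λ Λ' : LD q n A) (κ : A), q0 ≤ q → Big A c q n N → HD Λ c κ → Λ'.NH →
  ∏ ψ ∈ Fa A, Λ.L ψ = ∏ ψ ∈ Fa A, Λ'.L ψ → ∀ χ ∈ Fa A, ∀ α, (Λ.L χ).eval α = 0 →
  (Λ'.L χ).eval α = 0 → Λ.L χ = Λ'.L χ

/-! ### Matching of the points -/

-- deps: SML AV KER CV
def S_MAT : Prop := ∀ c n C0 : ℕ, ∃ q0 : ℕ, ∀ (q : ℕ) (A : Type) [AddCommGroup A] [Fintype A]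
  (S S' : Finset A), q0 ≤ q → Big A c q n 2 → Sid S → Sid S' → #S = #S' → #S ≤ 2 * q →
  ∀ χ ∈ Fa A, ev χ (ind S) = ev χ (ind S') → C0 * #(S \ S') ≤ q

-- deps: SML AV KER CV YY MAT
def S_END : Prop := ∀ c n C0 : ℕ, 0 < n → ∃ q0 : ℕ, ∀ (q : ℕ) (A : Type) [AddCommGroup A]
  [Fintype A] (Λ Λ' : LD q n A) (κ : A), q0 ≤ q → Big A c q n 2 → HD Λ c κ → #Λ.S = #Λ'.S →
  ∀ χ ∈ Fa A, Λ.L χ = Λ'.L χ →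
    ¬ Λ'.NH ∧ (∀ κ', HD Λ' c κ' → κ = κ') ∧ C0 * #(Λ.S \ Λ'.S) ≤ q

-- deps:
def S_SUB : Prop := ∀ c n : ℕ, ∃ N q0 : ℕ, ∀ (q : ℕ) (A : Type) [AddCommGroup A]
  [Fintype A] (Λ : LD q n A) (κ : A) (l : ℕ), q0 ≤ q → Big A c q n N → HD Λ c κ → l.Prime →
  l ∣ Nat.card A → 2 * #{s ∈ Λ.S | ∃ a : A, s = l • a} < q

-- deps:
def S_GAM : Prop := ∀ (A : Type) [AddCommGroup A] [Fintype A] (l : ℕ), IsAddCyclic A → l.Prime →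
  l ∣ Nat.card A → ∃ Γ : Finset (A ≃+ A), l ≤ #Γ + 1 ∧
    (∀ γ ∈ Γ, ∀ a, γ (l • a) = l • a) ∧ #{a : A | l • a = 0} = l ∧
      ∀ γ ∈ Γ, ∀ γ' ∈ Γ, ∀ s, (¬ ∃ a : A, s = l • a) → γ s = γ' s → γ = γ'

-- deps: AV KER TRN LB TP HH END SUB GAM
def S_RD : Prop := ∀ c n : ℕ, 2 ≤ n → ∃ N q0 : ℕ, ∀ (q : ℕ) (A A' : Type) [AddCommGroup A]
  [Fintype A] [AddCommGroup A'] [Fintype A'] (Λ : LD q n A) (κ : A) (G : (ZA A')[X]), q0 ≤ q →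
  Big A c q n N → HD Λ c κ → Nat.card A' = Nat.card A → G.coeff 0 = 1 → G.natDegree ≤ 2 * n →
  ∀ χ ∈ Fa A, ∀ (χ' : AddChar A' ℂ) (α : ℂ), (Λ.L χ).eval α = 0 → (G.map (ev χ')).eval α = 0 →
    Function.Injective χ'

-- deps: AV KER LB TP HH HN END RD
def S_ADD : Prop := ∀ c n C0 : ℕ, 2 ≤ n → ∃ N q0 : ℕ, ∀ (q : ℕ) (A A' : Type) [AddCommGroup A]
  [Fintype A] [AddCommGroup A'] [Fintype A'] (Λ : LD q n A) (Λ' : LD q n A') (κ : A), q0 ≤ q →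
  Big A c q n N → HD Λ c κ → (Λ'.NH ∨ ∃ κ', HD Λ' c κ') → #Λ.S = #Λ'.S →
  ∏ χ ∈ univ.erase 0, Λ.L χ = ∏ χ ∈ univ.erase 0, Λ'.L χ →
    ∃ θ : A ≃+ A', HD Λ' c (θ κ) ∧ C0 * #{s ∈ Λ.S | θ s ∉ Λ'.S} ≤ q

/-! ### Curves -/

-- deps:
def S_GB : Prop := ∀ (k E : Type) [Field k] [Field E] [Algebra k E] [IsAlgClosed k] [FF k E],
  (∀ (t : E) (g : ℕ), Transcendental k t → Genus k E g → ∃ K : Pic k E, RG K g) ∧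
    ∀ (K : Pic k E) (g : ℕ), RG K g → 0 < g → GB K g

-- deps:
def S_FB : Prop := ∀ (k E : Type) [Field k] [Field E] [Algebra k E] [IsAlgClosed k] [FF k E]
  (K : Pic k E) (g : ℕ) (σ : SA k E) (Q : ℕ), GB K g → 2 ≤ g → Fr σ Q → FB σ Q

-- deps:
def S_HY : Prop := ∀ (k E : Type) [Field k] [Field E] [Algebra k E] [IsAlgClosed k] [FF k E]
  (K H : Pic k E) (g : ℕ), GB K g → 2 ≤ g → dg H = 2 → ll H = 2 → ∃ ι, HY K H g ι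

-- deps: HY
def S_SID : Prop := ∀ (k E : Type) [Field k] [Field E] [Algebra k E] [IsAlgClosed k] [FF k E]
  (K e : Pic k E) (g : ℕ) (σ : SA k E) (Q : ℕ) (W : ℕ → ZA (J σ)), GB K g → 2 ≤ g → FB σ Q →
  ph σ e = e → dg e = 1 → IsW σ e W → W 0 = 1 ∧ W 1 = ind (SS σ e) ∧ #(SS σ e) = #(fx σ 1) ∧
    Sid (SS σ e) ∧ (∀ b, (W 1 ^ 2).coeff b ≤ 2 * (W 2).coeff b) ∧
    ((∀ b, (W 2).coeff b ≤ 1) ∨ ∃ H : Pic k E, ph σ H = H ∧ dg H = 2 ∧ ll H = 2)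

-- deps:
def S_FE : Prop := ∀ (k E : Type) [Field k] [Field E] [Algebra k E] [IsAlgClosed k] [FF k E]
  (K e : Pic k E) (n : ℕ) (σ : SA k E) (Q : ℕ) (W : ℕ → ZA (J σ)) (ω : J σ), GB K (n + 1) →
  FB σ Q → ph σ e = e → dg e = 1 → IsW σ e W → ω.1 = K - (2 * n) • e →
  ∀ χ : AddChar (J σ) ℂ, Newt (fun j => ev χ (W j)) (sm e χ) ∧ (χ ≠ 0 →
    (∀ j, 2 * n < j → ev χ (W j) = 0) ∧
      ∀ j ≤ n, ev χ (W (2 * n - j)) = Q ^ (n - j) * χ ω * conj (ev χ (W j)))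

-- deps: SID FE
def S_LD : Prop := ∀ (k E : Type) [Field k] [Field E] [Algebra k E] [IsAlgClosed k] [FF k E]
  (K e : Pic k E) (n : ℕ) (σ : SA k E) (Q : ℕ), GB K (n + 1) → 0 < n → FB σ Q → ph σ e = e →
  dg e = 1 → 3 * Q ≤ 4 * #(fx σ 1) → 2 * #(fx σ 1) ≤ 3 * Q + 4 →
    ∃ Λ : LD Q n (J σ), IsL σ K e Λ ∧
      (Λ.NH ∨ ∃ H : Pic k E, ph σ H = H ∧ dg H = 2 ∧ ll H = 2)

-- deps: FB NWR LB
def S_ONT : Prop := ∀ (k E : Type) [Field k] [Field E] [Algebra k E] [IsAlgClosed k] [FF k E]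
  (K e : Pic k E) (n : ℕ) (σ : SA k E) (Q : ℕ) (Λ : LD Q n (J σ)), GB K (n + 1) → 0 < n →
  FB σ Q → IsL σ K e Λ → ∀ (m : ℕ) (τ : SA k E), m ≠ 0 → Fr τ (Q ^ m) →
  (∀ P, τ.pl P = σ.pl^[m] P) → (∀ x, ph τ x = (ph σ)^[m] x) → (J τ).map (nm (ph σ) m) = J σ

-- deps: FB ONT
def S_PH : Prop := ∀ (k E : Type) [Field k] [Field E] [Algebra k E] [IsAlgClosed k] [FF k E]
  (K e : Pic k E) (n : ℕ) (σ : SA k E) (Q : ℕ) (Λ : LD Q n (J σ)) [Fintype (J σ)], GB K (n + 1) →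
  0 < n → FB σ Q → IsL σ K e Λ → Newt (∏ χ ∈ univ.erase 0, Λ.L χ).coeff fun m =>
    nH σ e m - #(fx σ m)

-- deps:
def S_HD1 : Prop := ∀ (k E : Type) [Field k] [Field E] [Algebra k E] [IsAlgClosed k] [FF k E]
  (K H e : Pic k E) (n : ℕ) (ι) (σ : SA k E) (Q : ℕ) (Λ : LD Q n (J σ)) (κ : J σ), GB K (n + 1) →
  0 < n → FB σ Q → IsL σ K e Λ → HY K H (n + 1) ι → κ.1 = H - 2 • e →
  (∀ P, σ.pl (ι P) = ι (σ.pl P)) ∧ Λ.ω = n • κ ∧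
    (∀ j b, (Λ.W j).coeff (j • κ - b) = (Λ.W j).coeff b) ∧ (Λ.W 2).coeff κ = Q + 1 ∧
    (∀ b, b ≠ κ → (Λ.W 2).coeff b ≤ 1) ∧
    ∀ U V : Finset (J σ), U ⊆ Λ.S → V ⊆ Λ.S → #U = n + 1 → #V = n + 1 →
      (∀ s ∈ U, ∀ t ∈ U, s + t ≠ κ) → ∑ s ∈ U, s = ∑ s ∈ V, s → U = V

-- deps:
def S_PAI : Prop := ∀ (k E : Type) [Field k] [Field E] [Algebra k E] [IsAlgClosed k] [FF k E]
  (K H : Pic k E) (g : ℕ) (ι) (σ : SA k E) (Q : ℕ), FB σ Q → HY K H g ι → ph σ H = H →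
  (∀ P, σ.pl (ι P) = ι (σ.pl P)) → ∀ (i j : ℕ) (x : Pic k E),
    Q * #{p ∈ ef σ i ×ˢ ef σ j | (p.1 : Pic k E) - p.2 = x} ≤
      2 ^ (i + j + 1) * Q ^ ll (x + j • H)

-- deps: HD1 PAI
def S_HD2 : Prop := ∀ n : ℕ, ∃ c : ℕ, ∀ (k E : Type) [Field k] [Field E] [Algebra k E]
  [IsAlgClosed k] [FF k E] (K H e : Pic k E) (ι) (σ : SA k E) (Q : ℕ) (Λ : LD Q n (J σ)) (κ : J σ)
  [Fintype (J σ)], GB K (n + 1) → 0 < n → FB σ Q → IsL σ K e Λ → HY K H (n + 1) ι →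
  κ.1 = H - 2 • e → Nat.card (J σ) ≤ c * Q ^ (n + 1) ∧
    (∀ j ≤ n, ∑ a, (Λ.W j).coeff a ^ 2 ≤ c * Q ^ j) ∧ ∀ j ≤ n, ∀ b, b ≠ 0 →
      Q * ∑ a, (Λ.W j).coeff a * (Λ.W j).coeff (a + b) ≤ c * Q ^ j

-- deps: HD1
def S_PRM : Prop := ∀ n : ℕ, 2 ≤ n → ∃ q0 : ℕ, ∀ (k E : Type) [Field k] [Field E] [Algebra k E]
  [IsAlgClosed k] [FF k E] (K H e : Pic k E) (ι) (σ : SA k E) (Q : ℕ) (Λ : LD Q n (J σ)) (κ : J σ),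
  q0 ≤ Q → GB K (n + 1) → FB σ Q → IsL σ K e Λ → HY K H (n + 1) ι → κ.1 = H - 2 • e →
  Q ^ n ≤ 2 * #{P ∈ fx σ n | ι P ≠ P} → Q ^ n ≤ 4 * #{P ∈ fx σ n |
    (∀ i < n, σ.pl^[i] P ≠ ι P) ∧ ∀ i < n, i ≠ 0 → σ.pl^[i] P ≠ P}

-- deps: HD1 PAI PRM
def S_HD3 : Prop := ∀ n : ℕ, 2 ≤ n → ∃ c q0 : ℕ, ∀ (k E : Type) [Field k] [Field E] [Algebra k E]
  [IsAlgClosed k] [FF k E] (K H e : Pic k E) (ι) (σ : SA k E) (Q : ℕ) (Λ : LD Q n (J σ)) (κ : J σ),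
  q0 ≤ Q → GB K (n + 1) → FB σ Q → IsL σ K e Λ → HY K H (n + 1) ι → κ.1 = H - 2 • e →
  Q ^ n ≤ 2 * #{P ∈ fx σ n | ι P ≠ P} → ∃ T : Finset (J σ), Q ^ n ≤ c * #T ∧
    (∀ x ∈ T, (Λ.W n).coeff x = 1) ∧ ∀ j, 0 < j → j ≤ n → ∀ a, (j = n → a ≠ 0) →
      Q * #{x ∈ T | (Λ.W j).coeff (x - a) ≠ 0} ≤ c * Q ^ j

/-! ### The equation of the curve and the number of points -/

-- deps:
def S_LG : Prop := ∀ (k E : Type) [Field k] [Field E] [Algebra k E] [IsAlgClosed k] [FF k E]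
  (K H : Pic k E) (g : ℕ) (ι) (D : Dv k E) (x : E), GB K g → 2 ≤ g → HY K H g ι → 0 ≤ D →
  (D : Pic k E) = H → x ∈ LS D → Transcendental k x →
  (∀ P, 0 < D P → P.v x = WithZero.exp (D P)) ∧
    (∀ m ≤ g, ∀ z ∈ LS (m • D), ∃ p : k[X], p.natDegree ≤ m ∧ z = aeval x p) ∧
    ∀ m, g ≤ m → Module.finrank k (LS (m • D)) + g = 2 * m + 1

-- imports: Pool.Agent.P.MP_9344a7_nt.Tor.Mod1A
-- deps: LG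
def S_MDL : Prop := ∀ (F E : Type) [Field F] [Fintype F] [Field E] [Algebra (AlgebraicClosure F) E]
  [FF (AlgebraicClosure F) E] (K H : Pic (AlgebraicClosure F) E) (g : ℕ) (ι)
  (σ : SA (AlgebraicClosure F) E), (2 : F) ≠ 0 → GB K g → 2 ≤ g → HY K H g ι →
  Fr σ (Fintype.card F) → ph σ H = H → ∃ (D : Dv (AlgebraicClosure F) E) (f : F[X]) (x y : E),
    Md H g D (f.map (algebraMap F _)) x y ∧ σ.s x = x ∧ σ.s y = y ∧ f.natDegree ≤ 2 * g + 2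

-- deps: LG
def S_SQF : Prop := ∀ (k E : Type) [Field k] [Field E] [Algebra k E] [IsAlgClosed k] [FF k E]
  (K H : Pic k E) (g : ℕ) (ι) (D : Dv k E) (f : k[X]) (x y : E), GB K g → 2 ≤ g → HY K H g ι →
  Md H g D f x y → Squarefree f ∧ f.natDegree ≠ 0

-- deps: LG
def S_FIB : Prop := ∀ (k E : Type) [Field k] [Field E] [Algebra k E] [IsAlgClosed k] [FF k E]
  (K H : Pic k E) (g : ℕ) (ι) (D : Dv k E) (f : k[X]) (x y : E), (2 : k) ≠ 0 → GB K g → 2 ≤ g →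
  HY K H g ι → Md H g D f x y → (∀ P, P ∉ D.support → ∃ a b : k, b ^ 2 = f.eval a ∧
    P.v (x - algebraMap k E a) < 1 ∧ P.v (y - algebraMap k E b) < 1) ∧
  (∀ a : k, ∃ P, ∀ P' : Place k E, P'.v (x - algebraMap k E a) < 1 → P' = P ∨ P' = ι P) ∧
  ∀ a b : k, b ^ 2 = f.eval a → b ≠ 0 → ∃ P, P.v (x - algebraMap k E a) < 1 ∧
    P.v (y - algebraMap k E b) < 1 ∧ (ι P).v (x - algebraMap k E a) < 1 ∧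
    (ι P).v (y + algebraMap k E b) < 1 ∧
      ∀ P' : Place k E, P'.v (x - algebraMap k E a) < 1 → P' = P ∨ P' = ι P

-- imports: Pool.Agent.P.MP_9344a7_nt.Lwm
-- deps: MDL SQF FIB
def S_NU1 : Prop := ∀ g : ℕ, 2 ≤ g → ∃ p0 : ℕ, ∀ (F E : Type) [Field F] [Fintype F] [Field E]
  [Algebra (AlgebraicClosure F) E] [FF (AlgebraicClosure F) E] (K H : Pic (AlgebraicClosure F) E)
  (ι) (σ : SA (AlgebraicClosure F) E), p0 < ringChar F → GB K g → HY K H g ι →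
  FB σ (Fintype.card F) → ph σ H = H → ∀ m, m ≠ 0 →
    3 * Fintype.card F ^ m ≤ 4 * #{P ∈ fx σ m | ι P ≠ P}

-- imports: Pool.Agent.P.MP_9344a7_nt.Lwm
-- deps: LG MDL SQF FIB
def S_NU2 : Prop := ∀ g : ℕ, 2 ≤ g → ∃ p0 : ℕ, ∀ (F E : Type) [Field F] [Fintype F] [Field E]
  [Algebra (AlgebraicClosure F) E] [FF (AlgebraicClosure F) E] (K H : Pic (AlgebraicClosure F) E)
  (ι) (σ : SA (AlgebraicClosure F) E), p0 < ringChar F → GB K g → HY K H g ι →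
  FB σ (Fintype.card F) → ph σ H = H → 2 * #(fx σ 1) ≤ 3 * Fintype.card F + 4

-- deps: HY HD1 HD2 HD3 NU1
def S_HD : Prop := ∀ n : ℕ, 2 ≤ n → ∃ c p0 : ℕ, ∀ (F E : Type) [Field F] [Fintype F] [Field E]
  [Algebra (AlgebraicClosure F) E] [FF (AlgebraicClosure F) E] (K H e : Pic (AlgebraicClosure F) E)
  (σ : SA (AlgebraicClosure F) E) (Λ : LD (Fintype.card F) n (J σ)) [Fintype (J σ)],
  p0 < ringChar F → GB K (n + 1) → FB σ (Fintype.card F) → IsL σ K e Λ → ph σ H = H → dg H = 2 →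
  ll H = 2 → Nat.card (J σ) ≤ c * Fintype.card F ^ (n + 1) ∧ ∃ κ, HD Λ c κ

-- deps: GB FB HY
def S_PCK : Prop := ∀ (F E : Type) [Field F] [Fintype F] [Field E]
  [Algebra (AlgebraicClosure F) E] (C : Curve F E) (g : ℕ), 2 ≤ g →
  Genus (AlgebraicClosure F) E g → ∃ (_ : FF (AlgebraicClosure F) E)
    (σ : SA (AlgebraicClosure F) E) (K : Pic (AlgebraicClosure F) E), FB σ (Fintype.card F) ∧
    GB K g ∧ C.fr = σ.pl ∧ C.φ = ph σ ∧ (∀ x, x ∈ C.PicF ↔ ph σ x = x) ∧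
    (∀ m, C.pts m = #(fx σ m)) ∧ (∀ e m, C.ptsH e m = nH σ e m) ∧ C.h = Nat.card (J σ) ∧
    (C.CyclicJ → IsAddCyclic (J σ)) ∧ (Hyperelliptic (AlgebraicClosure F) E →
      ∃ H : Pic (AlgebraicClosure F) E, ph σ H = H ∧ dg H = 2 ∧ ll H = 2)

-- deps: ADD HY LD PH NU1 NU2 HD PCK
def S_PA : Prop := ∀ g C0 : ℕ, 3 ≤ g → ∃ N p0 : ℕ, ∀ (F E E' : Type) [Field F] [Fintype F] [Field E]
  [Algebra (AlgebraicClosure F) E] [Field E'] [Algebra (AlgebraicClosure F) E'] (C : Curve F E)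
  (D : Curve F E'), p0 < ringChar F → Genus (AlgebraicClosure F) E g →
  Genus (AlgebraicClosure F) E' g → Hyperelliptic (AlgebraicClosure F) E → C.CyclicJ →
  (∀ l, l.Prime → l ∣ C.h → N < l) → (∀ m, 0 < m → C.pts m = D.pts m) → C.SameH D →
    ∃ (ψ : C.PicF ≃+ D.PicF) (B : Finset (Place (AlgebraicClosure F) E)),
      #B * C0 ≤ Fintype.card F ∧
        ∀ (x : C.PicF) (P), P ∉ B → x.1 = cls P → ∃ Q, (ψ x).1 = cls Q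

end Pool.Agent.P.MP_9344a7_nt.Hy
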