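import Pool.Agent.P.MP_9344a7_nt.Hy.Iface

/-! Steps SML, AV, KER, PK, CAS, ENE, CV. -/

set_option linter.unusedSectionVars false
set_option linter.unusedVariables false

namespace Pool.Agent.P.MP_9344a7_nt.Hy

open Polynomial Finset
open Pool.Agent.P.MP_6f117a_ag (Place FF)
open Pool.Agent.P.MP_ab3ecb_nt.Inv (Dv deg SA LS)
open Pool.Agent.P.MP_9344a7_nt.R
open Pool.Agent.P.MP_9344a7_nt.CoreC (cc)
open scoped Classical ComplexConjugate

section

theorem p_SML :
    S_SML := by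
  intro c g K e
  obtain ⟨C, hC⟩ : ∃ C, ∀ h : ℕ, h ≠ 0 → (2 ^ (e * (g + 1))) ^ h.primeFactors.card ≤ C * h :=
    ⟨_, fun h => CoreC.omega_pow _ (by positivity)⟩
  refine ⟨K ^ (g + 1) * (C * c), fun q h a1 a2 a3 => ?_⟩
  have a4 := hC h a2
  rw [← pow_mul, mul_comm (e * (g + 1)), pow_mul, pow_mul] at a4
  generalize (2 ^ h.primeFactors.card) ^ e = ρ at *
  refine le_of_pow_le_pow_left₀ (n := g + 1) (by omega) (Nat.zero_le _) ?_
  calc (K * ρ) ^ (g + 1) = K ^ (g + 1) * ρ ^ (g + 1) := mul_pow _ _ _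
    _ ≤ K ^ (g + 1) * (C * (c * q ^ g)) :=
        Nat.mul_le_mul_left _ (a4.trans (Nat.mul_le_mul_left _ a3))
    _ = K ^ (g + 1) * (C * c) * q ^ g := by ring
    _ ≤ q * q ^ g := Nat.mul_le_mul_right _ a1
    _ = q ^ (g + 1) := by ring

end

section

lemma av_rat {A : Type} [AddCommGroup A] [Fintype A] (x : AddMonoidAlgebra ℚ A) :
    ∃ r : ℚ, ∑ ψ : AddChar A ℂ, AddMonoidAlgebra.lift ℚ ℂ A ψ.toMonoidHom x = r := by
  induction x using AddMonoidAlgebra.induction_linear with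
  | zero => exact ⟨0, by simp⟩
  | add x y hx hy =>
    obtain ⟨r, hr⟩ := hx
    obtain ⟨s, hs⟩ := hy
    exact ⟨r + s, by simp only [map_add, sum_add_distrib, hr, hs, Rat.cast_add]⟩
  | single a c =>
    refine ⟨c * if a = 0 then Fintype.card A else 0, ?_⟩
    simp only [AddMonoidAlgebra.lift_single, ← smul_sum]
    have := AddChar.sum_apply_eq_ite (α := A) a
    simp only [AddChar.toMonoidHom_apply, toAdd_ofAdd, this, Rat.smul_def]
    split_ifs <;> simp

lemma av_geom {A : Type} [AddCommGroup A] [Fintype A] (ψ : AddChar A ℂ) (a : A) :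
    ∑ i ∈ range (Fintype.card A), ψ (i • a) = if ψ a = 1 then (Fintype.card A : ℂ) else 0 := by
  simp only [AddChar.map_nsmul_eq_pow]
  split_ifs with h
  · simp [h]
  · rw [geom_sum_eq h, ← AddChar.map_nsmul_eq_pow, card_nsmul_eq_zero, AddChar.map_zero_eq_one,
      sub_self, zero_div]

lemma av_sum {A : Type} [AddCommGroup A] [Fintype A] (b : A) :
    ∃ r : ℚ, ∑ ψ ∈ Fa A, ψ b = r := by
  obtain ⟨r, hr⟩ := av_rat (AddMonoidAlgebra.single b 1 * ∏ a ∈ univ.erase (0 : A),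
    (1 - (Fintype.card A : ℚ)⁻¹ • ∑ i ∈ range (Fintype.card A),
      AddMonoidAlgebra.single (i • a) 1))
  refine ⟨r, hr ▸ ?_⟩
  rw [Fa, sum_filter]
  refine sum_congr rfl fun ψ _ => ?_
  have h0 : (Fintype.card A : ℂ) ≠ 0 := by exact_mod_cast Fintype.card_ne_zero
  simp only [map_mul, map_prod, map_sub, map_one, map_smul, map_sum, AddMonoidAlgebra.lift_single,
    AddChar.toMonoidHom_apply, toAdd_ofAdd, one_smul, av_geom, Rat.smul_def, Rat.cast_inv,
    Rat.cast_natCast]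
  split_ifs with h
  · rw [prod_eq_one fun a ha => ?_, mul_one]
    rw [if_neg fun e => (mem_erase.1 ha).1 (h (e.trans ψ.map_zero_eq_one.symm))]
    simp
  · obtain ⟨a, a', e, hne⟩ := Function.not_injective_iff.1 h
    have h1 : ψ (a - a') = 1 := by
      rw [AddChar.map_sub_eq_div, e, div_self]
      exact fun e0 => by simpa [e0] using ψ.norm_apply a'
    rw [prod_eq_zero (mem_erase.2 ⟨sub_ne_zero.2 hne, mem_univ _⟩), mul_zero]
    rw [if_pos h1, inv_mul_cancel₀ h0, sub_self]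

theorem p_AV :
    S_AV := by
  intro A _ _ hA
  obtain ⟨χ, -, -, hχ, -⟩ := Red.faith hA
  refine ⟨⟨χ, mem_Fa.2 hχ⟩, fun b => ?_, by exact_mod_cast CoreC.sum_cc hχ, fun N hN b hb => ?_⟩
  · obtain ⟨Φ, hΦ⟩ := CoreC.exists_fun
    obtain ⟨r, hr⟩ := av_sum b
    have h1 : Φ 1 = 1 := by simpa using hΦ 1 one_pos 1 IsPrimitiveRoot.one
    have h2 := congrArg Φ hr
    rw [map_sum, sum_congr rfl fun ψ h => hΦ _ (addOrderOf_pos b) _ (CoreC.prim (mem_Fa.1 h) b),
      ← mul_one (r : ℂ), ← Rat.smul_def, map_smul, h1, sum_const, smul_eq_mul, mul_one] at h2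
    rw [hr, ← h2, cc]
    simp
  · have h1 : addOrderOf b ≠ 1 := by simpa using hb
    have hp := Nat.minFac_prime h1
    have h2 := Nat.le_of_dvd (Nat.totient_pos.2 (addOrderOf_pos b))
      (Nat.totient_dvd_of_dvd (addOrderOf b).minFac_dvd)
    have h3 := hN _ hp ((Nat.minFac_dvd _).trans (addOrderOf_dvd_natCard b))
    rw [Nat.totient_prime hp] at h2
    have h4 : (N : ℝ) ≤ (addOrderOf b).totient := by exact_mod_cast (by omega)
    have h5 : (0 : ℝ) < (addOrderOf b).totient := by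
      exact_mod_cast Nat.totient_pos.2 (addOrderOf_pos b)
    have h6 : |(ArithmeticFunction.moebius (addOrderOf b) : ℝ)| ≤ 1 := by
      exact_mod_cast ArithmeticFunction.abs_moebius_le_one
    rw [cc, abs_div, abs_of_pos h5, ← mul_div_assoc, div_le_one h5]
    exact (mul_le_of_le_one_right N.cast_nonneg h6).trans h4

end

section

lemma ker_cyc {A : Type} [AddCommGroup A] [Fintype A] {χ : AddChar A ℂ}
    (h : Function.Injective χ) : IsAddCyclic A :=
  isCyclic_multiplicative_iff.1 (isCyclic_of_injective_ringHom χ.toMonoidHom h)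

lemma ker_pow {A : Type} [AddCommGroup A] [Fintype A] (χ : AddChar A ℂ) (a : A) :
    χ a ^ Nat.card A = 1 := by
  rw [← AddChar.map_nsmul_eq_pow, card_nsmul_eq_zero', AddChar.map_zero_eq_one]

lemma ker_fac {A A' : Type} [AddCommGroup A] [Fintype A] [AddCommGroup A'] {χ : AddChar A ℂ}
    (h : Function.Injective χ) (hw : ∀ w : ℂ, w ^ Nat.card A = 1 → ∃ x, χ x = w)
    (χ' : AddChar A' ℂ) (h' : ∀ a, χ' a ^ Nat.card A = 1) :
    ∃ j : A' →+ A, χ' = χ.compAddMonoidHom j := by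
  choose r hr using fun x : A' => hw (χ' x) (h' x)
  exact ⟨AddMonoidHom.mk' r fun x y => h (by
    rw [AddChar.map_add_eq_mul, hr, hr, hr, AddChar.map_add_eq_mul]), by
      ext x; exact (hr x).symm⟩

lemma ker_aut {A : Type} [AddCommGroup A] [Fintype A] {χ ψ : AddChar A ℂ}
    (h : Function.Injective χ) (hw : ∀ w : ℂ, w ^ Nat.card A = 1 → ∃ x, χ x = w)
    (h' : Function.Injective ψ) : ∃ γ : A ≃+ A, ψ = χ.compAddMonoidHom (γ : A →+ A) := by
  obtain ⟨j, rfl⟩ := ker_fac h hw ψ (ker_pow ψ)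
  have hj : Function.Injective j := fun a b e => h' (by simp [e])
  exact ⟨AddEquiv.ofBijective j hj.bijective_of_finite, rfl⟩

theorem p_KER :
    S_KER := by
  intro A _ _ χ hχ
  rw [mem_Fa] at hχ
  have hA := ker_cyc hχ
  have hw : ∀ w : ℂ, w ^ Nat.card A = 1 → ∃ x, χ x = w := by
    obtain ⟨χ0, -, -, h1, -, h2, -⟩ := Red.faith hA
    obtain ⟨γ, rfl⟩ := ker_aut h1 h2 hχ
    intro w e
    obtain ⟨x, rfl⟩ := h2 w e
    exact ⟨γ.symm x, by simp⟩
  refine ⟨fun ψ hψ => ⟨fun x hx => ?_, ker_aut hχ hw (mem_Fa.1 hψ)⟩,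
    fun A' _ χ' h' => ker_fac hχ hw χ' h'⟩
  rw [mem_Fa] at hψ
  obtain ⟨g, hg⟩ := IsAddCyclic.exists_generator (α := A)
  choose i hi using fun a : A => (mem_multiples_iff_mem_zmultiples.2 (hg a) :)
  have hP : ∀ φ : AddChar A ℂ, ev φ x = aeval (φ g) (∑ a, C (x.coeff a) * X ^ i a : ℤ[X]) := by
    intro φ
    rw [ev_eq, map_sum]
    refine sum_congr rfl fun a _ => ?_
    have : i a • g = a := hi a
    rw [map_mul, map_pow, aeval_X, ← AddChar.map_nsmul_eq_pow, this]
    simp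
  have hp : ∀ φ : AddChar A ℂ, Function.Injective φ → IsPrimitiveRoot (φ g) (Nat.card A) :=
    fun φ hφ => ⟨ker_pow φ g, fun l hl => by
      rw [← AddChar.map_nsmul_eq_pow, ← φ.map_zero_eq_one] at hl
      rw [← addOrderOf_eq_card_of_forall_mem_zmultiples hg]
      exact addOrderOf_dvd_of_nsmul_eq_zero (hφ hl)⟩
  rw [hP] at hx ⊢
  have h1 := minpoly.isIntegrallyClosed_dvd ((hp χ hχ).isIntegral Nat.card_pos) hx
  rw [← cyclotomic_eq_minpoly (hp χ hχ) Nat.card_pos,
    cyclotomic_eq_minpoly (hp ψ hψ) Nat.card_pos] at h1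
  exact aeval_eq_zero_of_dvd_aeval_eq_zero h1 (minpoly.aeval _ _)

end

section

lemma pk_zero {A : Type} [AddCommGroup A] [Fintype A] {y : ZA A}
    (h : ∀ ψ : AddChar A ℂ, ev ψ y = 0) : y = 0 := by
  ext b
  have h1 : ∑ ψ : AddChar A ℂ, ψ (-b) * ev ψ y = ∑ a, y.coeff a * ∑ ψ : AddChar A ℂ, ψ (a - b) := by
    simp only [ev_eq, mul_sum]
    rw [sum_comm]
    refine sum_congr rfl fun a _ => sum_congr rfl fun ψ _ => ?_
    rw [sub_eq_add_neg, AddChar.map_add_eq_mul]; ring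
  simp only [h, mul_zero, sum_const_zero, AddChar.sum_apply_eq_ite, sub_eq_zero, mul_ite,
    sum_ite_eq', mem_univ, if_true] at h1
  have h2 : (Fintype.card A : ℂ) ≠ 0 := by exact_mod_cast Fintype.card_ne_zero
  simpa [h2] using h1.symm

lemma pk_prod {A : Type} [AddCommGroup A] (g : ℕ → A) (s : Finset ℕ)
    (h : ∀ l ∈ s, l.Prime ∧ addOrderOf (g l) = l) :
    (∏ l ∈ s, (1 - .single (g l) 1) : ZA A).coeff 0 = 1 ∧
    sz (∏ l ∈ s, (1 - .single (g l) 1) : ZA A) ≤ 2 ^ #s ∧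
    ∀ b, (∏ l ∈ s, (1 - .single (g l) 1) : ZA A).coeff b ≠ 0 → (∏ l ∈ s, l) • b = 0 := by
  induction s using Finset.induction_on with
  | empty =>
    refine ⟨by simp [AddMonoidAlgebra.one_def], sz_single 0 1, fun b hb => ?_⟩
    by_contra e
    exact hb (by simp_all [AddMonoidAlgebra.one_def, Finsupp.single_apply, eq_comm])
  | insert l s hl ih =>
    obtain ⟨h1, h2, h3⟩ := ih fun x hx => h x (mem_insert_of_mem hx)
    obtain ⟨hp, ho⟩ := h l (mem_insert_self l s)
    rw [prod_insert hl, prod_insert hl, card_insert_of_notMem hl]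
    set P : ZA A := ∏ l ∈ s, (1 - .single (g l) 1)
    have hc : ∀ b, ((1 - .single (g l) 1) * P).coeff b = P.coeff b - P.coeff (b - g l) := fun b => by
      rw [sub_mul, one_mul, AddMonoidAlgebra.coeff_sub, Finsupp.sub_apply, coeff_single_mul, one_mul]
    refine ⟨?_, (sz_mul _ _).trans ?_, fun b hb => ?_⟩
    · have : P.coeff (0 - g l) = 0 := by
        by_contra e
        have h4 := h3 _ e
        rw [zero_sub, smul_neg, neg_eq_zero, ← addOrderOf_dvd_iff_nsmul_eq_zero, ho,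
          hp.prime.dvd_finsetProd_iff] at h4
        obtain ⟨x, hx, h5⟩ := h4
        exact hl ((Nat.prime_dvd_prime_iff_eq hp (h x (mem_insert_of_mem hx)).1).1 h5 ▸ hx)
      rw [hc, h1, this, sub_zero]
    · rw [pow_succ']
      exact Nat.mul_le_mul ((sz_sub _ _).trans (add_le_add (sz_single 0 1) (sz_single _ 1))) h2
    · rw [hc] at hb
      by_cases e : P.coeff b = 0
      · have h4 := h3 (b - g l) (fun e' => hb (by rw [e, e', sub_zero]))
        have h5 : l • g l = 0 := by rw [← addOrderOf_dvd_iff_nsmul_eq_zero, ho]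
        rw [smul_sub, sub_eq_zero] at h4
        rw [mul_nsmul', h4, smul_comm, h5, smul_zero]
      · rw [mul_nsmul', h3 b e, smul_zero]

theorem p_PK :
    S_PK := by
  intro A _ _ hA
  obtain ⟨g, hg⟩ := IsAddCyclic.exists_generator (α := A)
  have ho := addOrderOf_eq_card_of_forall_mem_zmultiples hg
  have h0 : 0 < Nat.card A := Nat.card_pos
  obtain ⟨h1, h2, -⟩ := pk_prod (fun l => (Nat.card A / l) • g) (Nat.card A).primeFactors
    fun l hl => ⟨Nat.prime_of_mem_primeFactors hl, by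
      have hd := Nat.dvd_of_mem_primeFactors hl
      rw [← ho] at hd ⊢
      exact addOrderOf_nsmul_addOrderOf_sub (by omega) hd⟩
  refine ⟨_, h1, h2, fun x hx => pk_zero fun ψ => ?_⟩
  rw [map_mul]
  by_cases hψ : ψ ∈ Fa A
  · rw [hx ψ hψ, mul_zero]
  have hd : orderOf (ψ g) ∣ Nat.card A := orderOf_dvd_of_pow_eq_one (by
    rw [← AddChar.map_nsmul_eq_pow, card_nsmul_eq_zero', AddChar.map_zero_eq_one])
  obtain ⟨m, hm⟩ := hd
  have hm1 : m ≠ 1 := by
    rintro rfl
    refine hψ (mem_Fa.2 (AddChar.injective_iff.2 fun a ha => ?_))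
    obtain ⟨i, rfl⟩ := mem_multiples_iff_mem_zmultiples.2 (hg a)
    simp only at ha ⊢
    rw [AddChar.map_nsmul_eq_pow, ← orderOf_dvd_iff_pow_eq_one, ← mul_one (orderOf _), ← hm] at ha
    rwa [← addOrderOf_dvd_iff_nsmul_eq_zero, ho]
  obtain ⟨l, hl, r, rfl⟩ := Nat.exists_prime_and_dvd hm1
  rw [map_prod, prod_eq_zero (i := l) (Nat.mem_primeFactors.2
    ⟨hl, ⟨orderOf (ψ g) * r, by rw [hm]; ring⟩, h0.ne'⟩), zero_mul]
  rw [map_sub, map_one, ev_single, AddChar.map_nsmul_eq_pow, hm, mul_left_comm,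
    Nat.mul_div_cancel_left _ hl.pos, pow_mul, pow_orderOf_eq_one]
  simp

end

section

section
variable {A : Type} [AddCommGroup A] [Fintype A]

/-- The energy on a set of characters. -/
noncomputable def cas_Q (F : Finset (AddChar A ℂ)) (z : ZA A) : ℝ := ∑ ψ ∈ F, ‖ev ψ z‖ ^ 2

/-- The characters that are nontrivial on the torsion of every order in `I`. -/
noncomputable def cas_F (A : Type) [AddCommGroup A] [Fintype A] (I : Finset ℕ) :
    Finset (AddChar A ℂ) := {ψ | ∀ l ∈ I, ∃ a, l • a = 0 ∧ ψ a ≠ 1}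

lemma cas_Q_eq (F : Finset (AddChar A ℂ)) (z : ZA A) :
    (cas_Q F z : ℂ) = ∑ a, ∑ b, z.coeff a * z.coeff b * ∑ ψ ∈ F, ψ (a - b) := by
  simp only [cas_Q, Complex.ofReal_sum, Complex.ofReal_pow, ← Complex.mul_conj', ev_eq, map_sum,
    sum_mul_sum]
  simp only [mul_sum]
  rw [sum_comm]
  refine sum_congr rfl fun a _ => ?_
  rw [sum_comm]
  refine sum_congr rfl fun b _ => sum_congr rfl fun ψ _ => ?_
  rw [sub_eq_add_neg, ψ.map_add_eq_mul, AddChar.map_neg_eq_conj, map_mul, map_intCast]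
  ring

lemma cas_pi {m l : ℕ} (h : m.Coprime l) (h1 : 1 < l) : ∃ π : A → A, (∀ a, l • π a = 0) ∧
    (∀ a b, m • (a - b) = 0 → π a = π b) ∧ ∀ a u, l • u = 0 → π (a + u) = π a + u := by
  obtain ⟨k, -, hk⟩ := Nat.exists_mul_mod_eq_one_of_coprime h h1
  let G := (nsmulAddMonoidHom (m * l) : A →+ A).ker
  have e : ∀ a t, (m * l) • t = 0 → (m * k) • (a + t - ((a + t : A) : A ⧸ G).out) =
      (m * k) • (a - (a : A ⧸ G).out) + (m * k) • t := fun a t ht => by
    rw [QuotientAddGroup.mk_add_of_mem a (show t ∈ G from ht), ← nsmul_add]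
    congr 1
    abel
  refine ⟨fun a => (m * k) • (a - (a : A ⧸ G).out), fun a => ?_, fun a b hb => ?_,
    fun a u hu => ?_⟩
  · have : (m * l) • (a - (a : A ⧸ G).out) = 0 :=
      QuotientAddGroup.eq_iff_sub_mem.1 (QuotientAddGroup.out_eq' (a : A ⧸ G)).symm
    rw [← mul_nsmul, mul_right_comm, mul_nsmul, this, nsmul_zero]
  · have := e b (a - b) (by rw [mul_nsmul, hb, nsmul_zero])
    rwa [add_sub_cancel, mul_nsmul (a - b), hb, nsmul_zero, add_zero] at this
  · refine (e a u (by rw [mul_comm, mul_nsmul, hu, nsmul_zero])).trans ?_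
    congr 1
    rw [← Nat.div_add_mod (m * k) l, hk, add_nsmul, mul_nsmul, hu, nsmul_zero, zero_add, one_nsmul]

lemma cas_ker (I : Finset ℕ) {a : A} (h : (∏ l ∈ I, l) • a ≠ 0) : ∑ ψ ∈ cas_F A I, ψ a = 0 := by
  obtain ⟨φ, hφ⟩ := AddChar.exists_apply_ne_zero.2 h
  refine eq_zero_of_mul_eq_self_left hφ ?_
  rw [mul_sum]
  refine sum_equiv (Equiv.addLeft ((∏ l ∈ I, l) • φ)) (fun ψ => ?_) fun ψ _ => by
    simp [AddChar.map_nsmul_eq_pow]
  simp only [cas_F, mem_filter, mem_univ, true_and]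
  refine forall₂_congr fun l hl => exists_congr fun b => and_congr_right fun hb => ?_
  obtain ⟨r, hr⟩ := dvd_prod_of_mem (fun l => l) hl
  rw [Equiv.coe_addLeft, AddChar.add_apply, AddChar.nsmul_apply, ← AddChar.map_nsmul_eq_pow, hr,
    mul_nsmul, hb, nsmul_zero, AddChar.map_zero_eq_one, one_mul]

lemma cas_step (I : Finset ℕ) {l : ℕ} (h : (∏ l ∈ I, l).Coprime l) (h1 : 1 < l) (x : ZA A) :
    ∃ y, (∀ ψ ∈ cas_F A (insert l I), ev ψ y = ev ψ x) ∧
      cas_Q (cas_F A I) y ≤ 2 * cas_Q (cas_F A (insert l I)) x := by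
  obtain ⟨π, p1, p2, p3⟩ := cas_pi (A := A) h h1
  let B : Finset A := {u | l • u = 0}
  have mB : ∀ u, u ∈ B ↔ l • u = 0 := fun u => by simp [B]
  let w : A → ZA A := fun j =>
    .ofCoeff (Finsupp.equivFunOnFinite.symm fun a => x.coeff (a - (π a - j)))
  have hw : ∀ j a, (w j).coeff a = x.coeff (a - (π a - j)) := fun _ _ => rfl
  have mF : ∀ ψ, ψ ∈ cas_F A (insert l I) ↔ ψ ∈ cas_F A I ∧ ∃ a, l • a = 0 ∧ ψ a ≠ 1 :=
    fun ψ => by simp [cas_F, and_comm]
  have e1 : ∑ j ∈ B, cas_Q (cas_F A I) (x - w j) =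
      ∑ v ∈ B, cas_Q (cas_F A I) (x - .single v 1 * x) := by
    refine Complex.ofReal_injective ?_
    simp only [Complex.ofReal_sum, cas_Q_eq]
    rw [sum_comm, sum_comm (s := B)]
    refine sum_congr rfl fun a _ => ?_
    rw [sum_comm, sum_comm (s := B)]
    refine sum_congr rfl fun b _ => ?_
    by_cases hab : (∏ l ∈ I, l) • (a - b) = 0
    · refine sum_equiv (Equiv.subLeft (π a)) (fun j => ?_) fun j _ => ?_
      · rw [mB, mB, Equiv.subLeft_apply, nsmul_sub, p1, zero_sub, neg_eq_zero]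
      · simp only [AddMonoidAlgebra.coeff_sub, Finsupp.sub_apply, hw, coeff_single_mul, one_mul,
          Equiv.subLeft_apply, ← p2 a b hab]
    · simp only [cas_ker I hab, mul_zero]
  have e2 : ∑ v ∈ B, cas_Q (cas_F A I) (x - .single v 1 * x) =
      ∑ _v ∈ B, 2 * cas_Q (cas_F A (insert l I)) x := by
    rw [show cas_F A (insert l I) = {ψ ∈ cas_F A I | ∃ a, l • a = 0 ∧ ψ a ≠ 1} from
      Finset.ext fun ψ => by rw [mF, mem_filter]]
    refine Complex.ofReal_injective ?_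
    simp only [cas_Q, sum_filter, mul_sum, Complex.ofReal_sum]
    rw [sum_comm, sum_comm (s := B)]
    refine sum_congr rfl fun ψ _ => ?_
    split_ifs with hψ
    · obtain ⟨a, ha, a1⟩ := hψ
      have z : ∑ v ∈ B, ψ v = 0 := eq_zero_of_mul_eq_self_left a1 (by
        rw [mul_sum]
        refine sum_equiv (Equiv.addLeft a) (fun v => ?_) fun v _ => (ψ.map_add_eq_mul a v).symm
        rw [mB, mB, Equiv.coe_addLeft, nsmul_add, ha, zero_add])
      have z' : ∑ v ∈ B, conj (ψ v) = 0 := by rw [← map_sum, z, map_zero]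
      have k : ∀ v ∈ B, ((‖ev ψ (x - .single v 1 * x)‖ ^ 2 : ℝ) : ℂ) = (2 * ‖ev ψ x‖ ^ 2 : ℝ) -
          (ψ v + conj (ψ v)) * (‖ev ψ x‖ ^ 2 : ℝ) := fun v _ => by
        have n : ψ v * conj (ψ v) = 1 := by
          rw [← AddChar.map_neg_eq_conj, ← ψ.map_add_eq_mul, add_neg_cancel, ψ.map_zero_eq_one]
        simp only [Complex.ofReal_mul, Complex.ofReal_pow, ← Complex.mul_conj', map_sub, map_mul,
          ev_single, Int.cast_one, one_mul, Complex.ofReal_ofNat]
        linear_combination (ev ψ x * conj (ev ψ x)) * n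
      rw [sum_congr rfl k, sum_sub_distrib, ← sum_mul, sum_add_distrib, z, z', add_zero, zero_mul,
        sub_zero]
    · push Not at hψ
      refine sum_congr rfl fun v hv => ?_
      simp [hψ v ((mB v).1 hv)]
  obtain ⟨j, -, hj⟩ := exists_le_of_sum_le ⟨0, (mB 0).2 (nsmul_zero l)⟩ (e1.trans e2).le
  refine ⟨_, fun ψ hψ => ?_, hj⟩
  obtain ⟨u, hu, u1⟩ := ((mF ψ).1 hψ).2
  rw [map_sub, sub_eq_self]
  refine eq_zero_of_mul_eq_self_left u1 ?_
  rw [ev_eq, mul_sum]
  refine sum_equiv (Equiv.addRight u) (by simp) fun a _ => ?_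
  rw [Equiv.coe_addRight, hw, hw, p3 a u hu, ψ.map_add_eq_mul,
    show a + u - (π a + u - j) = a - (π a - j) by abel]
  ring

lemma cas_ind (I : Finset ℕ) (h : ∀ l ∈ I, l.Prime) (x : ZA A) :
    ∃ y, (∀ ψ ∈ cas_F A I, ev ψ y = ev ψ x) ∧ cas_Q univ y ≤ 2 ^ #I * cas_Q (cas_F A I) x := by
  induction I using Finset.induction_on generalizing x with
  | empty => exact ⟨x, fun _ _ => rfl, by simp [cas_F]⟩
  | insert l I hl ih =>
    have p := h l (mem_insert_self _ _)
    have h' := fun r hr => h r (mem_insert_of_mem hr)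
    obtain ⟨y, y1, y2⟩ := cas_step I (Nat.Coprime.prod_left fun r hr =>
      (Nat.coprime_primes (h' r hr) p).2 fun e => hl (e ▸ hr)) p.one_lt x
    obtain ⟨z, z1, z2⟩ := ih h' y
    refine ⟨z, fun ψ hψ => (z1 ψ ?_).trans (y1 ψ hψ), z2.trans ?_⟩
    · simp only [cas_F, mem_filter, mem_univ, true_and] at hψ ⊢
      exact fun r hr => hψ r (mem_insert_of_mem hr)
    · rw [card_insert_of_notMem hl, pow_succ, mul_assoc]
      exact mul_le_mul_of_nonneg_left y2 (by positivity)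

lemma cas_Fa (hA : IsAddCyclic A) : cas_F A (Nat.card A).primeFactors = Fa A := by
  ext ψ
  simp only [cas_F, mem_filter, mem_univ, true_and, mem_Fa, AddChar.injective_iff]
  refine ⟨fun h a ha => by_contra fun a0 => ?_, fun h l hl => ?_⟩
  · obtain ⟨l, p, r, hr⟩ := Nat.exists_prime_and_dvd (mt AddMonoid.addOrderOf_eq_one_iff.1 a0)
    have o : addOrderOf (r • a) = l := by
      rw [addOrderOf_nsmul_of_dvd (fun e => (addOrderOf_pos a).ne' (by rw [hr, e, mul_zero]))
        ⟨l, by rw [hr, mul_comm]⟩, hr, Nat.mul_div_cancel _ (Nat.pos_of_ne_zero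
          fun e => (addOrderOf_pos a).ne' (by rw [hr, e, mul_zero]))]
    obtain ⟨b, b1, b2⟩ := h l (Nat.mem_primeFactors.2
      ⟨p, o ▸ addOrderOf_dvd_natCard _, Nat.card_pos.ne'⟩)
    have e : (range l).image (fun i : ℕ => i • r • a) = univ.filter fun u : A => l • u = 0 :=
      eq_of_subset_of_card_le (fun u hu => by
        obtain ⟨i, -, rfl⟩ := mem_image.1 hu
        refine mem_filter.2 ⟨mem_univ _, ?_⟩
        rw [smul_comm l, ← o, addOrderOf_nsmul_eq_zero, nsmul_zero]) (by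
        rw [card_image_of_injOn (by rw [coe_range, ← o]; exact nsmul_injOn_Iio_addOrderOf),
          card_range]
        exact IsAddCyclic.card_nsmul_eq_zero_le p.pos)
    obtain ⟨i, -, rfl⟩ := mem_image.1 (e.ge (mem_filter.2 ⟨mem_univ b, b1⟩))
    exact b2 (by simp [AddChar.map_nsmul_eq_pow, ha])
  · have p := Nat.prime_of_mem_primeFactors hl
    have := Fact.mk p
    obtain ⟨a, ha⟩ := exists_prime_addOrderOf_dvd_card' l (Nat.dvd_of_mem_primeFactors hl)
    refine ⟨a, ha ▸ addOrderOf_nsmul_eq_zero a, fun e => p.one_lt.ne' ?_⟩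
    rw [← ha, h e, addOrderOf_zero]

end

theorem p_CAS :
    S_CAS := by
  intro A _ _ hA x
  obtain ⟨y, y1, y2⟩ := cas_ind (Nat.card A).primeFactors
    (fun _ => Nat.prime_of_mem_primeFactors) x
  rw [cas_Fa hA] at y1 y2
  refine ⟨y, y1, le_of_mul_le_mul_left ?_ (Nat.cast_pos.2 (Fintype.card_pos (α := A)))⟩
  have e : cas_Q univ y = Fintype.card A * ∑ a, (y.coeff a : ℝ) ^ 2 := by
    refine Complex.ofReal_injective ?_
    simp only [cas_Q_eq, AddChar.sum_apply_eq_ite, sub_eq_zero]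
    simp [mul_sum, sq, mul_comm]
  have h1 : (sz y : ℝ) ≤ ∑ a, (y.coeff a : ℝ) ^ 2 := by
    rw [sz, card_eq_sum_ones, Nat.cast_sum]
    refine (sum_le_sum fun a ha => ?_).trans
      (sum_le_sum_of_subset_of_nonneg (subset_univ _) fun _ _ _ => sq_nonneg _)
    exact_mod_cast (one_le_sq_iff_one_le_abs _).2 (Int.one_le_abs (Finsupp.mem_support_iff.1 ha))
  have h2 : cas_Q (Fa A) x ≤ Fintype.card A * en x := by
    rcases (Fa A).eq_empty_or_nonempty with h | h
    · simp [cas_Q, en, av, h]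
    · have : (#(Fa A) : ℝ) ≤ Fintype.card A :=
        Nat.cast_le.2 ((card_le_univ _).trans_eq AddChar.card_eq)
      rw [en, av, mul_div_assoc', le_div_iff₀ (Nat.cast_pos.2 h.card_pos), mul_comm]
      exact mul_le_mul_of_nonneg_right this (sum_nonneg fun _ _ => sq_nonneg _)
  calc _ ≤ cas_Q univ y := e ▸ mul_le_mul_of_nonneg_left h1 (Nat.cast_nonneg _)
    _ ≤ 2 ^ _ * (Fintype.card A * en x) := y2.trans (mul_le_mul_of_nonneg_left h2 (by positivity))
    _ = _ := by rw [om]; push_cast; ring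

end

section

theorem p_ENE (hAV : S_AV) :
    S_ENE := by
  intro A _ _ hA x U V hU hV V0
  obtain ⟨h0, h1, h2, -⟩ := hAV A hA
  have e : en x = ∑ b, cc b * ∑ a, (x.coeff a : ℝ) * x.coeff (a + b) := by
    rw [en, av, div_eq_iff (Nat.cast_ne_zero.2 h0.card_pos.ne')]
    refine Complex.ofReal_injective ?_
    have k : ∀ ψ : AddChar A ℂ, (‖ev ψ x‖ ^ 2 : ℂ) =
        ∑ b, ψ b * ∑ a, (x.coeff a : ℂ) * x.coeff (a + b) := fun ψ => by
      simp only [← Complex.conj_mul', ev_eq, map_sum, sum_mul_sum]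
      simp only [mul_sum]
      conv_rhs => rw [sum_comm]
      refine sum_congr rfl fun a _ => (Fintype.sum_equiv (Equiv.addLeft a) _ _ fun b => ?_).symm
      rw [Equiv.coe_addLeft, ψ.map_add_eq_mul, map_mul, map_intCast, ← AddChar.map_neg_eq_conj]
      have n : ψ (-a) * ψ a = 1 := by
        rw [← ψ.map_add_eq_mul, neg_add_cancel, ψ.map_zero_eq_one]
      linear_combination -(ψ b * x.coeff a * x.coeff (a + b)) * n
    push_cast
    simp only [k]
    rw [sum_comm, sum_mul]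
    exact sum_congr rfl fun b _ => by rw [← sum_mul, h1]; ring
  rw [e, ← add_sum_erase _ _ (mem_univ 0), CoreC.cc_zero, one_mul]
  simp only [add_zero, ← sq]
  refine add_le_add hU (le_trans ?_ (mul_le_mul_of_nonneg_right h2 V0))
  rw [sum_mul]
  refine (sum_le_sum fun b hb => (le_abs_self _).trans ?_).trans
    (sum_le_sum_of_subset_of_nonneg (erase_subset _ _) fun _ _ _ => by positivity)
  rw [abs_mul]
  exact mul_le_mul_of_nonneg_left (hV b (ne_of_mem_erase hb)) (abs_nonneg _)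

end

section

theorem p_CV (hAV : S_AV) :
    S_CV := by
  intro A _ _ hA
  obtain ⟨a1, a2, a3, -⟩ := hAV A hA
  have key : ∀ (x : ZA A) (b : A), (#(Fa A) : ℂ) * cv x b = ∑ ψ ∈ Fa A, ev ψ x * ψ (-b) := by
    intro x b
    simp only [ev_eq, sum_mul, cv, Complex.ofReal_sum, mul_sum]
    rw [sum_comm]
    refine sum_congr rfl fun a _ => ?_
    simp only [mul_assoc, ← AddChar.map_add_eq_mul, ← mul_sum, a2, ← sub_eq_add_neg]
    push_cast
    ring
  refine ⟨fun x y h b => ?_, fun x κ b h => ?_⟩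
  · have h0 : (#(Fa A) : ℂ) ≠ 0 := Nat.cast_ne_zero.2 a1.card_pos.ne'
    refine Complex.ofReal_injective (mul_left_cancel₀ h0 ?_)
    rw [key, key]
    exact sum_congr rfl fun ψ hψ => by rw [h ψ hψ]
  · rw [cv, ← add_sum_erase _ _ (mem_univ κ), add_sub_cancel_left]
    refine (abs_sum_le_sum_abs _ _).trans ?_
    calc ∑ a ∈ univ.erase κ, |(x.coeff a : ℝ) * cc (a - b)|
        ≤ ∑ a ∈ univ.erase κ, 2 * |cc (a - b)| := sum_le_sum fun a ha => by
          rw [abs_mul]
          refine mul_le_mul_of_nonneg_right ?_ (abs_nonneg _)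
          exact_mod_cast h a (ne_of_mem_erase ha)
      _ ≤ ∑ a, 2 * |cc (a - b)| :=
          sum_le_sum_of_subset_of_nonneg (erase_subset _ _) fun _ _ _ => by positivity
      _ = 2 * ∑ a : A, |cc a| := by
          rw [← mul_sum, ← Equiv.sum_comp (Equiv.subRight b) fun a : A => |cc a|]
          rfl
      _ ≤ 2 * om A := by linarith

end

end Pool.Agent.P.MP_9344a7_nt.Hy
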